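import Pool.Agent.Lib.MP_bc704c_co.Q.Base

/-! # MP_bc704c_co, row Al1: the standard isometries -/

namespace ChiralQ

open Quaternion ChiralNF

private theorem Al1_mk (f g : ℍ[ℝ] → ℍ[ℝ]) (hadd : ∀ v w, f (v + w) = f v + f w)
    (hsmul : ∀ (r : ℝ) v, f (r • v) = r • f v) (hgf : ∀ v, g (f v) = v) (hfg : ∀ v, f (g v) = v)
    (hn : ∀ v, Quaternion.normSq (f v) = Quaternion.normSq v) :
    ∃ s : ℍ[ℝ] ≃ₗᵢ[ℝ] ℍ[ℝ], ∀ v, s v = f v := by
  let e : ℍ[ℝ] ≃ₗ[ℝ] ℍ[ℝ] :=
    { toFun := f
      invFun := g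
      map_add' := hadd
      map_smul' := hsmul
      left_inv := hgf
      right_inv := hfg }
  refine ⟨⟨e, fun v => ?_⟩, fun v => rfl⟩
  have h1 := hn v
  rw [Quaternion.normSq_eq_norm_mul_self, Quaternion.normSq_eq_norm_mul_self] at h1
  exact (mul_self_inj (norm_nonneg _) (norm_nonneg _)).1 h1

private theorem Al1_sF_inv {ε c d : ℝ} (hε : ε = 1 ∨ ε = -1) (hcd : c ^ 2 + d ^ 2 = 1) (v : ℍ[ℝ]) :
    sF ε c (-d) (sF ε c d v) = v := by
  have h1 : ε * ε = 1 := by rcases hε with h | h <;> rw [h] <;> norm_num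
  ext
  · simp [sF]
  · simp only [sF]
    linear_combination v.imI * h1
  · simp only [sF]
    linear_combination v.imJ * hcd
  · simp only [sF]
    linear_combination v.imK * hcd

/-- Row Al1. `sF` is linear and preserves `normSq`; use `LinearIsometry.toLinearIsometryEquiv` and
`Quaternion.finrank_eq_four` (or give the inverse `sF ε c (-d)` explicitly). -/
theorem exists_sIso {ε c d : ℝ} (hε : ε = 1 ∨ ε = -1) (hcd : c ^ 2 + d ^ 2 = 1) :
    ∃ s : ℍ[ℝ] ≃ₗᵢ[ℝ] ℍ[ℝ], ∀ v, s v = sF ε c d v := by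
  have h1 : ε * ε = 1 := by rcases hε with h | h <;> rw [h] <;> norm_num
  refine Al1_mk (sF ε c d) (sF ε c (-d)) ?_ ?_ (Al1_sF_inv hε hcd) ?_ ?_
  · intro v w
    apply Quaternion.ext
    · show (v + w).re = v.re + w.re
      simp
    · show ε * (v + w).imI = ε * v.imI + ε * w.imI
      simp [mul_add]
    · show c * (v + w).imJ - d * (v + w).imK = (c * v.imJ - d * v.imK) + (c * w.imJ - d * w.imK)
      simp only [Quaternion.imJ_add, Quaternion.imK_add]
      ring
    · show d * (v + w).imJ + c * (v + w).imK = (d * v.imJ + c * v.imK) + (d * w.imJ + c * w.imK)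
      simp only [Quaternion.imJ_add, Quaternion.imK_add]
      ring
  · intro r v
    apply Quaternion.ext
    · show (r • v).re = r * v.re
      simp
    · show ε * (r • v).imI = r * (ε * v.imI)
      simp only [Quaternion.imI_smul, smul_eq_mul]
      ring
    · show c * (r • v).imJ - d * (r • v).imK = r * (c * v.imJ - d * v.imK)
      simp only [Quaternion.imJ_smul, Quaternion.imK_smul, smul_eq_mul]
      ring
    · show d * (r • v).imJ + c * (r • v).imK = r * (d * v.imJ + c * v.imK)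
      simp only [Quaternion.imJ_smul, Quaternion.imK_smul, smul_eq_mul]
      ring
  · intro v
    have := Al1_sF_inv (ε := ε) (c := c) (d := -d) hε (by rw [neg_sq]; exact hcd) v
    rwa [neg_neg] at this
  · intro v
    rw [Quaternion.normSq_def', Quaternion.normSq_def']
    simp only [sF]
    linear_combination v.imI ^ 2 * h1 + (v.imJ ^ 2 + v.imK ^ 2) * hcd

/-- Row Al1. The same for `v ↦ a v b̄`. -/
theorem exists_tIso {a b : ℍ[ℝ]} (ha : normSq a = 1) (hb : normSq b = 1) :
    ∃ t : ℍ[ℝ] ≃ₗᵢ[ℝ] ℍ[ℝ], ∀ v, t v = tF a b v := by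
  have ha1 : a * star a = 1 := by rw [Quaternion.self_mul_star, ha]; rfl
  have ha2 : star a * a = 1 := by rw [Quaternion.star_mul_self, ha]; rfl
  have hb1 : b * star b = 1 := by rw [Quaternion.self_mul_star, hb]; rfl
  have hb2 : star b * b = 1 := by rw [Quaternion.star_mul_self, hb]; rfl
  refine Al1_mk (tF a b) (fun v => star a * v * b) ?_ ?_ ?_ ?_ ?_
  · intro v w
    simp only [tF, mul_add, add_mul]
  · intro r v
    simp only [tF, mul_smul_comm, smul_mul_assoc]
  · intro v
    simp only [tF]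
    calc star a * (a * v * star b) * b = (star a * a) * v * (star b * b) := by
          simp only [mul_assoc]
      _ = v := by rw [ha2, hb2, one_mul, mul_one]
  · intro v
    simp only [tF]
    calc a * (star a * v * b) * star b = (a * star a) * v * (b * star b) := by
          simp only [mul_assoc]
      _ = v := by rw [ha1, hb1, one_mul, mul_one]
  · intro v
    simp only [tF]
    rw [map_mul, map_mul, Quaternion.normSq_star, ha, hb, one_mul, mul_one]

/-- Row Al1. The same for `rF`. -/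
theorem exists_rIso {η p q : ℝ} (hη : η = 1 ∨ η = -1) (hpq : p ^ 2 + q ^ 2 = 1) :
    ∃ R : ℍ[ℝ] ≃ₗᵢ[ℝ] ℍ[ℝ], ∀ v, R v = rF η p q v := by
  have h1 : η * η = 1 := by rcases hη with h | h <;> rw [h] <;> norm_num
  have h2 : ∀ v, rF η p q (rF η p q v) = v := by
    intro v
    ext
    · simp [rF]
    · simp only [rF]
      linear_combination v.imI * h1
    · simp only [rF]
      linear_combination v.imJ * hpq
    · simp only [rF]
      linear_combination v.imK * hpq
  refine Al1_mk (rF η p q) (rF η p q) ?_ ?_ h2 h2 ?_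
  · intro v w
    apply Quaternion.ext
    · show (v + w).re = v.re + w.re
      simp
    · show η * (v + w).imI = η * v.imI + η * w.imI
      simp [mul_add]
    · show p * (v + w).imJ + q * (v + w).imK = (p * v.imJ + q * v.imK) + (p * w.imJ + q * w.imK)
      simp only [Quaternion.imJ_add, Quaternion.imK_add]
      ring
    · show q * (v + w).imJ - p * (v + w).imK = (q * v.imJ - p * v.imK) + (q * w.imJ - p * w.imK)
      simp only [Quaternion.imJ_add, Quaternion.imK_add]
      ring
  · intro r v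
    apply Quaternion.ext
    · show (r • v).re = r * v.re
      simp
    · show η * (r • v).imI = r * (η * v.imI)
      simp only [Quaternion.imI_smul, smul_eq_mul]
      ring
    · show p * (r • v).imJ + q * (r • v).imK = r * (p * v.imJ + q * v.imK)
      simp only [Quaternion.imJ_smul, Quaternion.imK_smul, smul_eq_mul]
      ring
    · show q * (r • v).imJ - p * (r • v).imK = r * (q * v.imJ - p * v.imK)
      simp only [Quaternion.imJ_smul, Quaternion.imK_smul, smul_eq_mul]
      ring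
  · intro v
    rw [Quaternion.normSq_def', Quaternion.normSq_def']
    simp only [rF]
    linear_combination v.imI ^ 2 * h1 + (v.imJ ^ 2 + v.imK ^ 2) * hpq

/-- Row Al1. The inverse of `s` is `sF ε c (-d)`. -/
theorem symm_s {s : ℍ[ℝ] ≃ₗᵢ[ℝ] ℍ[ℝ]} {ε c d : ℝ} (hε : ε = 1 ∨ ε = -1) (hcd : c ^ 2 + d ^ 2 = 1)
    (hs : ∀ v, s v = sF ε c d v) : ∀ v, s.symm v = sF ε c (-d) v := by
  intro v
  rw [LinearIsometryEquiv.symm_apply_eq, hs]
  have := Al1_sF_inv (ε := ε) (c := c) (d := -d) hε (by rw [neg_sq]; exact hcd) v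
  rw [neg_neg] at this
  exact this.symm

/-- Row Al1. `rF` inverts `s`. -/
theorem rF_sF {η p q ε c d : ℝ} (v : ℍ[ℝ]) :
    rF η p q (sF ε c d v) = sF ε c (-d) (rF η p q v) := by
  ext <;> simp [rF, sF] <;> ring

/-- Row Al1. `UI a` means `normSq a = 1` and `a * a = -1`, `star a = -a`. -/
theorem UI.normSq {a : ℍ[ℝ]} (h : UI a) : Quaternion.normSq a = 1 := by
  rw [Quaternion.normSq_def', h.1]
  linear_combination h.2

theorem UI.mul_self {a : ℍ[ℝ]} (h : UI a) : a * a = -1 := by
  obtain ⟨h0, h1⟩ := h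
  ext
  · simp [h0]
    linear_combination -h1
  · simp [h0]
    ring
  · simp [h0]
    ring
  · simp [h0]
    ring

theorem UI.star {a : ℍ[ℝ]} (h : UI a) : star a = -a := by
  ext <;> simp [h.1]

/-- Row Al1. `t` is an involution. -/
theorem Std.tt {s t : ℍ[ℝ] ≃ₗᵢ[ℝ] ℍ[ℝ]} {ε c d : ℝ} {a b : ℍ[ℝ]} (H : Std s t ε c d a b) :
    ∀ v, t (t v) = v := by
  intro v
  rw [H.ht, H.ht, tF, tF, H.hb.star]
  have e : a * (a * v * -b) * -b = (a * a) * v * (b * b) := by noncomm_ring
  rw [e, H.ha.mul_self, H.hb.mul_self]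
  simp

/-- Row Al1. `s 1 = 1`. -/
theorem Std.s1 {s t : ℍ[ℝ] ≃ₗᵢ[ℝ] ℍ[ℝ]} {ε c d : ℝ} {a b : ℍ[ℝ]} (H : Std s t ε c d a b) :
    s 1 = 1 := by
  rw [H.hs]
  ext <;> simp [sF]

end ChiralQ
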