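import Pool.Agent.Lib.MP_bc704c_co.Q.Al1

/-! # MP_bc704c_co, row Al2: the involutive isometries of the quaternions -/

namespace ChiralQ

open Quaternion ChiralNF Module

private theorem Al2_sum (t : ℍ[ℝ] ≃ₗᵢ[ℝ] ℍ[ℝ]) (ht : ∀ v, t (t v) = v)
    (E : Submodule ℝ ℍ[ℝ]) (hE : ∀ v, v ∈ E ↔ t v = -v) :
    ∃ b : Fin (finrank ℝ E) → ℍ[ℝ], Orthonormal ℝ b ∧
      ∀ v, t v = v - ∑ i, (2 * inner ℝ (b i) v) • b i := by
  let B := stdOrthonormalBasis ℝ E
  refine ⟨fun i => ((B i : E) : ℍ[ℝ]), ?_, ?_⟩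
  · exact B.orthonormal.comp_linearIsometry E.subtypeₗᵢ
  · intro v
    have hw : v - t v ∈ E := by
      rw [hE, map_sub, ht]
      abel
    have h1 : ∑ i, inner ℝ (B i) (⟨v - t v, hw⟩ : E) • B i = ⟨v - t v, hw⟩ := B.sum_repr' _
    have h2 : ∀ i, inner ℝ (B i) (⟨v - t v, hw⟩ : E) = 2 * inner ℝ ((B i : E) : ℍ[ℝ]) v := by
      intro i
      have hi : t ((B i : E) : ℍ[ℝ]) = -((B i : E) : ℍ[ℝ]) := (hE _).1 (B i).2
      have h3 : inner ℝ ((B i : E) : ℍ[ℝ]) v = - inner ℝ ((B i : E) : ℍ[ℝ]) (t v) := by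
        rw [← t.inner_map_map ((B i : E) : ℍ[ℝ]) v, hi, inner_neg_left]
      rw [Submodule.coe_inner]
      simp only [inner_sub_right]
      linarith
    have h4 := congrArg (Subtype.val : E → ℍ[ℝ]) h1
    simp only [h2] at h4
    rw [AddSubmonoidClass.coe_finset_sum] at h4
    simp only [Submodule.coe_smul] at h4
    rw [h4]
    abel

/-- Row Al2. Let `E` be the space of the `v` with `t v = -v`; its orthogonal complement is the space
of the `v` with `t v = v` (`v = (v + t v)/2 + (v - t v)/2`, and the two spaces are orthogonal because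
`⟪x, y⟫ = ⟪t x, t y⟫ = -⟪x, y⟫`), and the dimensions add up to 4 (`Quaternion.finrank_eq_four`).
Cases `finrank E = 0, 1, 2, 3, 4`. If `finrank E = 1`, `E = ℝ n`, `t v = v - 2 ⟪n, v⟫ n`; if
`finrank E = 3` the complement is `ℝ n` and `t v = -(v - 2 ⟪n, v⟫ n)`; if `finrank E = 2` take an
orthonormal basis `n, m` of `E` (`stdOrthonormalBasis`). -/
theorem invol_cases (t : ℍ[ℝ] ≃ₗᵢ[ℝ] ℍ[ℝ]) (ht : ∀ v, t (t v) = v) :
    (∃ σ : ℝ, ∀ v, t v = σ • v) ∨
    (∃ (σ : ℝ) (n : ℍ[ℝ]), ‖n‖ = 1 ∧ ∀ v, t v = σ • (v - (2 * inner ℝ n v) • n)) ∨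
    (∃ n m : ℍ[ℝ], ‖n‖ = 1 ∧ ‖m‖ = 1 ∧ inner ℝ n m = 0 ∧
      ∀ v, t v = v - (2 * inner ℝ n v) • n - (2 * inner ℝ m v) • m) := by
  let E : Submodule ℝ ℍ[ℝ] :=
    { carrier := {v | t v = -v}
      add_mem' := by
        intro a b ha hb
        simp only [Set.mem_setOf_eq] at ha hb ⊢
        rw [map_add, ha, hb]; abel
      zero_mem' := by simp
      smul_mem' := by
        intro c x hx
        simp only [Set.mem_setOf_eq] at hx ⊢
        rw [map_smul, hx, smul_neg] }
  have hE : ∀ v, v ∈ E ↔ t v = -v := fun v => Iff.rfl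
  have hF : ∀ v, v ∈ Eᗮ ↔ t v = v := by
    intro v
    constructor
    · intro hv
      have hw : v - t v ∈ E := by
        rw [hE, map_sub, ht]
        abel
      have h1 : inner ℝ (v - t v) v = 0 := (Submodule.mem_orthogonal E v).1 hv _ hw
      have h2 : inner ℝ (v - t v) (t v) = 0 := by
        have := t.inner_map_map (v - t v) v
        rw [(hE _).1 hw, inner_neg_left, h1] at this
        linarith
      have h3 : inner ℝ (v - t v) (v - t v) = (0 : ℝ) := by
        rw [inner_sub_right, h1, h2, sub_zero]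
      have h4 := inner_self_eq_zero.1 h3
      exact (sub_eq_zero.1 h4).symm
    · intro hv
      rw [Submodule.mem_orthogonal]
      intro u hu
      have := t.inner_map_map u v
      rw [(hE u).1 hu, hv, inner_neg_left] at this
      linarith
  have hdim : finrank ℝ E + finrank ℝ Eᗮ = 4 := by
    rw [Submodule.finrank_add_finrank_orthogonal, Quaternion.finrank_eq_four]
  obtain ⟨b, hb, hs⟩ := Al2_sum t ht E hE
  have hcases : finrank ℝ E = 0 ∨ finrank ℝ E = 1 ∨ finrank ℝ E = 2 ∨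
      finrank ℝ Eᗮ = 1 ∨ finrank ℝ Eᗮ = 0 := by omega
  rcases hcases with h | h | h | h | h
  · left
    refine ⟨1, fun v => ?_⟩
    rw [hs v]
    revert b
    rw [h]
    intro b _ _
    simp
  · right; left
    revert b
    rw [h]
    intro b hb hs
    refine ⟨1, b 0, hb.1 0, fun v => ?_⟩
    rw [hs v]
    simp
  · right; right
    revert b
    rw [h]
    intro b hb hs
    refine ⟨b 0, b 1, hb.1 0, hb.1 1, hb.2 (by decide), fun v => ?_⟩
    rw [hs v, Fin.sum_univ_two]
    abel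
  · right; left
    obtain ⟨b', hb', hs'⟩ := Al2_sum (t.trans (LinearIsometryEquiv.neg ℝ)) (by intro v; simp [ht])
      Eᗮ (by intro v; rw [hF]; simp)
    revert b'
    rw [h]
    intro b' hb' hs'
    refine ⟨-1, b' 0, hb'.1 0, fun v => ?_⟩
    have := hs' v
    simp only [LinearIsometryEquiv.trans_apply, LinearIsometryEquiv.coe_neg,
      Finset.univ_unique, Fin.default_eq_zero, Finset.sum_singleton] at this
    rw [neg_one_smul, ← this, neg_neg]
  · left
    refine ⟨-1, fun v => ?_⟩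
    have hbot : Eᗮ = ⊥ := Submodule.finrank_eq_zero.1 h
    have htop : E = ⊤ := (Submodule.orthogonal_eq_bot_iff).1 hbot
    have : v ∈ E := by rw [htop]; trivial
    rw [(hE v).1 this, neg_one_smul]

end ChiralQ
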