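import Pool.Agent.Lib.MP_bc704c_co.Q.Al1

/-! # MP_bc704c_co, row Al3: half-turns and reflexions of the quaternions -/

namespace ChiralQ

open Quaternion ChiralNF

private theorem Al3_key (x y : ℍ[ℝ]) :
    x * star y = ((2 * inner ℝ x y : ℝ) : ℍ[ℝ]) - y * star x := by
  have h := Quaternion.self_add_star (x * star y)
  rw [star_mul, star_star] at h
  rw [Quaternion.inner_def, eq_sub_iff_add_eq, h, two_mul, two_mul, Quaternion.coe_add]

private theorem Al3_inner (x y : ℍ[ℝ]) :
    inner ℝ x y = x.re * y.re + x.imI * y.imI + x.imJ * y.imJ + x.imK * y.imK := by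
  rw [Quaternion.inner_def]
  simp

private theorem Al3_nsq {n : ℍ[ℝ]} (hn : ‖n‖ = 1) : Quaternion.normSq n = 1 := by
  rw [Quaternion.normSq_eq_norm_mul_self, hn, one_mul]

/-- Row Al3. The reflexion `v ↦ v - 2 ⟪n, v⟫ n` is `v ↦ - n v̄ n` (`‖n‖ = 1`), so the product of the
two commuting reflexions is `v ↦ (n m̄) v (m̄ n)`, and `a = n m̄`, `b = star (m̄ n) = n̄ m` are unit and
imaginary because `Re (n m̄) = ⟪n, m⟫ = 0`. Everything can be checked in coordinates
(`Quaternion.ext`, `inner_def`, `nlinarith`/`linear_combination` with the three hypotheses), or with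
`n v̄ + v n̄ = 2 ⟪n, v⟫`. -/
theorem halfturn_form {n m : ℍ[ℝ]} (hn : ‖n‖ = 1) (hm : ‖m‖ = 1) (hnm : inner ℝ n m = 0) :
    ∃ a b : ℍ[ℝ], UI a ∧ UI b ∧
      ∀ v : ℍ[ℝ], v - (2 * inner ℝ n v) • n - (2 * inner ℝ m v) • m = tF a b v := by
  have hn1 := Al3_nsq hn
  have hm1 := Al3_nsq hm
  have hre : (n * star m).re = 0 := by rw [← Quaternion.inner_def]; exact hnm
  have hre' : (star n * m).re = 0 := by
    have h1 : (star n * m).re = inner ℝ n m := by
      rw [Al3_inner]; simp
    rw [h1, hnm]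
  have hsq : Quaternion.normSq (n * star m) = 1 := by
    rw [map_mul, Quaternion.normSq_star, hn1, hm1, one_mul]
  have hsq' : Quaternion.normSq (star n * m) = 1 := by
    rw [map_mul, Quaternion.normSq_star, hn1, hm1, one_mul]
  refine ⟨n * star m, star n * m, ⟨hre, ?_⟩, ⟨hre', ?_⟩, fun v => ?_⟩
  · rw [Quaternion.normSq_def', hre] at hsq
    linarith
  · rw [Quaternion.normSq_def', hre'] at hsq'
    linarith
  · have hmm : star m * m = 1 := by rw [Quaternion.star_mul_self, hm1]; rfl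
    have hnn : star n * n = 1 := by rw [Quaternion.star_mul_self, hn1]; rfl
    have e1 : v * star m = ((2 * inner ℝ m v : ℝ) : ℍ[ℝ]) - m * star v := by
      rw [Al3_key v m, real_inner_comm]
    have e2 : n * star v = ((2 * inner ℝ n v : ℝ) : ℍ[ℝ]) - v * star n := Al3_key n v
    have e3 : n * star m = - (m * star n) := by
      rw [Al3_key n m, hnm]; simp
    have e4 : star m * v * star m = ((2 * inner ℝ m v : ℝ) : ℍ[ℝ]) * star m - star v := by
      rw [mul_assoc, e1, mul_sub, ← mul_assoc, hmm, one_mul, Quaternion.coe_commutes]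
    have e5 : n * star v * n = ((2 * inner ℝ n v : ℝ) : ℍ[ℝ]) * n - v := by
      rw [e2, sub_mul, mul_assoc, hnn, mul_one]
    have e6 : n * star m * n = - m := by
      rw [e3, neg_mul, mul_assoc, hnn, mul_one]
    have e7 : tF (n * star m) (star n * m) v = n * (star m * v * star m) * n := by
      simp only [tF, star_mul, star_star, mul_assoc]
    rw [e7, e4, mul_sub, sub_mul, e5, ← mul_assoc, ← Quaternion.coe_commutes, mul_assoc, mul_assoc,
      ← mul_assoc n, e6, mul_neg, Quaternion.coe_mul_eq_smul, Quaternion.coe_mul_eq_smul]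
    abel

/-- Row Al3. For every `n` there is a reflexion `rF 1 p q` which fixes `n`: if
`(n.imJ, n.imK) = r (cos φ, sin φ)` take `p = cos 2 φ`, `q = sin 2 φ`, i.e.
`p = (n.imJ ^ 2 - n.imK ^ 2) / r ^ 2`, `q = 2 n.imJ n.imK / r ^ 2` (`p = 1, q = 0` if `r = 0`). -/
theorem exists_fix (n : ℍ[ℝ]) : ∃ p q : ℝ, p ^ 2 + q ^ 2 = 1 ∧ rF 1 p q n = n := by
  by_cases h : n.imJ ^ 2 + n.imK ^ 2 = 0
  · have hK : n.imK = 0 := by nlinarith [sq_nonneg n.imJ, sq_nonneg n.imK]
    refine ⟨1, 0, by norm_num, ?_⟩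
    ext <;> simp [rF, hK]
  · refine ⟨(n.imJ ^ 2 - n.imK ^ 2) / (n.imJ ^ 2 + n.imK ^ 2),
      2 * n.imJ * n.imK / (n.imJ ^ 2 + n.imK ^ 2), ?_, ?_⟩
    · field_simp
      ring
    · ext
      · simp [rF]
      · simp [rF]
      · simp only [rF]
        field_simp
        ring
      · simp only [rF]
        field_simp
        ring

/-- Row Al3. `rF 1 p q` preserves the inner product and so commutes with `σ` times the reflexion
in `n` if it fixes `n`. -/
theorem rF_comm_refl {n : ℍ[ℝ]} {p q σ : ℝ} (hpq : p ^ 2 + q ^ 2 = 1) (hn : rF 1 p q n = n)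
    (v : ℍ[ℝ]) : rF 1 p q (σ • (v - (2 * inner ℝ n v) • n)) =
      σ • (rF 1 p q v - (2 * inner ℝ n (rF 1 p q v)) • n) := by
  have h1 : inner ℝ n (rF 1 p q v) = inner ℝ n v := by
    have h2 : inner ℝ (rF 1 p q n) (rF 1 p q v) = inner ℝ n v := by
      rw [Al3_inner, Al3_inner]
      simp only [rF]
      linear_combination (n.imJ * v.imJ + n.imK * v.imK) * hpq
    rwa [hn] at h2
  have h3 : rF 1 p q (σ • (v - (2 * inner ℝ n v) • n)) =
      σ • (rF 1 p q v - (2 * inner ℝ n v) • rF 1 p q n) := by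
    ext <;> simp [rF] <;> ring
  rw [h3, h1, hn]

end ChiralQ
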