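import Pool.Agent.Lib.MP_bc704c_co.Q.Al1

/-! # MP_bc704c_co, row Al4: half-turns without a mirror -/

namespace ChiralQ

open Quaternion ChiralNF

private theorem Al4_re (η p q : ℝ) (v : ℍ[ℝ]) : (rF η p q v).re = v.re := rfl
private theorem Al4_imI (η p q : ℝ) (v : ℍ[ℝ]) : (rF η p q v).imI = η * v.imI := rfl
private theorem Al4_imJ (η p q : ℝ) (v : ℍ[ℝ]) : (rF η p q v).imJ = p * v.imJ + q * v.imK := rfl
private theorem Al4_imK (η p q : ℝ) (v : ℍ[ℝ]) : (rF η p q v).imK = q * v.imJ - p * v.imK := rfl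

private theorem Al4_ext {a b : ℍ[ℝ]} (h0 : a.re = b.re) (h1 : a.imI = b.imI) (h2 : a.imJ = b.imJ)
    (h3 : a.imK = b.imK) : a = b := QuaternionAlgebra.ext h0 h1 h2 h3

private theorem Al4_comm1 {a b : ℍ[ℝ]} {x y : ℝ} (ha0 : a.re = 0) (hb0 : b.re = 0)
    (hxy : x ^ 2 + y ^ 2 = 1) (h1 : x * a.imJ + y * a.imK = 0) (h2 : x * b.imJ + y * b.imK = 0) (v : ℍ[ℝ]) :
    rF (-1) (x ^ 2 - y ^ 2) (2 * x * y) (tF a b v) = tF a b (rF (-1) (x ^ 2 - y ^ 2) (2 * x * y) v) := by
  obtain ⟨r, r0, r1, r2, r3⟩ : ∃ r : ℍ[ℝ], r.re = 0 ∧ r.imI = 0 ∧ r.imJ = x ∧ r.imK = y :=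
    ⟨⟨0, 0, x, y⟩, rfl, rfl, rfl, rfl⟩
  have hconj : ∀ v : ℍ[ℝ], rF (-1) (x ^ 2 - y ^ 2) (2 * x * y) v = r * v * star r := by
    intro v
    apply Al4_ext <;> simp only [Al4_re, Al4_imI, Al4_imJ, Al4_imK, Quaternion.re_mul, Quaternion.imI_mul,
      Quaternion.imJ_mul, Quaternion.imK_mul, Quaternion.re_star, Quaternion.imI_star, Quaternion.imJ_star,
      Quaternion.imK_star, r0, r1, r2, r3]
    · linear_combination (-v.re) * hxy
    · linear_combination (v.imI) * hxy
    · ring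
    · ring
  have hrr : star r * r = 1 := by
    apply Al4_ext <;> simp only [Quaternion.re_mul, Quaternion.imI_mul,
      Quaternion.imJ_mul, Quaternion.imK_mul, Quaternion.re_star, Quaternion.imI_star, Quaternion.imJ_star,
      Quaternion.imK_star, r0, r1, r2, r3, Quaternion.re_one, Quaternion.imI_one, Quaternion.imJ_one, Quaternion.imK_one]
    · linear_combination hxy
    · ring
    · ring
    · ring
  have hra : r * a * star r = -a := by
    apply Al4_ext <;> simp only [Quaternion.re_mul, Quaternion.imI_mul,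
      Quaternion.imJ_mul, Quaternion.imK_mul, Quaternion.re_star, Quaternion.imI_star, Quaternion.imJ_star,
      Quaternion.imK_star, r0, r1, r2, r3, ha0, Quaternion.re_neg, Quaternion.imI_neg, Quaternion.imJ_neg,
      Quaternion.imK_neg]
    · ring
    · linear_combination (-a.imI) * hxy
    · linear_combination 2 * x * h1 - a.imJ * hxy
    · linear_combination 2 * y * h1 - a.imK * hxy
  have hrb : r * star b * star r = -star b := by
    apply Al4_ext <;> simp only [Quaternion.re_mul, Quaternion.imI_mul,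
      Quaternion.imJ_mul, Quaternion.imK_mul, Quaternion.re_star, Quaternion.imI_star, Quaternion.imJ_star,
      Quaternion.imK_star, r0, r1, r2, r3, hb0, Quaternion.re_neg, Quaternion.imI_neg, Quaternion.imJ_neg,
      Quaternion.imK_neg]
    · ring
    · linear_combination (b.imI) * hxy
    · linear_combination (-2) * x * h2 + b.imJ * hxy
    · linear_combination (-2) * y * h2 + b.imK * hxy
  rw [hconj, hconj]
  unfold tF
  have e1 : r * (a * v * star b) * star r = (r * a * star r) * (r * v * star r) * (r * star b * star r) := by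
    calc r * (a * v * star b) * star r = r * a * 1 * v * 1 * star b * star r := by noncomm_ring
      _ = r * a * (star r * r) * v * (star r * r) * star b * star r := by rw [hrr]
      _ = _ := by noncomm_ring
  rw [e1, hra, hrb]
  noncomm_ring

private theorem Al4_comm2 {a b : ℍ[ℝ]} {p q σ : ℝ} (ha0 : a.re = 0) (hb0 : b.re = 0)
    (hσ : σ = 1 ∨ σ = -1) (hpq : p ^ 2 + q ^ 2 = 1) (h0 : a.imI = σ * b.imI)
    (h1 : p * b.imJ + q * b.imK = σ * a.imJ) (h2 : q * b.imJ - p * b.imK = σ * a.imK) (v : ℍ[ℝ]) :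
    rF 1 p q (tF a b v) = tF a b (rF 1 p q v) := by
  rcases hσ with rfl | rfl
  · have e1 : a.imI = b.imI := by linarith
    have e2 : a.imJ = p * b.imJ + q * b.imK := by linarith
    have e3 : a.imK = q * b.imJ - p * b.imK := by linarith
    apply Al4_ext <;> simp only [Al4_re, Al4_imI, Al4_imJ, Al4_imK, tF, Quaternion.re_mul, Quaternion.imI_mul,
      Quaternion.imJ_mul, Quaternion.imK_mul, Quaternion.re_star, Quaternion.imI_star, Quaternion.imJ_star,
      Quaternion.imK_star, ha0, hb0, e1, e2, e3] <;> grind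
  · have e1 : a.imI = -b.imI := by linarith
    have e2 : a.imJ = -(p * b.imJ + q * b.imK) := by linarith
    have e3 : a.imK = -(q * b.imJ - p * b.imK) := by linarith
    apply Al4_ext <;> simp only [Al4_re, Al4_imI, Al4_imJ, Al4_imK, tF, Quaternion.re_mul, Quaternion.imI_mul,
      Quaternion.imJ_mul, Quaternion.imK_mul, Quaternion.re_star, Quaternion.imI_star, Quaternion.imJ_star,
      Quaternion.imK_star, ha0, hb0, e1, e2, e3] <;> grind

/-- Row Al4. Write `a = α i + u`, `b = β i + w`. If no `rF η p q` commutes with `v ↦ a v b̄` then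
`α ^ 2 ≠ β ^ 2` and `u, w` are linearly independent.
(1) If `a.imJ * b.imK = a.imK * b.imJ` there is a unit vector `(x, y)` orthogonal to `(a.imJ, a.imK)`
and to `(b.imJ, b.imK)`; the reflexion with `p = x ^ 2 - y ^ 2`, `q = 2 x y` fixes `(x, y)`, and
`rF (-1) p q v = r v r̄` with `r = x j + y k`, `r a r̄ = -a`, `r b r̄ = -b`, so it commutes.
(2) If `α = β` then `|u| = |w|` and there are `p, q` with `p w_J + q w_K = u_J`,
`q w_J - p w_K = u_K`, `p ^ 2 + q ^ 2 = 1` (if `w ≠ 0`: `p + i q = u w / |w| ^ 2` as complex numbers;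
if `w = 0`: `p = 1, q = 0`). `rF 1 p q v = r v̄ r̄` for a unit `r` in the plane of `j, k`, it maps `b`
to `a` and `a` to `b`, and `r (a v b̄)‾ r̄ = (r b r̄)(r v̄ r̄)(r ā r̄) = a (r v̄ r̄) b̄`.
(3) If `α = -β` take `p w_J + q w_K = -u_J`, `q w_J - p w_K = -u_K`; then `rF 1 p q` maps `b` to
`-a` and `a` to `-b`.
The commutation can be checked in coordinates. -/
theorem chi_of_noR {a b : ℍ[ℝ]} (ha : UI a) (hb : UI b)
    (h : ∀ η p q : ℝ, (η = 1 ∨ η = -1) → p ^ 2 + q ^ 2 = 1 →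
      ¬ ∀ v, rF η p q (tF a b v) = tF a b (rF η p q v)) : Chi a b := by
  obtain ⟨ha0, ha1⟩ := ha
  obtain ⟨hb0, hb1⟩ := hb
  constructor
  · intro hαβ
    have hσ : ∃ σ : ℝ, (σ = 1 ∨ σ = -1) ∧ a.imI = σ * b.imI := by
      rcases sq_eq_sq_iff_eq_or_eq_neg.1 hαβ with h1 | h1
      · exact ⟨1, Or.inl rfl, by linarith⟩
      · exact ⟨-1, Or.inr rfl, by linarith⟩
    obtain ⟨σ, hσ, h0⟩ := hσ
    have hσ2 : σ ^ 2 = 1 := by rcases hσ with rfl | rfl <;> norm_num
    have hn : a.imJ ^ 2 + a.imK ^ 2 = b.imJ ^ 2 + b.imK ^ 2 := by linarith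
    by_cases hw : b.imJ ^ 2 + b.imK ^ 2 = 0
    · have hbJ : b.imJ = 0 := by nlinarith [sq_nonneg b.imJ, sq_nonneg b.imK]
      have hbK : b.imK = 0 := by nlinarith [sq_nonneg b.imJ, sq_nonneg b.imK]
      have haJ : a.imJ = 0 := by nlinarith [sq_nonneg a.imJ, sq_nonneg a.imK]
      have haK : a.imK = 0 := by nlinarith [sq_nonneg a.imJ, sq_nonneg a.imK]
      refine h 1 1 0 (Or.inl rfl) (by norm_num) (fun v => ?_)
      exact Al4_comm2 ha0 hb0 hσ (by norm_num) h0 (by rw [hbJ, hbK, haJ]; ring) (by rw [hbJ, hbK, haK]; ring) v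
    · set N := b.imJ ^ 2 + b.imK ^ 2 with hN
      refine h 1 (σ * (a.imJ * b.imJ - a.imK * b.imK) / N) (σ * (a.imJ * b.imK + a.imK * b.imJ) / N)
        (Or.inl rfl) ?_ (fun v => ?_)
      · field_simp
        have : (a.imJ * b.imJ - a.imK * b.imK) ^ 2 + (a.imJ * b.imK + a.imK * b.imJ) ^ 2 = N ^ 2 := by
          have : (a.imJ * b.imJ - a.imK * b.imK) ^ 2 + (a.imJ * b.imK + a.imK * b.imJ) ^ 2 =
            (a.imJ ^ 2 + a.imK ^ 2) * N := by rw [hN]; ring
          rw [this, hn]; ring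
        rw [← this, hσ2, one_mul]; ring
      · refine Al4_comm2 ha0 hb0 hσ ?_ h0 ?_ ?_ v
        · field_simp
          have : (a.imJ * b.imJ - a.imK * b.imK) ^ 2 + (a.imJ * b.imK + a.imK * b.imJ) ^ 2 = N ^ 2 := by
            have : (a.imJ * b.imJ - a.imK * b.imK) ^ 2 + (a.imJ * b.imK + a.imK * b.imJ) ^ 2 =
              (a.imJ ^ 2 + a.imK ^ 2) * N := by rw [hN]; ring
            rw [this, hn]; ring
          rw [← this, hσ2, one_mul]; ring
        · field_simp
          rw [hN]; ring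
        · field_simp
          rw [hN]; ring
  · intro hdet
    have hxy : ∃ x y : ℝ, x ^ 2 + y ^ 2 = 1 ∧ x * a.imJ + y * a.imK = 0 ∧ x * b.imJ + y * b.imK = 0 := by
      have key : ∀ m n : ℝ, m ^ 2 + n ^ 2 ≠ 0 → n * a.imJ - m * a.imK = 0 → n * b.imJ - m * b.imK = 0 →
          ∃ x y : ℝ, x ^ 2 + y ^ 2 = 1 ∧ x * a.imJ + y * a.imK = 0 ∧ x * b.imJ + y * b.imK = 0 := by
        intro m n hmn h1 h2
        have hpos : 0 < m ^ 2 + n ^ 2 := lt_of_le_of_ne (by positivity) (Ne.symm hmn)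
        set R := √(m ^ 2 + n ^ 2) with hR
        have hR0 : 0 < R := Real.sqrt_pos.2 hpos
        have hR2 : R ^ 2 = m ^ 2 + n ^ 2 := Real.sq_sqrt hpos.le
        refine ⟨n / R, -m / R, ?_, ?_, ?_⟩
        · field_simp
          rw [hR2]; ring
        · have : n / R * a.imJ + -m / R * a.imK = (n * a.imJ - m * a.imK) / R := by ring
          rw [this, h1, zero_div]
        · have : n / R * b.imJ + -m / R * b.imK = (n * b.imJ - m * b.imK) / R := by ring
          rw [this, h2, zero_div]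
      by_cases hA : a.imJ ^ 2 + a.imK ^ 2 = 0
      · have haJ : a.imJ = 0 := by nlinarith [sq_nonneg a.imJ, sq_nonneg a.imK]
        have haK : a.imK = 0 := by nlinarith [sq_nonneg a.imJ, sq_nonneg a.imK]
        by_cases hB : b.imJ ^ 2 + b.imK ^ 2 = 0
        · have hbJ : b.imJ = 0 := by nlinarith [sq_nonneg b.imJ, sq_nonneg b.imK]
          have hbK : b.imK = 0 := by nlinarith [sq_nonneg b.imJ, sq_nonneg b.imK]
          exact ⟨1, 0, by norm_num, by rw [haJ]; ring, by rw [hbJ]; ring⟩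
        · exact key b.imJ b.imK hB (by rw [haJ, haK]; ring) (by ring)
      · exact key a.imJ a.imK hA (by ring) (by linarith)
    obtain ⟨x, y, hxy, h1, h2⟩ := hxy
    refine h (-1) (x ^ 2 - y ^ 2) (2 * x * y) (Or.inr rfl) ?_ (fun v => ?_)
    · have : (x ^ 2 - y ^ 2) ^ 2 + (2 * x * y) ^ 2 = (x ^ 2 + y ^ 2) ^ 2 := by ring
      rw [this, hxy]; norm_num
    · exact Al4_comm1 ha0 hb0 hxy h1 h2 v

end ChiralQ
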