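import Pool.Agent.Lib.MP_bc704c_co.Q.Al2
import Pool.Agent.Lib.MP_bc704c_co.Q.Al3
import Pool.Agent.Lib.MP_bc704c_co.Q.Al4

/-! # MP_bc704c_co, row Al5: the standard form of `t` -/

namespace ChiralQ

open Quaternion ChiralNF

/-- Row Al5. By `hR` and `exists_rIso`, `symm_s`, `rF_sF`, no `rF η p q` commutes with `t`. By
`invol_cases` `t` is scalar (commutes with everything), or `σ` times a reflexion (`exists_fix`,
`rF_comm_refl`), or a half-turn: then `halfturn_form` and `chi_of_noR`. -/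
theorem halfturn_of_noR {s t : ℍ[ℝ] ≃ₗᵢ[ℝ] ℍ[ℝ]} {ε c d : ℝ} (hε : ε = 1 ∨ ε = -1)
    (hcd : c ^ 2 + d ^ 2 = 1) (hs : ∀ v, s v = sF ε c d v) (ht : ∀ v, t (t v) = v)
    (hR : ¬ ∃ R : ℍ[ℝ] ≃ₗᵢ[ℝ] ℍ[ℝ], R 1 = 1 ∧ (∀ v, R (s v) = s.symm (R v)) ∧
      ∀ v, R (t v) = t (R v)) :
    ∃ a b : ℍ[ℝ], UI a ∧ UI b ∧ Chi a b ∧ ∀ v, t v = tF a b v := by
  have key : ∀ η p q : ℝ, (η = 1 ∨ η = -1) → p ^ 2 + q ^ 2 = 1 →
      ¬ ∀ v, rF η p q (t v) = t (rF η p q v) := by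
    intro η p q hη hpq hc
    apply hR
    obtain ⟨R, hRv⟩ := exists_rIso hη hpq
    refine ⟨R, ?_, ?_, ?_⟩
    · rw [hRv]
      ext <;> simp [rF]
    · intro v
      rw [hs, hRv, hRv, symm_s hε hcd hs]
      exact rF_sF v
    · intro v
      rw [hRv, hRv]
      exact hc v
  rcases invol_cases t ht with ⟨σ, h⟩ | ⟨σ, n, hn, h⟩ | ⟨n, m, hn, hm, hnm, h⟩
  · exfalso
    refine key 1 1 0 (Or.inl rfl) (by norm_num) fun v => ?_
    rw [h, h]
    refine QuaternionAlgebra.ext ?_ ?_ ?_ ?_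
    · rfl
    · change 1 * (σ * v.imI) = σ * (1 * v.imI)
      ring
    · change 1 * (σ * v.imJ) + 0 * (σ * v.imK) = σ * (1 * v.imJ + 0 * v.imK)
      ring
    · change 0 * (σ * v.imJ) - 1 * (σ * v.imK) = σ * (0 * v.imJ - 1 * v.imK)
      ring
  · exfalso
    obtain ⟨p, q, hpq, hfix⟩ := exists_fix n
    refine key 1 p q (Or.inl rfl) hpq fun v => ?_
    rw [h, h]
    exact rF_comm_refl hpq hfix v
  · obtain ⟨a, b, ha, hb, hab⟩ := halfturn_form hn hm hnm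
    have ht' : ∀ v, t v = tF a b v := fun v => by rw [h, hab]
    refine ⟨a, b, ha, hb, chi_of_noR ha hb ?_, ht'⟩
    intro η p q hη hpq hc
    refine key η p q hη hpq fun v => ?_
    rw [ht', ht']
    exact hc v

end ChiralQ
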