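import Pool.Agent.Lib.MP_bc704c_co.Q.Al1

/-! # MP_bc704c_co, row Al6: no mirror for standard generators -/

namespace ChiralQ

open Quaternion ChiralNF

private theorem Al6_unit {a : ℍ[ℝ]} (ha : normSq a = 1) : a * star a = 1 ∧ star a * a = 1 := by
  constructor
  · rw [Quaternion.self_mul_star, ha]; simp
  · rw [Quaternion.star_mul_self, ha]; simp

private theorem Al6_basis (p q r t : ℝ) : ∃ x : ℍ[ℝ], x.re = p ∧ x.imI = q ∧ x.imJ = r ∧ x.imK = t :=
  ⟨⟨p, q, r, t⟩, rfl, rfl, rfl, rfl⟩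

private theorem Al6_pm {t : ℝ} (h : t ^ 2 = 1) : t = 1 ∨ t = -1 := by
  have : (t - 1) * (t + 1) = 0 := by linear_combination h
  rcases mul_eq_zero.1 this with h | h
  · left; linarith
  · right; linarith

/-- Row Al6. `x v ȳ = v` for all `v` (`x, y` unit) means `x = y = 1` or `x = y = -1`: `v = 1` gives
`x = y`, so `x` commutes with `i` and `j` and is real. Apply it to `ā' a`, `b̄' b`. -/
theorem tF_inj {a b a' b' : ℍ[ℝ]} (ha : normSq a = 1) (hb : normSq b = 1) (ha' : normSq a' = 1)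
    (hb' : normSq b' = 1) (h : ∀ v, tF a b v = tF a' b' v) :
    (a' = a ∧ b' = b) ∨ (a' = -a ∧ b' = -b) := by
  obtain ⟨ha1, ha2⟩ := Al6_unit ha
  obtain ⟨hb1, hb2⟩ := Al6_unit hb
  obtain ⟨ha1', ha2'⟩ := Al6_unit ha'
  obtain ⟨hb1', hb2'⟩ := Al6_unit hb'
  obtain ⟨x, hx⟩ : ∃ x : ℍ[ℝ], x = star a' * a := ⟨_, rfl⟩
  obtain ⟨y, hy⟩ : ∃ y : ℍ[ℝ], y = star b' * b := ⟨_, rfl⟩
  have hyx : normSq y = 1 := by
    rw [hy, map_mul, Quaternion.normSq_star, hb, hb', one_mul]
  obtain ⟨hy1, hy2⟩ := Al6_unit hyx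
  have hnx : normSq x = 1 := by
    rw [hx, map_mul, Quaternion.normSq_star, ha, ha', one_mul]
  have hxv : ∀ v : ℍ[ℝ], x * v * star y = v := by
    intro v
    have h1 : a * v * star b = a' * v * star b' := h v
    have hsy : star y = star b * b' := by rw [hy, star_mul, star_star]
    rw [hsy, hx]
    calc star a' * a * v * (star b * b') = star a' * (a * v * star b) * b' := by noncomm_ring
      _ = star a' * (a' * v * star b') * b' := by rw [h1]
      _ = (star a' * a') * v * (star b' * b') := by noncomm_ring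
      _ = v := by rw [ha2', hb2', one_mul, mul_one]
  have hxy : x = y := by
    have h1 := hxv 1
    rw [mul_one] at h1
    calc x = x * (star y * y) := by rw [hy2, mul_one]
      _ = (x * star y) * y := by rw [mul_assoc]
      _ = y := by rw [h1, one_mul]
  have hcomm : ∀ v : ℍ[ℝ], x * v = v * x := by
    intro v
    calc x * v = x * v * (star y * y) := by rw [hy2, mul_one]
      _ = (x * v * star y) * y := by noncomm_ring
      _ = v * x := by rw [hxv, hxy]
  obtain ⟨qi, qi0, qi1, qi2, qi3⟩ := Al6_basis 0 1 0 0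
  obtain ⟨qj, qj0, qj1, qj2, qj3⟩ := Al6_basis 0 0 1 0
  have hi := hcomm qi
  have hj := hcomm qj
  have hiJ := congrArg (fun q : ℍ[ℝ] => q.imJ) hi
  have hiK := congrArg (fun q : ℍ[ℝ] => q.imK) hi
  have hjK := congrArg (fun q : ℍ[ℝ] => q.imK) hj
  simp only [Quaternion.imJ_mul, Quaternion.imK_mul, qi0, qi1, qi2, qi3, qj0, qj1, qj2, qj3] at hiJ hiK hjK
  have e1 : x.imJ = 0 := by linarith
  have e2 : x.imK = 0 := by linarith
  have e3 : x.imI = 0 := by linarith
  have e4 : x.re ^ 2 = 1 := by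
    have h1 := hnx
    rw [Quaternion.normSq_def'] at h1
    rw [e1, e2, e3] at h1
    linarith
  have hax : a' * x = a := by rw [hx, ← mul_assoc, ha1', one_mul]
  have hbx : b' * x = b := by rw [hxy, hy, ← mul_assoc, hb1', one_mul]
  rcases Al6_pm e4 with h1 | h1
  · left
    have hx1 : x = 1 := by
      ext <;> simp [e1, e2, e3, h1]
    rw [hx1, mul_one] at hax hbx
    exact ⟨hax, hbx⟩
  · right
    have hx1 : x = -1 := by
      ext <;> simp [e1, e2, e3, h1]
    rw [hx1, mul_neg, mul_one] at hax hbx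
    exact ⟨by rw [← hax, neg_neg], by rw [← hbx, neg_neg]⟩

/-- Row Al6. An isometry with `R 1 = 1` which inverts `s` (`d ≠ 0`) is one of the `rF η p q`:
`s + s.symm` has the eigenvalue `2 ε` at `i`, `2` at `1` and `2 c` on the plane of `j, k`, and
`R` commutes with it. If `ε = 1` or `ε = -1`, `c ≠ ε` (as `d ≠ 0`), so `R` preserves the plane of `j, k`
and its orthogonal complement, hence `R i = η i`. On the plane
`R (s j) = s.symm (R j)`, `s j = c j + d k` gives `R k` from `R j = p j + q k`: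
`c R j + d R k = c (R j) - d J (R j)`, `J (p j + q k) = p k - q j`; so `R k = q j - p k`. -/
theorem R_form {s R : ℍ[ℝ] ≃ₗᵢ[ℝ] ℍ[ℝ]} {ε c d : ℝ} (hε : ε = 1 ∨ ε = -1)
    (hcd : c ^ 2 + d ^ 2 = 1) (hd : d ≠ 0) (hs : ∀ v, s v = sF ε c d v) (h1 : R 1 = 1)
    (h2 : ∀ v, R (s v) = s.symm (R v)) :
    ∃ η p q : ℝ, (η = 1 ∨ η = -1) ∧ p ^ 2 + q ^ 2 = 1 ∧ ∀ v, R v = rF η p q v := by
  have hε2 : ε * ε = 1 := by rcases hε with h | h <;> rw [h] <;> norm_num
  have hsymm : ∀ w, s.symm w = sF ε c (-d) w := by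
    intro w
    rw [LinearIsometryEquiv.symm_apply_eq, hs]
    ext
    · simp [sF]
    · simp only [sF]
      rw [← mul_assoc, hε2, one_mul]
    · simp only [sF]
      linear_combination (-w.imJ) * hcd
    · simp only [sF]
      linear_combination (-w.imK) * hcd
  have hin : ∀ v w : ℍ[ℝ], inner ℝ (R v) (R w) = inner ℝ v w := fun v w => R.inner_map_map v w
  have hre : ∀ v : ℍ[ℝ], (R v).re = v.re := by
    intro v
    have := hin v 1
    rw [h1] at this
    simpa [Quaternion.inner_def] using this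
  obtain ⟨qi, qi0, qi1, qi2, qi3⟩ := Al6_basis 0 1 0 0
  obtain ⟨qj, qj0, qj1, qj2, qj3⟩ := Al6_basis 0 0 1 0
  obtain ⟨qk, qk0, qk1, qk2, qk3⟩ := Al6_basis 0 0 0 1
  have hsi : s qi = ε • qi := by
    rw [hs]
    ext <;> simp [sF, qi0, qi1, qi2, qi3]
  have hsj : s qj = c • qj + d • qk := by
    rw [hs]
    ext <;> simp [sF, qj0, qj1, qj2, qj3, qk0, qk1, qk2, qk3]
  have hRi := h2 qi
  rw [hsi, map_smul, hsymm] at hRi
  have hRiJ := congrArg (fun q : ℍ[ℝ] => q.imJ) hRi
  have hRiK := congrArg (fun q : ℍ[ℝ] => q.imK) hRi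
  simp only [sF, Quaternion.imJ_smul, Quaternion.imK_smul, smul_eq_mul] at hRiJ hRiK
  have hdet : (c - ε) ^ 2 + d ^ 2 ≠ 0 := by positivity
  have hiJ : (R qi).imJ = 0 := by
    have : ((c - ε) ^ 2 + d ^ 2) * (R qi).imJ = 0 := by
      linear_combination (-(c - ε)) * hRiJ + d * hRiK
    exact (mul_eq_zero.1 this).resolve_left hdet
  have hiK : (R qi).imK = 0 := by
    have : ((c - ε) ^ 2 + d ^ 2) * (R qi).imK = 0 := by
      linear_combination (-(c - ε)) * hRiK - d * hRiJ
    exact (mul_eq_zero.1 this).resolve_left hdet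
  have hiR : (R qi).re = 0 := by rw [hre, qi0]
  have hjR : (R qj).re = 0 := by rw [hre, qj0]
  have hii := hin qi qi
  have hjj := hin qj qj
  have hij := hin qj qi
  simp only [Quaternion.inner_def, Quaternion.re_mul, Quaternion.re_star, Quaternion.imI_star,
    Quaternion.imJ_star, Quaternion.imK_star, hiJ, hiK, hiR, hjR, qi0, qi1, qi2, qi3, qj0, qj1,
    qj2, qj3] at hii hjj hij
  have hη1 : (R qi).imI = 1 ∨ (R qi).imI = -1 := by
    apply Al6_pm
    linarith
  have hη2 : (R qi).imI ^ 2 = 1 := by linarith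
  have hjI : (R qj).imI = 0 := by
    have e1 : (R qj).imI * (R qi).imI = 0 := by linarith
    rcases hη1 with h | h
    · rw [h] at e1; linarith
    · rw [h] at e1; linarith
  rw [hjI] at hjj
  have hRj := h2 qj
  rw [hsj, map_add, map_smul, map_smul, hsymm] at hRj
  have hRjI := congrArg (fun q : ℍ[ℝ] => q.imI) hRj
  have hRjJ := congrArg (fun q : ℍ[ℝ] => q.imJ) hRj
  have hRjK := congrArg (fun q : ℍ[ℝ] => q.imK) hRj
  simp only [sF, Quaternion.imI_add, Quaternion.imJ_add, Quaternion.imK_add, Quaternion.imI_smul,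
    Quaternion.imJ_smul, Quaternion.imK_smul, smul_eq_mul, hjI] at hRjI hRjJ hRjK
  have hkR : (R qk).re = 0 := by rw [hre, qk0]
  have hkI : (R qk).imI = 0 := by
    have : d * (R qk).imI = 0 := by linarith
    exact (mul_eq_zero.1 this).resolve_left hd
  have hkJ : (R qk).imJ = (R qj).imK := mul_left_cancel₀ hd (by linarith)
  have hkK : (R qk).imK = -(R qj).imJ := mul_left_cancel₀ hd (by linarith)
  refine ⟨(R qi).imI, (R qj).imJ, (R qj).imK, hη1, by linarith, fun v => ?_⟩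
  have hv : v = v.re • (1 : ℍ[ℝ]) + v.imI • qi + v.imJ • qj + v.imK • qk := by
    ext <;> simp [qi0, qi1, qi2, qi3, qj0, qj1, qj2, qj3, qk0, qk1, qk2, qk3]
  have hRv : R v = v.re • (1 : ℍ[ℝ]) + v.imI • R qi + v.imJ • R qj + v.imK • R qk := by
    conv_lhs => rw [hv]
    rw [map_add, map_add, map_add, map_smul, map_smul, map_smul, map_smul, h1]
  rw [hRv]
  ext
  · simp [rF, hiR, hjR, hkR]
  · simp [rF, hjI, hkI]
    ring
  · simp [rF, hiJ, hkJ]
    ring
  · simp [rF, hiK, hkK]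
    ring

end ChiralQ
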