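import Pool.Agent.Lib.MP_bc704c_co.Q.Al6

/-! # MP_bc704c_co, row Al7: no mirror for standard generators -/

namespace ChiralQ

open Quaternion ChiralNF

private theorem Al7_t1 (a b : ℍ[ℝ]) (ha : a.re = 0) (hb : b.re = 0) :
    (tF a b 1).re = a.imI * b.imI + a.imJ * b.imJ + a.imK * b.imK ∧
    (tF a b 1).imI = -(a.imJ * b.imK - a.imK * b.imJ) ∧
    (tF a b 1).imJ = a.imI * b.imK - b.imI * a.imK ∧
    (tF a b 1).imK = -(a.imI * b.imJ) + b.imI * a.imJ := by
  refine ⟨?_, ?_, ?_, ?_⟩ <;> simp [tF, ha, hb] <;> ring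

private theorem Al7_t2 (a b v : ℍ[ℝ]) (ha : a.re = 0) (hb : b.re = 0) (i0 : v.re = 0) (i1 : v.imI = 1)
    (i2 : v.imJ = 0) (i3 : v.imK = 0) :
    (tF a b v).imJ = a.imI * b.imJ + b.imI * a.imJ ∧
    (tF a b v).imK = a.imI * b.imK + b.imI * a.imK := by
  refine ⟨?_, ?_⟩ <;> simp [tF, ha, hb, i0, i1, i2, i3] <;> ring

/-- Row Al7. By `R_form` it is enough to show that `rF η p q` does not commute with `v ↦ a v b̄` if
`Chi a b`. For `η = -1`: `rF (-1) p q v = r v r̄` with `r` a unit in the plane of `j, k` with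
`r_J ^ 2 - r_K ^ 2 = p`, `2 r_J r_K = q`; commutation means by `tF_inj` that `r a r̄ = σ a`,
`r b r̄ = σ b`, `σ = ±1`, i.e. `rF (-1) p q a = σ a` and `rF (-1) p q b = σ b`; `σ = 1` gives
`α = 0 = β`, `σ = -1` gives that `u` and `w` both are eigenvectors with eigenvalue `-1` of the reflexion,
which has determinant `-1`, so `u, w` are dependent. For `η = 1`: `rF 1 p q v = r v̄ r̄`, commutation
means `r b r̄ = σ a`, `r a r̄ = σ b`, and on imaginary quaternions `r x r̄ = - rF 1 p q x`, so the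
`i`-components give `β = -σ α`. (All this can also be done in coordinates: put `v = 1, i, j, k`.) -/
theorem Std.noR {s t : ℍ[ℝ] ≃ₗᵢ[ℝ] ℍ[ℝ]} {ε c d : ℝ} {a b : ℍ[ℝ]} (H : Std s t ε c d a b) :
    ¬ ∃ R : ℍ[ℝ] ≃ₗᵢ[ℝ] ℍ[ℝ], R 1 = 1 ∧ (∀ v, R (s v) = s.symm (R v)) ∧
      ∀ v, R (t v) = t (R v) := by
  rintro ⟨R, hR1, hRs, hRt⟩
  obtain ⟨η, p, q, hη, hpq, hR⟩ := R_form H.hε H.hcd H.hd H.hs hR1 hRs
  obtain ⟨ha0, ha⟩ := H.ha
  obtain ⟨hb0, hb⟩ := H.hb
  obtain ⟨hne, hind⟩ := H.chi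
  have ht := H.ht
  obtain ⟨I0, i0, i1, i2, i3⟩ : ∃ I0 : ℍ[ℝ], I0.re = 0 ∧ I0.imI = 1 ∧ I0.imJ = 0 ∧ I0.imK = 0 :=
    ⟨⟨0, 1, 0, 0⟩, rfl, rfl, rfl, rfl⟩
  have e1 : rF η p q (tF a b 1) = tF a b 1 := by
    have h := hRt 1
    rw [hR1, ht, hR] at h
    exact h
  have e2 : rF η p q (tF a b I0) = tF a b (rF η p q I0) := by
    have h := hRt I0
    rw [ht, ht, hR, hR] at h
    exact h
  obtain ⟨-, s2, s3, s4⟩ := Al7_t1 a b ha0 hb0
  have hη1 : η = 1 := by
    have h := congrArg QuaternionAlgebra.imI e1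
    have h' : η * (tF a b 1).imI = (tF a b 1).imI := h
    rw [s2] at h'
    have h2 : (η - 1) * (a.imJ * b.imK - a.imK * b.imJ) = 0 := by linear_combination -h'
    rcases mul_eq_zero.1 h2 with h3 | h3
    · linarith
    · exact absurd h3 hind
  subst hη1
  have r1 : rF 1 p q I0 = I0 := by
    ext
    · rfl
    · show 1 * I0.imI = I0.imI
      ring
    · show p * I0.imJ + q * I0.imK = I0.imJ
      rw [i2, i3]; ring
    · show q * I0.imJ - p * I0.imK = I0.imK
      rw [i2, i3]; ring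
  rw [r1] at e2
  obtain ⟨u3, u4⟩ := Al7_t2 a b I0 ha0 hb0 i0 i1 i2 i3
  have f1 : p * (tF a b 1).imJ + q * (tF a b 1).imK = (tF a b 1).imJ := congrArg QuaternionAlgebra.imJ e1
  have f2 : q * (tF a b 1).imJ - p * (tF a b 1).imK = (tF a b 1).imK := congrArg QuaternionAlgebra.imK e1
  have g1 : p * (tF a b I0).imJ + q * (tF a b I0).imK = (tF a b I0).imJ := congrArg QuaternionAlgebra.imJ e2
  have g2 : q * (tF a b I0).imJ - p * (tF a b I0).imK = (tF a b I0).imK := congrArg QuaternionAlgebra.imK e2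
  rw [s3, s4] at f1 f2
  rw [u3, u4] at g1 g2
  generalize a.imI = α at *
  generalize b.imI = β at *
  generalize a.imJ = a2 at *
  generalize a.imK = a3 at *
  generalize b.imJ = b2 at *
  generalize b.imK = b3 at *
  have key : (α * b2 + β * a2) * (-(α * b2) + β * a2) - (α * b3 + β * a3) * (α * b3 - β * a3) = 0 := by
    by_cases hp : p = 1
    · subst hp
      have hq : q = 0 := by
        have : q ^ 2 = 0 := by linarith
        exact (pow_eq_zero_iff two_ne_zero).1 this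
      subst hq
      have y1 : α * b3 + β * a3 = 0 := by linarith
      have y2 : -(α * b2) + β * a2 = 0 := by linarith
      rw [y1, y2]; ring
    · have hp' : (1 - p) ≠ 0 := fun h => hp (by linarith)
      have : (1 - p) * ((α * b2 + β * a2) * (-(α * b2) + β * a2) -
          (α * b3 + β * a3) * (α * b3 - β * a3)) = 0 := by
        linear_combination (-(-(α * b2) + β * a2)) * g1 + (α * b3 + β * a3) * f1
      exact (mul_eq_zero.1 this).resolve_left hp'
  apply hne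
  linear_combination -key - α ^ 2 * hb + β ^ 2 * ha

end ChiralQ
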