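import Pool.Agent.Lib.MP_bc704c_co.Q.Al1

/-! # MP_bc704c_co, row Al8: fixed vectors, neighbours of the base vertex -/

namespace ChiralQ

open Quaternion ChiralNF

variable {s t : ℍ[ℝ] ≃ₗᵢ[ℝ] ℍ[ℝ]} {ε c d : ℝ} {a b : ℍ[ℝ]}

/-- a plane rotation by `(c, d)` which fixes `(y, z)` -/
private theorem Al8_plane {c d y z : ℝ} (h1 : c * y - d * z = y) (h2 : d * y + c * z = z)
    (h : (c - 1) ^ 2 + d ^ 2 ≠ 0) : y = 0 ∧ z = 0 := by
  have e1 : ((c - 1) ^ 2 + d ^ 2) * y = 0 := by
    linear_combination (c - 1) * h1 + d * h2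
  have e2 : ((c - 1) ^ 2 + d ^ 2) * z = 0 := by
    linear_combination (c - 1) * h2 - d * h1
  exact ⟨(mul_eq_zero.1 e1).resolve_left h, (mul_eq_zero.1 e2).resolve_left h⟩

private theorem Al8_star_mul {b : ℍ[ℝ]} (hb : UI b) : star b * b = 1 := by
  rw [hb.star, neg_mul, hb.mul_self, neg_neg]

/-- Row Al8. `s v = v` gives `v.imJ = v.imK = 0` (`(c - 1)^2 + d^2 ≠ 0`). Then `v = x + y i`, and
`t v = v` means `a v = v b`: `(α i + u)(x + y i) = (x + y i)(β i + w)`; the `1` and `i` parts give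
`α x = β x`, `α y = β y`, and `α ≠ β`. -/
theorem Std.fix_zero (H : Std s t ε c d a b) {v : ℍ[ℝ]} (h1 : s v = v) (h2 : t v = v) : v = 0 := by
  rw [H.hs] at h1
  have hJ : c * v.imJ - d * v.imK = v.imJ := congrArg QuaternionAlgebra.imJ h1
  have hK : d * v.imJ + c * v.imK = v.imK := congrArg QuaternionAlgebra.imK h1
  have hne : (c - 1) ^ 2 + d ^ 2 ≠ 0 := by
    have := H.hd
    positivity
  obtain ⟨yJ, yK⟩ := Al8_plane hJ hK hne
  rw [H.ht, tF] at h2
  have h3 : a * v = v * b := by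
    have := congrArg (fun x => x * b) h2
    simpa [mul_assoc, Al8_star_mul H.hb] using this
  have hα : a.imI ≠ b.imI := by
    intro h
    exact H.chi.1 (by rw [h])
  have r0 := congrArg QuaternionAlgebra.re h3
  have r1 := congrArg QuaternionAlgebra.imI h3
  have ha0 := H.ha.1
  have hb0 := H.hb.1
  simp only [Quaternion.re_mul, Quaternion.imI_mul, yJ, yK, ha0, hb0] at r0 r1
  have x0 : v.re = 0 := by
    have : (a.imI - b.imI) * v.re = 0 := by linear_combination r1
    exact (mul_eq_zero.1 this).resolve_left (sub_ne_zero.2 hα)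
  have y0 : v.imI = 0 := by
    have : (a.imI - b.imI) * v.imI = 0 := by linear_combination -r0
    exact (mul_eq_zero.1 this).resolve_left (sub_ne_zero.2 hα)
  ext
  · exact x0
  · exact y0
  · exact yJ
  · exact yK

private theorem Al8_comp (e1 c1 d1 e2 c2 d2 : ℝ) (v : ℍ[ℝ]) :
    sF e1 c1 d1 (sF e2 c2 d2 v) = sF (e1 * e2) (c1 * c2 - d1 * d2) (c1 * d2 + d1 * c2) v := by
  ext <;> simp [sF] <;> ring

private theorem Al8_npow (H : Std s t ε c d a b) (n : ℕ) :
    ∃ ε' c' d' : ℝ, (ε' = 1 ∨ ε' = -1) ∧ (ε = 1 → ε' = 1) ∧ c' ^ 2 + d' ^ 2 = 1 ∧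
      ∀ v, (s ^ n) v = sF ε' c' d' v := by
  induction n with
  | zero =>
    refine ⟨1, 1, 0, Or.inl rfl, fun _ => rfl, by norm_num, fun v => ?_⟩
    rw [pow_zero]
    change v = _
    ext <;> simp [sF]
  | succ n ih =>
    obtain ⟨e', c', d', he, h1, hcd, hv⟩ := ih
    refine ⟨ε * e', c * c' - d * d', c * d' + d * c', ?_, ?_, ?_, ?_⟩
    · rcases H.hε with h | h <;> rcases he with h' | h' <;> simp [h, h']
    · intro h
      rw [h1 h, h, mul_one]
    · linear_combination (c ^ 2 + d ^ 2) * hcd + H.hcd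
    · intro v
      rw [pow_succ']
      change s ((s ^ n) v) = _
      rw [hv, H.hs, Al8_comp]

/-- Row Al8. The powers of `s` are `sF (ε ^ j) c' d'` with `c' ^ 2 + d' ^ 2 = 1`. -/
theorem Std.zpow (H : Std s t ε c d a b) (j : ℤ) :
    ∃ ε' c' d' : ℝ, (ε' = 1 ∨ ε' = -1) ∧ (ε = 1 → ε' = 1) ∧ c' ^ 2 + d' ^ 2 = 1 ∧
      ∀ v, (s ^ j) v = sF ε' c' d' v := by
  cases j with
  | ofNat n =>
    simpa using Al8_npow H n
  | negSucc n =>
    obtain ⟨e', c', d', he, h1, hcd, hv⟩ := Al8_npow H (n + 1)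
    refine ⟨e', c', -d', he, h1, by linear_combination hcd, fun v => ?_⟩
    rw [zpow_negSucc]
    exact symm_s he hcd hv v

private theorem Al8_JK (H : Std s t ε c d a b) : (t 1).imJ ≠ 0 ∨ (t 1).imK ≠ 0 := by
  by_contra hcon
  have hJ := not_not.1 (not_or.1 hcon).1
  have hK := not_not.1 (not_or.1 hcon).2
  rw [H.ht, tF, mul_one, H.hb.star] at hJ hK
  have ha0 := H.ha.1
  have hb0 := H.hb.1
  simp only [mul_neg, Quaternion.imJ_neg, Quaternion.imK_neg, Quaternion.imJ_mul,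
    Quaternion.imK_mul, ha0, hb0] at hJ hK
  have hdet := H.chi.2
  have hα : a.imI = 0 := by
    have : a.imI * (a.imJ * b.imK - a.imK * b.imJ) = 0 := by
      linear_combination a.imJ * hJ + a.imK * hK
    exact (mul_eq_zero.1 this).resolve_right hdet
  have hβ : b.imI = 0 := by
    have : b.imI * (a.imJ * b.imK - a.imK * b.imJ) = 0 := by
      linear_combination b.imK * hK + b.imJ * hJ
    exact (mul_eq_zero.1 this).resolve_right hdet
  exact H.chi.1 (by rw [hα, hβ])

/-- Row Al8. `t 1 = a b̄ = - a b`; its part in the plane of `j, k` is `i (β u - α w) ≠ 0` (as `u, w` are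
independent and `(α, β) ≠ 0`), so `c' = 1, d' = 0`. If `ε' = -1` the `i`-part of `a b` is zero.
So if `ε = 1` the conclusion is `s ^ j = 1`. -/
theorem Std.edge_fix (H : Std s t 1 c d a b) {j : ℤ} (h : (s ^ j) (t 1) = t 1) : s ^ j = 1 := by
  obtain ⟨e', c', d', he, h1, hcd, hv⟩ := H.zpow j
  have he1 : e' = 1 := h1 rfl
  subst he1
  rw [hv] at h
  have hJ : c' * (t 1).imJ - d' * (t 1).imK = (t 1).imJ := congrArg QuaternionAlgebra.imJ h
  have hK : d' * (t 1).imJ + c' * (t 1).imK = (t 1).imK := congrArg QuaternionAlgebra.imK h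
  have hz : (c' - 1) ^ 2 + d' ^ 2 = 0 := by
    by_contra hne
    obtain ⟨z1, z2⟩ := Al8_plane hJ hK hne
    rcases Al8_JK H with h' | h'
    · exact h' z1
    · exact h' z2
  have hd' : d' = 0 := by
    have : d' ^ 2 = 0 := by nlinarith [sq_nonneg (c' - 1), sq_nonneg d']
    exact pow_eq_zero_iff (two_ne_zero) |>.1 this
  have hc' : c' = 1 := by
    have : (c' - 1) ^ 2 = 0 := by nlinarith [sq_nonneg (c' - 1), sq_nonneg d']
    have := pow_eq_zero_iff (two_ne_zero) |>.1 this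
    linarith
  subst hd' hc'
  apply LinearIsometryEquiv.ext
  intro v
  rw [hv]
  change _ = v
  ext <;> simp [sF]

/-- Row Al8. `t 1 ≠ 1`: otherwise `a b = -1`, `b = a`. -/
theorem Std.t1 (H : Std s t ε c d a b) : t 1 ≠ 1 := by
  intro h
  rcases Al8_JK H with h' | h' <;> exact h' (by rw [h]; simp)

/-- Row Al8. The vectors `1, t 1, s (t 1), s (s (t 1)), ...` : a point fixed up to translations does not
occur, `GG s t` has no fixed vector except `0`. -/
theorem Std.fix_zero' (H : Std s t ε c d a b) {v : ℍ[ℝ]} (h : ∀ g ∈ GG s t, g v = v) : v = 0 :=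
  H.fix_zero (h s (Subgroup.subset_closure (by simp))) (h t (Subgroup.subset_closure (by simp)))

end ChiralQ
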