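import Pool.Agent.Lib.MP_bc704c_co.Q.Al8

/-! # MP_bc704c_co, row Al8b: the vertices span -/

namespace ChiralQ

open Quaternion ChiralNF

variable {s t : ℍ[ℝ] ≃ₗᵢ[ℝ] ℍ[ℝ]} {ε c d : ℝ} {a b : ℍ[ℝ]}

/-- the linear algebra: three equations -/
private theorem Al8b_alg {ε c d κ p q x y z : ℝ} (hε : ε = 1 ∨ ε = -1) (hcd : c ^ 2 + d ^ 2 = 1)
    (hd : d ≠ 0) (hκ : κ ≠ 0) (hpq : p ^ 2 + q ^ 2 ≠ 0)
    (e0 : κ * x + p * y + q * z = 0)
    (e1 : κ * (ε * x) + p * (c * y - d * z) + q * (d * y + c * z) = 0)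
    (e2 : κ * (ε * (ε * x)) + p * (c * (c * y - d * z) - d * (d * y + c * z)) +
      q * (d * (c * y - d * z) + c * (d * y + c * z)) = 0) :
    x = 0 ∧ y = 0 ∧ z = 0 := by
  have hεε : ε * ε = 1 := by rcases hε with h | h <;> rw [h] <;> norm_num
  have hc : 1 - ε * c ≠ 0 := by
    intro h
    have h1 : ε * c = 1 := by linarith
    have h2 : c ^ 2 = 1 := by
      calc c ^ 2 = (ε * ε) * c ^ 2 := by rw [hεε, one_mul]
        _ = (ε * c) ^ 2 := by ring
        _ = 1 := by rw [h1]; norm_num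
    have h3 : d ^ 2 = 0 := by linarith
    exact hd (pow_eq_zero_iff (two_ne_zero) |>.1 h3)
  set A : ℝ := p * y + q * z with hA
  set B : ℝ := q * y - p * z with hB
  have f0 : κ * x = -A := by rw [hA]; linarith
  have f1 : -(ε * A) + c * A + d * B = 0 := by
    have : κ * (ε * x) = -(ε * A) := by
      calc κ * (ε * x) = ε * (κ * x) := by ring
        _ = -(ε * A) := by rw [f0]; ring
    rw [this] at e1
    rw [hA, hB] at *
    linarith
  have f2 : -A + (c ^ 2 - d ^ 2) * A + 2 * c * d * B = 0 := by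
    have : κ * (ε * (ε * x)) = -A := by
      calc κ * (ε * (ε * x)) = (ε * ε) * (κ * x) := by ring
        _ = -A := by rw [f0, hεε, one_mul]
    rw [this] at e2
    rw [hA, hB] at *
    linarith
  have f3 : d * (d * A - c * B) = 0 := by
    linear_combination (-1 / 2 : ℝ) * f2 + (1 / 2 : ℝ) * A * hcd
  have f4 : d * A - c * B = 0 := (mul_eq_zero.1 f3).resolve_left hd
  have f5 : (1 - ε * c) * A = 0 := by
    linear_combination c * f1 + d * f4 - A * hcd
  have hA0 : A = 0 := (mul_eq_zero.1 f5).resolve_left hc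
  have hB0 : B = 0 := by
    rw [hA0] at f1
    have : d * B = 0 := by linarith
    exact (mul_eq_zero.1 this).resolve_left hd
  have hx : x = 0 := by
    rw [hA0] at f0
    have : κ * x = 0 := by linarith
    exact (mul_eq_zero.1 this).resolve_left hκ
  have hy : (p ^ 2 + q ^ 2) * y = 0 := by
    have : (p ^ 2 + q ^ 2) * y = p * A + q * B := by rw [hA, hB]; ring
    rw [this, hA0, hB0]; ring
  have hz : (p ^ 2 + q ^ 2) * z = 0 := by
    have : (p ^ 2 + q ^ 2) * z = q * A - p * B := by rw [hA, hB]; ring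
    rw [this, hA0, hB0]; ring
  exact ⟨hx, (mul_eq_zero.1 hy).resolve_left hpq, (mul_eq_zero.1 hz).resolve_left hpq⟩

/-- the real part of `t v` for an imaginary `v` -/
private theorem Al8b_re {a b v : ℍ[ℝ]} (ha : a.re = 0) (hb : b.re = 0) (hv : v.re = 0) :
    (tF a b v).re = (a.imK * b.imJ - a.imJ * b.imK) * v.imI +
      (a.imI * b.imK - a.imK * b.imI) * v.imJ + (a.imJ * b.imI - a.imI * b.imJ) * v.imK := by
  simp [tF, ha, hb, hv]
  ring

/-- Row Al8. The vertices span: the span `W` of the `g 1`, `g ∈ GG s t`, is invariant and so is its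
orthogonal complement `W'`. `s` acts as the identity on `W'` if ... Let `v ∈ W'`, so `⟪g 1, v⟫ = 0`, in
particular `v.re = 0`, and every `g v ∈ W'`, so `(g v).re = 0` for all `g`. Hence
`(t v).re = Re (a v b̄) = 0`, `(t (s ^ j v)).re = 0`, `(t (t v)).re = 0`. `Re (a v b̄) = - Re (b a v)`
is linear in `v` with the coefficients: of `v.imI` : the `i`-part `κ` of `b a`, of the `(j, k)`-part:
`⟪π, ·⟫` where `π` is the `(j,k)`-part of `b a`, which is not zero as in `edge_fix`. As `s` turns the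
plane by an angle which is not a multiple of `π` (`d ≠ 0`), from `v, s v, s (s v), s (s (s v))` one gets:
the `(j,k)`-part of `v` is `0` (the sequence `ε ^ n κ v.imI + ⟪π, s^n v_{jk}⟫` vanishes for all `n`;
apply `1 - ε s`). So `W' ⊆ ℝ i`. If `i ∈ W'` then `t i = ± i ∈ W'`: `a i b̄ = ± i`, i.e. `a i = ± i b`,
whose real part gives `α = ± β`. So `W' = 0`. -/
theorem Std.span (H : Std s t ε c d a b) :
    Submodule.span ℝ {p : ℍ[ℝ] | ∃ g ∈ GG s t, g 1 = p} = ⊤ := by
  rw [← Submodule.orthogonal_eq_bot_iff, eq_bot_iff]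
  intro v hv
  rw [Submodule.mem_bot]
  have key : ∀ g ∈ GG s t, (g v).re = 0 := by
    intro g hg
    have h1 : (g⁻¹ : ℍ[ℝ] ≃ₗᵢ[ℝ] ℍ[ℝ]) 1 ∈
        Submodule.span ℝ {p : ℍ[ℝ] | ∃ g ∈ GG s t, g 1 = p} :=
      Submodule.subset_span ⟨g⁻¹, inv_mem hg, rfl⟩
    have h2 := (Submodule.mem_orthogonal _ v).1 hv _ h1
    rw [← LinearIsometryEquiv.inner_map_map g] at h2
    have h3 : g ((g⁻¹ : ℍ[ℝ] ≃ₗᵢ[ℝ] ℍ[ℝ]) 1) = 1 := g.apply_symm_apply 1
    rw [h3, Quaternion.inner_def] at h2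
    simpa using h2
  have hsG : s ∈ GG s t := Subgroup.subset_closure (by simp)
  have htG : t ∈ GG s t := Subgroup.subset_closure (by simp)
  have hv0 : v.re = 0 := key 1 (one_mem _)
  have k0 : (t v).re = 0 := key t htG
  have k1 : (t (s v)).re = 0 := key (t * s) (mul_mem htG hsG)
  have k2 : (t (s (s v))).re = 0 := key (t * s * s) (mul_mem (mul_mem htG hsG) hsG)
  rw [H.ht] at k0 k1 k2
  rw [H.hs] at k1
  rw [H.hs (s v), H.hs v] at k2
  have hsre : ∀ w : ℍ[ℝ], (sF ε c d w).re = w.re := fun w => rfl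
  rw [Al8b_re H.ha.1 H.hb.1 hv0] at k0
  rw [Al8b_re H.ha.1 H.hb.1 (by rw [hsre]; exact hv0)] at k1
  rw [Al8b_re H.ha.1 H.hb.1 (by rw [hsre, hsre]; exact hv0)] at k2
  have hκ : a.imK * b.imJ - a.imJ * b.imK ≠ 0 := by
    intro h
    exact H.chi.2 (by linarith)
  have hpq : (a.imI * b.imK - a.imK * b.imI) ^ 2 + (a.imJ * b.imI - a.imI * b.imJ) ^ 2 ≠ 0 := by
    intro h
    have h1 : a.imI * b.imK - a.imK * b.imI = 0 := by nlinarith [sq_nonneg (a.imI * b.imK - a.imK * b.imI), sq_nonneg (a.imJ * b.imI - a.imI * b.imJ)]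
    have h2 : a.imJ * b.imI - a.imI * b.imJ = 0 := by nlinarith [sq_nonneg (a.imI * b.imK - a.imK * b.imI), sq_nonneg (a.imJ * b.imI - a.imI * b.imJ)]
    have h3 : a.imI * (a.imJ * b.imK - a.imK * b.imJ) = 0 := by
      linear_combination a.imJ * h1 + a.imK * h2
    have h4 : b.imI * (a.imJ * b.imK - a.imK * b.imJ) = 0 := by
      linear_combination b.imJ * h1 + b.imK * h2
    have h5 := (mul_eq_zero.1 h3).resolve_right H.chi.2
    have h6 := (mul_eq_zero.1 h4).resolve_right H.chi.2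
    exact H.chi.1 (by rw [h5, h6])
  obtain ⟨hx, hy, hz⟩ := Al8b_alg H.hε H.hcd H.hd hκ hpq k0 k1 k2
  ext
  · exact hv0
  · exact hx
  · exact hy
  · exact hz

end ChiralQ
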