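import Pool.Agent.Lib.MP_bc704c_co.Main

/-!
# MP_bc704c_co: finite chiral polyhedra in E^4, definitions

`E^4` is identified with the quaternions, the base vertex is `1` and the centre is `0`.
-/

namespace ChiralQ

open Quaternion ChiralNF

noncomputable section

/-- The rotation (`ε = 1`) or rotatory reflexion (`ε = -1`) which fixes `1`, multiplies `i` by `ε` and
turns the plane of `j, k` by the angle with cosine `c` and sine `d`. -/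
def sF (ε c d : ℝ) (v : ℍ[ℝ]) : ℍ[ℝ] :=
  ⟨v.re, ε * v.imI, c * v.imJ - d * v.imK, d * v.imJ + c * v.imK⟩

/-- The map `v ↦ a v b̄`. -/
def tF (a b v : ℍ[ℝ]) : ℍ[ℝ] := a * v * star b

/-- Unit imaginary quaternions. -/
def UI (a : ℍ[ℝ]) : Prop := a.re = 0 ∧ a.imI ^ 2 + a.imJ ^ 2 + a.imK ^ 2 = 1

/-- `a = α i + u`, `b = β i + w` with `|α| ≠ |β|` and `u, w` linearly independent. -/
def Chi (a b : ℍ[ℝ]) : Prop := a.imI ^ 2 ≠ b.imI ^ 2 ∧ a.imJ * b.imK - a.imK * b.imJ ≠ 0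

/-- standard form of the two generators -/
structure Std (s t : ℍ[ℝ] ≃ₗᵢ[ℝ] ℍ[ℝ]) (ε c d : ℝ) (a b : ℍ[ℝ]) : Prop where
  hε : ε = 1 ∨ ε = -1
  hcd : c ^ 2 + d ^ 2 = 1
  hd : d ≠ 0
  ha : UI a
  hb : UI b
  chi : Chi a b
  hs : ∀ v, s v = sF ε c d v
  ht : ∀ v, t v = tF a b v

/-- the group generated by `s` and `t` -/
def GG (s t : ℍ[ℝ] ≃ₗᵢ[ℝ] ℍ[ℝ]) : Subgroup (ℍ[ℝ] ≃ₗᵢ[ℝ] ℍ[ℝ]) := Subgroup.closure {s, t}

/-- `c` is the cosine of the angle of a rotation of order 3, 4 or 5 of a polyhedral group and `x` is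
the squared cosine of the angle between its axis and the axis of a half-turn of this group -/
def Ax (c x : ℝ) : Prop :=
  x = 0 ∨
  (c = -1 / 2 ∧ (x = 1 / 3 ∨ x = 2 / 3 ∨ x = (3 + √5) / 6 ∨ x = (3 - √5) / 6)) ∨
  (c = 0 ∧ x = 1 / 2) ∨
  ((c = (√5 - 1) / 4 ∨ c = -(√5 + 1) / 4) ∧ (x = (5 + √5) / 10 ∨ x = (5 - √5) / 10))

/-- `x = cos (π k / n)` with `n ≤ 5` -/
def Cs (x : ℝ) : Prop :=
  x = 0 ∨ x ^ 2 = 1 ∨ x ^ 2 = 1 / 4 ∨ x ^ 2 = 1 / 2 ∨ x ^ 2 = (3 + √5) / 8 ∨ x ^ 2 = (3 - √5) / 8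

/-- the inner product of `a` and of `b' = β i - z w`, `z = c + d i` -/
def gam (c d : ℝ) (a b : ℍ[ℝ]) : ℝ :=
  a.imI * b.imI - (a.imJ * (c * b.imJ - d * b.imK) + a.imK * (d * b.imJ + c * b.imK))

/-- the list of the parameters -/
def Listed (ε c d : ℝ) (a b : ℍ[ℝ]) : Prop :=
  (ε = 1 ∧ Ax c (a.imI ^ 2) ∧ Ax c (b.imI ^ 2)) ∨
  (ε = -1 ∧ c ≠ 0 ∧ Ax (2 * c ^ 2 - 1) (a.imI ^ 2) ∧ Ax (2 * c ^ 2 - 1) (b.imI ^ 2) ∧
    Cs (gam c d a b)) ∨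
  (ε = -1 ∧ c = 0 ∧ Cs a.imI ∧ Cs b.imI ∧ Cs (gam c d a b)) ∨
  (ε = -1 ∧ c = 0 ∧ a.imJ * b.imJ + a.imK * b.imK = 0)

/-- The realization, seen through the similarity `Φ`, is the polyhedron of the generators `s, t`:
`GG s t` is its symmetry group, the stabiliser of the base vertex `1` is generated by `s`, the vertices
are the points `g 1`, the edges the pairs `{g 1, g (t 1)}`, the faces the sets `g ⟨s t⟩ 1`, and `g` runs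
through `GG s t`; an edge and a face are incident iff they are given by the same `g`. -/
structure Model {F : Type*} [PartialOrder F] [BoundedOrder F] (rk : F → ℤ)
    (β : F → EuclideanSpace ℝ (Fin 4)) (Φ : EuclideanSpace ℝ (Fin 4) → ℍ[ℝ])
    (s t : ℍ[ℝ] ≃ₗᵢ[ℝ] ℍ[ℝ]) : Prop where
  sim : ∃ r : ℝ, 0 < r ∧ ∀ x y, dist (Φ x) (Φ y) = r * dist x y
  surj : Function.Surjective Φ
  sym : ∀ h : ℍ[ℝ] ≃ᵢ ℍ[ℝ], (∃ φ : F ≃o F, ∀ x, rk x = 0 → h (Φ (β x)) = Φ (β (φ x))) ↔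
    ∃ g ∈ GG s t, ∀ v, h v = g v
  stab : ∀ g ∈ GG s t, g 1 = 1 → g ∈ Subgroup.zpowers s
  vert : ∀ p, (∃ x, rk x = 0 ∧ Φ (β x) = p) ↔ ∃ g ∈ GG s t, g 1 = p
  edge : ∀ A, (∃ x, rk x = 1 ∧ Φ '' vset rk β x = A) ↔ ∃ g ∈ GG s t, A = {g 1, g (t 1)}
  face : ∀ A, (∃ x, rk x = 2 ∧ Φ '' vset rk β x = A) ↔
    ∃ g ∈ GG s t, A = {p | ∃ j : ℤ, p = g (((s * t) ^ j) 1)}
  inc : ∀ x y, rk x = 1 → rk y = 2 → (x < y ↔ ∃ g ∈ GG s t,
    Φ '' vset rk β x = {g 1, g (t 1)} ∧ Φ '' vset rk β y = {p | ∃ j : ℤ, p = g (((s * t) ^ j) 1)})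

/-- `1, i` and the plane of `j, k` are preserved: the reflexions of this plane, extended by the
identity at `1` and by `η` at `i` -/
def rF (η p q : ℝ) (v : ℍ[ℝ]) : ℍ[ℝ] :=
  ⟨v.re, η * v.imI, p * v.imJ + q * v.imK, q * v.imJ - p * v.imK⟩

/-- a finite group of unit quaternions -/
structure FinGp (X : Set ℍ[ℝ]) : Prop where
  fin : X.Finite
  one : 1 ∈ X
  mul : ∀ x ∈ X, ∀ y ∈ X, x * y ∈ X
  star : ∀ x ∈ X, star x ∈ X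
  unit : ∀ x ∈ X, normSq x = 1

end

end ChiralQ
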