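import Pool.Agent.Lib.MP_bc704c_co.Q.Base

/-! # MP_bc704c_co, row Co1: adapted coordinates -/

namespace ChiralQ

open Quaternion ChiralNF Module

/-- Auxiliary for row Co1: an orthogonal `3 × 3` matrix has the eigenvalue `det A = ± 1`. -/
theorem Co1_det {A : Matrix (Fin 3) (Fin 3) ℝ} (h1 : A * A.transpose = 1) :
    ∃ δ : ℝ, (δ = 1 ∨ δ = -1) ∧ (A - δ • (1 : Matrix (Fin 3) (Fin 3) ℝ)).det = 0 := by
  have hd : A.det * A.det = 1 := by
    have := congrArg Matrix.det h1
    rwa [Matrix.det_mul, Matrix.det_transpose, Matrix.det_one] at this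
  have hδ : A.det = 1 ∨ A.det = -1 := mul_self_eq_one_iff.1 hd
  refine ⟨A.det, hδ, ?_⟩
  set δ := A.det with hδd
  have key : A - δ • (1 : Matrix (Fin 3) (Fin 3) ℝ)
      = (-δ) • (A * (A - δ • (1 : Matrix (Fin 3) (Fin 3) ℝ)).transpose) := by
    rw [Matrix.transpose_sub, Matrix.transpose_smul, Matrix.transpose_one, mul_sub, h1,
      Matrix.mul_smul, mul_one, smul_sub, smul_smul, neg_mul, hd]
    simp only [neg_smul, one_smul]
    abel
  have h2 := congrArg Matrix.det key
  rw [Matrix.det_smul, Matrix.det_mul, Matrix.det_transpose, ← hδd, Fintype.card_fin] at h2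
  have h3 : (-δ) ^ 3 * δ = -1 := by
    have : (-δ) ^ 3 * δ = -((δ * δ) * (δ * δ)) := by ring
    rw [this, hd]; norm_num
  rw [← mul_assoc, h3] at h2
  linarith

/-- Row Co1. A linear isometry of a 3-dimensional space has an eigenvector with eigenvalue `1` or `-1`:
with `δ = det g = ± 1` (`LinearIsometryEquiv` has determinant of absolute value one; the inverse is the
adjoint) `det (g - δ) = det g * det (1 - δ g⁻¹) = δ * det (1 - δ gᵀ) = δ * det (1 - δ g)
= δ * (-δ) ^ 3 * det (g - δ) = - det (g - δ)`, so it is `0`. (With matrices in an orthonormal basis: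
`A ∈ orthogonalGroup (Fin 3) ℝ`.) -/
theorem exists_eigen {V : Type*} [NormedAddCommGroup V] [InnerProductSpace ℝ V]
    [FiniteDimensional ℝ V] (hV : finrank ℝ V = 3) (g : V ≃ₗᵢ[ℝ] V) :
    ∃ (δ : ℝ) (e : V), (δ = 1 ∨ δ = -1) ∧ ‖e‖ = 1 ∧ g e = δ • e := by
  classical
  let b : OrthonormalBasis (Fin 3) ℝ V := (stdOrthonormalBasis ℝ V).reindex (finCongr hV)
  set A : Matrix (Fin 3) (Fin 3) ℝ :=
    LinearMap.toMatrix b.toBasis b.toBasis g.toLinearEquiv.toLinearMap with hA
  have hu : A ∈ Matrix.unitaryGroup (Fin 3) ℝ := g.toMatrix_mem_unitaryGroup b b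
  have h1 : A * A.transpose = 1 := by
    have := Matrix.mem_unitaryGroup_iff.1 hu
    rwa [Matrix.star_eq_conjTranspose, Matrix.conjTranspose_eq_transpose_of_trivial] at this
  obtain ⟨δ, hδ, hdet⟩ := Co1_det h1
  obtain ⟨v, hv0, hv⟩ := Matrix.exists_mulVec_eq_zero_iff.2 hdet
  have hAv : A.mulVec v = δ • v := by
    rw [Matrix.sub_mulVec, Matrix.smul_mulVec, Matrix.one_mulVec, sub_eq_zero] at hv
    exact hv
  set w : V := b.toBasis.equivFun.symm v with hw
  have hw0 : w ≠ 0 := by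
    rw [hw]; simpa using hv0
  have hgw : g w = δ • w := by
    apply b.toBasis.equivFun.injective
    rw [map_smul, hw, LinearEquiv.apply_symm_apply, ← hAv, hA]
    have := LinearMap.toMatrix_mulVec_repr b.toBasis b.toBasis g.toLinearEquiv.toLinearMap w
    have h4 : (b.toBasis.repr w : Fin 3 → ℝ) = v := by
      have := b.toBasis.equivFun.apply_symm_apply v
      rw [← hw] at this
      exact this
    rw [h4] at this
    rw [this]
    rfl
  have hn : ‖w‖ ≠ 0 := norm_ne_zero_iff.2 hw0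
  refine ⟨δ, ‖w‖⁻¹ • w, hδ, ?_, ?_⟩
  · rw [norm_smul, norm_inv, norm_norm, inv_mul_cancel₀ hn]
  · rw [map_smul, hgw, smul_comm]

end ChiralQ
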