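import Pool.Agent.Lib.MP_bc704c_co.Q.Co1

/-! # MP_bc704c_co, row Co1b: adapted coordinates -/

namespace ChiralQ

open Quaternion ChiralNF Module

/-- The isometry `s` has a unit eigenvector orthogonal to `v0`. -/
theorem co1b_eig {E : Type*} [NormedAddCommGroup E] [InnerProductSpace ℝ E]
    [FiniteDimensional ℝ E] (hE : finrank ℝ E = 4) (s : E ≃ₗᵢ[ℝ] E) {v0 : E} (h0 : ‖v0‖ = 1)
    (hs : s v0 = v0) :
    ∃ (δ : ℝ) (e : E), (δ = 1 ∨ δ = -1) ∧ ‖e‖ = 1 ∧ s e = δ • e ∧ inner ℝ v0 e = 0 := by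
  have hv0 : v0 ≠ 0 := by
    intro h
    rw [h, norm_zero] at h0
    exact zero_ne_one h0
  have hfr : finrank ℝ (Submodule.span ℝ {v0})ᗮ = 3 := by
    have : Fact (finrank ℝ E = 3 + 1) := ⟨hE⟩
    exact Submodule.finrank_orthogonal_span_singleton hv0
  have hmem : ∀ x, x ∈ (Submodule.span ℝ {v0})ᗮ ↔ inner ℝ v0 x = 0 := fun x =>
    Submodule.mem_orthogonal_singleton_iff_inner_right
  have hinv : ∀ x ∈ (Submodule.span ℝ {v0})ᗮ, s x ∈ (Submodule.span ℝ {v0})ᗮ := by
    intro x hx
    rw [hmem] at hx ⊢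
    have h1 : inner ℝ (s v0) (s x) = inner ℝ v0 x := s.inner_map_map v0 x
    rw [hs] at h1
    rw [h1, hx]
  let g0 : (Submodule.span ℝ {v0})ᗮ →ₗᵢ[ℝ] (Submodule.span ℝ {v0})ᗮ :=
    { toLinearMap := s.toLinearEquiv.toLinearMap.restrict hinv
      norm_map' := by
        intro x
        change ‖s (x : E)‖ = ‖(x : E)‖
        exact s.norm_map _ }
  let g := g0.toLinearIsometryEquiv rfl
  obtain ⟨δ, e, hδ, hen, hge⟩ := exists_eigen hfr g
  refine ⟨δ, (e : E), hδ, hen, ?_, (hmem _).1 e.2⟩
  have h2 : ((g e : (Submodule.span ℝ {v0})ᗮ) : E) = s (e : E) := rfl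
  rw [← h2, hge]
  rfl

/-- Row Co1. Apply `exists_eigen` to the orthogonal complement of `v0`, get `e`. The orthogonal
complement `P` of `v0` and `e` is a plane which is invariant under `s`; let `f, g` be an orthonormal
basis, `s f = c f + d g`, `c ^ 2 + d ^ 2 = 1`, and `s g = -d f + c g` or `s g = d f - c g`. In the second
case `s ^ 2 = 1` on `P`, and on `v0`, `e`, so everywhere: excluded by `hs2`; in the first case `d ≠ 0`
for the same reason. `Φ` maps the orthonormal basis `v0, e, f, g` to `1, i, j, k`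
(`Orthonormal.exists_orthonormalBasis...`, `OrthonormalBasis.equiv`, or the composition with
`Quaternion.linearIsometryEquivTuple`). -/
theorem exists_coord {E : Type*} [NormedAddCommGroup E] [InnerProductSpace ℝ E]
    [FiniteDimensional ℝ E] (hE : finrank ℝ E = 4) (s : E ≃ₗᵢ[ℝ] E) {v0 : E} (h0 : ‖v0‖ = 1)
    (hs : s v0 = v0) (hs2 : ∃ x, s (s x) ≠ x) :
    ∃ (Φ : E ≃ₗᵢ[ℝ] ℍ[ℝ]) (ε c d : ℝ), (ε = 1 ∨ ε = -1) ∧ c ^ 2 + d ^ 2 = 1 ∧ d ≠ 0 ∧ Φ v0 = 1 ∧
      ∀ x, Φ (s x) = sF ε c d (Φ x) := by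
  obtain ⟨δ, e, hδ, hen, hse, h0e⟩ := co1b_eig hE s h0 hs
  have hδ2 : δ * δ = 1 := by
    rcases hδ with h | h <;> rw [h] <;> norm_num
  -- an orthonormal basis
  have hcard : finrank ℝ E = Fintype.card (Fin 4) := by rw [hE]; rfl
  have hon : Orthonormal ℝ (({0, 1} : Set (Fin 4)).domRestrict ![v0, e, 0, 0]) := by
    rw [orthonormal_iff_ite]
    have h00 : inner ℝ v0 v0 = (1 : ℝ) := by rw [real_inner_self_eq_norm_sq, h0]; norm_num
    have hee : inner ℝ e e = (1 : ℝ) := by rw [real_inner_self_eq_norm_sq, hen]; norm_num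
    have he0 : inner ℝ e v0 = (0 : ℝ) := by rw [real_inner_comm]; exact h0e
    have n01 : (0 : Fin 4) ≠ 1 := by decide
    rintro ⟨i, hi⟩ ⟨j, hj⟩
    rcases hi with hi | hi <;> rcases hj with hj | hj
    · subst hi; subst hj
      rw [if_pos rfl]
      exact h00
    · subst hi
      rw [Set.mem_singleton_iff] at hj
      subst hj
      rw [if_neg (fun h => n01 (congrArg Subtype.val h))]
      exact h0e
    · rw [Set.mem_singleton_iff] at hi
      subst hi; subst hj
      rw [if_neg (fun h => n01 (congrArg Subtype.val h).symm)]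
      exact he0
    · rw [Set.mem_singleton_iff] at hi hj
      subst hi; subst hj
      rw [if_pos rfl]
      exact hee
  obtain ⟨b, hb⟩ := hon.exists_orthonormalBasis_extension_of_card_eq hcard
  have hb0 : b 0 = v0 := by
    have := hb 0 (by simp)
    simpa using this
  have hb1 : b 1 = e := by
    have := hb 1 (by simp)
    simpa using this
  -- inner products
  have hI : ∀ i j, inner ℝ (b i) (b j) = if i = j then (1 : ℝ) else 0 := fun i j =>
    b.inner_eq_ite i j
  have hss : ∀ x y, inner ℝ (s x) (s y) = inner ℝ x y := fun x y => s.inner_map_map x y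
  have hexp : ∀ x, x = inner ℝ (b 0) x • b 0 + inner ℝ (b 1) x • b 1 + inner ℝ (b 2) x • b 2
      + inner ℝ (b 3) x • b 3 := by
    intro x
    have := b.sum_repr' x
    rw [Fin.sum_univ_four] at this
    exact this.symm
  have hs0 : s (b 0) = b 0 := by rw [hb0, hs]
  have hs1 : s (b 1) = δ • b 1 := by rw [hb1, hse]
  have k0 : ∀ x, inner ℝ (b 0) (s x) = inner ℝ (b 0) x := by
    intro x
    have := hss (b 0) x
    rw [hs0] at this
    exact this
  have k1 : ∀ x, inner ℝ (b 1) (s x) = δ * inner ℝ (b 1) x := by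
    intro x
    have := hss (b 1) x
    rw [hs1, real_inner_smul_left] at this
    rw [← this, ← mul_assoc, hδ2, one_mul]
  obtain ⟨c, hc⟩ : ∃ c, c = inner ℝ (b 2) (s (b 2)) := ⟨_, rfl⟩
  obtain ⟨d, hd⟩ : ∃ d, d = inner ℝ (b 3) (s (b 2)) := ⟨_, rfl⟩
  obtain ⟨p, hp⟩ : ∃ p, p = inner ℝ (b 2) (s (b 3)) := ⟨_, rfl⟩
  obtain ⟨q, hq⟩ : ∃ q, q = inner ℝ (b 3) (s (b 3)) := ⟨_, rfl⟩
  have e2 : s (b 2) = c • b 2 + d • b 3 := by
    have := hexp (s (b 2))
    rw [k0, k1, hI 0 2, hI 1 2, ← hc, ← hd] at this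
    simpa using this
  have e3 : s (b 3) = p • b 2 + q • b 3 := by
    have := hexp (s (b 3))
    rw [k0, k1, hI 0 3, hI 1 3, ← hp, ← hq] at this
    simpa using this
  have h22 : inner ℝ (b 2) (b 2) = (1 : ℝ) := by rw [hI]; simp
  have h33 : inner ℝ (b 3) (b 3) = (1 : ℝ) := by rw [hI]; simp
  have h23 : inner ℝ (b 2) (b 3) = (0 : ℝ) := by rw [hI]; simp
  have h32 : inner ℝ (b 3) (b 2) = (0 : ℝ) := by rw [hI]; simp
  have g1 : c ^ 2 + d ^ 2 = 1 := by
    have := hss (b 2) (b 2)
    rw [e2] at this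
    simp only [inner_add_left, inner_add_right, real_inner_smul_left, real_inner_smul_right,
      h22, h33, h23, h32] at this
    nlinarith [this]
  have g2 : p ^ 2 + q ^ 2 = 1 := by
    have := hss (b 3) (b 3)
    rw [e3] at this
    simp only [inner_add_left, inner_add_right, real_inner_smul_left, real_inner_smul_right,
      h22, h33, h23, h32] at this
    nlinarith [this]
  have g3 : c * p + d * q = 0 := by
    have := hss (b 2) (b 3)
    rw [e2, e3] at this
    simp only [inner_add_left, inner_add_right, real_inner_smul_left, real_inner_smul_right,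
      h22, h33, h23, h32] at this
    linarith [this]
  -- the square of s
  have hsq : (s (s (b 2)) = b 2 ∧ s (s (b 3)) = b 3) → False := by
    rintro ⟨a2, a3⟩
    obtain ⟨x, hx⟩ := hs2
    apply hx
    have a0 : s (s (b 0)) = b 0 := by rw [hs0, hs0]
    have a1 : s (s (b 1)) = b 1 := by rw [hs1, map_smul, hs1, smul_smul, hδ2, one_smul]
    conv_lhs => rw [hexp x]
    conv_rhs => rw [hexp x]
    simp only [map_add, map_smul]
    rw [a0, a1, a2, a3]
  have hlam : (c * q - d * p) ^ 2 = 1 := by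
    have : (c * q - d * p) ^ 2 = (c ^ 2 + d ^ 2) * (p ^ 2 + q ^ 2) - (c * p + d * q) ^ 2 := by ring
    rw [this, g1, g2, g3]
    norm_num
  have hp' : p = -(c * q - d * p) * d := by
    linear_combination (-p) * g1 + c * g3
  have hq' : q = (c * q - d * p) * c := by
    linear_combination (-q) * g1 + d * g3
  have hlam1 : c * q - d * p = 1 := by
    rcases mul_self_eq_one_iff.1 (by rw [← hlam]; ring : (c * q - d * p) * (c * q - d * p) = 1)
      with h | h
    · exact h
    · exfalso
      rw [h] at hp' hq'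
      have hp2 : p = d := by linarith
      have hq2 : q = -c := by linarith
      apply hsq
      constructor
      · rw [e2, map_add, map_smul, map_smul, e2, e3, hp2, hq2]
        simp only [smul_add, smul_smul]
        have : (c * c) • b 2 + (c * d) • b 3 + ((d * d) • b 2 + (d * -c) • b 3)
            = (c ^ 2 + d ^ 2) • b 2 := by module
        rw [this, g1, one_smul]
      · rw [e3, map_add, map_smul, map_smul, e2, e3, hp2, hq2]
        simp only [smul_add, smul_smul]
        have : (d * c) • b 2 + (d * d) • b 3 + ((-c * d) • b 2 + (-c * -c) • b 3)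
            = (c ^ 2 + d ^ 2) • b 3 := by module
        rw [this, g1, one_smul]
  rw [hlam1] at hp' hq'
  have hp1 : p = -d := by linarith
  have hq1 : q = c := by linarith
  have hdne : d ≠ 0 := by
    intro hd0
    rw [hd0] at e2 g1 hp1
    rw [hp1, hq1] at e3
    have hc2 : c * c = 1 := by nlinarith [g1]
    apply hsq
    constructor
    · rw [e2, zero_smul, add_zero, map_smul, e2, zero_smul, add_zero, smul_smul, hc2, one_smul]
    · rw [e3, neg_zero, zero_smul, zero_add, map_smul, e3, neg_zero, zero_smul, zero_add,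
        smul_smul, hc2, one_smul]
  rw [hp1, hq1] at e3
  have hrep : ∀ x i, b.repr x i = inner ℝ (b i) x := fun x i => b.repr_apply_apply x i
  have hΦ : ∀ x : E, (b.repr.trans Quaternion.linearIsometryEquivTuple.symm) x
      = ⟨inner ℝ (b 0) x, inner ℝ (b 1) x, inner ℝ (b 2) x, inner ℝ (b 3) x⟩ := by
    intro x
    rw [← hrep, ← hrep, ← hrep, ← hrep]
    rfl
  refine ⟨b.repr.trans Quaternion.linearIsometryEquivTuple.symm, δ, c, d, hδ, g1, hdne, ?_, ?_⟩
  · rw [hΦ, ← hb0]
    ext <;> simp [hI]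
  · intro x
    rw [hΦ, hΦ, k0, k1]
    unfold sF
    have m2 : inner ℝ (b 2) (s x) = c * inner ℝ (b 2) x - d * inner ℝ (b 3) x := by
      conv_lhs => rw [hexp x]
      simp only [map_add, map_smul, inner_add_right, real_inner_smul_right]
      rw [hs0, hs1, e2, e3]
      simp only [inner_add_right, real_inner_smul_right, hI]
      simp
      ring
    have m3 : inner ℝ (b 3) (s x) = d * inner ℝ (b 2) x + c * inner ℝ (b 3) x := by
      conv_lhs => rw [hexp x]
      simp only [map_add, map_smul, inner_add_right, real_inner_smul_right]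
      rw [hs0, hs1, e2, e3]
      simp only [inner_add_right, real_inner_smul_right, hI]
      simp
      ring
    rw [m2, m3]

end ChiralQ
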