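import Pool.Agent.Lib.MP_bc704c_co.Q.Base

/-! # MP_bc704c_co, row Ex1: the two generators of a finite chiral polyhedron -/

namespace ChiralQ

open Quaternion ChiralNF Module

universe u

variable {F : Type u} [PartialOrder F] [BoundedOrder F] {rk : F → ℤ}
  {β : F → EuclideanSpace ℝ (Fin 4)}

/-- the symmetries are transitive on the vertices -/
private theorem ex1_trans (hP : IsPolytope 3 F rk) (hc : IsChiral rk β) {x y : F} (hx : rk x = 0)
    (hy : rk y = 0) :
    ∃ (g : EuclideanSpace ℝ (Fin 4) ≃ᵢ EuclideanSpace ℝ (Fin 4)) (φ : F ≃o F),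
      IsSymmetry rk β g φ ∧ φ x = y := by
  have hS : ∀ z : F, rk z = 0 → ∃ S : SF 3 F rk, S.f 0 = z := by
    intro z hz
    obtain ⟨S, hS⟩ := hP.exists_chain (C := {z}) (Set.subsingleton_singleton.isChain)
    exact ⟨S, by have := hS z rfl; rwa [hz] at this⟩
  obtain ⟨A, hA⟩ := hS x hx
  obtain ⟨B, hB⟩ := hS y hy
  have h1 : ¬ SO hP β B (adj hP 2 B) := (chiral_seq hP hc).1 B 2 (by norm_num) (by norm_num)
  have hB' : (adj hP 2 B).f 0 = y := by rw [adj_eq hP B (by norm_num), hB]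
  obtain ⟨⟨X, Y, _, hor⟩, _⟩ := hc
  obtain ⟨SX, hSX⟩ := hP.exists_seq X
  obtain ⟨SY, hSY⟩ := hP.exists_seq Y
  have hor' : ∀ A : SF 3 F rk, SO hP β A SX ∨ SO hP β A SY := by
    intro A
    obtain ⟨FA, hFA⟩ := hP.exists_flag A
    rcases hor FA with h | h
    · exact Or.inl ((SO_iff hP hFA hSX).1 h)
    · exact Or.inr ((SO_iff hP hFA hSY).1 h)
  have key : ∀ C : SF 3 F rk, C.f 0 = y → SO hP β A C →
      ∃ (g : EuclideanSpace ℝ (Fin 4) ≃ᵢ EuclideanSpace ℝ (Fin 4)) (φ : F ≃o F),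
        IsSymmetry rk β g φ ∧ φ x = y := by
    rintro C hC ⟨g, φ, hg, rfl⟩
    exact ⟨g, φ, hg, by rw [← hA, ← hC]; rfl⟩
  rcases hor' A with ha | ha <;> rcases hor' B with hb | hb <;>
    rcases hor' (adj hP 2 B) with hd | hd
  · exact key B hB (SO_trans hP ha (SO_symm hP hb))
  · exact key B hB (SO_trans hP ha (SO_symm hP hb))
  · exact key _ hB' (SO_trans hP ha (SO_symm hP hd))
  · exact absurd (SO_trans hP hb (SO_symm hP hd)) h1
  · exact absurd (SO_trans hP hb (SO_symm hP hd)) h1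
  · exact key _ hB' (SO_trans hP ha (SO_symm hP hd))
  · exact key B hB (SO_trans hP ha (SO_symm hP hb))
  · exact key B hB (SO_trans hP ha (SO_symm hP hb))

/-- Row Ex1. Centroid: the centroid `c0` of the points of the vertices (finitely many) is fixed by
every symmetry (`sum_perm` in Main.lean; an isometry is affine: `lin_sub`), and `β v ≠ c0` for every
vertex `v` because the symmetries are transitive on the vertices and there are at least two vertices
(proof of `Dist.centroid`). -/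
theorem exists_centre [Finite F] (hP : IsPolytope 3 F rk) (hβ : IsRealization rk β)
    (hc : IsChiral rk β) : ∃ c0 : EuclideanSpace ℝ (Fin 4),
      (∀ (g : EuclideanSpace ℝ (Fin 4) ≃ᵢ EuclideanSpace ℝ (Fin 4)) (φ : F ≃o F),
        IsSymmetry rk β g φ → g c0 = c0) ∧ ∀ x, rk x = 0 → β x ≠ c0 := by
  classical
  have : Fintype F := Fintype.ofFinite F
  obtain ⟨Φ, φ, g, D⟩ := exists_dist hP (by norm_num) hc
  have hx0 : rk (Φ.f 0) = 0 := Φ.rank 0 (by norm_num) (by norm_num)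
  have hmv : φ 0 (Φ.f 0) ≠ Φ.f 0 := D.move (i := 0) le_rfl (by norm_num) (by norm_num)
  set V := Finset.univ.filter (fun x : F => rk x = 0) with hV
  have hmemV : ∀ x ∈ V, rk x = 0 := fun x hx => (Finset.mem_filter.1 hx).2
  have hN : (V.card : ℝ) ≠ 0 := by
    rw [Nat.cast_ne_zero, Finset.card_ne_zero]
    exact ⟨Φ.f 0, Finset.mem_filter.2 ⟨Finset.mem_univ _, hx0⟩⟩
  have hc0 : ∀ v : EuclideanSpace ℝ (Fin 4),
      ((V.card : ℝ)⁻¹ • ∑ x ∈ V, β x) - v = (V.card : ℝ)⁻¹ • ∑ x ∈ V, (β x - v) := by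
    intro v
    rw [Finset.sum_sub_distrib, Finset.sum_const, ← Nat.cast_smul_eq_nsmul ℝ, smul_sub, smul_smul,
      inv_mul_cancel₀ hN, one_smul]
  have hfix : ∀ (h : EuclideanSpace ℝ (Fin 4) ≃ᵢ EuclideanSpace ℝ (Fin 4)) (ψ : F ≃o F),
      IsSymmetry rk β h ψ →
        h ((V.card : ℝ)⁻¹ • ∑ x ∈ V, β x) = (V.card : ℝ)⁻¹ • ∑ x ∈ V, β x := by
    intro h ψ hs
    have e1 := lin_sub h ((V.card : ℝ)⁻¹ • ∑ x ∈ V, β x) (β (Φ.f 0))
    rw [hc0, map_smul, map_sum] at e1
    have e2 : ∑ x ∈ V, lin h (β x - β (Φ.f 0)) = ∑ x ∈ V, (β x - β (ψ (Φ.f 0))) := by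
      rw [← sum_perm hP ψ (fun y => β y - β (ψ (Φ.f 0)))]
      apply Finset.sum_congr rfl
      intro x hx
      rw [lin_sub, hs x (hmemV x hx), hs _ hx0]
    rw [e2, ← hc0, hs _ hx0] at e1
    exact (sub_left_inj.1 e1).symm
  refine ⟨(V.card : ℝ)⁻¹ • ∑ x ∈ V, β x, hfix, ?_⟩
  intro x hx h0
  have hall : ∀ y, rk y = 0 → y = x := by
    intro y hy
    obtain ⟨h, ψ, hs, hψ⟩ := ex1_trans hP hc hx hy
    have h2 := hs x hx
    rw [h0, hfix h ψ hs, hψ, ← h0] at h2
    exact (hβ.inj x y hx hy h2).symm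
  apply hmv
  rw [hall (Φ.f 0) hx0]
  exact hall _ (by rw [rk_auto hP, hx])

/-- Row Ex1. Let `U` be the span of the vectors `β x - c0` (`x` a vertex). For a symmetry `g` with
automorphism `φ` the linear part `lin g` maps `β x - c0` to `β (φ x) - c0`, so preserves `U`; `mkS`
(Core.lean) gives a linear isometry which is `lin g` on `U` and the identity on `Uᗮ`; make it an
equivalence by `LinearIsometry.toLinearIsometryEquiv`. -/
theorem exists_lin {c0 : EuclideanSpace ℝ (Fin 4)} (hP : IsPolytope 3 F rk)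
    {g : EuclideanSpace ℝ (Fin 4) ≃ᵢ EuclideanSpace ℝ (Fin 4)} {φ : F ≃o F}
    (hg : IsSymmetry rk β g φ) (h0 : g c0 = c0) :
    ∃ S : EuclideanSpace ℝ (Fin 4) ≃ₗᵢ[ℝ] EuclideanSpace ℝ (Fin 4),
      (∀ x, rk x = 0 → S (β x - c0) = β (φ x) - c0) ∧
      ∀ v, (∀ x, rk x = 0 → inner ℝ (β x - c0) v = 0) → S v = v := by
  have hlin : ∀ x, rk x = 0 → lin g (β x - c0) = β (φ x) - c0 := by
    intro x hx
    rw [lin_sub, hg x hx, h0]
  let U : Submodule ℝ (EuclideanSpace ℝ (Fin 4)) :=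
    Submodule.span ℝ {w | ∃ x, rk x = 0 ∧ w = β x - c0}
  have hU : ∀ w ∈ U, (lin g).toLinearIsometry w ∈ U := by
    intro w hw
    change lin g w ∈ U
    induction hw using Submodule.span_induction with
    | mem w h =>
      obtain ⟨x, hx, rfl⟩ := h
      rw [hlin x hx]
      exact Submodule.subset_span ⟨φ x, by rw [rk_auto hP, hx], rfl⟩
    | zero => rw [map_zero]; exact Submodule.zero_mem _
    | add x y _ _ hx hy => rw [map_add]; exact Submodule.add_mem _ hx hy
    | smul a x _ hx => rw [map_smul]; exact Submodule.smul_mem _ _ hx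
  obtain ⟨S, hS1, hS2⟩ := mkS U (lin g).toLinearIsometry hU
  refine ⟨S.toLinearIsometryEquiv rfl, ?_, ?_⟩
  · intro x hx
    change S (β x - c0) = _
    rw [hS1 _ (Submodule.subset_span ⟨x, hx, rfl⟩)]
    exact hlin x hx
  · intro v hv
    change S v = v
    apply hS2
    rw [Submodule.mem_orthogonal]
    intro u hu
    induction hu using Submodule.span_induction with
    | mem w h =>
      obtain ⟨x, hx, rfl⟩ := h
      exact hv x hx
    | zero => exact inner_zero_left _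
    | add x y _ _ hx hy => rw [inner_add_left, hx, hy, add_zero]
    | smul a x _ hx => rw [inner_smul_left, hx, mul_zero]

end ChiralQ
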