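import Pool.Agent.Lib.MP_bc704c_co.Q.Ex1

/-! # MP_bc704c_co, row Ex2: the two generators of a finite chiral polyhedron -/

namespace ChiralQ

open Quaternion ChiralNF Module

universe u

variable {F : Type u} [PartialOrder F] [BoundedOrder F] {rk : F → ℤ}
  {β : F → EuclideanSpace ℝ (Fin 4)}

/-- `S` is the linear isometry (centre `c0`) which induces the automorphism `φ` and is the identity
on the complement of the span of the vertices -/
def Ind (rk : F → ℤ) (β : F → EuclideanSpace ℝ (Fin 4)) (c0 : EuclideanSpace ℝ (Fin 4))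
    (S : EuclideanSpace ℝ (Fin 4) ≃ₗᵢ[ℝ] EuclideanSpace ℝ (Fin 4)) (φ : F ≃o F) : Prop :=
  (∀ x, rk x = 0 → S (β x - c0) = β (φ x) - c0) ∧
    ∀ v, (∀ x, rk x = 0 → inner ℝ (β x - c0) v = 0) → S v = v

/-- Row Ex2. `S` is determined by `φ`: the span of the vertices and its complement span everything.
Products and inverses. -/
theorem Ind.unique {c0 : EuclideanSpace ℝ (Fin 4)}
    {S T : EuclideanSpace ℝ (Fin 4) ≃ₗᵢ[ℝ] EuclideanSpace ℝ (Fin 4)} {φ : F ≃o F}
    (h1 : Ind rk β c0 S φ) (h2 : Ind rk β c0 T φ) : S = T := by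
  have hU : ∀ u ∈ Submodule.span ℝ {u : EuclideanSpace ℝ (Fin 4) | ∃ x, rk x = 0 ∧ u = β x - c0},
      S u = T u := by
    intro u hu
    induction hu using Submodule.span_induction with
    | mem u hu =>
      obtain ⟨x, hx, rfl⟩ := hu
      rw [h1.1 x hx, h2.1 x hx]
    | zero => rw [map_zero, map_zero]
    | add a b _ _ ha hb => rw [map_add, map_add, ha, hb]
    | smul r a _ ha => rw [map_smul, map_smul, ha]
  have hO : ∀ v ∈ (Submodule.span ℝ {u : EuclideanSpace ℝ (Fin 4) | ∃ x, rk x = 0 ∧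
      u = β x - c0})ᗮ, S v = T v := by
    intro v hv
    have h3 : ∀ x, rk x = 0 → inner ℝ (β x - c0) v = 0 := fun x hx =>
      (Submodule.mem_orthogonal _ _).1 hv _ (Submodule.subset_span ⟨x, hx, rfl⟩)
    rw [h1.2 v h3, h2.2 v h3]
  ext1 v
  obtain ⟨y, hy, z, hz, rfl⟩ := (Submodule.span ℝ {u : EuclideanSpace ℝ (Fin 4) | ∃ x, rk x = 0 ∧
      u = β x - c0}).exists_add_mem_mem_orthogonal v
  rw [map_add, map_add, hU y hy, hO z hz]

theorem Ind.mul {c0 : EuclideanSpace ℝ (Fin 4)} (hP : IsPolytope 3 F rk)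
    {S T : EuclideanSpace ℝ (Fin 4) ≃ₗᵢ[ℝ] EuclideanSpace ℝ (Fin 4)} {φ ψ : F ≃o F}
    (h1 : Ind rk β c0 S φ) (h2 : Ind rk β c0 T ψ) : Ind rk β c0 (S * T) (φ * ψ) := by
  refine ⟨fun x hx => ?_, fun v hv => ?_⟩
  · have h3 : rk (ψ x) = 0 := by rw [rk_auto hP, hx]
    have h4 : (S * T) (β x - c0) = S (T (β x - c0)) := rfl
    have h5 : (φ * ψ) x = φ (ψ x) := rfl
    rw [h4, h5, h2.1 x hx, h1.1 _ h3]
  · have h4 : (S * T) v = S (T v) := rfl
    rw [h4, h2.2 v hv, h1.2 v hv]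

theorem Ind.inv {c0 : EuclideanSpace ℝ (Fin 4)} (hP : IsPolytope 3 F rk)
    {S : EuclideanSpace ℝ (Fin 4) ≃ₗᵢ[ℝ] EuclideanSpace ℝ (Fin 4)} {φ : F ≃o F}
    (h1 : Ind rk β c0 S φ) : Ind rk β c0 S⁻¹ φ⁻¹ := by
  refine ⟨fun x hx => ?_, fun v hv => ?_⟩
  · have h3 : rk (φ⁻¹ x) = 0 := by rw [rk_auto hP, hx]
    have h4 : S⁻¹ (β x - c0) = S.symm (β x - c0) := rfl
    have h5 : φ (φ⁻¹ x) = x := φ.apply_symm_apply x
    rw [h4, S.symm_apply_eq, h1.1 _ h3, h5]
  · have h4 : S⁻¹ v = S.symm v := rfl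
    rw [h4, S.symm_apply_eq, h1.2 v hv]

/-- Row Ex2. The group generated by `S` and `T` is finite: every element of the closure is `Ind` for some
automorphism (closure induction), and there are finitely many automorphisms. -/
theorem Ind.finite [Finite F] {c0 : EuclideanSpace ℝ (Fin 4)} (hP : IsPolytope 3 F rk)
    {S T : EuclideanSpace ℝ (Fin 4) ≃ₗᵢ[ℝ] EuclideanSpace ℝ (Fin 4)} {φ ψ : F ≃o F}
    (h1 : Ind rk β c0 S φ) (h2 : Ind rk β c0 T ψ) : Finite (Subgroup.closure {S, T}) := by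
  have key : ∀ g ∈ Subgroup.closure {S, T}, ∃ χ : F ≃o F, Ind rk β c0 g χ := by
    intro g hg
    induction hg using Subgroup.closure_induction with
    | mem g hg =>
      rcases hg with hg | hg
      · exact ⟨φ, hg ▸ h1⟩
      · rw [Set.mem_singleton_iff] at hg
        exact ⟨ψ, hg ▸ h2⟩
    | one => exact ⟨1, fun x _ => rfl, fun v _ => rfl⟩
    | mul g h _ _ h3 h4 =>
      obtain ⟨χ, h5⟩ := h3
      obtain ⟨χ', h6⟩ := h4
      exact ⟨χ * χ', h5.mul hP h6⟩
    | inv g _ h3 =>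
      obtain ⟨χ, h5⟩ := h3
      exact ⟨χ⁻¹, h5.inv hP⟩
  choose f hf using fun g : Subgroup.closure {S, T} => key g g.2
  have : Finite (F ≃o F) := DFunLike.finite _
  refine Finite.of_injective f fun g h hgh => ?_
  have h3 := hf g
  have h4 := hf h
  rw [hgh] at h3
  exact Subtype.ext (h3.unique h4)

end ChiralQ
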