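import Pool.Agent.Lib.MP_bc704c_co.Q.Ex2

/-! # MP_bc704c_co, row Ex2b: extraction -/

namespace ChiralQ

open Quaternion ChiralNF Module

universe u

variable {F : Type u} [PartialOrder F] [BoundedOrder F] {rk : F → ℤ}
  {β : F → EuclideanSpace ℝ (Fin 4)}

/-- the isometry with centre `c0` and linear part `S` -/
private noncomputable def aff (c0 : EuclideanSpace ℝ (Fin 4))
    (S : EuclideanSpace ℝ (Fin 4) ≃ₗᵢ[ℝ] EuclideanSpace ℝ (Fin 4)) :
    EuclideanSpace ℝ (Fin 4) ≃ᵢ EuclideanSpace ℝ (Fin 4) :=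
  (IsometryEquiv.subRight c0).trans (S.toIsometryEquiv.trans (IsometryEquiv.addRight c0))

private theorem aff_apply (c0 : EuclideanSpace ℝ (Fin 4))
    (S : EuclideanSpace ℝ (Fin 4) ≃ₗᵢ[ℝ] EuclideanSpace ℝ (Fin 4)) (x) :
    aff c0 S x = S (x - c0) + c0 := rfl

private theorem aff_symm_apply (c0 : EuclideanSpace ℝ (Fin 4))
    (S : EuclideanSpace ℝ (Fin 4) ≃ₗᵢ[ℝ] EuclideanSpace ℝ (Fin 4)) (x) :
    (aff c0 S).symm x = S.symm (x - c0) + c0 := by
  rw [IsometryEquiv.symm_apply_eq, aff_apply, add_sub_cancel_right,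
    LinearIsometryEquiv.apply_symm_apply, sub_add_cancel]

private theorem aff_sym {c0 : EuclideanSpace ℝ (Fin 4)}
    {S : EuclideanSpace ℝ (Fin 4) ≃ₗᵢ[ℝ] EuclideanSpace ℝ (Fin 4)} {φ : F ≃o F}
    (h : Ind rk β c0 S φ) : IsSymmetry rk β (aff c0 S) φ := by
  intro x hx
  rw [aff_apply, h.1 x hx, sub_add_cancel]

/-- Row Ex2. `exists_dist`, `exists_centre`, `exists_lin`; `s` belongs to `i = 1` and `t` to `i = 0`
(`Dist.img`). `t (t x) = x` by `Dist.inv` and `Ind.unique`. If there were an `R` as in the last line,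
`mirror` (Mirror.lean) with the isometries `x ↦ s (x - c0) + c0`, ... , the identity for `i = 2`, and
`x ↦ R (x - c0) + c0`, would contradict `chiral_seq` (proof of `main` in Main.lean). -/
theorem extract [Finite F] (hP : IsPolytope 3 F rk) (hβ : IsRealization rk β)
    (hc : IsChiral rk β) :
    ∃ (A : SF 3 F rk) (c0 : EuclideanSpace ℝ (Fin 4))
      (s t : EuclideanSpace ℝ (Fin 4) ≃ₗᵢ[ℝ] EuclideanSpace ℝ (Fin 4)) (σ τ : F ≃o F),
      act hP σ A = adj hP 2 (adj hP 1 A) ∧ act hP τ A = adj hP 2 (adj hP 0 A) ∧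
      Ind rk β c0 s σ ∧ Ind rk β c0 t τ ∧ β (A.f 0) ≠ c0 ∧ (∀ x, t (t x) = x) ∧
      s (β (A.f 0) - c0) = β (A.f 0) - c0 ∧
      ¬ ∃ R : EuclideanSpace ℝ (Fin 4) ≃ₗᵢ[ℝ] EuclideanSpace ℝ (Fin 4),
        R (β (A.f 0) - c0) = β (A.f 0) - c0 ∧ (∀ x, R (s x) = s.symm (R x)) ∧
        ∀ x, R (t x) = t (R x) := by
  obtain ⟨A, φ, g, D⟩ := exists_dist hP (by norm_num) hc
  obtain ⟨c0, h0, hv⟩ := exists_centre hP hβ hc
  obtain ⟨s, hs, hs'⟩ := exists_lin hP (D.sym 1) (h0 _ _ (D.sym 1))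
  obtain ⟨t, ht, ht'⟩ := exists_lin hP (D.sym 0) (h0 _ _ (D.sym 0))
  have hIs : Ind rk β c0 s (φ 1) := ⟨hs, hs'⟩
  have hIt : Ind rk β c0 t (φ 0) := ⟨ht, ht'⟩
  have h2 : ((3 : ℕ) : ℤ) - 1 = 2 := by norm_num
  have hA0 : rk (A.f 0) = 0 := A.rank 0 (by norm_num) (by norm_num)
  have tt : ∀ x, t (t x) = x := by
    have h1 : Ind rk β c0 (t * t) (φ 0 * φ 0) := hIt.mul hP hIt
    have h3 : Ind rk β c0 (1 : EuclideanSpace ℝ (Fin 4) ≃ₗᵢ[ℝ] EuclideanSpace ℝ (Fin 4))
        (φ 0 * φ 0) := by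
      refine ⟨fun x _ => ?_, fun v _ => rfl⟩
      change β x - c0 = β (φ 0 (φ 0 x)) - c0
      rw [D.inv le_rfl (by norm_num)]
    have h4 := h1.unique h3
    intro x
    exact congrArg (fun T : EuclideanSpace ℝ (Fin 4) ≃ₗᵢ[ℝ] EuclideanSpace ℝ (Fin 4) => T x) h4
  have img1 : act hP (φ 1) A = adj hP 2 (adj hP 1 A) := by
    have := D.img 1 (by norm_num) (by norm_num)
    rwa [h2] at this
  have img0 : act hP (φ 0) A = adj hP 2 (adj hP 0 A) := by
    have := D.img 0 (by norm_num) (by norm_num)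
    rwa [h2] at this
  refine ⟨A, c0, s, t, φ 1, φ 0, img1, img0, hIs, hIt, hv _ hA0, tt, ?_, ?_⟩
  · rw [hs _ hA0, D.face (i := 1) (j := 0) (by norm_num) (by norm_num) (by norm_num) (by norm_num)]
  · rintro ⟨R, hR1, hRs, hRt⟩
    have tsymm : ∀ x, t.symm x = t x := by
      intro x
      rw [LinearIsometryEquiv.symm_apply_eq, tt]
    have hRs' : ∀ x, R (s.symm x) = s (R x) := by
      intro x
      have := hRs (s.symm x)
      rw [LinearIsometryEquiv.apply_symm_apply] at this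
      rw [this, LinearIsometryEquiv.apply_symm_apply]
    let gg : ℤ → (EuclideanSpace ℝ (Fin 4) ≃ᵢ EuclideanSpace ℝ (Fin 4)) := fun i =>
      if i = 0 then aff c0 t else if i = 1 then aff c0 s else IsometryEquiv.refl _
    let ff : ℤ → (F ≃o F) := fun i =>
      if i = 0 then φ 0 else if i = 1 then φ 1 else OrderIso.refl F
    have gg0 : gg 0 = aff c0 t := if_pos rfl
    have gg1 : gg 1 = aff c0 s := rfl
    have gg2 : gg 2 = IsometryEquiv.refl _ := rfl
    have ff0 : ff 0 = φ 0 := if_pos rfl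
    have ff1 : ff 1 = φ 1 := rfl
    have ff2 : ff 2 = OrderIso.refl F := rfl
    have hcase : ∀ i : ℤ, 0 ≤ i → i < ((3 : ℕ) : ℤ) → i = 0 ∨ i = 1 ∨ i = 2 := by
      intro i h1 h3
      push_cast at h3
      omega
    have hsym : ∀ i : ℤ, 0 ≤ i → i < ((3 : ℕ) : ℤ) → IsSymmetry rk β (gg i) (ff i) := by
      intro i h1 h3
      rcases hcase i h1 h3 with rfl | rfl | rfl
      · rw [gg0, ff0]; exact aff_sym hIt
      · rw [gg1, ff1]; exact aff_sym hIs
      · rw [gg2, ff2]; exact isSymmetry_refl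
    have key := mirror hP hβ (by norm_num) A ff (fun i => (ff i).symm) gg (fun i => (gg i).symm)
      hsym (fun i h1 h3 => isSymmetry_symm hP (hsym i h1 h3)) ?_ ?_ (aff c0 R) ?_ ?_ ?_
    · rw [h2] at key
      have h5 := (chiral_seq hP hc).1 A 2 (by norm_num) (by norm_num)
      exact h5 key
    · intro i h1 h3
      rcases hcase i h1 h3 with rfl | rfl | rfl
      · rw [ff0]; exact D.img' (by norm_num) (by norm_num)
      · rw [ff1]; exact D.img' (by norm_num) (by norm_num)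
      · rw [ff2, act_refl, h2]
    · intro i h1 h3
      rcases hcase i h1 h3 with rfl | rfl | rfl
      · change _ = act hP (ff 0).symm A
        rw [ff0]; exact D.img_symm (by norm_num) (by norm_num)
      · change _ = act hP (ff 1).symm A
        rw [ff1]; exact D.img_symm (by norm_num) (by norm_num)
      · change _ = act hP (ff 2).symm A
        rw [ff2, h2, adj_adj]
        exact (act_refl A).symm
    · rw [aff_apply, hR1, sub_add_cancel]
    · intro i h1 h3 x _
      rcases hcase i h1 h3 with rfl | rfl | rfl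
      · change _ = (gg 0).symm _
        rw [gg0, aff_symm_apply, aff_apply, aff_apply, aff_apply, add_sub_cancel_right,
          add_sub_cancel_right, hRt, tsymm]
      · change _ = (gg 1).symm _
        rw [gg1, aff_symm_apply, aff_apply, aff_apply, aff_apply, add_sub_cancel_right,
          add_sub_cancel_right, hRs]
      · rfl
    · intro i h1 h3 x _
      rcases hcase i h1 h3 with rfl | rfl | rfl
      · change aff c0 R ((gg 0).symm _) = _
        rw [gg0, aff_symm_apply, aff_apply, aff_apply, aff_apply, add_sub_cancel_right,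
          add_sub_cancel_right, tsymm, hRt]
      · change aff c0 R ((gg 1).symm _) = _
        rw [gg1, aff_symm_apply, aff_apply, aff_apply, aff_apply, add_sub_cancel_right,
          add_sub_cancel_right, hRs']
      · rfl

end ChiralQ
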