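import Pool.Agent.Lib.MP_bc704c_co.Q.Base

/-! # MP_bc704c_co, row Ex3: the flags of a polyhedron with two generators -/

namespace ChiralQ

open Quaternion ChiralNF Module

universe u

variable {F : Type u} [PartialOrder F] [BoundedOrder F] {rk : F → ℤ}

/-- a base flag and two automorphisms -/
structure Gens (hP : IsPolytope 3 F rk) (A : SF 3 F rk) (σ τ : F ≃o F) : Prop where
  hσ : act hP σ A = adj hP 2 (adj hP 1 A)
  hτ : act hP τ A = adj hP 2 (adj hP 0 A)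

variable {hP : IsPolytope 3 F rk} {A : SF 3 F rk} {σ τ : F ≃o F}

private theorem Ex3_mul (hP : IsPolytope 3 F rk) (φ ψ : F ≃o F) (C : SF 3 F rk) :
    act hP (φ * ψ) C = act hP φ (act hP ψ C) := rfl

private theorem Ex3_one (hP : IsPolytope 3 F rk) (C : SF 3 F rk) : act hP 1 C = C := rfl

private theorem Ex3_inv {φ : F ≃o F} {C D : SF 3 F rk} (h : act hP φ C = D) :
    C = act hP φ⁻¹ D := by
  rw [← h, ← Ex3_mul, inv_mul_cancel]; rfl

private theorem Ex3_s1 (H : Gens hP A σ τ) : adj hP 1 A = act hP σ (adj hP 2 A) := by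
  rw [act_adj, H.hσ, adj_adj]

private theorem Ex3_t0 (H : Gens hP A σ τ) : adj hP 0 A = act hP τ (adj hP 2 A) := by
  rw [act_adj, H.hτ, adj_adj]

private theorem Ex3_s1B (H : Gens hP A σ τ) : adj hP 1 (adj hP 2 A) = act hP σ⁻¹ A := by
  apply Ex3_inv
  rw [act_adj, ← Ex3_s1 H, adj_adj]

private theorem Ex3_t0B (H : Gens hP A σ τ) : adj hP 0 (adj hP 2 A) = act hP τ A := by
  rw [H.hτ]
  exact adj_comm hP (by norm_num) A

/-- Row Ex3. Let `B = adj 2 A`. `adj 1 A = σ B`, `adj 0 A = τ B`, `adj 2 A = B`, and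
`adj 1 B = σ⁻¹ A` (apply `σ`: `σ (adj 1 B) = adj 1 (σ B) = adj 1 (adj 1 A) = A`),
`adj 0 B = τ⁻¹ A = τ A`, `adj 2 B = A`; `τ² = 1` because `τ τ A = τ (adj 2 (adj 0 A)) =
adj 2 (adj 0 (τ A)) = adj 2 (adj 0 (adj 2 (adj 0 A))) = A` (`adj_comm`), `act_ext`. -/
theorem Gens.tau_sq (H : Gens hP A σ τ) (x : F) : τ (τ x) = x := by
  have h : act hP (τ * τ) A = act hP 1 A := by
    rw [Ex3_mul, Ex3_one, H.hτ, act_adj, act_adj, H.hτ,
      adj_comm hP (show (0 : ℤ) + 2 ≤ 2 by norm_num) (adj hP 0 A), adj_adj, adj_adj]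
  exact act_ext hP h x

private theorem Ex3_tt (H : Gens hP A σ τ) : τ * τ = 1 := by
  ext x
  exact H.tau_sq x

private theorem Ex3_tinv (H : Gens hP A σ τ) : τ⁻¹ = τ := by
  rw [inv_eq_iff_mul_eq_one, Ex3_tt H]

private theorem Ex3_cases {i : ℤ} (h0 : 0 ≤ i) (h1 : i < (3 : ℕ)) : i = 0 ∨ i = 1 ∨ i = 2 := by
  push_cast at h1
  omega

/-- Row Ex3. By `conn0` (induction over the walk) every flag is `w A` or `w B` with `w` in the group
generated by `σ` and `τ`: `adj i (w C) = w (adj i C)` (`act_adj`). -/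
theorem Gens.all (H : Gens hP A σ τ) (C : SF 3 F rk) :
    ∃ w ∈ Subgroup.closure {σ, τ}, C = act hP w A ∨ C = act hP w (adj hP 2 A) := by
  have hs : σ ∈ Subgroup.closure {σ, τ} := Subgroup.subset_closure (by simp)
  have ht : τ ∈ Subgroup.closure {σ, τ} := Subgroup.subset_closure (by simp)
  induction conn0 hP A C with
  | refl => exact ⟨1, one_mem _, Or.inl rfl⟩
  | tail _ hstep ih =>
    obtain ⟨i, h0, h3, rfl⟩ := hstep
    obtain ⟨w, hw, hC⟩ := ih
    rcases hC with rfl | rfl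
    · rcases Ex3_cases h0 h3 with rfl | rfl | rfl
      · exact ⟨w * τ, mul_mem hw ht, Or.inr (by rw [← act_adj, Ex3_t0 H, ← Ex3_mul])⟩
      · exact ⟨w * σ, mul_mem hw hs, Or.inr (by rw [← act_adj, Ex3_s1 H, ← Ex3_mul])⟩
      · exact ⟨w, hw, Or.inr (by rw [← act_adj])⟩
    · rcases Ex3_cases h0 h3 with rfl | rfl | rfl
      · exact ⟨w * τ, mul_mem hw ht, Or.inl (by rw [← act_adj, Ex3_t0B H, ← Ex3_mul])⟩
      · exact ⟨w * σ⁻¹, mul_mem hw (inv_mem hs),
          Or.inl (by rw [← act_adj, Ex3_s1B H, ← Ex3_mul])⟩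
      · exact ⟨w, hw, Or.inl (by rw [← act_adj, adj_adj])⟩

/-- Row Ex3. If `C` has the same vertex as `A`, only `adj 1` and `adj 2` occur in the walk of `conn`,
so `w` is a power of `σ`. -/
theorem Gens.vertex (H : Gens hP A σ τ) (C : SF 3 F rk) (h : C.f 0 = A.f 0) :
    ∃ j : ℤ, C = act hP (σ ^ j) A ∨ C = act hP (σ ^ j) (adj hP 2 A) := by
  have key : ∀ D : SF 3 F rk, Relation.ReflTransGen
      (fun X Y : SF 3 F rk => ∃ i : ℤ, 0 ≤ i ∧ i < (3 : ℕ) ∧ A.f i ≠ C.f i ∧ Y = adj hP i X) A D →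
      ∃ j : ℤ, D = act hP (σ ^ j) A ∨ D = act hP (σ ^ j) (adj hP 2 A) := by
    intro D hD
    induction hD with
    | refl => exact ⟨0, Or.inl (by rw [zpow_zero]; rfl)⟩
    | tail _ hstep ih =>
      obtain ⟨i, h0, h3, hne, rfl⟩ := hstep
      obtain ⟨j, hC⟩ := ih
      rcases Ex3_cases h0 h3 with rfl | rfl | rfl
      · exact absurd h.symm hne
      · rcases hC with rfl | rfl
        · exact ⟨j + 1, Or.inr (by rw [← act_adj, Ex3_s1 H, ← Ex3_mul, zpow_add_one])⟩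
        · exact ⟨j - 1, Or.inl (by rw [← act_adj, Ex3_s1B H, ← Ex3_mul, zpow_sub_one])⟩
      · rcases hC with rfl | rfl
        · exact ⟨j, Or.inr (by rw [← act_adj])⟩
        · exact ⟨j, Or.inl (by rw [← act_adj, adj_adj])⟩
  exact key C (conn hP A C)

/-- Row Ex3. If `C` has the same edge as `A`: `C` is `A`, `τ A`, `B` or `τ B`. -/
theorem Gens.edge (H : Gens hP A σ τ) (C : SF 3 F rk) (h : C.f 1 = A.f 1) :
    C = A ∨ C = act hP τ A ∨ C = adj hP 2 A ∨ C = act hP τ (adj hP 2 A) := by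
  have key : ∀ D : SF 3 F rk, Relation.ReflTransGen
      (fun X Y : SF 3 F rk => ∃ i : ℤ, 0 ≤ i ∧ i < (3 : ℕ) ∧ A.f i ≠ C.f i ∧ Y = adj hP i X) A D →
      (D = A ∨ D = act hP τ A ∨ D = adj hP 2 A ∨ D = act hP τ (adj hP 2 A)) := by
    intro D hD
    induction hD with
    | refl => exact Or.inl rfl
    | tail _ hstep ih =>
      obtain ⟨i, h0, h3, hne, rfl⟩ := hstep
      rcases Ex3_cases h0 h3 with rfl | rfl | rfl
      · rcases ih with rfl | rfl | rfl | rfl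
        · exact Or.inr (Or.inr (Or.inr (Ex3_t0 H)))
        · exact Or.inr (Or.inr (Or.inl (by
            rw [← act_adj, Ex3_t0 H, ← Ex3_mul, Ex3_tt H, Ex3_one])))
        · exact Or.inr (Or.inl (Ex3_t0B H))
        · exact Or.inl (by rw [← act_adj, Ex3_t0B H, ← Ex3_mul, Ex3_tt H, Ex3_one])
      · exact absurd h.symm hne
      · rcases ih with rfl | rfl | rfl | rfl
        · exact Or.inr (Or.inr (Or.inl rfl))
        · exact Or.inr (Or.inr (Or.inr (by rw [← act_adj])))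
        · exact Or.inl (by rw [adj_adj])
        · exact Or.inr (Or.inl (by rw [← act_adj, adj_adj]))
  exact key C (conn hP A C)

/-- Row Ex3. If `C` has the same face as `A`, only `adj 0` and `adj 1` occur:
`adj 0 A = τ B`, `adj 1 A = σ B`, `adj 1 (τ B) = τ σ⁻¹ A = (σ τ)⁻¹ A`, `adj 0 (σ B) = σ τ A`: so `C` is
`(σ τ) ^ j A` or `(σ τ) ^ j σ B`. -/
theorem Gens.face (H : Gens hP A σ τ) (C : SF 3 F rk) (h : C.f 2 = A.f 2) :
    ∃ j : ℤ, C = act hP ((σ * τ) ^ j) A ∨ C = act hP ((σ * τ) ^ j * σ) (adj hP 2 A) := by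
  have key : ∀ D : SF 3 F rk, Relation.ReflTransGen
      (fun X Y : SF 3 F rk => ∃ i : ℤ, 0 ≤ i ∧ i < (3 : ℕ) ∧ A.f i ≠ C.f i ∧ Y = adj hP i X) A D →
      ∃ j : ℤ, D = act hP ((σ * τ) ^ j) A ∨ D = act hP ((σ * τ) ^ j * σ) (adj hP 2 A) := by
    intro D hD
    induction hD with
    | refl => exact ⟨0, Or.inl (by rw [zpow_zero]; rfl)⟩
    | tail _ hstep ih =>
      obtain ⟨i, h0, h3, hne, rfl⟩ := hstep
      obtain ⟨j, hC⟩ := ih
      rcases Ex3_cases h0 h3 with rfl | rfl | rfl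
      · rcases hC with rfl | rfl
        · refine ⟨j - 1, Or.inr ?_⟩
          rw [← act_adj, Ex3_t0 H, ← Ex3_mul]
          congr 1
          rw [zpow_sub_one, mul_inv_rev, mul_assoc, mul_assoc, inv_mul_cancel, mul_one, Ex3_tinv H]
        · refine ⟨j + 1, Or.inl ?_⟩
          rw [← act_adj, Ex3_t0B H, ← Ex3_mul, zpow_add_one, mul_assoc]
      · rcases hC with rfl | rfl
        · refine ⟨j, Or.inr ?_⟩
          rw [← act_adj, Ex3_s1 H, ← Ex3_mul]
        · refine ⟨j, Or.inl ?_⟩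
          rw [← act_adj, Ex3_s1B H, ← Ex3_mul, mul_assoc, mul_inv_cancel, mul_one]
      · exact absurd h.symm hne
  exact key C (conn hP A C)

end ChiralQ
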