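import Pool.Agent.Lib.MP_bc704c_co.Q.Ex3
import Pool.Agent.Lib.MP_bc704c_co.Q.Al7
import Pool.Agent.Lib.MP_bc704c_co.Q.Al8b

/-! # MP_bc704c_co, row Ex4: polyhedra with standard generators are chiral -/

namespace ChiralQ

open Quaternion ChiralNF Module

universe u

/-- a polyhedron with base flag `A` and generators `s, t` in quaternion coordinates -/
structure Bse {F : Type u} [PartialOrder F] [BoundedOrder F] {rk : F → ℤ}
    (hP : IsPolytope 3 F rk) (β : F → EuclideanSpace ℝ (Fin 4))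
    (Φ : EuclideanSpace ℝ (Fin 4) → ℍ[ℝ]) (A : SF 3 F rk) (σ τ : F ≃o F)
    (s t : ℍ[ℝ] ≃ₗᵢ[ℝ] ℍ[ℝ]) : Prop where
  gens : Gens hP A σ τ
  sim : ∃ r : ℝ, 0 < r ∧ ∀ x y, dist (Φ x) (Φ y) = r * dist x y
  surj : Function.Surjective Φ
  hs : ∀ x, rk x = 0 → s (Φ (β x)) = Φ (β (σ x))
  ht : ∀ x, rk x = 0 → t (Φ (β x)) = Φ (β (τ x))
  one : Φ (β (A.f 0)) = 1

variable {F : Type u} [PartialOrder F] [BoundedOrder F] {rk : F → ℤ}
  {hP : IsPolytope 3 F rk} {β : F → EuclideanSpace ℝ (Fin 4)}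
  {Φ : EuclideanSpace ℝ (Fin 4) → ℍ[ℝ]} {A : SF 3 F rk} {σ τ : F ≃o F}
  {s t : ℍ[ℝ] ≃ₗᵢ[ℝ] ℍ[ℝ]} {ε c d : ℝ} {a b : ℍ[ℝ]}

/-- Row Ex4. The isometries of `ℍ` correspond to the isometries of `E^4` by `Φ` (a similarity which is
bijective). -/
theorem Bse.transfer (H : Bse hP β Φ A σ τ s t) (φ : F ≃o F) :
    (∃ g, IsSymmetry rk β g φ) ↔
      ∃ h : ℍ[ℝ] ≃ᵢ ℍ[ℝ], ∀ x, rk x = 0 → h (Φ (β x)) = Φ (β (φ x)) := by
  obtain ⟨r, hr, hd⟩ := H.sim
  have hinj : Function.Injective Φ := by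
    intro x y hxy
    have h1 := hd x y
    rw [hxy, dist_self] at h1
    have h2 : dist x y = 0 := by
      rcases mul_eq_zero.1 h1.symm with h | h
      · exact absurd h hr.ne'
      · exact h
    exact dist_eq_zero.1 h2
  let e : EuclideanSpace ℝ (Fin 4) ≃ ℍ[ℝ] := Equiv.ofBijective Φ ⟨hinj, H.surj⟩
  have he : ∀ x, e x = Φ x := fun x => rfl
  have hed : ∀ x y, dist (e x) (e y) = r * dist x y := fun x y => hd x y
  have hes : ∀ p q, r * dist (e.symm p) (e.symm q) = dist p q := by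
    intro p q
    have h1 := hed (e.symm p) (e.symm q)
    rw [Equiv.apply_symm_apply, Equiv.apply_symm_apply] at h1
    exact h1.symm
  constructor
  · rintro ⟨g, hg⟩
    refine ⟨⟨(e.symm.trans g.toEquiv).trans e, ?_⟩, ?_⟩
    · refine Isometry.of_dist_eq fun p q => ?_
      change dist (e (g (e.symm p))) (e (g (e.symm q))) = dist p q
      rw [hed, g.dist_eq, hes]
    · intro x hx
      change e (g (e.symm (e (β x)))) = e (β (φ x))
      rw [Equiv.symm_apply_apply, hg x hx]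
  · rintro ⟨h, hh⟩
    refine ⟨⟨(e.trans h.toEquiv).trans e.symm, ?_⟩, ?_⟩
    · refine Isometry.of_dist_eq fun p q => ?_
      change dist (e.symm (h (e p))) (e.symm (h (e q))) = dist p q
      apply mul_left_cancel₀ hr.ne'
      rw [hes, h.dist_eq, hed]
    · intro x hx
      change e.symm (h (e (β x))) = β (φ x)
      rw [he, hh x hx, ← he, Equiv.symm_apply_apply]

/-- Row Ex4. Every `w` in the closure of `σ, τ` is induced by some `g ∈ GG s t` and conversely (closure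
induction on pairs; e.g. the subgroup of the pairs `(w, g)` with `g (Φ (β x)) = Φ (β (w x))`). -/
theorem Bse.word (H : Bse hP β Φ A σ τ s t) :
    (∀ w ∈ Subgroup.closure {σ, τ}, ∃ g ∈ GG s t, ∀ x, rk x = 0 → g (Φ (β x)) = Φ (β (w x))) ∧
    ∀ g ∈ GG s t, ∃ w ∈ Subgroup.closure {σ, τ}, ∀ x, rk x = 0 → g (Φ (β x)) = Φ (β (w x)) := by
  have hmul : ∀ (g1 g2 : ℍ[ℝ] ≃ₗᵢ[ℝ] ℍ[ℝ]) (w1 w2 : F ≃o F),
      (∀ x, rk x = 0 → g1 (Φ (β x)) = Φ (β (w1 x))) →
      (∀ x, rk x = 0 → g2 (Φ (β x)) = Φ (β (w2 x))) →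
      ∀ x, rk x = 0 → (g1 * g2) (Φ (β x)) = Φ (β ((w1 * w2) x)) := by
    intro g1 g2 w1 w2 h1 h2 x hx
    change g1 (g2 (Φ (β x))) = Φ (β (w1 (w2 x)))
    rw [h2 x hx, h1 _ (by rw [rk_auto hP, hx])]
  have hinv : ∀ (g : ℍ[ℝ] ≃ₗᵢ[ℝ] ℍ[ℝ]) (w : F ≃o F),
      (∀ x, rk x = 0 → g (Φ (β x)) = Φ (β (w x))) →
      ∀ x, rk x = 0 → g⁻¹ (Φ (β x)) = Φ (β (w⁻¹ x)) := by
    intro g w h x hx
    change g.symm (Φ (β x)) = Φ (β (w.symm x))
    have h1 := h (w.symm x) (by rw [rk_auto hP, hx])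
    rw [OrderIso.apply_symm_apply] at h1
    rw [← h1, LinearIsometryEquiv.symm_apply_apply]
  constructor
  · intro w hw
    induction hw using Subgroup.closure_induction with
    | mem w hw =>
      rcases hw with hw | hw
      · exact ⟨s, Subgroup.subset_closure (by simp), fun x hx => by rw [hw]; exact H.hs x hx⟩
      · exact ⟨t, Subgroup.subset_closure (by simp),
          fun x hx => by rw [Set.mem_singleton_iff.1 hw]; exact H.ht x hx⟩
    | one => exact ⟨1, Subgroup.one_mem _, fun x _ => rfl⟩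
    | mul w1 w2 _ _ ih1 ih2 =>
      obtain ⟨g1, hg1, h1⟩ := ih1
      obtain ⟨g2, hg2, h2⟩ := ih2
      exact ⟨g1 * g2, Subgroup.mul_mem _ hg1 hg2, hmul g1 g2 w1 w2 h1 h2⟩
    | inv w _ ih =>
      obtain ⟨g, hg, h⟩ := ih
      exact ⟨g⁻¹, Subgroup.inv_mem _ hg, hinv g w h⟩
  · intro g hg
    unfold GG at hg
    induction hg using Subgroup.closure_induction with
    | mem g hg =>
      rcases hg with hg | hg
      · exact ⟨σ, Subgroup.subset_closure (by simp), fun x hx => by rw [hg]; exact H.hs x hx⟩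
      · exact ⟨τ, Subgroup.subset_closure (by simp),
          fun x hx => by rw [Set.mem_singleton_iff.1 hg]; exact H.ht x hx⟩
    | one => exact ⟨1, Subgroup.one_mem _, fun x _ => rfl⟩
    | mul g1 g2 _ _ ih1 ih2 =>
      obtain ⟨w1, hw1, h1⟩ := ih1
      obtain ⟨w2, hw2, h2⟩ := ih2
      exact ⟨w1 * w2, Subgroup.mul_mem _ hw1 hw2, hmul g1 g2 w1 w2 h1 h2⟩
    | inv g _ ih =>
      obtain ⟨w, hw, h⟩ := ih
      exact ⟨w⁻¹, Subgroup.inv_mem _ hw, hinv g w h⟩

/-- Row Ex4. The points `Φ (β x)` of the vertices are the `g 1`, `g ∈ GG s t` (`Gens.all`). -/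
theorem Bse.vertices (H : Bse hP β Φ A σ τ s t) (p : ℍ[ℝ]) :
    (∃ x, rk x = 0 ∧ Φ (β x) = p) ↔ ∃ g ∈ GG s t, g 1 = p := by
  have hA0 : rk (A.f 0) = 0 := A.rank 0 (by omega) (by omega)
  constructor
  · rintro ⟨x, hx, rfl⟩
    obtain ⟨C, hC⟩ := hP.exists_chain (C := {x}) Set.subsingleton_singleton.isChain
    have hCx : C.f 0 = x := by
      have := hC x rfl
      rwa [hx] at this
    obtain ⟨w, hw, h⟩ := H.gens.all C
    have hwx : w (A.f 0) = x := by
      rcases h with h | h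
      · rw [← hCx, h, act_f]
      · rw [← hCx, h, act_f, adj_eq hP A (by omega)]
    obtain ⟨g, hg, h1⟩ := H.word.1 w hw
    refine ⟨g, hg, ?_⟩
    have h2 := h1 (A.f 0) hA0
    rw [H.one, hwx] at h2
    exact h2
  · rintro ⟨g, hg, rfl⟩
    obtain ⟨w, _, h1⟩ := H.word.2 g hg
    refine ⟨w (A.f 0), by rw [rk_auto hP, hA0], ?_⟩
    rw [← h1 _ hA0, H.one]

/-- Row Ex4. The centroid of the vertices is fixed by `s` and `t`, so it is `0` (`Std.fix_zero`), and it
is fixed by every isometry which permutes the vertices; an isometry which fixes `0` is linear. -/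
theorem Bse.linear [Finite F] (H : Bse hP β Φ A σ τ s t) (S : Std s t ε c d a b)
    (h : ℍ[ℝ] ≃ᵢ ℍ[ℝ]) (φ : F ≃o F) (hh : ∀ x, rk x = 0 → h (Φ (β x)) = Φ (β (φ x))) :
    ∃ R : ℍ[ℝ] ≃ₗᵢ[ℝ] ℍ[ℝ], ∀ v, h v = R v := by
  classical
  have : Fintype F := Fintype.ofFinite F
  have hA0 : rk (A.f 0) = 0 := A.rank 0 (by omega) (by omega)
  let V := Finset.univ.filter (fun x : F => rk x = 0)
  have hV : ∀ x ∈ V, rk x = 0 := fun x hx => (Finset.mem_filter.1 hx).2
  have hVne : V.Nonempty := ⟨A.f 0, Finset.mem_filter.2 ⟨Finset.mem_univ _, hA0⟩⟩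
  -- sums over the vertices are invariant
  have hperm : ∀ (ψ : F ≃o F) (f : F → ℍ[ℝ]), ∑ x ∈ V, f (ψ x) = ∑ x ∈ V, f x := by
    intro ψ f
    apply Finset.sum_equiv ψ.toEquiv
    · intro i
      simp only [V, Finset.mem_filter, Finset.mem_univ, true_and]
      change rk i = 0 ↔ rk (ψ i) = 0
      rw [rk_auto hP]
    · intro i _
      rfl
  have hsum : ∑ x ∈ V, Φ (β x) = 0 := by
    apply S.fix_zero
    · rw [map_sum]
      rw [← hperm σ (fun x => Φ (β x))]
      exact Finset.sum_congr rfl fun x hx => H.hs x (hV x hx)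
    · rw [map_sum]
      rw [← hperm τ (fun x => Φ (β x))]
      exact Finset.sum_congr rfl fun x hx => H.ht x (hV x hx)
  -- the linear part
  let L := h.toRealAffineIsometryEquiv.linearIsometryEquiv
  have hL : ∀ v, h v = L v + h 0 := by
    intro v
    have h1 := h.toRealAffineIsometryEquiv.map_vadd 0 v
    simpa using h1
  have h0 : h 0 = 0 := by
    have h1 : ∑ x ∈ V, h (Φ (β x)) = 0 := by
      rw [← hsum, ← hperm φ (fun x => Φ (β x))]
      exact Finset.sum_congr rfl fun x hx => hh x (hV x hx)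
    have h2 : ∑ x ∈ V, h (Φ (β x)) = V.card • h 0 := by
      rw [Finset.sum_congr rfl fun x _ => hL (Φ (β x)), Finset.sum_add_distrib, ← map_sum, hsum,
        map_zero, zero_add, Finset.sum_const]
    rw [h1] at h2
    have h3 : (V.card : ℝ) • h 0 = 0 := by
      rw [Nat.cast_smul_eq_nsmul]
      exact h2.symm
    rcases smul_eq_zero.1 h3 with h4 | h4
    · exfalso
      have : V.card = 0 := by exact_mod_cast h4
      exact (Finset.card_pos.2 hVne).ne' this
    · exact h4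
  exact ⟨L, fun v => by rw [hL v, h0, add_zero]⟩

end ChiralQ
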