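import Pool.Agent.Lib.MP_bc704c_co.Q.Ex4

/-! # MP_bc704c_co, row Ex4b: chirality -/

namespace ChiralQ

open Quaternion ChiralNF Module

universe u

variable {F : Type u} [PartialOrder F] [BoundedOrder F] {rk : F → ℤ}
  {hP : IsPolytope 3 F rk} {β : F → EuclideanSpace ℝ (Fin 4)}
  {Φ : EuclideanSpace ℝ (Fin 4) → ℍ[ℝ]} {A : SF 3 F rk} {σ τ : F ≃o F}
  {s t : ℍ[ℝ] ≃ₗᵢ[ℝ] ℍ[ℝ]} {ε c d : ℝ} {a b : ℍ[ℝ]}

/-- `σ (adj 2 A) = adj 1 A` -/
theorem Ex4b_sB (H : Gens hP A σ τ) : act hP σ (adj hP 2 A) = adj hP 1 A := by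
  rw [act_adj, H.hσ, adj_adj]

/-- `τ (adj 2 A) = adj 0 A` -/
theorem Ex4b_tB (H : Gens hP A σ τ) : act hP τ (adj hP 2 A) = adj hP 0 A := by
  rw [act_adj, H.hτ, adj_adj]

/-- `σ (adj 1 (adj 2 A)) = A` -/
theorem Ex4b_s1B (H : Gens hP A σ τ) : act hP σ (adj hP 1 (adj hP 2 A)) = A := by
  rw [act_adj, Ex4b_sB H, adj_adj]

/-- `τ A = adj 0 (adj 2 A)` -/
theorem Ex4b_t0B (H : Gens hP A σ τ) : act hP τ A = adj hP 0 (adj hP 2 A) := by
  rw [H.hτ, adj_comm hP (i := 0) (j := 2) (by norm_num)]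

/-- adjacent flags have adjacent sequences -/
theorem Ex4b_adj {n : ℕ} (hP : IsPolytope n F rk) {X Y : Flag F} {T S : SF n F rk}
    (hT : ∀ c, c ∈ X ↔ ∃ i, T.f i = c) (hS : ∀ c, c ∈ Y ↔ ∃ i, S.f i = c) (h : Adjacent X Y) :
    ∃ i : ℤ, 0 ≤ i ∧ i < n ∧ S = adj hP i T := by
  have hmem : ∀ (X : Flag F) (S : SF n F rk), (∀ c, c ∈ X ↔ ∃ i, S.f i = c) →
      ∀ c, c ∈ X → S.f (rk c) = c := by
    intro X S hX c hc
    obtain ⟨i, hi⟩ := (hX c).1 hc
    have h1 := hP.rk_range c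
    apply hP.eq_of_comp _ (S.rank _ h1.1 h1.2)
    rw [← hi]
    exact S.comp _ _
  obtain ⟨a, b, haY, haZ, hbZ, hbY, hab⟩ := h
  have ha := hmem X T hT a haY
  have hb := hmem Y S hS b hbZ
  have har := hP.rk_range a
  have hbr := hP.rk_range b
  have ha0 : 0 ≤ rk a := by
    by_contra h
    have : a = ⊥ := by rw [← ha]; exact T.lo _ (by omega)
    exact haZ (this ▸ Y.bot_mem)
  have han : rk a < n := by
    by_contra h
    have : a = ⊤ := by rw [← ha]; exact T.hi _ (by omega)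
    exact haZ (this ▸ Y.top_mem)
  have hSa : S.f (rk a) ≠ a := fun h => haZ ((hS a).2 ⟨_, h⟩)
  have hrab : S.f (rk a) = b := by
    by_contra hne
    have h1 : S.f (rk a) ∈ Y := (hS _).2 ⟨_, rfl⟩
    have h2 : S.f (rk a) ∈ X := (hab _ hSa hne).2 h1
    have h3 := hmem X T hT _ h2
    rw [S.rank _ har.1 har.2, ha] at h3
    exact hSa h3.symm
  have hrk : rk b = rk a := by rw [← hrab, S.rank _ har.1 har.2]
  refine ⟨rk a, ha0, han, ?_⟩
  apply adj_unique hP ha0 han
  · rw [ha]; exact hSa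
  · intro j hj
    by_cases hj1 : j ≤ -1
    · rw [S.lo j hj1, T.lo j hj1]
    by_cases hj2 : (n : ℤ) ≤ j
    · rw [S.hi j hj2, T.hi j hj2]
    have h1 : S.f j ∈ Y := (hS _).2 ⟨_, rfl⟩
    have h2 : S.f j ≠ a := fun h => by
      have := congrArg rk h
      rw [S.rank j (by omega) (by omega)] at this
      exact hj this
    have h3 : S.f j ≠ b := fun h => by
      have := congrArg rk h
      rw [S.rank j (by omega) (by omega), hrk] at this
      exact hj this
    have h4 := hmem X T hT _ ((hab _ h2 h3).2 h1)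
    rw [S.rank j (by omega) (by omega)] at h4
    exact h4.symm

/-- Row Ex4. `A` and `B = adj 2 A` are not in the same orbit: let `h` be an isometry with automorphism
`φ`, `φ A = B`; it is linear, `R` (`Bse.linear`), `R 1 = 1` since `B.f 0 = A.f 0`. `φ B = A`.
`φ σ A = φ (adj 2 (adj 1 A)) = adj 2 (adj 1 B) = adj 2 (σ⁻¹ A) = σ⁻¹ B = σ⁻¹ φ A`, so
`φ σ = σ⁻¹ φ` (`act_ext`), and `R s = s⁻¹ R` on the vertices, which span (`Std.span`, `Bse.vertices`), so
everywhere. In the same way `φ τ = τ φ`, `R t = t R`. This contradicts `Std.noR`. -/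
theorem Bse.not_SO [Finite F] (H : Bse hP β Φ A σ τ s t) (S : Std s t ε c d a b) :
    ¬ SO hP β A (adj hP 2 A) := by
  rintro ⟨g, φ, hg, hact⟩
  obtain ⟨h, hh⟩ := (H.transfer φ).1 ⟨g, hg⟩
  obtain ⟨R, hR⟩ := H.linear S h φ hh
  have hRv : ∀ x, rk x = 0 → R (Φ (β x)) = Φ (β (φ x)) := fun x hx => by rw [← hR, hh x hx]
  have hA0 : rk (A.f 0) = 0 := A.rank 0 (by norm_num) (by norm_num)
  -- the two relations of the automorphisms
  have r1 : ∀ x, φ (σ x) = σ.symm (φ x) := by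
    have e : act hP (σ.trans φ) A = act hP (φ.trans σ.symm) A := by
      rw [act_trans, act_trans, H.gens.hσ, act_adj, act_adj, hact]
      have e1 : adj hP 1 (adj hP 2 A) = act hP σ.symm A := by
        conv_rhs => rw [← Ex4b_s1B H.gens]
        rw [act_symm_act]
      rw [e1, act_adj]
    intro x
    exact act_ext hP e x
  have r2 : ∀ x, φ (τ x) = τ (φ x) := by
    have e : act hP (τ.trans φ) A = act hP (φ.trans τ) A := by
      rw [act_trans, act_trans, H.gens.hτ, act_adj, act_adj, hact, Ex4b_tB H.gens,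
        adj_comm hP (i := 0) (j := 2) (by norm_num), adj_adj]
    intro x
    exact act_ext hP e x
  -- the vertices
  have hvert : ∀ p ∈ {p : ℍ[ℝ] | ∃ g ∈ GG s t, g 1 = p}, ∃ x, rk x = 0 ∧ Φ (β x) = p :=
    fun p hp => (H.vertices p).2 hp
  refine S.noR ⟨R, ?_, ?_, ?_⟩
  · have h1 := hRv _ hA0
    have h2 : φ (A.f 0) = A.f 0 := by
      have h3 := congrArg (fun T : SF 3 F rk => T.f 0) hact
      simp only [act_f] at h3
      rw [h3, adj_eq hP A (by norm_num)]
    rw [h2, H.one] at h1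
    exact h1
  · have e : (R.toLinearEquiv.toLinearMap ∘ₗ s.toLinearEquiv.toLinearMap) =
        s.symm.toLinearEquiv.toLinearMap ∘ₗ R.toLinearEquiv.toLinearMap := by
      apply LinearMap.ext_on S.span
      intro p hp
      obtain ⟨x, hx, rfl⟩ := hvert p hp
      change R (s (Φ (β x))) = s.symm (R (Φ (β x)))
      rw [H.hs x hx, hRv _ (by rw [rk_auto hP, hx]), hRv x hx, r1, LinearIsometryEquiv.eq_symm_apply,
        H.hs _ (by rw [rk_auto hP, rk_auto hP, hx]), OrderIso.apply_symm_apply]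
    intro v
    exact LinearMap.congr_fun e v
  · have e : (R.toLinearEquiv.toLinearMap ∘ₗ t.toLinearEquiv.toLinearMap) =
        t.toLinearEquiv.toLinearMap ∘ₗ R.toLinearEquiv.toLinearMap := by
      apply LinearMap.ext_on S.span
      intro p hp
      obtain ⟨x, hx, rfl⟩ := hvert p hp
      change R (t (Φ (β x))) = t (R (Φ (β x)))
      rw [H.ht x hx, hRv _ (by rw [rk_auto hP, hx]), hRv x hx, r2,
        H.ht _ (by rw [rk_auto hP, hx])]
    intro v
    exact LinearMap.congr_fun e v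

/-- an automorphism induced by a word maps a flag into its orbit -/
theorem Ex4b_word (H : Bse hP β Φ A σ τ s t) {w : F ≃o F} (hw : w ∈ Subgroup.closure {σ, τ})
    (C : SF 3 F rk) : SO hP β C (act hP w C) := by
  obtain ⟨g, _, hg⟩ := H.word.1 w hw
  obtain ⟨g', hg'⟩ := (H.transfer w).2 ⟨g.toIsometryEquiv, fun x hx => hg x hx⟩
  exact ⟨g', w, hg', rfl⟩

/-- Row Ex4. By `Gens.all` (and `Bse.word`, `Bse.transfer`) every flag is in the orbit of `A` or of
`B = adj 2 A`. If `C` and `adj i C` were in the same orbit, then (`C` in the orbit of `A` or `B`, and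
`adj i` of a flag of one orbit is in the other orbit: `adj 0 A = τ B`, `adj 1 A = σ B`) `A` and `B`
would be in the same orbit. Translate to `Flag F` with `SO_iff` and `IsPolytope.exists_seq`;
two adjacent flags are `C` and `adj i C` for some `i` (proof of `conn` in Comb.lean). -/
theorem Bse.chiral [Finite F] (H : Bse hP β Φ A σ τ s t) (S : Std s t ε c d a b) :
    IsChiral rk β := by
  have hAB := H.not_SO S
  have hσ : σ ∈ Subgroup.closure ({σ, τ} : Set (F ≃o F)) :=
    Subgroup.subset_closure (by simp)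
  have hτ : τ ∈ Subgroup.closure ({σ, τ} : Set (F ≃o F)) :=
    Subgroup.subset_closure (by simp)
  -- every flag is in one of the two orbits
  have key1 : ∀ C : SF 3 F rk, SO hP β C A ∨ SO hP β C (adj hP 2 A) := by
    intro C
    obtain ⟨w, hw, h | h⟩ := H.gens.all C
    · left; rw [h]; exact SO_symm hP (Ex4b_word H hw A)
    · right; rw [h]; exact SO_symm hP (Ex4b_word H hw _)
  -- adjacent flags are in different orbits
  have hA : ∀ i : ℤ, 0 ≤ i → i < 3 → SO hP β (adj hP 2 A) (adj hP i A) := by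
    intro i h0 h3
    have : i = 0 ∨ i = 1 ∨ i = 2 := by omega
    rcases this with rfl | rfl | rfl
    · have := Ex4b_word H hτ (adj hP 2 A)
      rwa [Ex4b_tB H.gens] at this
    · have := Ex4b_word H hσ (adj hP 2 A)
      rwa [Ex4b_sB H.gens] at this
    · exact ⟨_, _, isSymmetry_refl, act_refl _⟩
  have hB : ∀ i : ℤ, 0 ≤ i → i < 3 → SO hP β A (adj hP i (adj hP 2 A)) := by
    intro i h0 h3
    have : i = 0 ∨ i = 1 ∨ i = 2 := by omega
    rcases this with rfl | rfl | rfl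
    · have := Ex4b_word H hτ A
      rwa [Ex4b_t0B H.gens] at this
    · have := Ex4b_word H hσ (adj hP 1 (adj hP 2 A))
      rw [Ex4b_s1B H.gens] at this
      exact SO_symm hP this
    · rw [adj_adj]
      exact ⟨_, _, isSymmetry_refl, act_refl _⟩
  have key2 : ∀ (C : SF 3 F rk) (i : ℤ), 0 ≤ i → i < 3 → ¬ SO hP β C (adj hP i C) := by
    intro C i h0 h3 hC
    obtain ⟨w, hw, h | h⟩ := H.gens.all C
    · have h1 : SO hP β A C := by rw [h]; exact Ex4b_word H hw A
      have h2 : SO hP β (adj hP i A) (adj hP i C) := by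
        rw [h, ← act_adj]; exact Ex4b_word H hw _
      exact hAB (SO_trans hP (SO_trans hP h1 (SO_trans hP hC (SO_symm hP h2)))
        (SO_symm hP (hA i h0 h3)))
    · have h1 : SO hP β (adj hP 2 A) C := by rw [h]; exact Ex4b_word H hw _
      have h2 : SO hP β (adj hP i (adj hP 2 A)) (adj hP i C) := by
        rw [h, ← act_adj]; exact Ex4b_word H hw _
      exact hAB (SO_symm hP (SO_trans hP (SO_trans hP h1 (SO_trans hP hC (SO_symm hP h2)))
        (SO_symm hP (hB i h0 h3))))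
  refine ⟨?_, ?_⟩
  · obtain ⟨FA, hFA⟩ := hP.exists_flag A
    obtain ⟨FB, hFB⟩ := hP.exists_flag (adj hP 2 A)
    refine ⟨FA, FB, fun h => hAB ((SO_iff hP hFA hFB).1 h), fun C => ?_⟩
    obtain ⟨SC, hSC⟩ := hP.exists_seq C
    rcases key1 SC with h | h
    · exact Or.inl ((SO_iff hP hSC hFA).2 h)
    · exact Or.inr ((SO_iff hP hSC hFB).2 h)
  · intro X Y hXY hSO
    obtain ⟨SX, hSX⟩ := hP.exists_seq X
    obtain ⟨SY, hSY⟩ := hP.exists_seq Y
    obtain ⟨i, h0, h3, hi⟩ := Ex4b_adj hP hSX hSY hXY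
    have h := (SO_iff (β := β) hP hSX hSY).1 hSO
    rw [hi] at h
    exact key2 SX i h0 (by exact_mod_cast h3) h

end ChiralQ
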