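import Pool.Agent.Lib.MP_bc704c_co.Q.Ex4b

/-! # MP_bc704c_co, row Ex5: the model of a polyhedron with standard generators -/

namespace ChiralQ

open Quaternion ChiralNF Module

universe u

variable {F : Type u} [PartialOrder F] [BoundedOrder F] {rk : F → ℤ}
  {hP : IsPolytope 3 F rk} {β : F → EuclideanSpace ℝ (Fin 4)}
  {Φ : EuclideanSpace ℝ (Fin 4) → ℍ[ℝ]} {A : SF 3 F rk} {σ τ : F ≃o F}
  {s t : ℍ[ℝ] ≃ₗᵢ[ℝ] ℍ[ℝ]} {ε c d : ℝ} {a b : ℍ[ℝ]}

private theorem Ex5_inj (H : Bse hP β Φ A σ τ s t) : Function.Injective Φ := by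
  obtain ⟨r, hr, hd⟩ := H.sim
  intro x y hxy
  have h1 := hd x y
  rw [hxy, dist_self] at h1
  have h2 : dist x y = 0 := by
    rcases mul_eq_zero.1 h1.symm with h | h
    · exact absurd h hr.ne'
    · exact h
  exact dist_eq_zero.1 h2

/-- the pairs of an isometry and an automorphism which it induces -/
private def Ex5_pairs (hP : IsPolytope 3 F rk) (β : F → EuclideanSpace ℝ (Fin 4))
    (Φ : EuclideanSpace ℝ (Fin 4) → ℍ[ℝ]) : Subgroup ((ℍ[ℝ] ≃ₗᵢ[ℝ] ℍ[ℝ]) × (F ≃o F)) where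
  carrier := {p | ∀ x, rk x = 0 → p.1 (Φ (β x)) = Φ (β (p.2 x))}
  mul_mem' := by
    rintro ⟨g, w⟩ ⟨g', w'⟩ h h' x hx
    change g (g' (Φ (β x))) = Φ (β (w (w' x)))
    rw [h' x hx]
    exact h _ (by rw [rk_auto hP, hx])
  one_mem' := fun x _ => rfl
  inv_mem' := by
    rintro ⟨g, w⟩ h x hx
    change g.symm (Φ (β x)) = Φ (β (w.symm x))
    have h1 := h (w.symm x) (by rw [rk_auto hP, hx])
    change g (Φ (β (w.symm x))) = Φ (β (w (w.symm x))) at h1
    rw [OrderIso.apply_symm_apply] at h1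
    rw [← h1, LinearIsometryEquiv.symm_apply_apply]

private theorem Ex5_zpow (hP : IsPolytope 3 F rk) {g : ℍ[ℝ] ≃ₗᵢ[ℝ] ℍ[ℝ]} {w : F ≃o F}
    (h : ∀ x, rk x = 0 → g (Φ (β x)) = Φ (β (w x))) (j : ℤ) :
    ∀ x, rk x = 0 → (g ^ j) (Φ (β x)) = Φ (β ((w ^ j) x)) := by
  have h1 : ((g, w) : (ℍ[ℝ] ≃ₗᵢ[ℝ] ℍ[ℝ]) × (F ≃o F)) ∈ Ex5_pairs hP β Φ := h
  exact Subgroup.zpow_mem _ h1 j

/-- the automorphisms which fix a face -/
private def Ex5_stab (y : F) : Subgroup (F ≃o F) where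
  carrier := {w | w y = y}
  mul_mem' := by
    intro w w' h h'
    change w (w' y) = y
    have h1 : w' y = y := h'
    rw [h1]
    exact h
  one_mem' := rfl
  inv_mem' := by
    intro w h
    change w.symm y = y
    have h1 : w y = y := h
    conv_lhs => rw [← h1]
    exact OrderIso.symm_apply_apply w y

private theorem Ex5_rk0 (A : SF 3 F rk) : rk (A.f 0) = 0 := A.rank 0 (by norm_num) (by norm_num)

private theorem Ex5_eq (H : Bse hP β Φ A σ τ s t) (S : Std s t ε c d a b)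
    {g h : ℍ[ℝ] ≃ₗᵢ[ℝ] ℍ[ℝ]} (hgh : ∀ x, rk x = 0 → g (Φ (β x)) = h (Φ (β x))) : g = h := by
  have h1 : g.toLinearEquiv.toLinearMap = h.toLinearEquiv.toLinearMap := by
    apply LinearMap.ext_on S.span
    rintro p hp
    obtain ⟨x, hx, rfl⟩ := (H.vertices p).2 hp
    exact hgh x hx
  apply LinearIsometryEquiv.ext
  intro v
  exact congrArg (fun f : ℍ[ℝ] →ₗ[ℝ] ℍ[ℝ] => f v) h1

/-- the second case is excluded -/
private theorem Ex5_excl [Finite F] (H : Bse hP β Φ A σ τ s t) (S : Std s t ε c d a b)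
    {φ w : F ≃o F} {h : ℍ[ℝ] ≃ᵢ ℍ[ℝ]} (hh : ∀ x, rk x = 0 → h (Φ (β x)) = Φ (β (φ x)))
    (hw : w ∈ Subgroup.closure {σ, τ}) (he : act hP φ A = act hP w (adj hP 2 A)) : False := by
  obtain ⟨g1, hg1⟩ := (H.transfer φ).2 ⟨h, hh⟩
  obtain ⟨g, _, hg⟩ := H.word.1 w hw
  obtain ⟨g2, hg2⟩ := (H.transfer w).2 ⟨g.toIsometryEquiv, hg⟩
  apply H.not_SO S
  have e1 : SO hP β A (act hP w (adj hP 2 A)) := ⟨g1, φ, hg1, he⟩
  have e2 : SO hP β (adj hP 2 A) (act hP w (adj hP 2 A)) := ⟨g2, w, hg2, rfl⟩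
  exact SO_trans hP e1 (SO_symm hP e2)

/-- Row Ex5. Let `h` permute the vertices with automorphism `φ`. `φ A` is `w A` or `w B` (`Gens.all`); in
the second case `A` and `B` are in the same orbit, excluded by `Bse.not_SO`. So `φ = w` (`act_ext`), `w` is
induced by some `g ∈ GG s t` (`Bse.word`), `h` is linear (`Bse.linear`) and equal to `g` on the vertices,
which span (`Std.span`). Conversely `Bse.word`. -/
theorem Bse.sym [Finite F] (H : Bse hP β Φ A σ τ s t) (S : Std s t ε c d a b)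
    (h : ℍ[ℝ] ≃ᵢ ℍ[ℝ]) : (∃ φ : F ≃o F, ∀ x, rk x = 0 → h (Φ (β x)) = Φ (β (φ x))) ↔
    ∃ g ∈ GG s t, ∀ v, h v = g v := by
  constructor
  · rintro ⟨φ, hh⟩
    obtain ⟨R, hR⟩ := H.linear S h φ hh
    obtain ⟨w, hw, hC | hC⟩ := H.gens.all (act hP φ A)
    · have hφ := act_ext hP hC
      obtain ⟨g, hg, hgw⟩ := H.word.1 w hw
      refine ⟨g, hg, fun v => ?_⟩
      have : R = g := by
        apply Ex5_eq H S
        intro x hx
        rw [← hR, hh x hx, hgw x hx, hφ x]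
      rw [hR v, this]
    · exact (Ex5_excl H S hh hw hC).elim
  · rintro ⟨g, hg, hv⟩
    obtain ⟨w, _, hw⟩ := H.word.2 g hg
    exact ⟨w, fun x hx => by rw [hv, hw x hx]⟩

/-- Row Ex5. If `g 1 = 1`, `g` induces `w`, then `w A` has the vertex `A.f 0` (`β` is injective on the
vertices, `Φ` is injective), so `w A = σ ^ j A` or `σ ^ j B` (`Gens.vertex`), the second case is
excluded, `w = σ ^ j`, and `g = s ^ j` on the vertices, hence everywhere. -/
theorem Bse.stab [Finite F] (hβ : IsRealization rk β) (H : Bse hP β Φ A σ τ s t)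
    (S : Std s t ε c d a b) : ∀ g ∈ GG s t, g 1 = 1 → g ∈ Subgroup.zpowers s := by
  intro g hg h1
  obtain ⟨w, hw, hgw⟩ := H.word.2 g hg
  have hr := Ex5_rk0 A
  have h2 : w (A.f 0) = A.f 0 := by
    apply hβ.inj _ _ (by rw [rk_auto hP, hr]) hr
    apply Ex5_inj H
    rw [← hgw _ hr, H.one, h1]
  have hσ : σ ∈ Subgroup.closure {σ, τ} := Subgroup.subset_closure (by simp)
  obtain ⟨j, hj | hj⟩ := H.gens.vertex (act hP w A) h2
  · refine ⟨j, ?_⟩
    have h3 := act_ext hP hj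
    change s ^ j = g
    apply Ex5_eq H S
    intro x hx
    rw [Ex5_zpow hP H.hs j x hx, hgw x hx, h3 x]
  · exact (Ex5_excl (h := g.toIsometryEquiv) H S hgw (Subgroup.zpow_mem _ hσ j) hj).elim

private theorem Ex5_tau1 (H : Gens hP A σ τ) : τ (A.f 1) = A.f 1 := by
  have h1 : (act hP τ A).f 1 = A.f 1 := by
    rw [H.hτ, adj_eq hP _ (by norm_num), adj_eq hP _ (by norm_num)]
  exact h1

private theorem Ex5_sigma0 (H : Gens hP A σ τ) : σ (A.f 0) = A.f 0 := by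
  have h1 : (act hP σ A).f 0 = A.f 0 := by
    rw [H.hσ, adj_eq hP _ (by norm_num), adj_eq hP _ (by norm_num)]
  exact h1

private theorem Ex5_tau2 (H : Gens hP A σ τ) : (adj hP 2 A).f 2 = τ (A.f 2) := by
  have h1 : act hP τ (adj hP 2 A) = adj hP 0 A := by
    rw [act_adj, H.hτ, adj_adj]
  have h2 : τ ((adj hP 2 A).f 2) = A.f 2 := by
    have h3 : (act hP τ (adj hP 2 A)).f 2 = A.f 2 := by
      rw [h1, adj_eq hP _ (by norm_num)]
    exact h3
  rw [← h2, H.tau_sq]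

private theorem Ex5_st2 (H : Gens hP A σ τ) : (σ * τ) (A.f 2) = A.f 2 := by
  have h1 : act hP (σ * τ) A = adj hP 0 (adj hP 1 A) := by
    have h2 : act hP (σ * τ) A = act hP σ (act hP τ A) := rfl
    rw [h2, H.hτ, act_adj, act_adj, H.hσ, adj_comm hP (i := 0) (j := 2) (by norm_num), adj_adj]
  have h3 : (act hP (σ * τ) A).f 2 = A.f 2 := by
    rw [h1, adj_eq hP _ (by norm_num), adj_eq hP _ (by norm_num)]
  exact h3

private theorem Ex5_st2j (H : Gens hP A σ τ) (j : ℤ) : ((σ * τ) ^ j) (A.f 2) = A.f 2 := by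
  have h1 : σ * τ ∈ Ex5_stab (A.f 2) := Ex5_st2 H
  exact Subgroup.zpow_mem _ h1 j

private theorem Ex5_st (H : Bse hP β Φ A σ τ s t) (j : ℤ) :
    ∀ x, rk x = 0 → ((s * t) ^ j) (Φ (β x)) = Φ (β (((σ * τ) ^ j) x)) := by
  apply Ex5_zpow hP
  intro x hx
  change s (t (Φ (β x))) = Φ (β (σ (τ x)))
  rw [H.ht x hx]
  exact H.hs _ (by rw [rk_auto hP, hx])

/-- Row Ex5. The vertices of the edge `A.f 1` are `A.f 0` and `τ (A.f 0)` (`Gens.edge` and
`exists_through` in Mirror.lean), those of the face `A.f 2` are the `(σ τ) ^ j (A.f 0)` (`Gens.face`;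
`(σ τ) ^ j σ B` has the vertex `(σ τ) ^ j (A.f 0)`). -/
theorem Bse.base (H : Bse hP β Φ A σ τ s t) :
    Φ '' vset rk β (A.f 1) = {1, t 1} ∧
      Φ '' vset rk β (A.f 2) = {p | ∃ j : ℤ, p = ((s * t) ^ j) 1} := by
  have hr := Ex5_rk0 A
  have hB0 : (adj hP 2 A).f 0 = A.f 0 := adj_eq hP A (by norm_num)
  have ht1 : t 1 = Φ (β (τ (A.f 0))) := by rw [← H.ht _ hr, H.one]
  constructor
  · ext p
    constructor
    · rintro ⟨_, ⟨x, ⟨hx, hxk⟩, rfl⟩, rfl⟩
      obtain ⟨B, hBx, hB⟩ := exists_through hP A hx (k := 1) (by norm_num) hxk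
      have h1 : B.f 1 = A.f 1 := (hB 1 le_rfl).symm
      rcases H.gens.edge B h1 with h | h | h | h
      · left
        rw [← hBx, h, H.one]
      · right
        rw [← hBx, h]
        exact ht1.symm
      · left
        rw [← hBx, h, hB0, H.one]
      · right
        rw [← hBx, h, act_f, hB0]
        exact ht1.symm
    · rintro (h | h)
      · rw [h]
        exact ⟨_, ⟨A.f 0, ⟨hr, A.mono (by norm_num)⟩, rfl⟩, H.one⟩
      · rw [Set.mem_singleton_iff] at h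
        rw [h]
        refine ⟨_, ⟨τ (A.f 0), ⟨by rw [rk_auto hP, hr], ?_⟩, rfl⟩, ht1.symm⟩
        rw [← Ex5_tau1 H.gens]
        exact τ.monotone (A.mono (by norm_num))
  · ext p
    constructor
    · rintro ⟨_, ⟨x, ⟨hx, hxk⟩, rfl⟩, rfl⟩
      obtain ⟨B, hBx, hB⟩ := exists_through hP A hx (k := 2) (by norm_num) hxk
      have h1 : B.f 2 = A.f 2 := (hB 2 le_rfl).symm
      obtain ⟨j, h | h⟩ := H.gens.face B h1
      · refine ⟨j, ?_⟩
        rw [← hBx, h, act_f, ← Ex5_st H j _ hr, H.one]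
      · refine ⟨j, ?_⟩
        have h2 : ((σ * τ) ^ j * σ) (A.f 0) = ((σ * τ) ^ j) (A.f 0) := by
          change ((σ * τ) ^ j) (σ (A.f 0)) = _
          rw [Ex5_sigma0 H.gens]
        rw [← hBx, h, act_f, hB0, h2, ← Ex5_st H j _ hr, H.one]
    · rintro ⟨j, rfl⟩
      refine ⟨_, ⟨((σ * τ) ^ j) (A.f 0), ⟨by rw [rk_auto hP, hr], ?_⟩, rfl⟩, ?_⟩
      · conv_rhs => rw [← Ex5_st2j H.gens j]
        exact ((σ * τ) ^ j).monotone (A.mono (by norm_num))
      · rw [← Ex5_st H j _ hr, H.one]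

private theorem Ex5_vset {g : ℍ[ℝ] ≃ₗᵢ[ℝ] ℍ[ℝ]} {w : F ≃o F} (hP : IsPolytope 3 F rk)
    (h : ∀ x, rk x = 0 → g (Φ (β x)) = Φ (β (w x))) (y : F) :
    Φ '' vset rk β (w y) = g '' (Φ '' vset rk β y) := by
  ext p
  constructor
  · rintro ⟨_, ⟨x, ⟨hx, hxy⟩, rfl⟩, rfl⟩
    have hr : rk (w.symm x) = 0 := by rw [rk_auto hP, hx]
    refine ⟨_, ⟨_, ⟨w.symm x, ⟨hr, ?_⟩, rfl⟩, rfl⟩, ?_⟩
    · rw [← w.le_iff_le, OrderIso.apply_symm_apply]
      exact hxy
    · rw [h _ hr, OrderIso.apply_symm_apply]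
  · rintro ⟨_, ⟨_, ⟨x, ⟨hx, hxy⟩, rfl⟩, rfl⟩, rfl⟩
    refine ⟨_, ⟨w x, ⟨by rw [rk_auto hP, hx], w.monotone hxy⟩, rfl⟩, (h x hx).symm⟩

private theorem Ex5_edge (H : Bse hP β Φ A σ τ s t) {g : ℍ[ℝ] ≃ₗᵢ[ℝ] ℍ[ℝ]} {w : F ≃o F}
    (h : ∀ x, rk x = 0 → g (Φ (β x)) = Φ (β (w x))) :
    Φ '' vset rk β (w (A.f 1)) = {g 1, g (t 1)} := by
  rw [Ex5_vset hP h, H.base.1, Set.image_pair]

private theorem Ex5_face (H : Bse hP β Φ A σ τ s t) {g : ℍ[ℝ] ≃ₗᵢ[ℝ] ℍ[ℝ]} {w : F ≃o F}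
    (h : ∀ x, rk x = 0 → g (Φ (β x)) = Φ (β (w x))) :
    Φ '' vset rk β (w (A.f 2)) = {p | ∃ j : ℤ, p = g (((s * t) ^ j) 1)} := by
  rw [Ex5_vset hP h, H.base.2]
  ext p
  constructor
  · rintro ⟨_, ⟨j, rfl⟩, rfl⟩
    exact ⟨j, rfl⟩
  · rintro ⟨j, rfl⟩
    exact ⟨_, ⟨j, rfl⟩, rfl⟩

/-- every pair of an edge and a face of a flag is in the orbit of the base pair -/
private theorem Ex5_pair (H : Gens hP A σ τ) (C : SF 3 F rk) :
    ∃ w ∈ Subgroup.closure {σ, τ}, C.f 1 = w (A.f 1) ∧ C.f 2 = w (A.f 2) := by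
  obtain ⟨w, hw, h | h⟩ := H.all C
  · exact ⟨w, hw, by rw [h]; rfl, by rw [h]; rfl⟩
  · have hτ : τ ∈ Subgroup.closure {σ, τ} := Subgroup.subset_closure (by simp)
    refine ⟨w * τ, Subgroup.mul_mem _ hw hτ, ?_, ?_⟩
    · change _ = w (τ (A.f 1))
      rw [Ex5_tau1 H, h, act_f, adj_eq hP _ (by norm_num)]
    · change _ = w (τ (A.f 2))
      rw [← Ex5_tau2 H, h, act_f]

/-- Row Ex5. Every edge is `w (A.f 1)`, every face is `w (A.f 2)` (as `B.f 2 = τ (A.f 2)`, and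
`B.f 1 = A.f 1`), every incident pair of an edge and a face is `w (A.f 1, A.f 2)`: a flag through it is
`w A` or `w B = w (..., A.f 1, τ A.f 2) = w τ (..., A.f 1, A.f 2)`. `β` is faithful, so faces are
determined by their vertex sets. -/
theorem Bse.model [Finite F] (hβ : IsRealization rk β) (H : Bse hP β Φ A σ τ s t)
    (S : Std s t ε c d a b) : Model rk β Φ s t := by
  have hinj := Ex5_inj H
  have hr1 : rk (A.f 1) = 1 := A.rank 1 (by norm_num) (by norm_num)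
  have hr2 : rk (A.f 2) = 2 := A.rank 2 (by norm_num) (by norm_num)
  refine ⟨H.sim, H.surj, H.sym S, H.stab hβ S, H.vertices, ?_, ?_, ?_⟩
  · intro X
    constructor
    · rintro ⟨x, hx, rfl⟩
      obtain ⟨C, hC⟩ := hP.exists_chain (C := {x}) Set.subsingleton_singleton.isChain
      have h1 := hC x rfl
      rw [hx] at h1
      obtain ⟨w, hw, h2, _⟩ := Ex5_pair H.gens C
      obtain ⟨g, hg, hgw⟩ := H.word.1 w hw
      refine ⟨g, hg, ?_⟩
      rw [← h1, h2, Ex5_edge H hgw]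
    · rintro ⟨g, hg, rfl⟩
      obtain ⟨w, hw, hgw⟩ := H.word.2 g hg
      exact ⟨w (A.f 1), by rw [rk_auto hP, hr1], Ex5_edge H hgw⟩
  · intro X
    constructor
    · rintro ⟨x, hx, rfl⟩
      obtain ⟨C, hC⟩ := hP.exists_chain (C := {x}) Set.subsingleton_singleton.isChain
      have h1 := hC x rfl
      rw [hx] at h1
      obtain ⟨w, hw, _, h2⟩ := Ex5_pair H.gens C
      obtain ⟨g, hg, hgw⟩ := H.word.1 w hw
      refine ⟨g, hg, ?_⟩
      rw [← h1, h2, Ex5_face H hgw]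
    · rintro ⟨g, hg, rfl⟩
      obtain ⟨w, hw, hgw⟩ := H.word.2 g hg
      exact ⟨w (A.f 2), by rw [rk_auto hP, hr2], Ex5_face H hgw⟩
  · intro x y hx hy
    constructor
    · intro hxy
      obtain ⟨C, hC⟩ := hP.exists_chain (C := {x, y}) (IsChain.pair hxy.le)
      have h1 := hC x (by simp)
      have h2 := hC y (by simp)
      rw [hx] at h1
      rw [hy] at h2
      obtain ⟨w, hw, h3, h4⟩ := Ex5_pair H.gens C
      obtain ⟨g, hg, hgw⟩ := H.word.1 w hw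
      refine ⟨g, hg, ?_, ?_⟩
      · rw [← h1, h3, Ex5_edge H hgw]
      · rw [← h2, h4, Ex5_face H hgw]
    · rintro ⟨g, hg, h1, h2⟩
      obtain ⟨w, hw, hgw⟩ := H.word.2 g hg
      have h3 : x = w (A.f 1) := by
        apply hβ.faithful
        apply hinj.image_injective
        rw [h1, Ex5_edge H hgw]
      have h4 : y = w (A.f 2) := by
        apply hβ.faithful
        apply hinj.image_injective
        rw [h2, Ex5_face H hgw]
      rw [h3, h4]
      apply w.strictMono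
      apply lt_of_le_of_ne (A.mono (by norm_num))
      intro h
      rw [h, hr2] at hr1
      norm_num at hr1

end ChiralQ
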