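import Pool.Agent.Lib.MP_bc704c_co.Q.Ex5
import Pool.Agent.Lib.MP_bc704c_co.Q.Ex2b
import Pool.Agent.Lib.MP_bc704c_co.Q.Al5
import Pool.Agent.Lib.MP_bc704c_co.Q.Co1b

/-! # MP_bc704c_co, row Ex6: every finite chiral polyhedron has standard generators -/

namespace ChiralQ

open Quaternion ChiralNF Module

universe u

/-- Row Ex6. `extract` gives `c0, s0, t0`; let `r = ‖β (A.f 0) - c0‖ > 0`, `v0 = r⁻¹ (β (A.f 0) - c0)`.
`s0 ^ 2 ≠ 1`, otherwise `R = 1` contradicts `extract`. `exists_coord` gives `Ψ`; `Φ x = Ψ (r⁻¹ (x - c0))`,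
`s = Ψ s0 Ψ⁻¹`, `t = Ψ t0 Ψ⁻¹`. `halfturn_of_noR` (transport `R` by `Ψ`) gives the form of `t`.
`GG s t` is finite by `Ind.finite` and conjugation with `Ψ`. -/
theorem exists_base {F : Type u} [PartialOrder F] [BoundedOrder F] {rk : F → ℤ} [Finite F]
    (hP : IsPolytope 3 F rk) {β : F → EuclideanSpace ℝ (Fin 4)} (hβ : IsRealization rk β)
    (hc : IsChiral rk β) :
    ∃ (Φ : EuclideanSpace ℝ (Fin 4) → ℍ[ℝ]) (A : SF 3 F rk) (σ τ : F ≃o F)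
      (s t : ℍ[ℝ] ≃ₗᵢ[ℝ] ℍ[ℝ]) (ε c d : ℝ) (a b : ℍ[ℝ]),
      Bse hP β Φ A σ τ s t ∧ Std s t ε c d a b ∧ Finite (GG s t) := by
  obtain ⟨A, c0, s0, t0, σ, τ, hσ, hτ, hInds, hIndt, hne, ht2, hfix, hnoR⟩ := extract hP hβ hc
  obtain ⟨r, hr⟩ : ∃ r : ℝ, r = ‖β (A.f 0) - c0‖ := ⟨_, rfl⟩
  have hr0 : 0 < r := by
    rw [hr]
    exact norm_pos_iff.2 (sub_ne_zero.2 hne)
  have hr1 : 0 < r⁻¹ := inv_pos.2 hr0
  have hv0 : ‖r⁻¹ • (β (A.f 0) - c0)‖ = 1 := by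
    rw [norm_smul, ← hr, Real.norm_of_nonneg hr1.le, inv_mul_cancel₀ hr0.ne']
  have hsv : s0 (r⁻¹ • (β (A.f 0) - c0)) = r⁻¹ • (β (A.f 0) - c0) := by
    rw [map_smul, hfix]
  have hs2 : ∃ x, s0 (s0 x) ≠ x := by
    by_contra hcon
    push Not at hcon
    apply hnoR
    refine ⟨LinearIsometryEquiv.refl ℝ _, rfl, ?_, fun x => rfl⟩
    intro x
    show s0 x = s0.symm x
    rw [LinearIsometryEquiv.eq_symm_apply]
    exact hcon x
  obtain ⟨Ψ, ε, c, d, hε, hcd, hd, hΨ1, hΨs⟩ :=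
    exists_coord (by simp) s0 hv0 hsv hs2
  -- the conjugation
  obtain ⟨f, hf⟩ : ∃ f : (EuclideanSpace ℝ (Fin 4) ≃ₗᵢ[ℝ] EuclideanSpace ℝ (Fin 4)) →*
      (ℍ[ℝ] ≃ₗᵢ[ℝ] ℍ[ℝ]), ∀ g v, f g v = Ψ (g (Ψ.symm v)) := by
    refine ⟨{ toFun := fun g => Ψ.symm.trans (g.trans Ψ), map_one' := ?_, map_mul' := ?_ }, ?_⟩
    · ext1 v
      show Ψ (Ψ.symm v) = v
      exact Ψ.apply_symm_apply v
    · intro g h
      ext1 v
      show Ψ (g (h (Ψ.symm v))) = Ψ (g (Ψ.symm (Ψ (h (Ψ.symm v)))))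
      rw [Ψ.symm_apply_apply]
    · intro g v
      rfl
  have hfs : ∀ g x, f g (Ψ x) = Ψ (g x) := by
    intro g x
    rw [hf, Ψ.symm_apply_apply]
  have hfsymm : ∀ g v, (f g).symm v = Ψ (g.symm (Ψ.symm v)) := by
    intro g v
    rw [LinearIsometryEquiv.symm_apply_eq, hfs, g.apply_symm_apply, Ψ.apply_symm_apply]
  have hs : ∀ v, f s0 v = sF ε c d v := by
    intro v
    rw [hf, hΨs, Ψ.apply_symm_apply]
  have ht : ∀ v, f t0 (f t0 v) = v := by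
    intro v
    rw [hf t0 v, hfs, ht2, Ψ.apply_symm_apply]
  have hback : β (A.f 0) - c0 = r • Ψ.symm 1 := by
    have h1 : Ψ.symm 1 = r⁻¹ • (β (A.f 0) - c0) := by
      rw [← hΨ1, Ψ.symm_apply_apply]
    rw [h1, smul_smul, mul_inv_cancel₀ hr0.ne', one_smul]
  have hR : ¬ ∃ R : ℍ[ℝ] ≃ₗᵢ[ℝ] ℍ[ℝ], R 1 = 1 ∧ (∀ v, R (f s0 v) = (f s0).symm (R v)) ∧
      ∀ v, R (f t0 v) = f t0 (R v) := by
    rintro ⟨R, hR1, hR2, hR3⟩
    apply hnoR
    refine ⟨Ψ.trans (R.trans Ψ.symm), ?_, ?_, ?_⟩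
    · rw [hback, map_smul]
      show r • Ψ.symm (R (Ψ (Ψ.symm 1))) = r • Ψ.symm 1
      rw [Ψ.apply_symm_apply, hR1]
    · intro x
      show Ψ.symm (R (Ψ (s0 x))) = s0.symm (Ψ.symm (R (Ψ x)))
      rw [← hfs s0 x, hR2, hfsymm, Ψ.symm_apply_apply]
    · intro x
      show Ψ.symm (R (Ψ (t0 x))) = t0 (Ψ.symm (R (Ψ x)))
      rw [← hfs t0 x, hR3, hf, Ψ.symm_apply_apply]
  obtain ⟨a, b, ha, hb, hchi, htF⟩ := halfturn_of_noR hε hcd hs ht hR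
  refine ⟨fun x => Ψ (r⁻¹ • (x - c0)), A, σ, τ, f s0, f t0, ε, c, d, a, b, ?_, ?_, ?_⟩
  · exact {
      gens := ⟨hσ, hτ⟩
      sim := by
        refine ⟨r⁻¹, hr1, ?_⟩
        intro x y
        show dist (Ψ (r⁻¹ • (x - c0))) (Ψ (r⁻¹ • (y - c0))) = r⁻¹ * dist x y
        rw [Ψ.dist_map, dist_eq_norm, ← smul_sub, sub_sub_sub_cancel_right, norm_smul,
          Real.norm_of_nonneg hr1.le, dist_eq_norm]
      surj := by
        intro q
        refine ⟨r • Ψ.symm q + c0, ?_⟩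
        show Ψ (r⁻¹ • (r • Ψ.symm q + c0 - c0)) = q
        rw [add_sub_cancel_right, smul_smul, inv_mul_cancel₀ hr0.ne', one_smul,
          Ψ.apply_symm_apply]
      hs := by
        intro x hx
        show f s0 (Ψ (r⁻¹ • (β x - c0))) = Ψ (r⁻¹ • (β (σ x) - c0))
        rw [hfs, map_smul, hInds.1 x hx]
      ht := by
        intro x hx
        show f t0 (Ψ (r⁻¹ • (β x - c0))) = Ψ (r⁻¹ • (β (τ x) - c0))
        rw [hfs, map_smul, hIndt.1 x hx]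
      one := hΨ1 }
  · exact {
      hε := hε
      hcd := hcd
      hd := hd
      ha := ha
      hb := hb
      chi := hchi
      hs := hs
      ht := htF }
  · have hfin : Finite (Subgroup.closure {s0, t0}) := Ind.finite hP hInds hIndt
    have hmap : GG (f s0) (f t0) = (Subgroup.closure {s0, t0}).map f := by
      unfold GG
      rw [MonoidHom.map_closure, Set.image_pair]
    rw [hmap]
    have h2 : Set.Finite ((Subgroup.closure {s0, t0} :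
        Subgroup (EuclideanSpace ℝ (Fin 4) ≃ₗᵢ[ℝ] EuclideanSpace ℝ (Fin 4))) :
        Set (EuclideanSpace ℝ (Fin 4) ≃ₗᵢ[ℝ] EuclideanSpace ℝ (Fin 4))) := Set.toFinite _
    exact (h2.image f).to_subtype


end ChiralQ
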