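import Pool.Agent.Lib.MP_bc704c_co.Q.Al1
import Pool.Agent.Lib.MP_bc704c_co.Q.Al6

/-! # MP_bc704c_co, row Fg1: left projections of finite groups -/

namespace ChiralQ

open Quaternion ChiralNF

/-- the left components of the elements `v ↦ x v ȳ` of `G` -/
def LL (G : Subgroup (ℍ[ℝ] ≃ₗᵢ[ℝ] ℍ[ℝ])) : Set ℍ[ℝ] :=
  {x | normSq x = 1 ∧ ∃ y, normSq y = 1 ∧ ∃ g ∈ G, ∀ v, g v = tF x y v}

/-- the right components of the elements `v ↦ x v ȳ` of `G` -/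
def RL (G : Subgroup (ℍ[ℝ] ≃ₗᵢ[ℝ] ℍ[ℝ])) : Set ℍ[ℝ] :=
  {y | normSq y = 1 ∧ ∃ x, normSq x = 1 ∧ ∃ g ∈ G, ∀ v, g v = tF x y v}

private theorem Fg1_mul_star {x : ℍ[ℝ]} (h : normSq x = 1) : x * star x = 1 := by
  rw [Quaternion.self_mul_star, h]
  rfl

private theorem Fg1_star_mul {x : ℍ[ℝ]} (h : normSq x = 1) : star x * x = 1 := by
  rw [Quaternion.star_mul_self, h]
  rfl

private theorem Fg1_mul {x x' : ℍ[ℝ]} (h : normSq x = 1) (h' : normSq x' = 1) :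
    normSq (x * x') = 1 := by
  rw [map_mul, h, h', one_mul]

private theorem Fg1_star {x : ℍ[ℝ]} (h : normSq x = 1) : normSq (star x) = 1 := by
  rw [Quaternion.normSq_star, h]

private theorem Fg1_one : normSq (1 : ℍ[ℝ]) = 1 := map_one _

private theorem Fg1_tF_one (v : ℍ[ℝ]) : tF 1 1 v = v := by
  simp [tF]

private theorem Fg1_tF_mul (x y x' y' v : ℍ[ℝ]) :
    tF x y (tF x' y' v) = tF (x * x') (y * y') v := by
  simp only [tF, star_mul, mul_assoc]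

private theorem Fg1_tF_star {x y : ℍ[ℝ]} (hx : normSq x = 1) (hy : normSq y = 1) (v : ℍ[ℝ]) :
    tF x y (tF (star x) (star y) v) = v := by
  rw [Fg1_tF_mul, Fg1_mul_star hx, Fg1_mul_star hy, Fg1_tF_one]

private theorem Fg1_inv {g : ℍ[ℝ] ≃ₗᵢ[ℝ] ℍ[ℝ]} {x y : ℍ[ℝ]} (hx : normSq x = 1)
    (hy : normSq y = 1) (h : ∀ v, g v = tF x y v) (v : ℍ[ℝ]) :
    g⁻¹ v = tF (star x) (star y) v := by
  have h1 : g (tF (star x) (star y) v) = v := by rw [h, Fg1_tF_star hx hy]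
  have h2 : g⁻¹ (g (tF (star x) (star y) v)) = tF (star x) (star y) v :=
    g.symm_apply_apply _
  rw [h1] at h2
  exact h2

/-- Row Fg1. By `tF_inj` every `g` has at most two left components; products: `g h`, inverses:
`g⁻¹ v = x̄ v y`. -/
theorem finGp_LL {G : Subgroup (ℍ[ℝ] ≃ₗᵢ[ℝ] ℍ[ℝ])} (hG : Finite G) : FinGp (LL G) where
  fin := by
    have h1 : LL G ⊆ ⋃ g : G, {x | normSq x = 1 ∧ ∃ y, normSq y = 1 ∧
        ∀ v, (g : ℍ[ℝ] ≃ₗᵢ[ℝ] ℍ[ℝ]) v = tF x y v} := by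
      rintro x ⟨hx, y, hy, g, hg, h⟩
      exact Set.mem_iUnion.2 ⟨⟨g, hg⟩, hx, y, hy, h⟩
    refine Set.Finite.subset (Set.finite_iUnion fun g => ?_) h1
    rcases Set.eq_empty_or_nonempty {x | normSq x = 1 ∧ ∃ y, normSq y = 1 ∧
        ∀ v, (g : ℍ[ℝ] ≃ₗᵢ[ℝ] ℍ[ℝ]) v = tF x y v} with h0 | ⟨x0, hx0, y0, hy0, h0⟩
    · rw [h0]
      exact Set.finite_empty
    · refine Set.Finite.subset (Set.toFinite {x0, -x0}) ?_
      rintro x ⟨hx, y, hy, h⟩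
      rcases tF_inj hx0 hy0 hx hy (fun v => by rw [← h0, ← h]) with h2 | h2
      · exact Or.inl h2.1
      · exact Or.inr h2.1
  one := ⟨Fg1_one, 1, Fg1_one, 1, G.one_mem, fun v => (Fg1_tF_one v).symm⟩
  mul := by
    rintro x ⟨hx, y, hy, g, hg, h⟩ x' ⟨hx', y', hy', g', hg', h'⟩
    refine ⟨Fg1_mul hx hx', y * y', Fg1_mul hy hy', g * g', G.mul_mem hg hg', fun v => ?_⟩
    rw [← Fg1_tF_mul, ← h', ← h]
    rfl
  star := by
    rintro x ⟨hx, y, hy, g, hg, h⟩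
    exact ⟨Fg1_star hx, star y, Fg1_star hy, g⁻¹, G.inv_mem hg, Fg1_inv hx hy h⟩
  unit := fun x hx => hx.1

theorem finGp_RL {G : Subgroup (ℍ[ℝ] ≃ₗᵢ[ℝ] ℍ[ℝ])} (hG : Finite G) : FinGp (RL G) where
  fin := by
    have h1 : RL G ⊆ ⋃ g : G, {y | normSq y = 1 ∧ ∃ x, normSq x = 1 ∧
        ∀ v, (g : ℍ[ℝ] ≃ₗᵢ[ℝ] ℍ[ℝ]) v = tF x y v} := by
      rintro x ⟨hx, y, hy, g, hg, h⟩
      exact Set.mem_iUnion.2 ⟨⟨g, hg⟩, hx, y, hy, h⟩
    refine Set.Finite.subset (Set.finite_iUnion fun g => ?_) h1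
    rcases Set.eq_empty_or_nonempty {y | normSq y = 1 ∧ ∃ x, normSq x = 1 ∧
        ∀ v, (g : ℍ[ℝ] ≃ₗᵢ[ℝ] ℍ[ℝ]) v = tF x y v} with h0 | ⟨y0, hy0, x0, hx0, h0⟩
    · rw [h0]
      exact Set.finite_empty
    · refine Set.Finite.subset (Set.toFinite {y0, -y0}) ?_
      rintro y ⟨hy, x, hx, h⟩
      rcases tF_inj hx0 hy0 hx hy (fun v => by rw [← h0, ← h]) with h2 | h2
      · exact Or.inl h2.2
      · exact Or.inr h2.2
  one := ⟨Fg1_one, 1, Fg1_one, 1, G.one_mem, fun v => (Fg1_tF_one v).symm⟩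
  mul := by
    rintro y ⟨hy, x, hx, g, hg, h⟩ y' ⟨hy', x', hx', g', hg', h'⟩
    refine ⟨Fg1_mul hy hy', x * x', Fg1_mul hx hx', g * g', G.mul_mem hg hg', fun v => ?_⟩
    rw [← Fg1_tF_mul, ← h', ← h]
    rfl
  star := by
    rintro y ⟨hy, x, hx, g, hg, h⟩
    exact ⟨Fg1_star hy, star x, Fg1_star hx, g⁻¹, G.inv_mem hg, Fg1_inv hx hy h⟩
  unit := fun x hx => hx.1

private theorem Fg1_re (a b v : ℍ[ℝ]) : (tF a b v).re =
    (a.re * v.re - a.imI * v.imI - a.imJ * v.imJ - a.imK * v.imK) * b.re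
    + (a.re * v.imI + a.imI * v.re + a.imJ * v.imK - a.imK * v.imJ) * b.imI
    + (a.re * v.imJ - a.imI * v.imK + a.imJ * v.re + a.imK * v.imI) * b.imJ
    + (a.re * v.imK + a.imI * v.imJ - a.imJ * v.imI + a.imK * v.re) * b.imK := by
  simp [tF]

private theorem Fg1_imI (a b v : ℍ[ℝ]) : (tF a b v).imI =
    -(a.re * v.re - a.imI * v.imI - a.imJ * v.imJ - a.imK * v.imK) * b.imI
    + (a.re * v.imI + a.imI * v.re + a.imJ * v.imK - a.imK * v.imJ) * b.re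
    - (a.re * v.imJ - a.imI * v.imK + a.imJ * v.re + a.imK * v.imI) * b.imK
    + (a.re * v.imK + a.imI * v.imJ - a.imJ * v.imI + a.imK * v.re) * b.imJ := by
  simp [tF]
  try ring

private theorem Fg1_imJ (a b v : ℍ[ℝ]) : (tF a b v).imJ =
    -(a.re * v.re - a.imI * v.imI - a.imJ * v.imJ - a.imK * v.imK) * b.imJ
    + (a.re * v.imI + a.imI * v.re + a.imJ * v.imK - a.imK * v.imJ) * b.imK
    + (a.re * v.imJ - a.imI * v.imK + a.imJ * v.re + a.imK * v.imI) * b.re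
    - (a.re * v.imK + a.imI * v.imJ - a.imJ * v.imI + a.imK * v.re) * b.imI := by
  simp [tF]
  try ring

private theorem Fg1_imK (a b v : ℍ[ℝ]) : (tF a b v).imK =
    -(a.re * v.re - a.imI * v.imI - a.imJ * v.imJ - a.imK * v.imK) * b.imK
    - (a.re * v.imI + a.imI * v.re + a.imJ * v.imK - a.imK * v.imJ) * b.imJ
    + (a.re * v.imJ - a.imI * v.imK + a.imJ * v.re + a.imK * v.imI) * b.imI
    + (a.re * v.imK + a.imI * v.imJ - a.imJ * v.imI + a.imK * v.re) * b.re := by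
  simp [tF]
  try ring

private theorem Fg1_l {c d : ℝ} {l : ℍ[ℝ]} (h1 : l.imJ = 0) (h2 : l.imK = 0)
    (h5 : l.re ^ 2 + l.imI ^ 2 = 1) (h6 : l.re ^ 2 - l.imI ^ 2 = c)
    (h7 : 2 * l.re * l.imI = d) (v : ℍ[ℝ]) : sF 1 c d v = tF l l v := by
  apply Quaternion.ext
  · rw [Fg1_re, h1, h2]
    change v.re = _
    linear_combination (-v.re) * h5
  · rw [Fg1_imI, h1, h2]
    change 1 * v.imI = _
    linear_combination (-v.imI) * h5
  · rw [Fg1_imJ, h1, h2]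
    change c * v.imJ - d * v.imK = _
    linear_combination (-v.imJ) * h6 + v.imK * h7
  · rw [Fg1_imK, h1, h2]
    change d * v.imJ + c * v.imK = _
    linear_combination (-v.imK) * h6 - v.imJ * h7

private theorem Fg1_z {c d : ℝ} (hcd : c ^ 2 + d ^ 2 = 1) {z : ℍ[ℝ]} (h0 : z.re = c)
    (h1 : z.imI = d) (h2 : z.imJ = 0) (h3 : z.imK = 0) (v : ℍ[ℝ]) :
    sF (-1) c d (sF (-1) c d v) = tF z z v := by
  apply Quaternion.ext
  · rw [Fg1_re, h0, h1, h2, h3]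
    change v.re = _
    linear_combination (-v.re) * hcd
  · rw [Fg1_imI, h0, h1, h2, h3]
    change -1 * (-1 * v.imI) = _
    linear_combination (-v.imI) * hcd
  · rw [Fg1_imJ, h0, h1, h2, h3]
    change c * (c * v.imJ - d * v.imK) - d * (d * v.imJ + c * v.imK) = _
    ring
  · rw [Fg1_imK, h0, h1, h2, h3]
    change d * (c * v.imJ - d * v.imK) + c * (d * v.imJ + c * v.imK) = _
    ring

private theorem Fg1_ab {c d : ℝ} (hcd : c ^ 2 + d ^ 2 = 1) {a b a' b' : ℍ[ℝ]} (ha0 : a.re = 0)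
    (hb0 : b.re = 0) (ha1 : a'.re = 0) (hb1 : b'.re = 0) (ha2 : a'.imI = a.imI)
    (hb2 : b'.imI = b.imI) (ha3 : a'.imJ = -(c * a.imJ - d * a.imK))
    (hb3 : b'.imJ = -(c * b.imJ - d * b.imK)) (ha4 : a'.imK = -(d * a.imJ + c * a.imK))
    (hb4 : b'.imK = -(d * b.imJ + c * b.imK)) (v : ℍ[ℝ]) :
    sF (-1) c d (tF a b (sF (-1) c (-d) v)) = tF b' a' v := by
  have w0 : (sF (-1) c (-d) v).re = v.re := rfl
  have w1 : (sF (-1) c (-d) v).imI = -1 * v.imI := rfl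
  have w2 : (sF (-1) c (-d) v).imJ = c * v.imJ - -d * v.imK := rfl
  have w3 : (sF (-1) c (-d) v).imK = -d * v.imJ + c * v.imK := rfl
  apply Quaternion.ext
  · rw [Fg1_re, ha1, hb1, ha2, hb2, ha3, hb3, ha4, hb4]
    change (tF a b (sF (-1) c (-d) v)).re = _
    rw [Fg1_re, ha0, hb0, w0, w1, w2, w3]
    linear_combination (-v.re * a.imJ * b.imJ - v.re * a.imK * b.imK
        - v.imI * a.imJ * b.imK + v.imI * a.imK * b.imJ) * hcd
  · rw [Fg1_imI, ha1, hb1, ha2, hb2, ha3, hb3, ha4, hb4]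
    change -1 * (tF a b (sF (-1) c (-d) v)).imI = _
    rw [Fg1_imI, ha0, hb0, w0, w1, w2, w3]
    linear_combination (-v.re * a.imJ * b.imK + v.re * a.imK * b.imJ
        + v.imI * a.imJ * b.imJ + v.imI * a.imK * b.imK) * hcd
  · rw [Fg1_imJ, ha1, hb1, ha2, hb2, ha3, hb3, ha4, hb4]
    change c * (tF a b (sF (-1) c (-d) v)).imJ - d * (tF a b (sF (-1) c (-d) v)).imK = _
    rw [Fg1_imJ, Fg1_imK, ha0, hb0, w0, w1, w2, w3]
    linear_combination (-v.imJ * a.imI * b.imI) * hcd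
  · rw [Fg1_imK, ha1, hb1, ha2, hb2, ha3, hb3, ha4, hb4]
    change d * (tF a b (sF (-1) c (-d) v)).imJ + c * (tF a b (sF (-1) c (-d) v)).imK = _
    rw [Fg1_imJ, Fg1_imK, ha0, hb0, w0, w1, w2, w3]
    linear_combination (-v.imK * a.imI * b.imI) * hcd

/-- Row Fg1. For `c ^ 2 + d ^ 2 = 1` there is a unit `l = x + y i` with `l ^ 2 = c + d i`, and
`sF 1 c d v = l v l̄`. -/
theorem exists_l {c d : ℝ} (hcd : c ^ 2 + d ^ 2 = 1) :
    ∃ l : ℍ[ℝ], normSq l = 1 ∧ l.imJ = 0 ∧ l.imK = 0 ∧ l.re ^ 2 - l.imI ^ 2 = c ∧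
      2 * l.re * l.imI = d ∧ ∀ v, sF 1 c d v = tF l l v := by
  have hc1 : 0 ≤ (1 + c) / 2 := by nlinarith [sq_nonneg d, sq_nonneg (c + 1)]
  have hc2 : 0 ≤ (1 - c) / 2 := by nlinarith [sq_nonneg d, sq_nonneg (c - 1)]
  obtain ⟨x, y, hx, hy, hxy⟩ : ∃ x y : ℝ, x ^ 2 = (1 + c) / 2 ∧ y ^ 2 = (1 - c) / 2 ∧
      2 * x * y = d := by
    have h1 := Real.sq_sqrt hc1
    have h2 := Real.sq_sqrt hc2
    have h3 : (2 * √((1 + c) / 2) * √((1 - c) / 2)) ^ 2 = d ^ 2 := by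
      rw [mul_pow, mul_pow, h1, h2]
      linear_combination -hcd
    rcases sq_eq_sq_iff_eq_or_eq_neg.1 h3 with h4 | h4
    · exact ⟨_, _, h1, h2, h4⟩
    · refine ⟨√((1 + c) / 2), -√((1 - c) / 2), h1, by rw [neg_sq, h2], ?_⟩
      rw [mul_neg, h4, neg_neg]
  have h5 : x ^ 2 + y ^ 2 = 1 := by rw [hx, hy]; ring
  have h6 : x ^ 2 - y ^ 2 = c := by rw [hx, hy]; ring
  refine ⟨⟨x, y, 0, 0⟩, ?_, rfl, rfl, h6, hxy, fun v => ?_⟩
  · refine (Quaternion.normSq_def' _).trans ?_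
    change x ^ 2 + y ^ 2 + 0 ^ 2 + 0 ^ 2 = 1
    linear_combination h5
  · exact Fg1_l rfl rfl h5 h6 hxy v

/-- Row Fg1. For `ε = -1`: `s (s v) = z v z̄` and `s (t (s⁻¹ v)) = b' v ā'` with `z = c + d i`,
`a' = α i - z u`, `b' = β i - z w` (in fact `s v = k v̄ k̄`, `k = l i`, `l ^ 2 = z`). In coordinates. -/
theorem rot_conj {c d : ℝ} (hcd : c ^ 2 + d ^ 2 = 1) {a b : ℍ[ℝ]} (ha : UI a) (hb : UI b) (v : ℍ[ℝ]) :
    sF (-1) c d (sF (-1) c d v) = tF ⟨c, d, 0, 0⟩ ⟨c, d, 0, 0⟩ v ∧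
    sF (-1) c d (tF a b (sF (-1) c (-d) v)) =
      tF ⟨0, b.imI, -(c * b.imJ - d * b.imK), -(d * b.imJ + c * b.imK)⟩
        ⟨0, a.imI, -(c * a.imJ - d * a.imK), -(d * a.imJ + c * a.imK)⟩ v := by
  obtain ⟨ha0, -⟩ := ha
  obtain ⟨hb0, -⟩ := hb
  exact ⟨Fg1_z hcd rfl rfl rfl rfl v,
    Fg1_ab (a' := ⟨0, a.imI, -(c * a.imJ - d * a.imK), -(d * a.imJ + c * a.imK)⟩)
      (b' := ⟨0, b.imI, -(c * b.imJ - d * b.imK), -(d * b.imJ + c * b.imK)⟩)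
      hcd ha0 hb0 rfl rfl rfl rfl rfl rfl rfl rfl v⟩

end ChiralQ
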