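import Pool.Agent.Lib.MP_bc704c_co.Q.Al1

/-! # MP_bc704c_co, row Fg2: elements of large order in finite groups of unit quaternions -/

namespace ChiralQ

open Quaternion ChiralNF

private theorem Fg2_cos4 (θ : ℝ) : Real.cos (4 * θ) = 8 * Real.cos θ ^ 4 - 8 * Real.cos θ ^ 2 + 1 := by
  have h : (4 : ℝ) * θ = 2 * (2 * θ) := by ring
  rw [h, Real.cos_two_mul, Real.cos_two_mul]
  ring

private theorem Fg2_cos5 (θ : ℝ) :
    Real.cos (5 * θ) = 16 * Real.cos θ ^ 5 - 20 * Real.cos θ ^ 3 + 5 * Real.cos θ := by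
  have h : (5 : ℝ) * θ = 2 * θ + 3 * θ := by ring
  rw [h, Real.cos_add, Real.cos_two_mul, Real.cos_three_mul, Real.sin_two_mul, Real.sin_three_mul]
  have hs : Real.sin θ ^ 2 = 1 - Real.cos θ ^ 2 := by
    have := Real.sin_sq_add_cos_sq θ
    linarith
  have h4 : Real.sin θ ^ 4 = (1 - Real.cos θ ^ 2) ^ 2 := by
    rw [← hs]; ring
  have e : 2 * Real.sin θ * Real.cos θ * (3 * Real.sin θ - 4 * Real.sin θ ^ 3) =
      Real.cos θ * (6 * Real.sin θ ^ 2 - 8 * Real.sin θ ^ 4) := by ring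
  rw [e, hs, h4]
  ring

private theorem Fg2_key {x : ℝ} (h1 : x < 1 / 2) (h2 : 2 * x ^ 2 - 1 < 1 / 2)
    (h3 : 4 * x ^ 3 - 3 * x < 1 / 2) (h4 : 8 * x ^ 4 - 8 * x ^ 2 + 1 < 1 / 2)
    (h5 : 16 * x ^ 5 - 20 * x ^ 3 + 5 * x < 1 / 2) : False := by
  have h2' : x ^ 2 < 3 / 4 := by linarith
  have h4' : 1 / 16 < x ^ 2 := by
    by_contra hc
    push Not at hc
    nlinarith [sq_nonneg x]
  have h5' : (1 / 2 - x) * (-(16 * x ^ 4 + 8 * x ^ 3 - 16 * x ^ 2 - 8 * x + 1)) < 0 := by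
    nlinarith
  have hq : 0 < 16 * x ^ 4 + 8 * x ^ 3 - 16 * x ^ 2 - 8 * x + 1 := by
    by_contra hc
    push Not at hc
    have : 0 ≤ (1 / 2 - x) * (-(16 * x ^ 4 + 8 * x ^ 3 - 16 * x ^ 2 - 8 * x + 1)) :=
      mul_nonneg (by linarith) (by linarith)
    linarith
  have hfac : 16 * x ^ 4 + 8 * x ^ 3 - 16 * x ^ 2 - 8 * x + 1 =
      1 - 8 * x * (1 - x ^ 2) * (2 * x + 1) := by ring
  rw [hfac] at hq
  rcases le_or_gt x (-1 / 5) with hx | hx
  · -- `x < -3/4`
    have hx2 : x < -3 / 4 := by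
      by_contra hc
      push Not at hc
      nlinarith [mul_nonneg (sub_nonneg.2 hx) (by linarith : (0 : ℝ) ≤ x + 3 / 4),
        mul_nonneg (mul_nonneg (by linarith : (0 : ℝ) ≤ -1 / 5 - x)
          (by linarith : (0 : ℝ) ≤ x + 3 / 4)) (by linarith : (0 : ℝ) ≤ -x)]
    have hA : ∀ y A B : ℝ, 0 ≤ y → 0 ≤ A → 0 ≤ B → y ≤ -x → A ≤ 1 - x ^ 2 → B ≤ -(2 * x + 1) →
        1 ≤ 8 * y * A * B → False := by
      intro y A B hy hA0 hB0 h1 h2 h3 h4
      have s1 : 8 * y * A ≤ 8 * (-x) * (1 - x ^ 2) := by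
        have := mul_le_mul h1 h2 hA0 (by linarith)
        nlinarith
      have s2 : 8 * y * A * B ≤ 8 * (-x) * (1 - x ^ 2) * (-(2 * x + 1)) :=
        mul_le_mul s1 h3 hB0 (by
          have : 0 ≤ 8 * y * A := by positivity
          linarith)
      nlinarith
    rcases le_or_gt (-8 / 10) x with h8 | h8
    · exact hA (75 / 100) (36 / 100) (1 / 2) (by norm_num) (by norm_num) (by norm_num)
        (by linarith) (by nlinarith) (by linarith) (by norm_num)
    · rcases le_or_gt (-83 / 100) x with h9 | h9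
      · exact hA (8 / 10) (3111 / 10000) (6 / 10) (by norm_num) (by norm_num) (by norm_num)
          (by linarith) (by nlinarith) (by linarith) (by norm_num)
      · exact hA (83 / 100) (25 / 100) (66 / 100) (by norm_num) (by norm_num) (by norm_num)
          (by linarith) (by nlinarith) (by linarith) (by norm_num)
  · -- `1/4 < x < 1/2`
    have hx2 : 1 / 4 < x := by
      by_contra hc
      push Not at hc
      nlinarith
    have a1 : (0 : ℝ) ≤ (1 - x ^ 2) - 3 / 4 := by nlinarith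
    have s1 : (1 / 4 : ℝ) * (3 / 4) ≤ x * (1 - x ^ 2) :=
      mul_le_mul hx2.le (by linarith) (by norm_num) (by linarith)
    have s2 : (1 / 4 : ℝ) * (3 / 4) * (3 / 2) ≤ x * (1 - x ^ 2) * (2 * x + 1) :=
      mul_le_mul s1 (by linarith) (by norm_num) (by nlinarith)
    nlinarith

/-- Row Fg2. Of the six points `0, θ, ..., 5 θ` on the circle two are at distance at most `π / 3`
(or: case distinction on `cos θ`, with `cos 2θ = 2 cos² θ - 1`, ...; in terms of `x = cos θ`: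
`T_j x` for `j = 1..5`). If none of the `cos (j θ)`, `1 ≤ j ≤ 5`, is `1` then one of them is in
`[1/2, 1)`. -/
theorem exists_small (θ : ℝ) : (∃ j : ℕ, 1 ≤ j ∧ j ≤ 5 ∧ Real.cos (j * θ) = 1) ∨
    ∃ j : ℕ, 1 ≤ j ∧ j ≤ 5 ∧ 1 / 2 ≤ Real.cos (j * θ) ∧ Real.cos (j * θ) < 1 := by
  by_contra hcon
  push Not at hcon
  obtain ⟨hA, hB⟩ := hcon
  have key : ∀ j : ℕ, 1 ≤ j → j ≤ 5 → Real.cos (j * θ) < 1 / 2 := by
    intro j h1 h5
    by_contra hc
    push Not at hc
    have := hB j h1 h5 hc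
    exact hA j h1 h5 (le_antisymm (Real.cos_le_one _) this)
  have k1 := key 1 (by norm_num) (by norm_num)
  have k2 := key 2 (by norm_num) (by norm_num)
  have k3 := key 3 (by norm_num) (by norm_num)
  have k4 := key 4 (by norm_num) (by norm_num)
  have k5 := key 5 (by norm_num) (by norm_num)
  simp only [Nat.cast_one, one_mul, Nat.cast_ofNat] at k1 k2 k3 k4 k5
  rw [Real.cos_two_mul] at k2
  rw [Real.cos_three_mul] at k3
  rw [Fg2_cos4] at k4
  rw [Fg2_cos5] at k5
  exact Fg2_key k1 k2 k3 k4 k5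

/-- Row Fg2. `cos (2 j φ) = 1`, so `j φ` is a multiple of `π`, `sin (j φ) = 0`; for `j = 1, ..., 5` this
is a polynomial equation for `cos φ`: `cos² φ = 1`; `cos φ = 0` or `cos² φ = 1`; `cos² φ = 1/4` or `1`;
`cos φ = 0`, `cos² φ = 1/2` or `1`; `16 x² - 12 x + 1 = 0` or `x = 1` for `x = cos² φ`. -/
theorem cs_of_cos {φ : ℝ} {j : ℕ} (h1 : 1 ≤ j) (h5 : j ≤ 5) (h : Real.cos (j * (2 * φ)) = 1) :
    Cs (Real.cos φ) := by
  have hc : Real.cos (2 * φ) = 2 * Real.cos φ ^ 2 - 1 := Real.cos_two_mul φ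
  set x := Real.cos φ with hx
  unfold Cs
  have s5 : √5 ^ 2 = 5 := Real.sq_sqrt (by norm_num)
  interval_cases j
  · simp only [Nat.cast_one, one_mul] at h
    rw [hc] at h
    right; left
    linarith
  · simp only [Nat.cast_ofNat] at h
    rw [Real.cos_two_mul, hc] at h
    have : x ^ 2 * (x ^ 2 - 1) = 0 := by nlinarith
    rcases mul_eq_zero.1 this with h0 | h0
    · left; exact pow_eq_zero_iff (two_ne_zero) |>.1 h0
    · right; left; linarith
  · simp only [Nat.cast_ofNat] at h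
    rw [Real.cos_three_mul, hc] at h
    have : (x ^ 2 - 1) * (4 * x ^ 2 - 1) ^ 2 = 0 := by nlinarith
    rcases mul_eq_zero.1 this with h0 | h0
    · right; left; linarith
    · have := pow_eq_zero_iff (two_ne_zero) |>.1 h0
      right; right; left; linarith
  · simp only [Nat.cast_ofNat] at h
    rw [Fg2_cos4, hc] at h
    have : x ^ 2 * ((x ^ 2 - 1) * (2 * x ^ 2 - 1) ^ 2) = 0 := by nlinarith
    rcases mul_eq_zero.1 this with h0 | h0
    · left; exact pow_eq_zero_iff (two_ne_zero) |>.1 h0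
    · rcases mul_eq_zero.1 h0 with h0 | h0
      · right; left; linarith
      · have := pow_eq_zero_iff (two_ne_zero) |>.1 h0
        right; right; right; left; linarith
  · simp only [Nat.cast_ofNat] at h
    rw [Fg2_cos5, hc] at h
    have : (x ^ 2 - 1) * (16 * x ^ 4 - 12 * x ^ 2 + 1) ^ 2 = 0 := by nlinarith
    rcases mul_eq_zero.1 this with h0 | h0
    · right; left; linarith
    · have h1 := pow_eq_zero_iff (two_ne_zero) |>.1 h0
      have h2 : (x ^ 2 - (3 + √5) / 8) * (x ^ 2 - (3 - √5) / 8) = 0 := by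
        have : (x ^ 2 - (3 + √5) / 8) * (x ^ 2 - (3 - √5) / 8) =
            x ^ 4 - 3 / 4 * x ^ 2 + (9 - √5 ^ 2) / 64 := by ring
        rw [this, s5]
        linarith
      rcases mul_eq_zero.1 h2 with h3 | h3
      · right; right; right; right; left; linarith
      · right; right; right; right; right; linarith

end ChiralQ
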