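import Pool.Agent.Lib.MP_bc704c_co.Q.Fg2

/-! # MP_bc704c_co, row Fg2b: the axis -/

namespace ChiralQ

open Quaternion ChiralNF

private def Fg2b_ip (u v : ℍ[ℝ]) : ℝ := u.imI * v.imI + u.imJ * v.imJ + u.imK * v.imK

private lemma Fg2b_ui_iff {p : ℍ[ℝ]} : UI p ↔ p.re = 0 ∧ normSq p = 1 := by
  unfold UI
  rw [Quaternion.normSq_def']
  constructor
  · rintro ⟨h1, h2⟩
    refine ⟨h1, ?_⟩
    rw [h1]; linarith
  · rintro ⟨h1, h2⟩
    refine ⟨h1, ?_⟩
    rw [h1] at h2; linarith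

private lemma Fg2b_ui {x p : ℍ[ℝ]} (hx : normSq x = 1) (hp : UI p) : UI (x * p * star x) := by
  rw [Fg2b_ui_iff] at hp ⊢
  constructor
  · have h0 : (x * p * star x).re = normSq x * p.re := by
      rw [Quaternion.normSq_def']
      simp only [Quaternion.re_mul, Quaternion.imI_mul, Quaternion.imJ_mul, Quaternion.imK_mul,
        Quaternion.re_star, Quaternion.imI_star, Quaternion.imJ_star, Quaternion.imK_star]
      ring
    rw [h0, hp.1, mul_zero]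
  · rw [map_mul, map_mul, Quaternion.normSq_star, hx, hp.2]
    norm_num

/-- the polynomial identity behind the rotation about `y` by the angle `ψ` -/
private lemma Fg2b_rot {y v : ℍ[ℝ]} (hy : UI y) (hv : UI v) (C S : ℝ) (hCS : C ^ 2 + S ^ 2 = 1)
    (k : ℍ[ℝ]) (hk0 : k.re = C) (hk1 : k.imI = S * y.imI) (hk2 : k.imJ = S * y.imJ)
    (hk3 : k.imK = S * y.imK) :
    Fg2b_ip v (k * v * star k) =
      Fg2b_ip y v ^ 2 + (1 - Fg2b_ip y v ^ 2) * (C ^ 2 - S ^ 2) := by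
  obtain ⟨hv0, hv1⟩ := hv
  obtain ⟨hy0, hy1⟩ := hy
  have hC : C ^ 2 = 1 - S ^ 2 := by linarith
  unfold Fg2b_ip
  simp only [Quaternion.re_mul, Quaternion.imI_mul, Quaternion.imJ_mul, Quaternion.imK_mul,
        Quaternion.re_star, Quaternion.imI_star, Quaternion.imJ_star, Quaternion.imK_star,
        hk0, hk1, hk2, hk3, hv0]
  have e : (v.imI ^ 2 + v.imJ ^ 2 + v.imK ^ 2) * (C ^ 2 - S ^ 2 * (y.imI ^ 2 + y.imJ ^ 2 + y.imK ^ 2))
      + 2 * S ^ 2 * (y.imI * v.imI + y.imJ * v.imJ + y.imK * v.imK) ^ 2 =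
      (y.imI * v.imI + y.imJ * v.imJ + y.imK * v.imK) ^ 2 +
      (1 - (y.imI * v.imI + y.imJ * v.imJ + y.imK * v.imK) ^ 2) * (C ^ 2 - S ^ 2) := by
    rw [hv1, hy1, hC]; ring
  rw [← e]
  ring

private lemma Fg2b_lt {u v : ℍ[ℝ]} (hu : UI u) (hv : UI v) (h1 : v ≠ u) (h2 : v ≠ -u) :
    |Fg2b_ip u v| < 1 := by
  obtain ⟨hv0, hv1⟩ := hv
  obtain ⟨hu0, hu1⟩ := hu
  have key1 : (u.imI - v.imI) ^ 2 + (u.imJ - v.imJ) ^ 2 + (u.imK - v.imK) ^ 2
      = 2 - 2 * Fg2b_ip u v := by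
    unfold Fg2b_ip; linear_combination hu1 + hv1
  have key2 : (u.imI + v.imI) ^ 2 + (u.imJ + v.imJ) ^ 2 + (u.imK + v.imK) ^ 2
      = 2 + 2 * Fg2b_ip u v := by
    unfold Fg2b_ip; linear_combination hu1 + hv1
  rw [abs_lt]
  constructor
  · by_contra hc
    push Not at hc
    apply h2
    have ha := sq_nonneg (u.imI + v.imI)
    have hb := sq_nonneg (u.imJ + v.imJ)
    have hd := sq_nonneg (u.imK + v.imK)
    have e1 : (u.imI + v.imI) ^ 2 = 0 := by linarith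
    have e2 : (u.imJ + v.imJ) ^ 2 = 0 := by linarith
    have e3 : (u.imK + v.imK) ^ 2 = 0 := by linarith
    have e1' := pow_eq_zero_iff (two_ne_zero) |>.1 e1
    have e2' := pow_eq_zero_iff (two_ne_zero) |>.1 e2
    have e3' := pow_eq_zero_iff (two_ne_zero) |>.1 e3
    ext
    · simp [hu0, hv0]
    · simp; linarith
    · simp; linarith
    · simp; linarith
  · by_contra hc
    push Not at hc
    apply h1
    have ha := sq_nonneg (u.imI - v.imI)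
    have hb := sq_nonneg (u.imJ - v.imJ)
    have hd := sq_nonneg (u.imK - v.imK)
    have e1 : (u.imI - v.imI) ^ 2 = 0 := by linarith
    have e2 : (u.imJ - v.imJ) ^ 2 = 0 := by linarith
    have e3 : (u.imK - v.imK) ^ 2 = 0 := by linarith
    have e1' := pow_eq_zero_iff (two_ne_zero) |>.1 e1
    have e2' := pow_eq_zero_iff (two_ne_zero) |>.1 e2
    have e3' := pow_eq_zero_iff (two_ne_zero) |>.1 e3
    ext
    · simp [hu0, hv0]
    · linarith
    · linarith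
    · linarith

private lemma Fg2b_pow {p : ℍ[ℝ]} (hp : UI p) {g : ℍ[ℝ]} {φ : ℝ} (h0 : g.re = Real.cos φ)
    (h1 : g.imI = Real.sin φ * p.imI) (h2 : g.imJ = Real.sin φ * p.imJ)
    (h3 : g.imK = Real.sin φ * p.imK) (j : ℕ) :
    (g ^ j).re = Real.cos (j * φ) ∧ (g ^ j).imI = Real.sin (j * φ) * p.imI ∧
    (g ^ j).imJ = Real.sin (j * φ) * p.imJ ∧ (g ^ j).imK = Real.sin (j * φ) * p.imK := by
  obtain ⟨hp0, hp1⟩ := hp
  induction j with
  | zero => simp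
  | succ n ih =>
    obtain ⟨i0, i1, i2, i3⟩ := ih
    have ea : ((n + 1 : ℕ) : ℝ) * φ = n * φ + φ := by push_cast; ring
    rw [ea, Real.cos_add, Real.sin_add]
    rw [pow_succ]
    simp only [Quaternion.re_mul, Quaternion.imI_mul, Quaternion.imJ_mul, Quaternion.imK_mul,
      i0, i1, i2, i3, h0, h1, h2, h3]
    refine ⟨?_, ?_, ?_, ?_⟩
    · linear_combination (-Real.sin (n * φ) * Real.sin φ) * hp1
    · ring
    · ring
    · ring

private lemma Fg2b_mem_pow {X : Set ℍ[ℝ]} (hX : FinGp X) {g : ℍ[ℝ]} (hg : g ∈ X) (j : ℕ) :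
    g ^ j ∈ X := by
  induction j with
  | zero => simpa using hX.one
  | succ n ih => rw [pow_succ]; exact hX.mul _ ih _ hg

/-- Row Fg2. If some `g ∈ X` has `¬ Cs g.re`, write `g = cos φ + sin φ p`, `UI p`. By `exists_small`
(`θ = 2 φ`) and `cs_of_cos` some power `h = g ^ j = cos jφ + sin jφ p ∈ X` turns by an angle `ψ = 2 j φ`
with `1/2 ≤ cos ψ < 1`. Claim: `x p x̄ = ± p` for all `x ∈ X`. Let `Y = {± x p x̄ : x ∈ X}`, a finite
set of unit imaginary quaternions. If the claim fails there are `y, y' ∈ Y`, `y' ≠ ± y`, and so (replace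
`y'` by `-y'`) the maximum `m` of `⟪y, y'⟫` over the pairs `y ≠ y'` in `Y` is `≥ 0`, and `m < 1`. Take
`y = ± x p x̄`, `y'` with `⟪y, y'⟫ = m`, `k = x h x̄ ∈ X` turns about `y`: with `y'' = k y' k̄ ∈ Y`
`⟪y', y''⟫ = m² + (1 - m²) cos ψ ≥ (1 + m²)/2 > m`, and `y'' ≠ y'` since `m² ≠ 1`, `cos ψ ≠ 1`:
contradiction. -/
theorem axis_or_small {X : Set ℍ[ℝ]} (hX : FinGp X) :
    (∀ g ∈ X, Cs g.re) ∨
      ∃ p : ℍ[ℝ], UI p ∧ ∀ x ∈ X, x * p * star x = p ∨ x * p * star x = -p := by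
  by_cases hall : ∀ g ∈ X, Cs g.re
  · exact Or.inl hall
  right
  push Not at hall
  obtain ⟨g, hg, hCs⟩ := hall
  have hgn := hX.unit g hg
  rw [Quaternion.normSq_def'] at hgn
  have hre : g.re ^ 2 ≠ 1 := fun h => hCs (Or.inr (Or.inl h))
  have hpos : 0 < 1 - g.re ^ 2 := by
    have : 0 ≤ 1 - g.re ^ 2 := by nlinarith [sq_nonneg g.imI, sq_nonneg g.imJ, sq_nonneg g.imK]
    rcases this.lt_or_eq with h | h
    · exact h
    · exact absurd (by linarith) hre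
  have hle : g.re ^ 2 ≤ 1 := by linarith
  have habs : |g.re| ≤ 1 := by
    rw [← sq_abs] at hle
    nlinarith [abs_nonneg g.re]
  have hlow : -1 ≤ g.re := (abs_le.1 habs).1
  have hhigh : g.re ≤ 1 := (abs_le.1 habs).2
  obtain ⟨φ, hφ⟩ : ∃ φ : ℝ, φ = Real.arccos g.re := ⟨_, rfl⟩
  have hcos : Real.cos φ = g.re := by rw [hφ, Real.cos_arccos hlow hhigh]
  have hsin : Real.sin φ = √(1 - g.re ^ 2) := by rw [hφ, Real.sin_arccos]
  have hs0 : 0 < Real.sin φ := by rw [hsin]; exact Real.sqrt_pos.2 hpos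
  have hs2 : Real.sin φ ^ 2 = 1 - g.re ^ 2 := by rw [hsin, Real.sq_sqrt hpos.le]
  have hsne : Real.sin φ ≠ 0 := hs0.ne'
  obtain ⟨p, hpdef⟩ : ∃ p : ℍ[ℝ], p = ⟨0, g.imI / Real.sin φ, g.imJ / Real.sin φ,
    g.imK / Real.sin φ⟩ := ⟨_, rfl⟩
  have hp : UI p := by
    rw [hpdef]
    refine ⟨rfl, ?_⟩
    show (g.imI / Real.sin φ) ^ 2 + (g.imJ / Real.sin φ) ^ 2 + (g.imK / Real.sin φ) ^ 2 = 1
    rw [div_pow, div_pow, div_pow, ← add_div, ← add_div, hs2, div_eq_one_iff_eq hpos.ne']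
    linarith
  have g0 : g.re = Real.cos φ := hcos.symm
  have g1 : g.imI = Real.sin φ * p.imI := by
    rw [hpdef]; show g.imI = Real.sin φ * (g.imI / Real.sin φ); field_simp
  have g2 : g.imJ = Real.sin φ * p.imJ := by
    rw [hpdef]; show g.imJ = Real.sin φ * (g.imJ / Real.sin φ); field_simp
  have g3 : g.imK = Real.sin φ * p.imK := by
    rw [hpdef]; show g.imK = Real.sin φ * (g.imK / Real.sin φ); field_simp
  rcases exists_small (2 * φ) with ⟨j, hj1, hj5, hj⟩ | ⟨j, hj1, hj5, hja, hjb⟩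
  · exact absurd (cs_of_cos hj1 hj5 hj) (by rw [hcos]; exact hCs)
  obtain ⟨C, hC⟩ : ∃ C : ℝ, C = Real.cos (j * φ) := ⟨_, rfl⟩
  obtain ⟨S, hS⟩ : ∃ S : ℝ, S = Real.sin (j * φ) := ⟨_, rfl⟩
  have hCS : C ^ 2 + S ^ 2 = 1 := by
    rw [hC, hS]; linarith [Real.sin_sq_add_cos_sq (j * φ)]
  have hψ : Real.cos (j * (2 * φ)) = C ^ 2 - S ^ 2 := by
    have : (j : ℝ) * (2 * φ) = 2 * (j * φ) := by ring
    rw [this, Real.cos_two_mul, ← hC]
    linarith
  rw [hψ] at hja hjb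
  obtain ⟨i0, i1, i2, i3⟩ := Fg2b_pow hp g0 g1 g2 g3 j
  rw [← hC] at i0
  rw [← hS] at i1 i2 i3
  have hh : g ^ j ∈ X := Fg2b_mem_pow hX hg j
  obtain ⟨h, hhdef⟩ : ∃ h : ℍ[ℝ], h = g ^ j := ⟨_, rfl⟩
  rw [← hhdef] at i0 i1 i2 i3 hh
  refine ⟨p, hp, ?_⟩
  by_contra hcon
  push Not at hcon
  obtain ⟨x0, hx0, hne1, hne2⟩ := hcon
  -- the finite set of the pairs
  let P : Set (ℍ[ℝ] × ℍ[ℝ]) := {z | z.1 ∈ X ∧ z.2 ∈ X ∧
    |Fg2b_ip (z.1 * p * star z.1) (z.2 * p * star z.2)| < 1}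
  have hPfin : P.Finite := by
    apply (hX.fin.prod hX.fin).subset
    rintro ⟨a, b⟩ ⟨ha, hb, -⟩
    exact ⟨ha, hb⟩
  have hPne : P.Nonempty := by
    refine ⟨(1, x0), hX.one, hx0, ?_⟩
    have e1 : (1 : ℍ[ℝ]) * p * star (1 : ℍ[ℝ]) = p := by simp
    show |Fg2b_ip ((1 : ℍ[ℝ]) * p * star (1 : ℍ[ℝ])) (x0 * p * star x0)| < 1
    rw [e1]
    exact Fg2b_lt hp (Fg2b_ui (hX.unit x0 hx0) hp) hne1 hne2
  obtain ⟨⟨a, b⟩, hab, hmax⟩ := hPfin.exists_maximalFor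
    (fun z : ℍ[ℝ] × ℍ[ℝ] => |Fg2b_ip (z.1 * p * star z.1) (z.2 * p * star z.2)|) P hPne
  obtain ⟨ha, hb, hlt⟩ := hab
  simp only at ha hb hlt
  obtain ⟨y, hy⟩ : ∃ y : ℍ[ℝ], y = a * p * star a := ⟨_, rfl⟩
  obtain ⟨v, hv⟩ : ∃ v : ℍ[ℝ], v = b * p * star b := ⟨_, rfl⟩
  have hyU : UI y := by rw [hy]; exact Fg2b_ui (hX.unit a ha) hp
  have hvU : UI v := by rw [hv]; exact Fg2b_ui (hX.unit b hb) hp
  obtain ⟨k, hk⟩ : ∃ k : ℍ[ℝ], k = a * h * star a := ⟨_, rfl⟩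
  have hkX : k ∈ X := by rw [hk]; exact hX.mul _ (hX.mul _ ha _ hh) _ (hX.star _ ha)
  have han := hX.unit a ha
  rw [Quaternion.normSq_def'] at han
  have hp0 : p.re = 0 := hp.1
  have k0 : k.re = C := by
    rw [hk]
    simp only [Quaternion.re_mul, Quaternion.imI_mul, Quaternion.imJ_mul, Quaternion.imK_mul,
        Quaternion.re_star, Quaternion.imI_star, Quaternion.imJ_star, Quaternion.imK_star,
        i0, i1, i2, i3]
    linear_combination C * han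
  have k1 : k.imI = S * y.imI := by
    rw [hk, hy]
    simp only [Quaternion.re_mul, Quaternion.imI_mul, Quaternion.imJ_mul, Quaternion.imK_mul,
        Quaternion.re_star, Quaternion.imI_star, Quaternion.imJ_star, Quaternion.imK_star,
        i0, i1, i2, i3, hp0]
    ring
  have k2 : k.imJ = S * y.imJ := by
    rw [hk, hy]
    simp only [Quaternion.re_mul, Quaternion.imI_mul, Quaternion.imJ_mul, Quaternion.imK_mul,
        Quaternion.re_star, Quaternion.imI_star, Quaternion.imJ_star, Quaternion.imK_star,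
        i0, i1, i2, i3, hp0]
    ring
  have k3 : k.imK = S * y.imK := by
    rw [hk, hy]
    simp only [Quaternion.re_mul, Quaternion.imI_mul, Quaternion.imJ_mul, Quaternion.imK_mul,
        Quaternion.re_star, Quaternion.imI_star, Quaternion.imJ_star, Quaternion.imK_star,
        i0, i1, i2, i3, hp0]
    ring
  have hrot := Fg2b_rot hyU hvU C S hCS k k0 k1 k2 k3
  have e3 : (k * b) * p * star (k * b) = k * v * star k := by
    rw [hv, star_mul]; simp only [mul_assoc]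
  obtain ⟨m, hm⟩ : ∃ m : ℝ, m = Fg2b_ip y v := ⟨_, rfl⟩
  rw [← hm] at hrot
  rw [← hy, ← hv, ← hm] at hlt
  have hm1 : m ^ 2 < 1 := by
    rw [← sq_abs]; nlinarith [abs_nonneg m]
  have hval0 : 0 ≤ m ^ 2 + (1 - m ^ 2) * (C ^ 2 - S ^ 2) := by
    nlinarith [sq_nonneg m]
  have hval1 : m ^ 2 + (1 - m ^ 2) * (C ^ 2 - S ^ 2) < 1 := by
    nlinarith
  have hval2 : |m| < m ^ 2 + (1 - m ^ 2) * (C ^ 2 - S ^ 2) := by
    have h1 : m ^ 2 + (1 - m ^ 2) * (1 / 2) ≤ m ^ 2 + (1 - m ^ 2) * (C ^ 2 - S ^ 2) := by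
      nlinarith
    have h2 : |m| < m ^ 2 + (1 - m ^ 2) * (1 / 2) := by
      have h3 : 0 < (1 - |m|) ^ 2 := by
        apply pow_pos; linarith
      have h4 : |m| ^ 2 = m ^ 2 := sq_abs m
      nlinarith
    linarith
  have hmem : ((b, k * b) : ℍ[ℝ] × ℍ[ℝ]) ∈ P := by
    refine ⟨hb, hX.mul _ hkX _ hb, ?_⟩
    show |Fg2b_ip (b * p * star b) ((k * b) * p * star (k * b))| < 1
    rw [e3, ← hv, hrot, abs_of_nonneg hval0]
    exact hval1
  have hfin := hmax hmem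
  simp only at hfin
  rw [e3, ← hv, hrot, abs_of_nonneg hval0, ← hy, ← hm] at hfin
  have := hfin hval2.le
  linarith

end ChiralQ
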