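import Pool.Agent.Lib.MP_bc704c_co.Q.Fg2b

/-! # MP_bc704c_co, row Fg3: a rotation of order at least 3 and a half-turn in a finite group -/

namespace ChiralQ

open Quaternion ChiralNF

private theorem Fg3_vals {u : ℝ} (h : Cs u) : u = 0 ∨ u = 1 ∨ u = -1 ∨ u = 1 / 2 ∨ u = -1 / 2 ∨
    u = √2 / 2 ∨ u = -(√2 / 2) ∨ u = (1 + √5) / 4 ∨ u = -((1 + √5) / 4) ∨ u = (√5 - 1) / 4 ∨
    u = -((√5 - 1) / 4) := by
  have h5 : √5 ^ 2 = 5 := Real.sq_sqrt (by norm_num)
  have h2 : √2 ^ 2 = 2 := Real.sq_sqrt (by norm_num)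
  rcases h with h | h | h | h | h | h
  · exact Or.inl h
  · have : (u - 1) * (u + 1) = 0 := by linear_combination h
    rcases mul_eq_zero.mp this with h' | h'
    · right; left; linarith
    · right; right; left; linarith
  · have : (u - 1 / 2) * (u + 1 / 2) = 0 := by linear_combination h
    rcases mul_eq_zero.mp this with h' | h'
    · right; right; right; left; linarith
    · right; right; right; right; left; linarith
  · have : (u - √2 / 2) * (u + √2 / 2) = 0 := by linear_combination h - h2 / 4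
    rcases mul_eq_zero.mp this with h' | h'
    · right; right; right; right; right; left; linarith
    · right; right; right; right; right; right; left; linarith
  · have : (u - (1 + √5) / 4) * (u + (1 + √5) / 4) = 0 := by linear_combination h - h5 / 16
    rcases mul_eq_zero.mp this with h' | h'
    · right; right; right; right; right; right; right; left; linarith
    · right; right; right; right; right; right; right; right; left; linarith
  · have : (u - (√5 - 1) / 4) * (u + (√5 - 1) / 4) = 0 := by linear_combination h - h5 / 16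
    rcases mul_eq_zero.mp this with h' | h'
    · right; right; right; right; right; right; right; right; right; left; linarith
    · right; right; right; right; right; right; right; right; right; right; linarith


private theorem Fg3_p1 {u v s t : ℝ} (a5 : 2.236 < s) (b5 : s < 2.2361) (a2 : 1.4142 < t)
    (b2 : t < 1.4143) (hs : u + v = 1 / 2)
    (hu : u = 0 ∨ u = 1 ∨ u = -1 ∨ u = 1 / 2 ∨ u = -1 / 2 ∨ u = t / 2 ∨ u = -(t / 2) ∨ u = (1 + s) / 4 ∨ u = -((1 + s) / 4) ∨ u = (s - 1) / 4 ∨ u = -((s - 1) / 4))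
    (hv : v = 0 ∨ v = 1 ∨ v = -1 ∨ v = 1 / 2 ∨ v = -1 / 2 ∨ v = t / 2 ∨ v = -(t / 2) ∨ v = (1 + s) / 4 ∨ v = -((1 + s) / 4) ∨ v = (s - 1) / 4 ∨ v = -((s - 1) / 4)) :
    u = 0 ∨ u = 1 ∨ u = -1 / 2 ∨ u = 1 / 2 ∨ u = (1 + s) / 4 ∨ u = -((s - 1) / 4) := by
  rcases hu with hu | hu | hu | hu | hu | hu | hu | hu | hu | hu | hu
  · exact Or.inl hu
  · exact Or.inr (Or.inl hu)
  · exfalso; rcases hv with hv | hv | hv | hv | hv | hv | hv | hv | hv | hv | hv <;> linarith
  · exact Or.inr (Or.inr (Or.inr (Or.inl hu)))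
  · exact Or.inr (Or.inr (Or.inl hu))
  · exfalso; rcases hv with hv | hv | hv | hv | hv | hv | hv | hv | hv | hv | hv <;> linarith
  · exfalso; rcases hv with hv | hv | hv | hv | hv | hv | hv | hv | hv | hv | hv <;> linarith
  · exact Or.inr (Or.inr (Or.inr (Or.inr (Or.inl hu))))
  · exfalso; rcases hv with hv | hv | hv | hv | hv | hv | hv | hv | hv | hv | hv <;> linarith
  · exfalso; rcases hv with hv | hv | hv | hv | hv | hv | hv | hv | hv | hv | hv <;> linarith
  · exact Or.inr (Or.inr (Or.inr (Or.inr (Or.inr (hu)))))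

private theorem Fg3_p2 {u v s t : ℝ} (a5 : 2.236 < s) (b5 : s < 2.2361) (a2 : 1.4142 < t)
    (b2 : t < 1.4143) (hs : u + v = 1)
    (hu : u = 0 ∨ u = 1 ∨ u = -1 ∨ u = 1 / 2 ∨ u = -1 / 2 ∨ u = t / 2 ∨ u = -(t / 2) ∨ u = (1 + s) / 4 ∨ u = -((1 + s) / 4) ∨ u = (s - 1) / 4 ∨ u = -((s - 1) / 4))
    (hv : v = 0 ∨ v = 1 ∨ v = -1 ∨ v = 1 / 2 ∨ v = -1 / 2 ∨ v = t / 2 ∨ v = -(t / 2) ∨ v = (1 + s) / 4 ∨ v = -((1 + s) / 4) ∨ v = (s - 1) / 4 ∨ v = -((s - 1) / 4)) :
    u = 0 ∨ u = 1 ∨ u = 1 / 2 := by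
  rcases hu with hu | hu | hu | hu | hu | hu | hu | hu | hu | hu | hu
  · exact Or.inl hu
  · exact Or.inr (Or.inl hu)
  · exfalso; rcases hv with hv | hv | hv | hv | hv | hv | hv | hv | hv | hv | hv <;> linarith
  · exact Or.inr (Or.inr (hu))
  · exfalso; rcases hv with hv | hv | hv | hv | hv | hv | hv | hv | hv | hv | hv <;> linarith
  · exfalso; rcases hv with hv | hv | hv | hv | hv | hv | hv | hv | hv | hv | hv <;> linarith
  · exfalso; rcases hv with hv | hv | hv | hv | hv | hv | hv | hv | hv | hv | hv <;> linarith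
  · exfalso; rcases hv with hv | hv | hv | hv | hv | hv | hv | hv | hv | hv | hv <;> linarith
  · exfalso; rcases hv with hv | hv | hv | hv | hv | hv | hv | hv | hv | hv | hv <;> linarith
  · exfalso; rcases hv with hv | hv | hv | hv | hv | hv | hv | hv | hv | hv | hv <;> linarith
  · exfalso; rcases hv with hv | hv | hv | hv | hv | hv | hv | hv | hv | hv | hv <;> linarith

private theorem Fg3_p3 {u v s t : ℝ} (a5 : 2.236 < s) (b5 : s < 2.2361) (a2 : 1.4142 < t)
    (b2 : t < 1.4143) (hs : u + v = (3 + s) / 4)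
    (hu : u = 0 ∨ u = 1 ∨ u = -1 ∨ u = 1 / 2 ∨ u = -1 / 2 ∨ u = t / 2 ∨ u = -(t / 2) ∨ u = (1 + s) / 4 ∨ u = -((1 + s) / 4) ∨ u = (s - 1) / 4 ∨ u = -((s - 1) / 4))
    (hv : v = 0 ∨ v = 1 ∨ v = -1 ∨ v = 1 / 2 ∨ v = -1 / 2 ∨ v = t / 2 ∨ v = -(t / 2) ∨ v = (1 + s) / 4 ∨ v = -((1 + s) / 4) ∨ v = (s - 1) / 4 ∨ v = -((s - 1) / 4)) :
    u = 1 ∨ u = 1 / 2 ∨ u = (1 + s) / 4 ∨ u = (s - 1) / 4 := by
  rcases hu with hu | hu | hu | hu | hu | hu | hu | hu | hu | hu | hu
  · exfalso; rcases hv with hv | hv | hv | hv | hv | hv | hv | hv | hv | hv | hv <;> linarith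
  · exact Or.inl hu
  · exfalso; rcases hv with hv | hv | hv | hv | hv | hv | hv | hv | hv | hv | hv <;> linarith
  · exact Or.inr (Or.inl hu)
  · exfalso; rcases hv with hv | hv | hv | hv | hv | hv | hv | hv | hv | hv | hv <;> linarith
  · exfalso; rcases hv with hv | hv | hv | hv | hv | hv | hv | hv | hv | hv | hv <;> linarith
  · exfalso; rcases hv with hv | hv | hv | hv | hv | hv | hv | hv | hv | hv | hv <;> linarith
  · exact Or.inr (Or.inr (Or.inl hu))
  · exfalso; rcases hv with hv | hv | hv | hv | hv | hv | hv | hv | hv | hv | hv <;> linarith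
  · exact Or.inr (Or.inr (Or.inr (hu)))
  · exfalso; rcases hv with hv | hv | hv | hv | hv | hv | hv | hv | hv | hv | hv <;> linarith

private theorem Fg3_p4 {u v s t : ℝ} (a5 : 2.236 < s) (b5 : s < 2.2361) (a2 : 1.4142 < t)
    (b2 : t < 1.4143) (hs : u + v = (3 - s) / 4)
    (hu : u = 0 ∨ u = 1 ∨ u = -1 ∨ u = 1 / 2 ∨ u = -1 / 2 ∨ u = t / 2 ∨ u = -(t / 2) ∨ u = (1 + s) / 4 ∨ u = -((1 + s) / 4) ∨ u = (s - 1) / 4 ∨ u = -((s - 1) / 4))
    (hv : v = 0 ∨ v = 1 ∨ v = -1 ∨ v = 1 / 2 ∨ v = -1 / 2 ∨ v = t / 2 ∨ v = -(t / 2) ∨ v = (1 + s) / 4 ∨ v = -((1 + s) / 4) ∨ v = (s - 1) / 4 ∨ v = -((s - 1) / 4)) :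
    u = 1 ∨ u = 1 / 2 ∨ u = -((1 + s) / 4) ∨ u = -((s - 1) / 4) := by
  rcases hu with hu | hu | hu | hu | hu | hu | hu | hu | hu | hu | hu
  · exfalso; rcases hv with hv | hv | hv | hv | hv | hv | hv | hv | hv | hv | hv <;> linarith
  · exact Or.inl hu
  · exfalso; rcases hv with hv | hv | hv | hv | hv | hv | hv | hv | hv | hv | hv <;> linarith
  · exact Or.inr (Or.inl hu)
  · exfalso; rcases hv with hv | hv | hv | hv | hv | hv | hv | hv | hv | hv | hv <;> linarith
  · exfalso; rcases hv with hv | hv | hv | hv | hv | hv | hv | hv | hv | hv | hv <;> linarith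
  · exfalso; rcases hv with hv | hv | hv | hv | hv | hv | hv | hv | hv | hv | hv <;> linarith
  · exfalso; rcases hv with hv | hv | hv | hv | hv | hv | hv | hv | hv | hv | hv <;> linarith
  · exact Or.inr (Or.inr (Or.inl hu))
  · exfalso; rcases hv with hv | hv | hv | hv | hv | hv | hv | hv | hv | hv | hv <;> linarith
  · exact Or.inr (Or.inr (Or.inr (hu)))

/-- Row Fg3. Pure arithmetic: `u = c1`, `v = c2` are in the list `Cs` and their sum is
`2 cos² φ = 1 + c`, their difference is `2 sin² φ (1 - 2 x)`·(-1)... Precisely: if `x0² = l.re²` is one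
of `1/4, 1/2, (3 ± √5)/8`, `c = 2 x0² - 1`, `u = x0² - (1 - x0²) (2 x - 1)`,
`v = x0² + (1 - x0²) (2 x - 1)`, `Cs u`, `Cs v`, `0 < x < 1`, then `Ax c x`. Finite check: every
`u` with `Cs u` is one of `0, ± 1, ± 1/2, ± √2/2, ± (1 + √5)/4, ± (√5 - 1)/4`. -/
theorem arith {x0 x : ℝ} (h0 : x0 ^ 2 = 1 / 4 ∨ x0 ^ 2 = 1 / 2 ∨ x0 ^ 2 = (3 + √5) / 8 ∨
      x0 ^ 2 = (3 - √5) / 8) (hx : 0 < x) (hx1 : x < 1)
    (hu : Cs (x0 ^ 2 - (1 - x0 ^ 2) * (2 * x - 1))) (hv : Cs (x0 ^ 2 + (1 - x0 ^ 2) * (2 * x - 1))) :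
    Ax (2 * x0 ^ 2 - 1) x := by
  have h5 : √5 ^ 2 = 5 := Real.sq_sqrt (by norm_num)
  have a5 : 2.236 < √5 := Real.lt_sqrt_of_sq_lt (by norm_num)
  have b5 : √5 < 2.2361 := (Real.sqrt_lt' (by norm_num)).2 (by norm_num)
  have a2 : 1.4142 < √2 := Real.lt_sqrt_of_sq_lt (by norm_num)
  have b2 : √2 < 1.4143 := (Real.sqrt_lt' (by norm_num)).2 (by norm_num)
  have hu' := Fg3_vals hu
  have hv' := Fg3_vals hv
  clear hu hv
  unfold Ax
  rcases h0 with h0 | h0 | h0 | h0 <;> rw [h0] at hu' hv' ⊢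
  · have hp := Fg3_p1 a5 b5 a2 b2 (by ring) hu' hv'
    clear hu' hv'
    right; left
    refine ⟨by norm_num, ?_⟩
    rcases hp with h | h | h | h | h | h
    · right; left; linarith
    · exfalso; linarith
    · exfalso; linarith
    · left; linarith
    · right; right; right; linarith
    · right; right; left; linarith
  · have hp := Fg3_p2 a5 b5 a2 b2 (by ring) hu' hv'
    clear hu' hv'
    right; right; left
    refine ⟨by norm_num, ?_⟩
    rcases hp with h | h | h
    · exfalso; linarith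
    · exfalso; linarith
    · linarith
  · have hp := Fg3_p3 a5 b5 a2 b2 (by ring) hu' hv'
    clear hu' hv'
    right; right; right
    refine ⟨Or.inl (by ring), ?_⟩
    have hne : (5 - √5) ≠ 0 := by linarith
    rcases hp with h | h | h | h
    · exfalso
      have : (5 - √5) * x = 0 := by linear_combination (-4) * h
      rcases mul_eq_zero.mp this with h' | h' <;> linarith
    · left
      apply mul_left_cancel₀ hne
      linear_combination (-4) * h + h5 / 10
    · right
      apply mul_left_cancel₀ hne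
      linear_combination (-4) * h - h5 / 10
    · exfalso
      have : (5 - √5) * (1 - x) = 0 := by linear_combination (4) * h
      rcases mul_eq_zero.mp this with h' | h' <;> linarith
  · have hp := Fg3_p4 a5 b5 a2 b2 (by ring) hu' hv'
    clear hu' hv'
    right; right; right
    refine ⟨Or.inr (by ring), ?_⟩
    have hne : (5 + √5) ≠ 0 := by linarith
    rcases hp with h | h | h | h
    · exfalso
      have : (5 + √5) * x = 0 := by linear_combination (-4) * h
      rcases mul_eq_zero.mp this with h' | h' <;> linarith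
    · right
      apply mul_left_cancel₀ hne
      linear_combination (-4) * h + h5 / 10
    · exfalso
      have : (5 + √5) * (1 - x) = 0 := by linear_combination (4) * h
      rcases mul_eq_zero.mp this with h' | h' <;> linarith
    · left
      apply mul_left_cancel₀ hne
      linear_combination (-4) * h - h5 / 10

end ChiralQ
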