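import Pool.Agent.Lib.MP_bc704c_co.Q.Fg3

/-! # MP_bc704c_co, row Fg3b: a rotation of order at least 3 and a half-turn -/

namespace ChiralQ

open Quaternion ChiralNF

private lemma Fg3b_re1 {l a : ℍ[ℝ]} (hlJ : l.imJ = 0) (hlK : l.imK = 0) (hU : UI a) :
    (l * a * l * star a).re = l.re ^ 2 - l.imI ^ 2 * (2 * a.imI ^ 2 - 1) := by
  obtain ⟨h0, h1⟩ := hU
  have h2 : a.imK ^ 2 = 1 - a.imI ^ 2 - a.imJ ^ 2 := by linarith
  simp only [Quaternion.re_mul, Quaternion.imI_mul, Quaternion.imJ_mul, Quaternion.imK_mul, Quaternion.re_star,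
    Quaternion.imI_star, Quaternion.imJ_star, Quaternion.imK_star, hlJ, hlK, h0]
  linear_combination (l.re ^ 2 + l.imI ^ 2) * h1

private lemma Fg3b_re2 {l a : ℍ[ℝ]} (hlJ : l.imJ = 0) (hlK : l.imK = 0) (hU : UI a) :
    (l * a * star l * star a).re = l.re ^ 2 + l.imI ^ 2 * (2 * a.imI ^ 2 - 1) := by
  obtain ⟨h0, h1⟩ := hU
  simp only [Quaternion.re_mul, Quaternion.imI_mul, Quaternion.imJ_mul, Quaternion.imK_mul, Quaternion.re_star,
    Quaternion.imI_star, Quaternion.imJ_star, Quaternion.imK_star, hlJ, hlK, h0]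
  linear_combination (l.re ^ 2 - l.imI ^ 2) * h1

/-- Row Fg3. Let `l = x0 + y0 i ∈ X`, `x0 ≠ 0`, `y0 ≠ 0` (a rotation about `i` of order at least `3`)
and let `a ∈ X` be unit imaginary with `0 < α² < 1`, `α = a.imI`. If `axis_or_small` gives an axis `p`:
`l p l̄ = p` or `-p` gives `p = ± i` (`-p` would mean that `p` is orthogonal to `i` and `l² = -1`,
`x0 = 0`), then `a i ā = ± i` gives `α = 0` or `α² = 1`. So all elements satisfy `Cs`, and
`x0² ≠ 0, 1` gives the four values of `arith`; and `Re (l a l ā) = x0² - y0² (2 α² - 1)`,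
`Re (l a l̄ ā) = x0² + y0² (2 α² - 1)` since `a i ā = 2 α a - i`. -/
theorem axes {X : Set ℍ[ℝ]} (hX : FinGp X) {l a : ℍ[ℝ]} (hl : l ∈ X) (ha : a ∈ X)
    (hlJ : l.imJ = 0) (hlK : l.imK = 0) (h0 : l.re ≠ 0) (h1 : l.imI ≠ 0) (hU : UI a)
    (ha0 : a.imI ≠ 0) (ha1 : a.imI ^ 2 ≠ 1) :
    (∀ g ∈ X, Cs g.re) ∧ Ax (l.re ^ 2 - l.imI ^ 2) (a.imI ^ 2) := by
  have hn : l.re ^ 2 + l.imI ^ 2 = 1 := by
    have h := hX.unit l hl
    rw [Quaternion.normSq_def', hlJ, hlK] at h
    linarith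
  rcases axis_or_small hX with hC | ⟨p, hp, hpX⟩
  · refine ⟨hC, ?_⟩
    have hu := hC _ (hX.mul _ (hX.mul _ (hX.mul _ hl _ ha) _ hl) _ (hX.star _ ha))
    have hv := hC _ (hX.mul _ (hX.mul _ (hX.mul _ hl _ ha) _ (hX.star _ hl)) _ (hX.star _ ha))
    rw [Fg3b_re1 hlJ hlK hU] at hu
    rw [Fg3b_re2 hlJ hlK hU] at hv
    have hy : l.imI ^ 2 = 1 - l.re ^ 2 := by linarith
    rw [hy] at hu hv ⊢
    have h4 : l.re ^ 2 = 1 / 4 ∨ l.re ^ 2 = 1 / 2 ∨ l.re ^ 2 = (3 + √5) / 8 ∨ l.re ^ 2 = (3 - √5) / 8 := by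
      rcases hC l hl with h | h | h | h | h | h
      · exact absurd h h0
      · exfalso
        apply h1
        have : l.imI ^ 2 = 0 := by rw [hy, h]; ring
        exact pow_eq_zero_iff (two_ne_zero) |>.1 this
      · exact Or.inl h
      · exact Or.inr (Or.inl h)
      · exact Or.inr (Or.inr (Or.inl h))
      · exact Or.inr (Or.inr (Or.inr h))
    have hx : 0 < a.imI ^ 2 := by positivity
    have hx1 : a.imI ^ 2 < 1 := by
      refine lt_of_le_of_ne ?_ ha1
      nlinarith [hU.2, sq_nonneg a.imJ, sq_nonneg a.imK]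
    have := arith h4 hx hx1 hu hv
    have he : l.re ^ 2 - (1 - l.re ^ 2) = 2 * l.re ^ 2 - 1 := by ring
    rw [he]
    exact this
  · exfalso
    have hS : 2 * l.re * l.imI ≠ 0 := mul_ne_zero (mul_ne_zero two_ne_zero h0) h1
    have hl1 := hpX l hl
    have ha2 := hpX a ha
    obtain ⟨hp0, hp1⟩ := hp
    obtain ⟨haz, hau⟩ := hU
    have key : p.imJ = 0 ∧ p.imK = 0 := by
      rcases hl1 with h | h
      · have hJ := congrArg QuaternionAlgebra.imJ h
        have hK := congrArg QuaternionAlgebra.imK h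
        simp only [Quaternion.re_mul, Quaternion.imI_mul, Quaternion.imJ_mul, Quaternion.imK_mul, Quaternion.re_star,
          Quaternion.imI_star, Quaternion.imJ_star, Quaternion.imK_star, hlJ, hlK, hp0] at hJ hK
        have e1 : (l.re ^ 2 - l.imI ^ 2 - 1) * p.imJ - 2 * l.re * l.imI * p.imK = 0 := by linear_combination hJ
        have e2 : 2 * l.re * l.imI * p.imJ + (l.re ^ 2 - l.imI ^ 2 - 1) * p.imK = 0 := by linear_combination hK
        have hd : (l.re ^ 2 - l.imI ^ 2 - 1) ^ 2 + (2 * l.re * l.imI) ^ 2 ≠ 0 := by positivity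
        constructor
        · have : ((l.re ^ 2 - l.imI ^ 2 - 1) ^ 2 + (2 * l.re * l.imI) ^ 2) * p.imJ = 0 := by
            linear_combination (l.re ^ 2 - l.imI ^ 2 - 1) * e1 + (2 * l.re * l.imI) * e2
          exact (mul_eq_zero.1 this).resolve_left hd
        · have : ((l.re ^ 2 - l.imI ^ 2 - 1) ^ 2 + (2 * l.re * l.imI) ^ 2) * p.imK = 0 := by
            linear_combination (l.re ^ 2 - l.imI ^ 2 - 1) * e2 - (2 * l.re * l.imI) * e1
          exact (mul_eq_zero.1 this).resolve_left hd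
      · have hJ := congrArg QuaternionAlgebra.imJ h
        have hK := congrArg QuaternionAlgebra.imK h
        simp only [Quaternion.re_mul, Quaternion.imI_mul, Quaternion.imJ_mul, Quaternion.imK_mul, Quaternion.re_star,
          Quaternion.imI_star, Quaternion.imJ_star, Quaternion.imK_star, Quaternion.imJ_neg, Quaternion.imK_neg,
          hlJ, hlK, hp0] at hJ hK
        have e1 : (l.re ^ 2 - l.imI ^ 2 + 1) * p.imJ - 2 * l.re * l.imI * p.imK = 0 := by linear_combination hJ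
        have e2 : 2 * l.re * l.imI * p.imJ + (l.re ^ 2 - l.imI ^ 2 + 1) * p.imK = 0 := by linear_combination hK
        have hd : (l.re ^ 2 - l.imI ^ 2 + 1) ^ 2 + (2 * l.re * l.imI) ^ 2 ≠ 0 := by positivity
        constructor
        · have : ((l.re ^ 2 - l.imI ^ 2 + 1) ^ 2 + (2 * l.re * l.imI) ^ 2) * p.imJ = 0 := by
            linear_combination (l.re ^ 2 - l.imI ^ 2 + 1) * e1 + (2 * l.re * l.imI) * e2
          exact (mul_eq_zero.1 this).resolve_left hd
        · have : ((l.re ^ 2 - l.imI ^ 2 + 1) ^ 2 + (2 * l.re * l.imI) ^ 2) * p.imK = 0 := by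
            linear_combination (l.re ^ 2 - l.imI ^ 2 + 1) * e2 - (2 * l.re * l.imI) * e1
          exact (mul_eq_zero.1 this).resolve_left hd
    obtain ⟨hpJ, hpK⟩ := key
    have hpI : p.imI ≠ 0 := by
      rintro h
      rw [h, hpJ, hpK] at hp1
      norm_num at hp1
    have key2 : a.imJ = 0 ∧ a.imK = 0 := by
      have hz : (a * p * star a).imJ = 0 ∧ (a * p * star a).imK = 0 := by
        rcases ha2 with h | h
        · rw [h]
          exact ⟨hpJ, hpK⟩
        · rw [h, Quaternion.imJ_neg, Quaternion.imK_neg, hpJ, hpK]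
          exact ⟨neg_zero, neg_zero⟩
      obtain ⟨hJ, hK⟩ := hz
      simp only [Quaternion.re_mul, Quaternion.imI_mul, Quaternion.imJ_mul, Quaternion.imK_mul, Quaternion.re_star,
        Quaternion.imI_star, Quaternion.imJ_star, Quaternion.imK_star, hp0, hpJ, hpK, haz] at hJ hK
      have hq : 2 * p.imI * a.imI ≠ 0 := mul_ne_zero (mul_ne_zero two_ne_zero hpI) ha0
      constructor
      · have : (2 * p.imI * a.imI) * a.imJ = 0 := by linear_combination hJ
        exact (mul_eq_zero.1 this).resolve_left hq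
      · have : (2 * p.imI * a.imI) * a.imK = 0 := by linear_combination hK
        exact (mul_eq_zero.1 this).resolve_left hq
    apply ha1
    rw [key2.1, key2.2] at hau
    linarith

end ChiralQ
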