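import Pool.Agent.Lib.MP_bc704c_co.Q.Fg3b
import Pool.Agent.Lib.MP_bc704c_co.Q.Fg1

/-! # MP_bc704c_co, row Fg4: the list of the parameters -/

namespace ChiralQ

open Quaternion ChiralNF

/-- Row Fg4. Case `ε = 1`. `s v = l v l̄` (`exists_l`), so `l ∈ LL G`, `a ∈ LL G`, `l ∈ RL G`,
`b ∈ RL G`, `G = GG s t`. `|α| < 1` since `u ≠ 0` by `Chi`, and `d = 2 l.re l.imI ≠ 0`. If `α = 0` then
`Ax c 0` holds; else `axes` for `LL G`. The same for `b` and `RL G`. -/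
theorem listed_rot {s t : ℍ[ℝ] ≃ₗᵢ[ℝ] ℍ[ℝ]} {c d : ℝ} {a b : ℍ[ℝ]} (H : Std s t 1 c d a b)
    (hG : Finite (GG s t)) : Ax c (a.imI ^ 2) ∧ Ax c (b.imI ^ 2) := by
  obtain ⟨l, hl1, hlJ, hlK, hlc, hld, hls⟩ := exists_l H.hcd
  have hsG : s ∈ GG s t := Subgroup.subset_closure (by simp)
  have htG : t ∈ GG s t := Subgroup.subset_closure (by simp)
  have hlL : l ∈ LL (GG s t) := ⟨hl1, l, hl1, s, hsG, fun v => by rw [H.hs, hls]⟩
  have hlR : l ∈ RL (GG s t) := ⟨hl1, l, hl1, s, hsG, fun v => by rw [H.hs, hls]⟩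
  have haL : a ∈ LL (GG s t) := ⟨H.ha.normSq, b, H.hb.normSq, t, htG, H.ht⟩
  have hbR : b ∈ RL (GG s t) := ⟨H.hb.normSq, a, H.ha.normSq, t, htG, H.ht⟩
  have h0 : l.re ≠ 0 := by
    intro h
    apply H.hd
    rw [← hld, h]
    ring
  have h1 : l.imI ≠ 0 := by
    intro h
    apply H.hd
    rw [← hld, h]
    ring
  have ha1 : a.imI ^ 2 ≠ 1 := by
    intro h
    have h2 := H.ha.2
    have hJ : a.imJ = 0 := by nlinarith [sq_nonneg a.imJ, sq_nonneg a.imK]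
    have hK : a.imK = 0 := by nlinarith [sq_nonneg a.imJ, sq_nonneg a.imK]
    apply H.chi.2
    rw [hJ, hK]
    ring
  have hb1 : b.imI ^ 2 ≠ 1 := by
    intro h
    have h2 := H.hb.2
    have hJ : b.imJ = 0 := by nlinarith [sq_nonneg b.imJ, sq_nonneg b.imK]
    have hK : b.imK = 0 := by nlinarith [sq_nonneg b.imJ, sq_nonneg b.imK]
    apply H.chi.2
    rw [hJ, hK]
    ring
  constructor
  · by_cases ha0 : a.imI = 0
    · left
      rw [ha0]
      ring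
    · have h := (axes (finGp_LL hG) hlL haL hlJ hlK h0 h1 H.ha ha0 ha1).2
      rwa [hlc] at h
  · by_cases hb0 : b.imI = 0
    · left
      rw [hb0]
      ring
    · have h := (axes (finGp_RL hG) hlR hbR hlJ hlK h0 h1 H.hb hb0 hb1).2
      rwa [hlc] at h

end ChiralQ
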