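import Pool.Agent.Lib.MP_bc704c_co.Q.Fg4

/-! # MP_bc704c_co, row Fg4b: the list for rotatory reflexions -/

namespace ChiralQ

open Quaternion ChiralNF

private theorem Fg4b_conj {x p : ℍ[ℝ]} (hx : x.re = 0) (hp : p.re = 0) :
    (x * p * star x).imI = 2 * (x.imI * p.imI + x.imJ * p.imJ + x.imK * p.imK) * x.imI -
      (x.imI ^ 2 + x.imJ ^ 2 + x.imK ^ 2) * p.imI ∧
    (x * p * star x).imJ = 2 * (x.imI * p.imI + x.imJ * p.imJ + x.imK * p.imK) * x.imJ -
      (x.imI ^ 2 + x.imJ ^ 2 + x.imK ^ 2) * p.imJ ∧
    (x * p * star x).imK = 2 * (x.imI * p.imI + x.imJ * p.imJ + x.imK * p.imK) * x.imK -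
      (x.imI ^ 2 + x.imJ ^ 2 + x.imK ^ 2) * p.imK := by
  refine ⟨?_, ?_, ?_⟩ <;> simp [hx, hp] <;> ring

private theorem Fg4b_Cs {x y : ℝ} (h : x ^ 2 = y ^ 2) (hx : Cs x) : Cs y := by
  unfold Cs at *
  rcases hx with h0 | h0
  · left
    have h1 : y ^ 2 = 0 := by rw [← h, h0]; ring
    exact pow_eq_zero_iff (two_ne_zero) |>.mp h1
  · right
    rw [← h]
    exact h0

/-- a unit imaginary quaternion preserving the line of `p`, `p` orthogonal to `i`: it is orthogonal to
`p` or equal to `± p`. -/
private theorem Fg4b_dich {x p : ℍ[ℝ]} (hx : UI x) (hp : UI p) (hp1 : p.imI = 0)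
    (h : x * p * star x = p ∨ x * p * star x = -p) :
    x.imJ * p.imJ + x.imK * p.imK = 0 ∨
      (x.imI = 0 ∧ ∃ e : ℝ, e ^ 2 = 1 ∧ x.imJ = e * p.imJ ∧ x.imK = e * p.imK) := by
  obtain ⟨hx0, hx1⟩ := hx
  obtain ⟨hp0, hp2⟩ := hp
  obtain ⟨h1, h2, h3⟩ := Fg4b_conj hx0 hp0
  rw [hp1] at h1 h2 h3 hp2
  rw [hx1] at h1 h2 h3
  obtain ⟨m, hm⟩ : ∃ m, m = x.imJ * p.imJ + x.imK * p.imK := ⟨_, rfl⟩
  by_cases hm0 : m = 0
  · left
    rw [← hm, hm0]
  · rcases h with h | h
    · right
      have g1 : 2 * m * x.imI = 0 := by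
        have := congrArg QuaternionAlgebra.imI h
        rw [h1, hp1] at this
        rw [hm]
        linear_combination this
      have g2 : m * x.imJ = p.imJ := by
        have := congrArg QuaternionAlgebra.imJ h
        rw [h2] at this
        rw [hm]
        linear_combination this / 2
      have g3 : m * x.imK = p.imK := by
        have := congrArg QuaternionAlgebra.imK h
        rw [h3] at this
        rw [hm]
        linear_combination this / 2
      have g4 : x.imI = 0 := by
        rcases mul_eq_zero.mp g1 with h' | h'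
        · exact absurd h' (by simpa using hm0)
        · exact h'
      refine ⟨g4, m, ?_, ?_, ?_⟩
      · -- m = x.imJ p.imJ + x.imK p.imK = m (x.imJ ^ 2 + x.imK ^ 2)... and p is a unit vector
        rw [g4] at hx1
        have : m ^ 2 * (x.imJ ^ 2 + x.imK ^ 2) = 1 := by
          have h5 : m ^ 2 * (x.imJ ^ 2 + x.imK ^ 2) = (m * x.imJ) ^ 2 + (m * x.imK) ^ 2 := by ring
          rw [h5, g2, g3]
          linear_combination hp2
        linear_combination this - m ^ 2 * hx1
      · have h6 : m ^ 2 = 1 := by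
          rw [g4] at hx1
          have : m ^ 2 * (x.imJ ^ 2 + x.imK ^ 2) = 1 := by
            have h5 : m ^ 2 * (x.imJ ^ 2 + x.imK ^ 2) = (m * x.imJ) ^ 2 + (m * x.imK) ^ 2 := by ring
            rw [h5, g2, g3]
            linear_combination hp2
          linear_combination this - m ^ 2 * hx1
        rw [← g2]
        linear_combination -x.imJ * h6
      · have h6 : m ^ 2 = 1 := by
          rw [g4] at hx1
          have : m ^ 2 * (x.imJ ^ 2 + x.imK ^ 2) = 1 := by
            have h5 : m ^ 2 * (x.imJ ^ 2 + x.imK ^ 2) = (m * x.imJ) ^ 2 + (m * x.imK) ^ 2 := by ring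
            rw [h5, g2, g3]
            linear_combination hp2
          linear_combination this - m ^ 2 * hx1
        rw [← g3]
        linear_combination -x.imK * h6
    · -- x p x̄ = - p: then 2 m x = 0
      exfalso
      have g1 : m * x.imI = 0 := by
        have := congrArg QuaternionAlgebra.imI h
        rw [h1] at this
        simp only [Quaternion.imI_neg, hp1] at this
        rw [hm]
        linear_combination this / 2
      have g2 : m * x.imJ = 0 := by
        have := congrArg QuaternionAlgebra.imJ h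
        rw [h2] at this
        simp only [Quaternion.imJ_neg] at this
        rw [hm]
        linear_combination this / 2
      have g3 : m * x.imK = 0 := by
        have := congrArg QuaternionAlgebra.imK h
        rw [h3] at this
        simp only [Quaternion.imK_neg] at this
        rw [hm]
        linear_combination this / 2
      have e1 := (mul_eq_zero.mp g1).resolve_left hm0
      have e2 := (mul_eq_zero.mp g2).resolve_left hm0
      have e3 := (mul_eq_zero.mp g3).resolve_left hm0
      rw [e1, e2, e3] at hx1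
      norm_num at hx1

/-- a unit imaginary quaternion preserving the line of `i`: it is orthogonal to `i` or `± i`. -/
private theorem Fg4b_line {x p : ℍ[ℝ]} (hx : UI x) (hp : UI p) (hp2 : p.imJ = 0) (hp3 : p.imK = 0)
    (hxu : x.imJ ≠ 0 ∨ x.imK ≠ 0) (h : x * p * star x = p ∨ x * p * star x = -p) : x.imI = 0 := by
  obtain ⟨hx0, hx1⟩ := hx
  obtain ⟨hp0, hp1⟩ := hp
  obtain ⟨h1, h2, h3⟩ := Fg4b_conj hx0 hp0
  rw [hp2, hp3] at h1 h2 h3 hp1
  have hpi : p.imI ≠ 0 := by
    intro h0
    rw [h0] at hp1
    norm_num at hp1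
  have g2 : 2 * (x.imI * p.imI) * x.imJ = 0 := by
    rcases h with h | h
    · have := congrArg QuaternionAlgebra.imJ h
      rw [h2, hp2] at this
      linear_combination this
    · have := congrArg QuaternionAlgebra.imJ h
      rw [h2] at this
      simp only [Quaternion.imJ_neg, hp2] at this
      linear_combination this
  have g3 : 2 * (x.imI * p.imI) * x.imK = 0 := by
    rcases h with h | h
    · have := congrArg QuaternionAlgebra.imK h
      rw [h3, hp3] at this
      linear_combination this
    · have := congrArg QuaternionAlgebra.imK h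
      rw [h3] at this
      simp only [Quaternion.imK_neg, hp3] at this
      linear_combination this
  by_contra hne
  have h5 : 2 * (x.imI * p.imI) ≠ 0 := mul_ne_zero two_ne_zero (mul_ne_zero hne hpi)
  rcases hxu with hxu | hxu
  · exact hxu ((mul_eq_zero.mp g2).resolve_left h5)
  · exact hxu ((mul_eq_zero.mp g3).resolve_left h5)

set_option maxHeartbeats 1600000 in
/-- Row Fg4. Case `ε = -1`. By `rot_conj` the set `X = LL G` contains `z = c + d i`, `a` and
`b' = β i - z w`. If `c ≠ 0`: `axes` for `l = z` and `a` (if `α ≠ 0`), `b'` (if `β ≠ 0`); at least one of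
them is not `0`, so `Cs g.re` for all `g ∈ X`; `- Re (a b') = ⟪a, b'⟫ = gam c d a b`. If `c = 0`, `z = ± i`:
by `axis_or_small` either all elements satisfy `Cs`: `Re (z a) = ∓ α`, `Re (z b') = ∓ β`,
`Re (a b') = - gam`; or there is an axis `p`. `i p ī = ± p`: `p = ± i` or `p` is orthogonal to `i`. In the
first case `a i ā = ± i` and `b' i b̄' = ± i` give `α² , β² ∈ {0, 1}`, excluded (`|α|, |β| < 1`, `α² ≠ β²`).
In the second case (`p.imI = 0`) `a p ā = ± p`: `a = ± p` or `a` is orthogonal to `p`, the same for `b'`.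
If `a = ± p` then `α = 0`, and `b'` is orthogonal to `p` (else `β = 0`), so `u = ± p` is orthogonal to
`z w`, i.e. parallel to `w` (`c = 0`): excluded. Similarly for `b' = ± p`. So `u, z w` are orthogonal to
`p`, hence parallel, i.e. `u` is orthogonal to `w`. -/
theorem listed_refl {s t : ℍ[ℝ] ≃ₗᵢ[ℝ] ℍ[ℝ]} {c d : ℝ} {a b : ℍ[ℝ]} (H : Std s t (-1) c d a b)
    (hG : Finite (GG s t)) : Listed (-1) c d a b := by
  obtain ⟨_, hcd, hd, ha, hb, ⟨hchi1, hchi2⟩, hs, ht⟩ := H
  have hX : FinGp (LL (GG s t)) := finGp_LL hG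
  have hsG : s ∈ GG s t := Subgroup.subset_closure (by simp)
  have htG : t ∈ GG s t := Subgroup.subset_closure (by simp)
  have na : normSq a = 1 := by
    rw [Quaternion.normSq_def', ha.1]
    linear_combination ha.2
  have nb : normSq b = 1 := by
    rw [Quaternion.normSq_def', hb.1]
    linear_combination hb.2
  -- the three elements
  obtain ⟨z, hz⟩ : ∃ z : ℍ[ℝ], z = ⟨c, d, 0, 0⟩ := ⟨_, rfl⟩
  obtain ⟨b', hb'⟩ : ∃ b' : ℍ[ℝ],
      b' = ⟨0, b.imI, -(c * b.imJ - d * b.imK), -(d * b.imJ + c * b.imK)⟩ := ⟨_, rfl⟩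
  obtain ⟨a', ha'⟩ : ∃ a' : ℍ[ℝ],
      a' = ⟨0, a.imI, -(c * a.imJ - d * a.imK), -(d * a.imJ + c * a.imK)⟩ := ⟨_, rfl⟩
  have zre : z.re = c := by rw [hz]
  have zI : z.imI = d := by rw [hz]
  have zJ : z.imJ = 0 := by rw [hz]
  have zK : z.imK = 0 := by rw [hz]
  have b're : b'.re = 0 := by rw [hb']
  have b'I : b'.imI = b.imI := by rw [hb']
  have b'J : b'.imJ = -(c * b.imJ - d * b.imK) := by rw [hb']
  have b'K : b'.imK = -(d * b.imJ + c * b.imK) := by rw [hb']
  have nz : normSq z = 1 := by
    rw [Quaternion.normSq_def', zre, zI, zJ, zK]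
    linear_combination hcd
  have hUb' : UI b' := by
    refine ⟨b're, ?_⟩
    rw [b'I, b'J, b'K]
    linear_combination hb.2 + (b.imJ ^ 2 + b.imK ^ 2) * hcd
  have nb' : normSq b' = 1 := by
    rw [Quaternion.normSq_def', hUb'.1]
    linear_combination hUb'.2
  have a're : a'.re = 0 := by rw [ha']
  have a'I : a'.imI = a.imI := by rw [ha']
  have a'J : a'.imJ = -(c * a.imJ - d * a.imK) := by rw [ha']
  have a'K : a'.imK = -(d * a.imJ + c * a.imK) := by rw [ha']
  have na' : normSq a' = 1 := by
    rw [Quaternion.normSq_def', a're, a'I, a'J, a'K]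
    linear_combination ha.2 + (a.imJ ^ 2 + a.imK ^ 2) * hcd
  have hzX : z ∈ LL (GG s t) := by
    refine ⟨nz, z, nz, s * s, mul_mem hsG hsG, fun v => ?_⟩
    have h1 := (rot_conj hcd ha hb v).1
    show s (s v) = tF z z v
    rw [hs v, hs, h1, hz]
  have haX : a ∈ LL (GG s t) := ⟨na, b, nb, t, htG, ht⟩
  have hsinv : ∀ v, s⁻¹ v = sF (-1) c (-d) v := by
    intro v
    have h1 : s (sF (-1) c (-d) v) = v := by
      rw [hs]
      unfold sF
      ext
      · simp
      · simp
      · simp only
        linear_combination v.imJ * hcd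
      · simp only
        linear_combination v.imK * hcd
    have h2 : s⁻¹ (s (sF (-1) c (-d) v)) = sF (-1) c (-d) v := s.symm_apply_apply _
    rw [h1] at h2
    exact h2
  have hb'X : b' ∈ LL (GG s t) := by
    refine ⟨nb', a', na', s * t * s⁻¹, mul_mem (mul_mem hsG htG) (inv_mem hsG), fun v => ?_⟩
    have h1 := (rot_conj hcd ha hb v).2
    show s (t (s⁻¹ v)) = tF b' a' v
    rw [hsinv v, ht, hs, h1, hb', ha']
  -- the inner product
  have hgam : (a * b').re = -gam c d a b := by
    unfold gam
    rw [Quaternion.re_mul, ha.1, b're, b'I, b'J, b'K]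
    ring
  have hgamC : (∀ g ∈ LL (GG s t), Cs g.re) → Cs (gam c d a b) := by
    intro h
    have h1 := h _ (hX.mul a haX b' hb'X)
    rw [hgam] at h1
    exact Fg4b_Cs (by ring) h1
  have ha1 : a.imI ^ 2 ≠ 1 := by
    intro h
    have h2 := ha.2
    have h3 : a.imJ ^ 2 + a.imK ^ 2 = 0 := by linear_combination h2 - h
    have h4 : a.imJ = 0 := by nlinarith [sq_nonneg a.imJ, sq_nonneg a.imK]
    have h5 : a.imK = 0 := by nlinarith [sq_nonneg a.imJ, sq_nonneg a.imK]
    exact hchi2 (by rw [h4, h5]; ring)
  have hb1 : b.imI ^ 2 ≠ 1 := by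
    intro h
    have h2 := hb.2
    have h3 : b.imJ ^ 2 + b.imK ^ 2 = 0 := by linear_combination h2 - h
    have h4 : b.imJ = 0 := by nlinarith [sq_nonneg b.imJ, sq_nonneg b.imK]
    have h5 : b.imK = 0 := by nlinarith [sq_nonneg b.imJ, sq_nonneg b.imK]
    exact hchi2 (by rw [h4, h5]; ring)
  have hua : a.imJ ≠ 0 ∨ a.imK ≠ 0 := by
    by_contra h
    push Not at h
    exact hchi2 (by rw [h.1, h.2]; ring)
  have hub' : b'.imJ ≠ 0 ∨ b'.imK ≠ 0 := by
    by_contra h
    push Not at h
    have h2 := hUb'.2
    rw [h.1, h.2, b'I] at h2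
    exact hb1 (by linear_combination h2)
  unfold Listed
  by_cases hc : c = 0
  · -- `z = ± i`
    have hd2 : d ^ 2 = 1 := by rw [hc] at hcd; linear_combination hcd
    rcases axis_or_small hX with hC | ⟨p, hp, hax⟩
    · right; right; left
      refine ⟨rfl, hc, ?_, ?_, hgamC hC⟩
      · have h1 := hC _ (hX.mul z hzX a haX)
        rw [Quaternion.re_mul, zre, zI, zJ, zK, ha.1] at h1
        refine Fg4b_Cs ?_ h1
        rw [hc]
        linear_combination a.imI ^ 2 * hd2
      · have h1 := hC _ (hX.mul z hzX b' hb'X)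
        rw [Quaternion.re_mul, zre, zI, zJ, zK, b're, b'I] at h1
        refine Fg4b_Cs ?_ h1
        rw [hc]
        linear_combination b.imI ^ 2 * hd2
    · right; right; right
      refine ⟨rfl, hc, ?_⟩
      have hz0 : z.re = 0 := by rw [zre, hc]
      obtain ⟨k1, k2, k3⟩ := Fg4b_conj hz0 hp.1
      rw [zI, zJ, zK] at k1 k2 k3
      have hpi : (p.imJ = 0 ∧ p.imK = 0) ∨ p.imI = 0 := by
        rcases hax z hzX with h | h
        · left
          constructor
          · have := congrArg QuaternionAlgebra.imJ h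
            rw [k2] at this
            linear_combination (-this - p.imJ * hd2) / 2
          · have := congrArg QuaternionAlgebra.imK h
            rw [k3] at this
            linear_combination (-this - p.imK * hd2) / 2
        · right
          have := congrArg QuaternionAlgebra.imI h
          rw [k1] at this
          simp only [Quaternion.imI_neg] at this
          linear_combination (this - p.imI * hd2) / 2
      rcases hpi with ⟨hp2, hp3⟩ | hp1
      · exfalso
        have e1 := Fg4b_line ha hp hp2 hp3 hua (hax a haX)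
        have e2 := Fg4b_line hUb' hp hp2 hp3 hub' (hax b' hb'X)
        rw [b'I] at e2
        exact hchi1 (by rw [e1, e2])
      · have hpp : p.imJ ^ 2 + p.imK ^ 2 = 1 := by
          have := hp.2
          rw [hp1] at this
          linear_combination this
        rcases Fg4b_dich ha hp hp1 (hax a haX) with hA | ⟨hA0, e, he, hAj, hAk⟩ <;>
          rcases Fg4b_dich hUb' hp hp1 (hax b' hb'X) with hB | ⟨hB0, f, hf, hBj, hBk⟩
        · -- both orthogonal to p
          rw [b'J, b'K, hc] at hB
          have hB2 : d * (b.imK * p.imJ - b.imJ * p.imK) = 0 := by linear_combination hB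
          have hB3 : b.imK * p.imJ - b.imJ * p.imK = 0 := (mul_eq_zero.mp hB2).resolve_left hd
          linear_combination (-(a.imJ * b.imJ + a.imK * b.imK)) * hpp +
            (b.imJ * p.imJ + b.imK * p.imK) * hA + (a.imK * p.imJ - a.imJ * p.imK) * hB3
        · exfalso
          rw [b'J, hc] at hBj
          rw [b'K, hc] at hBk
          have h7 : d * (a.imJ * b.imK - a.imK * b.imJ) = 0 := by
            linear_combination a.imJ * hBj + a.imK * hBk + f * hA
          exact hchi2 ((mul_eq_zero.mp h7).resolve_left hd)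
        · exfalso
          rw [b'J, b'K, hc] at hB
          have h7 : d * (a.imJ * b.imK - a.imK * b.imJ) = 0 := by
            rw [hAj, hAk]
            linear_combination e * hB
          exact hchi2 ((mul_eq_zero.mp h7).resolve_left hd)
        · exfalso
          rw [b'I] at hB0
          exact hchi1 (by rw [hA0, hB0])
  · right; left
    have hcc : z.re ^ 2 - z.imI ^ 2 = 2 * c ^ 2 - 1 := by
      rw [zre, zI]
      linear_combination -hcd
    have hz0 : z.re ≠ 0 := by rw [zre]; exact hc
    have hz1 : z.imI ≠ 0 := by rw [zI]; exact hd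
    have hA : a.imI ≠ 0 → (∀ g ∈ LL (GG s t), Cs g.re) ∧ Ax (2 * c ^ 2 - 1) (a.imI ^ 2) := by
      intro h
      have := axes hX hzX haX zJ zK hz0 hz1 ha h ha1
      rw [hcc] at this
      exact this
    have hB : b.imI ≠ 0 → (∀ g ∈ LL (GG s t), Cs g.re) ∧ Ax (2 * c ^ 2 - 1) (b.imI ^ 2) := by
      intro h
      have := axes hX hzX hb'X zJ zK hz0 hz1 hUb' (by rw [b'I]; exact h) (by rw [b'I]; exact hb1)
      rw [hcc, b'I] at this
      exact this
    have hC : ∀ g ∈ LL (GG s t), Cs g.re := by
      by_cases h : a.imI = 0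
      · have h2 : b.imI ≠ 0 := fun h3 => hchi1 (by rw [h, h3])
        exact (hB h2).1
      · exact (hA h).1
    refine ⟨rfl, hc, ?_, ?_, hgamC hC⟩
    · by_cases h : a.imI = 0
      · left
        rw [h]
        ring
      · exact (hA h).2
    · by_cases h : b.imI = 0
      · left
        rw [h]
        ring
      · exact (hB h).2

end ChiralQ
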