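import Pool.Agent.Lib.MP_bc704c_co.Q.Al1

/-! # MP_bc704c_co, row Fg5: stabilisers of finite sets are finite groups; two-vector alignment -/

namespace ChiralQ

open Quaternion ChiralNF

/-- the unit quaternions which preserve `S` by conjugation -/
def Stb (S : Set ℍ[ℝ]) : Set ℍ[ℝ] := {x | normSq x = 1 ∧ ∀ v ∈ S, x * v * star x ∈ S}

private theorem Fg5_sm {x : ℍ[ℝ]} (hx : normSq x = 1) : Star.star x * x = 1 := by
  rw [Quaternion.star_mul_self, hx]
  rfl

private theorem Fg5_ms {x : ℍ[ℝ]} (hx : normSq x = 1) : x * Star.star x = 1 := by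
  rw [Quaternion.self_mul_star, hx]
  rfl

private theorem Fg5_back {x v w : ℍ[ℝ]} (hx : normSq x = 1) (h : x * w * Star.star x = v) :
    Star.star x * v * x = w := by
  rw [← h]
  calc Star.star x * (x * w * Star.star x) * x
      = (Star.star x * x) * w * (Star.star x * x) := by simp only [mul_assoc]
    _ = w := by rw [Fg5_sm hx, one_mul, mul_one]

private theorem Fg5_real {z i j : ℍ[ℝ]} (hi : i = ⟨0, 1, 0, 0⟩) (hj : j = ⟨0, 0, 1, 0⟩)
    (hz : normSq z = 1) (h1 : z * i = i * z) (h2 : z * j = j * z) : z = 1 ∨ z = -1 := by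
  have i0 : i.re = 0 := by rw [hi]
  have i1 : i.imI = 1 := by rw [hi]
  have i2 : i.imJ = 0 := by rw [hi]
  have i3 : i.imK = 0 := by rw [hi]
  have j0 : j.re = 0 := by rw [hj]
  have j1 : j.imI = 0 := by rw [hj]
  have j2 : j.imJ = 1 := by rw [hj]
  have j3 : j.imK = 0 := by rw [hj]
  have e1 : (z * i).imJ = (i * z).imJ := by rw [h1]
  have e2 : (z * i).imK = (i * z).imK := by rw [h1]
  have e3 : (z * j).imK = (j * z).imK := by rw [h2]
  rw [Quaternion.imJ_mul, Quaternion.imJ_mul, i0, i1, i2, i3] at e1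
  rw [Quaternion.imK_mul, Quaternion.imK_mul, i0, i1, i2, i3] at e2
  rw [Quaternion.imK_mul, Quaternion.imK_mul, j0, j1, j2, j3] at e3
  have f1 : z.imK = 0 := by linarith
  have f2 : z.imJ = 0 := by linarith
  have f3 : z.imI = 0 := by linarith
  rw [Quaternion.normSq_def', f1, f2, f3] at hz
  have f4 : (z.re - 1) * (z.re + 1) = 0 := by nlinarith
  rcases mul_eq_zero.1 f4 with h | h
  · left
    ext <;> simp [f1, f2, f3] <;> linarith
  · right
    ext <;> simp [f1, f2, f3] <;> linarith

private theorem Fg5_fib {S : Set ℍ[ℝ]} (h1 : (⟨0, 1, 0, 0⟩ : ℍ[ℝ]) ∈ Submodule.span ℝ S)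
    (h2 : (⟨0, 0, 1, 0⟩ : ℍ[ℝ]) ∈ Submodule.span ℝ S) {x y : ℍ[ℝ]} (hx : normSq x = 1)
    (hy : normSq y = 1) (h : ∀ v ∈ S, x * v * Star.star x = y * v * Star.star y) :
    x = y ∨ x = -y := by
  have hL : Set.EqOn ((LinearMap.mulLeft ℝ x).comp (LinearMap.mulRight ℝ (Star.star x)))
      ((LinearMap.mulLeft ℝ y).comp (LinearMap.mulRight ℝ (Star.star y))) S := by
    intro v hv
    simpa [mul_assoc] using h v hv
  have key : ∀ v ∈ Submodule.span ℝ S, (Star.star y * x) * v = v * (Star.star y * x) := by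
    intro v hv
    have h3 := LinearMap.eqOn_span hL hv
    simp only [LinearMap.comp_apply, LinearMap.mulLeft_apply, LinearMap.mulRight_apply] at h3
    have h4 : Star.star y * (x * (v * Star.star x)) * x = Star.star y * (y * (v * Star.star y)) * x := by
      rw [h3]
    have h5 : Star.star y * (x * (v * Star.star x)) * x =
        Star.star y * x * v * (Star.star x * x) := by simp only [mul_assoc]
    have h6 : Star.star y * (y * (v * Star.star y)) * x =
        (Star.star y * y) * v * (Star.star y * x) := by simp only [mul_assoc]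
    rw [h5, h6, Fg5_sm hx, Fg5_sm hy, mul_one, one_mul] at h4
    exact h4
  have hz : normSq (Star.star y * x) = 1 := by
    rw [map_mul, Quaternion.normSq_star, hx, hy, one_mul]
  have hxy : y * (Star.star y * x) = x := by rw [← mul_assoc, Fg5_ms hy, one_mul]
  rcases Fg5_real rfl rfl hz (key _ h1) (key _ h2) with h3 | h3
  · left
    rw [h3, mul_one] at hxy
    exact hxy.symm
  · right
    rw [h3, mul_neg, mul_one] at hxy
    exact hxy.symm

/-- Row Fg5. Closed under products; the conjugation by `x` is injective on the finite set `S`, so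
bijective, and `star x` preserves `S`. Finiteness: `x ↦ (v ↦ x v x̄)`, `S → S`, and if `x, y` act
in the same way on `S ∋ i, j`-spanning vectors then `ȳ x` commutes with a basis of the imaginary
quaternions, so `ȳ x = ± 1`. Hypothesis: `S` contains `m i`, `m j` up to linear combinations. -/
theorem finGp_stb {S : Set ℍ[ℝ]} (hS : S.Finite) (h1 : (⟨0, 1, 0, 0⟩ : ℍ[ℝ]) ∈ Submodule.span ℝ S)
    (h2 : (⟨0, 0, 1, 0⟩ : ℍ[ℝ]) ∈ Submodule.span ℝ S) : FinGp (Stb S) := by
  have : Finite S := hS
  refine ⟨?_, ⟨by simp, fun v hv => by simpa using hv⟩, ?_, ?_, fun x hx => hx.1⟩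
  · refine Set.Finite.of_finite_fibers (fun x : ℍ[ℝ] => fun v : S => x * (v : ℍ[ℝ]) * Star.star x)
      ?_ ?_
    · refine (Set.Finite.pi' (fun _ : S => hS)).subset ?_
      rintro _ ⟨x, hx, rfl⟩ v
      exact hx.2 v v.2
    · rintro _ ⟨y, hy, rfl⟩
      refine (Set.toFinite ({y, -y} : Set ℍ[ℝ])).subset ?_
      rintro x ⟨hx, hxy⟩
      have h3 : ∀ v ∈ S, x * v * Star.star x = y * v * Star.star y := fun v hv =>
        congrFun hxy ⟨v, hv⟩
      exact Fg5_fib h1 h2 hx.1 hy.1 h3
  · rintro x ⟨hx, hx'⟩ y ⟨hy, hy'⟩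
    refine ⟨by rw [map_mul, hx, hy, one_mul], fun v hv => ?_⟩
    have h3 := hx' _ (hy' v hv)
    rw [star_mul]
    have h4 : x * y * v * (Star.star y * Star.star x) = x * (y * v * Star.star y) * Star.star x := by
      simp only [mul_assoc]
    rw [h4]
    exact h3
  · rintro x ⟨hx, hx'⟩
    refine ⟨by rw [Quaternion.normSq_star, hx], fun v hv => ?_⟩
    have hinj : Set.InjOn (fun w : ℍ[ℝ] => x * w * Star.star x) S := by
      intro w _ w' _ hw
      have h3 := Fg5_back hx (rfl : x * w * Star.star x = x * w * Star.star x)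
      have h4 := Fg5_back hx (rfl : x * w' * Star.star x = x * w' * Star.star x)
      rw [← h3, ← h4]
      exact congrArg (fun u => Star.star x * u * x) hw
    have hmaps : Set.MapsTo (fun w : ℍ[ℝ] => x * w * Star.star x) S S := fun w hw => hx' w hw
    have hsurj : Set.SurjOn (fun w : ℍ[ℝ] => x * w * Star.star x) S S :=
      ((Set.Finite.injOn_iff_bijOn_of_mapsTo hS hmaps).1 hinj).surjOn
    obtain ⟨w, hw, hwv⟩ := hsurj hv
    rw [star_star, Fg5_back hx hwv]
    exact hw

/-- Row Fg5. Conjugates of finite groups. -/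
theorem FinGp.conj {X : Set ℍ[ℝ]} (hX : FinGp X) {r : ℍ[ℝ]} (hr : normSq r = 1) :
    FinGp ((fun x => r * x * Star.star r) '' X) := by
  refine ⟨hX.fin.image _, ⟨1, hX.one, ?_⟩, ?_, ?_, ?_⟩
  · show r * 1 * Star.star r = 1
    rw [mul_one, Fg5_ms hr]
  · rintro _ ⟨x, hx, rfl⟩ _ ⟨y, hy, rfl⟩
    refine ⟨x * y, hX.mul x hx y hy, ?_⟩
    show r * (x * y) * Star.star r = r * x * Star.star r * (r * y * Star.star r)
    calc r * (x * y) * Star.star r = r * x * 1 * y * Star.star r := by
          simp only [mul_assoc, one_mul]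
      _ = r * x * (Star.star r * r) * y * Star.star r := by rw [Fg5_sm hr]
      _ = r * x * Star.star r * (r * y * Star.star r) := by simp only [mul_assoc]
  · rintro _ ⟨x, hx, rfl⟩
    refine ⟨Star.star x, hX.star x hx, ?_⟩
    show r * Star.star x * Star.star r = Star.star (r * x * Star.star r)
    rw [star_mul, star_mul, star_star, mul_assoc]
  · rintro _ ⟨x, hx, rfl⟩
    show normSq (r * x * Star.star r) = 1
    rw [map_mul, map_mul, Quaternion.normSq_star, hr, hX.unit x hx]
    norm_num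

end ChiralQ
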