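import Pool.Agent.Lib.MP_bc704c_co.Q.Fg5

/-! # MP_bc704c_co, row Fg5b: alignment -/

namespace ChiralQ

open Quaternion ChiralNF

private theorem al_norm {r x x' y y' : ℍ[ℝ]} (hr : r ≠ 0) (h1 : r * x' = x * r) (h2 : r * y' = y * r) :
    ∃ u : ℍ[ℝ], normSq u = 1 ∧ u * x' = x * u ∧ u * y' = y * u := by
  have hn : 0 < normSq r := by
    rcases (normSq_nonneg (a := r)).lt_or_eq with h | h
    · exact h
    · exact absurd (normSq_eq_zero.mp h.symm) hr
  have hs : 0 < √(normSq r) := Real.sqrt_pos.mpr hn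
  have hq : √(normSq r) * √(normSq r) = normSq r := Real.mul_self_sqrt hn.le
  refine ⟨(√(normSq r))⁻¹ • r, ?_, ?_, ?_⟩
  · rw [Quaternion.normSq_smul, inv_pow, pow_two, hq]
    exact inv_mul_cancel₀ hn.ne'
  · rw [smul_mul_assoc, h1, mul_smul_comm]
  · rw [smul_mul_assoc, h2, mul_smul_comm]

private theorem al_unit {u x x' : ℍ[ℝ]} (hu : normSq u = 1) (h : u * x' = x * u) : u * x' * star u = x := by
  rw [h, mul_assoc, Quaternion.self_mul_star, hu]
  simp

private theorem al_sq {p : ℍ[ℝ]} (hp : UI p) : p * p = -1 := by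
  obtain ⟨h0, h1⟩ := hp
  ext
  · simp [h0]
    nlinarith
  · simp [h0]
    ring
  · simp [h0]
    ring
  · simp [h0]
    ring

private theorem al_anti {x y : ℍ[ℝ]} (hx : x.re = 0) (hy : y.re = 0) :
    x * y + y * x = ((-2 * (x.imI * y.imI + x.imJ * y.imJ + x.imK * y.imK) : ℝ) : ℍ[ℝ]) := by
  ext
  · simp [hx, hy]
    ring
  · simp [hx, hy]
    ring
  · simp [hx, hy]
    ring
  · simp [hx, hy]
    ring

private theorem al_orth {p : ℍ[ℝ]} (hp : UI p) : ∃ q : ℍ[ℝ], q ≠ 0 ∧ q * p = -(p * q) := by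
  obtain ⟨h0, h1⟩ := hp
  have key : ∀ q : ℍ[ℝ], q.re = 0 → q.imI * p.imI + q.imJ * p.imJ + q.imK * p.imK = 0 → q * p = -(p * q) := by
    intro q hq hz
    have h := al_anti hq h0
    rw [hz, mul_zero, Quaternion.coe_zero] at h
    exact eq_neg_of_add_eq_zero_left h
  by_cases h : p.imJ = 0 ∧ p.imK = 0
  · refine ⟨⟨0, 0, 1, 0⟩, fun e => ?_, key _ rfl ?_⟩
    · have := congrArg (fun z : ℍ[ℝ] => z.imJ) e
      simp at this
    · simp [h.1]
  · refine ⟨⟨0, 0, p.imK, -p.imJ⟩, fun e => h ?_, key _ rfl ?_⟩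
    · have e1 := congrArg (fun z : ℍ[ℝ] => z.imJ) e
      have e2 := congrArg (fun z : ℍ[ℝ] => z.imK) e
      simp at e1 e2
      exact ⟨e2, e1⟩
    · simp
      ring

private theorem al_one {p p' : ℍ[ℝ]} (hp : UI p) (hp' : UI p') : ∃ u : ℍ[ℝ], normSq u = 1 ∧ u * p' = p * u := by
  by_cases h : p' = -p
  · obtain ⟨q, hq, hqp⟩ := al_orth hp
    have h1 : q * p' = p * q := by rw [h, mul_neg, hqp, neg_neg]
    obtain ⟨u, hu, h2, -⟩ := al_norm hq h1 h1
    exact ⟨u, hu, h2⟩
  · have e1 := al_sq hp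
    have e2 := al_sq hp'
    have h1 : (1 - p * p') * p' = p * (1 - p * p') := by
      have : (1 - p * p') * p' - p * (1 - p * p') = p' - p * (p' * p') - p + (p * p) * p' := by noncomm_ring
      rw [e1, e2] at this
      rw [← sub_eq_zero, this]
      noncomm_ring
    have h3 : (1 - p * p') ≠ 0 := by
      intro e
      apply h
      have e3 : p * p' = 1 := (sub_eq_zero.mp e).symm
      have e4 : p * (p * p') = p := by rw [e3, mul_one]
      rw [← mul_assoc, e1, neg_one_mul] at e4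
      rw [← e4, neg_neg]
    obtain ⟨u, hu, h2, -⟩ := al_norm h3 h1 h1
    exact ⟨u, hu, h2⟩

private theorem al_two {p a a' : ℍ[ℝ]} {k : ℝ} (hp : p * p = -1) (ha : a * a = -1) (ha' : a' * a' = -1)
    (h : p * a + a * p = (k : ℍ[ℝ])) (h' : p * a' + a' * p = (k : ℍ[ℝ])) :
    ∃ u : ℍ[ℝ], normSq u = 1 ∧ u * p = p * u ∧ u * a' = a * u := by
  have main : ∀ (z : ℍ[ℝ]), z * z = -1 → p * z + z * p = (k : ℍ[ℝ]) →
      p * (z + (k / 2) • p) + (z + (k / 2) • p) * p = 0 ∧
      (z + (k / 2) • p) * (z + (k / 2) • p) = -(((1 - k ^ 2 / 4 : ℝ)) : ℍ[ℝ]) := by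
    intro z hz hzk
    constructor
    · have : p * (z + (k / 2) • p) + (z + (k / 2) • p) * p = (p * z + z * p) + (k / 2) • (p * p) + (k / 2) • (p * p) := by
        rw [mul_add, add_mul, mul_smul_comm, smul_mul_assoc]
        abel
      rw [this, hzk, hp]
      ext
      · simp
        ring
      · simp
      · simp
      · simp
    · have : (z + (k / 2) • p) * (z + (k / 2) • p) = z * z + (k / 2) • (p * z + z * p) + (k / 2) • (k / 2) • (p * p) := by
        rw [mul_add, add_mul, add_mul, mul_smul_comm, smul_mul_assoc, smul_mul_assoc, mul_smul_comm, smul_add]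
        abel
      obtain ⟨t, ht⟩ : ∃ t : ℝ, t = 1 - k ^ 2 / 4 := ⟨_, rfl⟩
      rw [this, hzk, hp, hz, ← ht]
      ext
      · simp
        rw [ht]
        ring
      · simp
      · simp
      · simp
  obtain ⟨hb1, hb2⟩ := main a ha h
  obtain ⟨hc1, hc2⟩ := main a' ha' h'
  set b := a + (k / 2) • p with hb
  set c := a' + (k / 2) • p with hc
  set s : ℝ := 1 - k ^ 2 / 4 with hs
  have hcom : ∀ x : ℍ[ℝ], (s : ℍ[ℝ]) * x = x * (s : ℍ[ℝ]) := fun x => Quaternion.coe_commutes s x
  have hpb : p * b = -(b * p) := eq_neg_of_add_eq_zero_left hb1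
  have hpc : p * c = -(c * p) := eq_neg_of_add_eq_zero_left hc1
  have fin : ∀ r : ℍ[ℝ], r ≠ 0 → r * p = p * r → r * c = b * r →
      ∃ u : ℍ[ℝ], normSq u = 1 ∧ u * p = p * u ∧ u * a' = a * u := by
    intro r hr h1 h2
    refine al_norm hr h1 ?_
    have e1 : a' = c - (k / 2) • p := by rw [hc]; abel
    have e2 : a = b - (k / 2) • p := by rw [hb]; abel
    rw [e1, e2, mul_sub, sub_mul, h2, mul_smul_comm, smul_mul_assoc, h1]
  by_cases h0 : s = 0
  · rw [h0, Quaternion.coe_zero, neg_zero] at hb2 hc2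
    have b0 : b = 0 := by simpa using hb2
    have c0 : c = 0 := by simpa using hc2
    exact fin 1 one_ne_zero (by rw [one_mul, mul_one]) (by rw [b0, c0, mul_zero, zero_mul])
  by_cases h1 : c = -b
  · refine fin p ?_ rfl ?_
    · intro e
      rw [e, mul_zero] at hp
      have := congrArg (fun z : ℍ[ℝ] => z.re) hp
      simp at this
    · rw [h1, mul_neg, hpb, neg_neg]
  · refine fin ((s : ℍ[ℝ]) - b * c) ?_ ?_ ?_
    · intro e
      have e3 : b * c = (s : ℍ[ℝ]) := (sub_eq_zero.mp e).symm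
      have e4 : b * b * c = b * (s : ℍ[ℝ]) := by rw [mul_assoc, e3]
      rw [hb2, neg_mul, ← hcom] at e4
      have e5 : (s : ℍ[ℝ]) * (c + b) = 0 := by
        rw [mul_add, ← e4]
        abel
      rcases mul_eq_zero.mp e5 with e6 | e6
      · apply h0
        have := congrArg (fun z : ℍ[ℝ] => z.re) e6
        simpa using this
      · exact h1 (eq_neg_of_add_eq_zero_left e6)
    · have : p * (b * c) = b * c * p := by
        rw [← mul_assoc, hpb, neg_mul, mul_assoc, hpc, mul_neg, neg_neg, mul_assoc]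
      rw [sub_mul, mul_sub, this, hcom]
    · rw [sub_mul, mul_sub, mul_assoc b c c, hc2, ← mul_assoc b b c, hb2, ← hcom b, mul_neg, ← hcom b, neg_mul]
      abel

/-- Row Fg5. Alignment: if `p, a, p', a'` are unit imaginary with `⟪p, a⟫ = ⟪p', a'⟫` there is a
unit `r` with `r p' r̄ = p`, `r a' r̄ = a`. First `r1` with `r1 p' r̄1 = p` (`r1 = p (p + p')` normalised or,
if `p' = -p`, any unit imaginary orthogonal to `p`), then turn about `p` (`r2 = cos + sin p`): the vectors
`a - ⟪p, a⟫ p`, `a'' - ⟪p, a''⟫ p` are orthogonal to `p` and of equal length. -/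
theorem align {p a p' a' : ℍ[ℝ]} (hp : UI p) (ha : UI a) (hp' : UI p') (ha' : UI a')
    (h : p.imI * a.imI + p.imJ * a.imJ + p.imK * a.imK =
      p'.imI * a'.imI + p'.imJ * a'.imJ + p'.imK * a'.imK) :
    ∃ r : ℍ[ℝ], normSq r = 1 ∧ r * p' * star r = p ∧ r * a' * star r = a := by
  obtain ⟨u, hu, h1⟩ := al_one hp hp'
  have hus : star u * u = 1 := by rw [Quaternion.star_mul_self, hu]; simp
  have hus' : u * star u = 1 := by rw [Quaternion.self_mul_star, hu]; simp
  have e1 : p * a + a * p = ((-2 * (p.imI * a.imI + p.imJ * a.imJ + p.imK * a.imK) : ℝ) : ℍ[ℝ]) := al_anti hp.1 ha.1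
  have e2 := al_anti hp'.1 ha'.1
  rw [← h] at e2
  set k : ℝ := -2 * (p.imI * a.imI + p.imJ * a.imJ + p.imK * a.imK) with hk
  have h2 : u * p' * star u = p := al_unit hu h1
  have h3 : (u * a' * star u) * (u * a' * star u) = -1 := by
    have : (u * a' * star u) * (u * a' * star u) = u * (a' * (star u * u) * a') * star u := by noncomm_ring
    rw [this, hus, mul_one, al_sq ha', mul_neg, mul_one, neg_mul, hus']
  have h4 : p * (u * a' * star u) + (u * a' * star u) * p = (k : ℍ[ℝ]) := by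
    have : (u * p' * star u) * (u * a' * star u) + (u * a' * star u) * (u * p' * star u) =
        u * (p' * (star u * u) * a' + a' * (star u * u) * p') * star u := by noncomm_ring
    rw [h2, hus, mul_one, mul_one, e2, ← Quaternion.coe_commutes k u] at this
    rw [this, mul_assoc, hus', mul_one]
  obtain ⟨w, hw, h5, h6⟩ := al_two (al_sq hp) (al_sq ha) h3 e1 h4
  refine ⟨w * u, by rw [map_mul, hw, hu, one_mul], al_unit (by rw [map_mul, hw, hu, one_mul]) ?_,
    al_unit (by rw [map_mul, hw, hu, one_mul]) ?_⟩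
  · rw [mul_assoc, h1, ← mul_assoc, h5, mul_assoc]
  · have h7 : (u * a' * star u) * u = u * a' := by rw [mul_assoc, hus, mul_one]
    rw [mul_assoc w u a', ← h7, ← mul_assoc, h6, mul_assoc]

end ChiralQ
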