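import Pool.Agent.Lib.MP_bc704c_co.Q.Fg5b

/-! # MP_bc704c_co, row Fg6: the octahedral and the icosahedral group -/

namespace ChiralQ

open Quaternion ChiralNF

/-- the vertices of an octahedron -/
def Oct : Set ℍ[ℝ] := {⟨0, 1, 0, 0⟩, ⟨0, -1, 0, 0⟩, ⟨0, 0, 1, 0⟩, ⟨0, 0, -1, 0⟩, ⟨0, 0, 0, 1⟩,
  ⟨0, 0, 0, -1⟩}

/-- the vertices of an icosahedron, `f` is the golden ratio -/
def Ico (f : ℝ) : Set ℍ[ℝ] := {⟨0, 0, 1, f⟩, ⟨0, 0, 1, -f⟩, ⟨0, 0, -1, f⟩, ⟨0, 0, -1, -f⟩,
  ⟨0, 1, f, 0⟩, ⟨0, 1, -f, 0⟩, ⟨0, -1, f, 0⟩, ⟨0, -1, -f, 0⟩,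
  ⟨0, f, 0, 1⟩, ⟨0, -f, 0, 1⟩, ⟨0, f, 0, -1⟩, ⟨0, -f, 0, -1⟩}

/-- the conjugation in coordinates -/
private theorem Fg6_conj (a b c d p q r : ℝ) :
    (⟨a, b, c, d⟩ : ℍ[ℝ]) * ⟨0, p, q, r⟩ * star (⟨a, b, c, d⟩ : ℍ[ℝ]) =
      ⟨0, (a ^ 2 + b ^ 2 - c ^ 2 - d ^ 2) * p + 2 * (b * c - a * d) * q + 2 * (b * d + a * c) * r,
        2 * (b * c + a * d) * p + (a ^ 2 - b ^ 2 + c ^ 2 - d ^ 2) * q + 2 * (c * d - a * b) * r,
        2 * (b * d - a * c) * p + 2 * (c * d + a * b) * q + (a ^ 2 - b ^ 2 - c ^ 2 + d ^ 2) * r⟩ := by
  ext <;> simp <;> ring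

private theorem Fg6_norm {a b c d : ℝ} (h : a ^ 2 + b ^ 2 + c ^ 2 + d ^ 2 = 1) :
    normSq (⟨a, b, c, d⟩ : ℍ[ℝ]) = 1 :=
  (Quaternion.normSq_def' _).trans h

private theorem Fg6_mem {S : Set ℍ[ℝ]} {a b c d p q r p' q' r' : ℝ}
    (h : (⟨0, p', q', r'⟩ : ℍ[ℝ]) ∈ S)
    (h1 : (a ^ 2 + b ^ 2 - c ^ 2 - d ^ 2) * p + 2 * (b * c - a * d) * q + 2 * (b * d + a * c) * r = p')
    (h2 : 2 * (b * c + a * d) * p + (a ^ 2 - b ^ 2 + c ^ 2 - d ^ 2) * q + 2 * (c * d - a * b) * r = q')
    (h3 : 2 * (b * d - a * c) * p + 2 * (c * d + a * b) * q + (a ^ 2 - b ^ 2 - c ^ 2 + d ^ 2) * r = r') :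
    (⟨a, b, c, d⟩ : ℍ[ℝ]) * ⟨0, p, q, r⟩ * star (⟨a, b, c, d⟩ : ℍ[ℝ]) ∈ S := by
  rw [Fg6_conj, h1, h2, h3]
  exact h

private theorem Fg6_o0 : (⟨1 / 2, 1 / 2, 1 / 2, 1 / 2⟩ : ℍ[ℝ]) ∈ Stb Oct := by
  have hs : √(2 : ℝ) ^ 2 = 2 := Real.sq_sqrt (by norm_num)
  refine ⟨?_, ?_⟩
  · apply Fg6_norm
    linear_combination (0) * hs
  · intro v hv
    unfold Oct at hv
    rcases hv with rfl | rfl | rfl | rfl | rfl | rfl
    · exact Fg6_mem (p' := 0) (q' := 1) (r' := 0)
        (Or.inr (Or.inr (Or.inl rfl)))
        (by linear_combination (0) * hs)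
        (by linear_combination (0) * hs)
        (by linear_combination (0) * hs)
    · exact Fg6_mem (p' := 0) (q' := -1) (r' := 0)
        (Or.inr (Or.inr (Or.inr (Or.inl rfl))))
        (by linear_combination (0) * hs)
        (by linear_combination (0) * hs)
        (by linear_combination (0) * hs)
    · exact Fg6_mem (p' := 0) (q' := 0) (r' := 1)
        (Or.inr (Or.inr (Or.inr (Or.inr (Or.inl rfl)))))
        (by linear_combination (0) * hs)
        (by linear_combination (0) * hs)
        (by linear_combination (0) * hs)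
    · exact Fg6_mem (p' := 0) (q' := 0) (r' := -1)
        (Or.inr (Or.inr (Or.inr (Or.inr (Or.inr (rfl))))))
        (by linear_combination (0) * hs)
        (by linear_combination (0) * hs)
        (by linear_combination (0) * hs)
    · exact Fg6_mem (p' := 1) (q' := 0) (r' := 0)
        (Or.inl rfl)
        (by linear_combination (0) * hs)
        (by linear_combination (0) * hs)
        (by linear_combination (0) * hs)
    · exact Fg6_mem (p' := -1) (q' := 0) (r' := 0)
        (Or.inr (Or.inl rfl))
        (by linear_combination (0) * hs)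
        (by linear_combination (0) * hs)
        (by linear_combination (0) * hs)

private theorem Fg6_o1 : (⟨√2 / 2, √2 / 2, 0, 0⟩ : ℍ[ℝ]) ∈ Stb Oct := by
  have hs : √(2 : ℝ) ^ 2 = 2 := Real.sq_sqrt (by norm_num)
  refine ⟨?_, ?_⟩
  · apply Fg6_norm
    linear_combination ((1/2)) * hs
  · intro v hv
    unfold Oct at hv
    rcases hv with rfl | rfl | rfl | rfl | rfl | rfl
    · exact Fg6_mem (p' := 1) (q' := 0) (r' := 0)
        (Or.inl rfl)
        (by linear_combination ((1/2)) * hs)
        (by linear_combination (0) * hs)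
        (by linear_combination (0) * hs)
    · exact Fg6_mem (p' := -1) (q' := 0) (r' := 0)
        (Or.inr (Or.inl rfl))
        (by linear_combination ((-1/2)) * hs)
        (by linear_combination (0) * hs)
        (by linear_combination (0) * hs)
    · exact Fg6_mem (p' := 0) (q' := 0) (r' := 1)
        (Or.inr (Or.inr (Or.inr (Or.inr (Or.inl rfl)))))
        (by linear_combination (0) * hs)
        (by linear_combination (0) * hs)
        (by linear_combination ((1/2)) * hs)
    · exact Fg6_mem (p' := 0) (q' := 0) (r' := -1)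
        (Or.inr (Or.inr (Or.inr (Or.inr (Or.inr (rfl))))))
        (by linear_combination (0) * hs)
        (by linear_combination (0) * hs)
        (by linear_combination ((-1/2)) * hs)
    · exact Fg6_mem (p' := 0) (q' := -1) (r' := 0)
        (Or.inr (Or.inr (Or.inr (Or.inl rfl))))
        (by linear_combination (0) * hs)
        (by linear_combination ((-1/2)) * hs)
        (by linear_combination (0) * hs)
    · exact Fg6_mem (p' := 0) (q' := 1) (r' := 0)
        (Or.inr (Or.inr (Or.inl rfl)))
        (by linear_combination (0) * hs)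
        (by linear_combination ((1/2)) * hs)
        (by linear_combination (0) * hs)

private theorem Fg6_o2 : (⟨0, 1, 0, 0⟩ : ℍ[ℝ]) ∈ Stb Oct := by
  have hs : √(2 : ℝ) ^ 2 = 2 := Real.sq_sqrt (by norm_num)
  refine ⟨?_, ?_⟩
  · apply Fg6_norm
    linear_combination (0) * hs
  · intro v hv
    unfold Oct at hv
    rcases hv with rfl | rfl | rfl | rfl | rfl | rfl
    · exact Fg6_mem (p' := 1) (q' := 0) (r' := 0)
        (Or.inl rfl)
        (by linear_combination (0) * hs)
        (by linear_combination (0) * hs)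
        (by linear_combination (0) * hs)
    · exact Fg6_mem (p' := -1) (q' := 0) (r' := 0)
        (Or.inr (Or.inl rfl))
        (by linear_combination (0) * hs)
        (by linear_combination (0) * hs)
        (by linear_combination (0) * hs)
    · exact Fg6_mem (p' := 0) (q' := -1) (r' := 0)
        (Or.inr (Or.inr (Or.inr (Or.inl rfl))))
        (by linear_combination (0) * hs)
        (by linear_combination (0) * hs)
        (by linear_combination (0) * hs)
    · exact Fg6_mem (p' := 0) (q' := 1) (r' := 0)
        (Or.inr (Or.inr (Or.inl rfl)))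
        (by linear_combination (0) * hs)
        (by linear_combination (0) * hs)
        (by linear_combination (0) * hs)
    · exact Fg6_mem (p' := 0) (q' := 0) (r' := -1)
        (Or.inr (Or.inr (Or.inr (Or.inr (Or.inr (rfl))))))
        (by linear_combination (0) * hs)
        (by linear_combination (0) * hs)
        (by linear_combination (0) * hs)
    · exact Fg6_mem (p' := 0) (q' := 0) (r' := 1)
        (Or.inr (Or.inr (Or.inr (Or.inr (Or.inl rfl)))))
        (by linear_combination (0) * hs)
        (by linear_combination (0) * hs)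
        (by linear_combination (0) * hs)

private theorem Fg6_o3 : (⟨0, √2 / 2, √2 / 2, 0⟩ : ℍ[ℝ]) ∈ Stb Oct := by
  have hs : √(2 : ℝ) ^ 2 = 2 := Real.sq_sqrt (by norm_num)
  refine ⟨?_, ?_⟩
  · apply Fg6_norm
    linear_combination ((1/2)) * hs
  · intro v hv
    unfold Oct at hv
    rcases hv with rfl | rfl | rfl | rfl | rfl | rfl
    · exact Fg6_mem (p' := 0) (q' := 1) (r' := 0)
        (Or.inr (Or.inr (Or.inl rfl)))
        (by linear_combination (0) * hs)
        (by linear_combination ((1/2)) * hs)
        (by linear_combination (0) * hs)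
    · exact Fg6_mem (p' := 0) (q' := -1) (r' := 0)
        (Or.inr (Or.inr (Or.inr (Or.inl rfl))))
        (by linear_combination (0) * hs)
        (by linear_combination ((-1/2)) * hs)
        (by linear_combination (0) * hs)
    · exact Fg6_mem (p' := 1) (q' := 0) (r' := 0)
        (Or.inl rfl)
        (by linear_combination ((1/2)) * hs)
        (by linear_combination (0) * hs)
        (by linear_combination (0) * hs)
    · exact Fg6_mem (p' := -1) (q' := 0) (r' := 0)
        (Or.inr (Or.inl rfl))
        (by linear_combination ((-1/2)) * hs)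
        (by linear_combination (0) * hs)
        (by linear_combination (0) * hs)
    · exact Fg6_mem (p' := 0) (q' := 0) (r' := -1)
        (Or.inr (Or.inr (Or.inr (Or.inr (Or.inr (rfl))))))
        (by linear_combination (0) * hs)
        (by linear_combination (0) * hs)
        (by linear_combination ((-1/2)) * hs)
    · exact Fg6_mem (p' := 0) (q' := 0) (r' := 1)
        (Or.inr (Or.inr (Or.inr (Or.inr (Or.inl rfl)))))
        (by linear_combination (0) * hs)
        (by linear_combination (0) * hs)
        (by linear_combination ((1/2)) * hs)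

private theorem Fg6_i0 {f : ℝ} (hf : f ^ 2 = f + 1) : (⟨1 / 2, 1 / 2, 1 / 2, 1 / 2⟩ : ℍ[ℝ]) ∈ Stb (Ico f) := by
  refine ⟨?_, ?_⟩
  · apply Fg6_norm
    linear_combination (0) * hf
  · intro v hv
    unfold Ico at hv
    rcases hv with rfl | rfl | rfl | rfl | rfl | rfl | rfl | rfl | rfl | rfl | rfl | rfl
    · exact Fg6_mem (p' := f) (q' := 0) (r' := 1)
        (Or.inr (Or.inr (Or.inr (Or.inr (Or.inr (Or.inr (Or.inr (Or.inr (Or.inl rfl)))))))))
        (by linear_combination (0) * hf)
        (by linear_combination (0) * hf)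
        (by linear_combination (0) * hf)
    · exact Fg6_mem (p' := -f) (q' := 0) (r' := 1)
        (Or.inr (Or.inr (Or.inr (Or.inr (Or.inr (Or.inr (Or.inr (Or.inr (Or.inr (Or.inl rfl))))))))))
        (by linear_combination (0) * hf)
        (by linear_combination (0) * hf)
        (by linear_combination (0) * hf)
    · exact Fg6_mem (p' := f) (q' := 0) (r' := -1)
        (Or.inr (Or.inr (Or.inr (Or.inr (Or.inr (Or.inr (Or.inr (Or.inr (Or.inr (Or.inr (Or.inl rfl)))))))))))
        (by linear_combination (0) * hf)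
        (by linear_combination (0) * hf)
        (by linear_combination (0) * hf)
    · exact Fg6_mem (p' := -f) (q' := 0) (r' := -1)
        (Or.inr (Or.inr (Or.inr (Or.inr (Or.inr (Or.inr (Or.inr (Or.inr (Or.inr (Or.inr (Or.inr (rfl))))))))))))
        (by linear_combination (0) * hf)
        (by linear_combination (0) * hf)
        (by linear_combination (0) * hf)
    · exact Fg6_mem (p' := 0) (q' := 1) (r' := f)
        (Or.inl rfl)
        (by linear_combination (0) * hf)
        (by linear_combination (0) * hf)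
        (by linear_combination (0) * hf)
    · exact Fg6_mem (p' := 0) (q' := 1) (r' := -f)
        (Or.inr (Or.inl rfl))
        (by linear_combination (0) * hf)
        (by linear_combination (0) * hf)
        (by linear_combination (0) * hf)
    · exact Fg6_mem (p' := 0) (q' := -1) (r' := f)
        (Or.inr (Or.inr (Or.inl rfl)))
        (by linear_combination (0) * hf)
        (by linear_combination (0) * hf)
        (by linear_combination (0) * hf)
    · exact Fg6_mem (p' := 0) (q' := -1) (r' := -f)
        (Or.inr (Or.inr (Or.inr (Or.inl rfl))))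
        (by linear_combination (0) * hf)
        (by linear_combination (0) * hf)
        (by linear_combination (0) * hf)
    · exact Fg6_mem (p' := 1) (q' := f) (r' := 0)
        (Or.inr (Or.inr (Or.inr (Or.inr (Or.inl rfl)))))
        (by linear_combination (0) * hf)
        (by linear_combination (0) * hf)
        (by linear_combination (0) * hf)
    · exact Fg6_mem (p' := 1) (q' := -f) (r' := 0)
        (Or.inr (Or.inr (Or.inr (Or.inr (Or.inr (Or.inl rfl))))))
        (by linear_combination (0) * hf)
        (by linear_combination (0) * hf)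
        (by linear_combination (0) * hf)
    · exact Fg6_mem (p' := -1) (q' := f) (r' := 0)
        (Or.inr (Or.inr (Or.inr (Or.inr (Or.inr (Or.inr (Or.inl rfl)))))))
        (by linear_combination (0) * hf)
        (by linear_combination (0) * hf)
        (by linear_combination (0) * hf)
    · exact Fg6_mem (p' := -1) (q' := -f) (r' := 0)
        (Or.inr (Or.inr (Or.inr (Or.inr (Or.inr (Or.inr (Or.inr (Or.inl rfl))))))))
        (by linear_combination (0) * hf)
        (by linear_combination (0) * hf)
        (by linear_combination (0) * hf)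

private theorem Fg6_i1 {f : ℝ} (hf : f ^ 2 = f + 1) : (⟨0, 0, 1, 0⟩ : ℍ[ℝ]) ∈ Stb (Ico f) := by
  refine ⟨?_, ?_⟩
  · apply Fg6_norm
    linear_combination (0) * hf
  · intro v hv
    unfold Ico at hv
    rcases hv with rfl | rfl | rfl | rfl | rfl | rfl | rfl | rfl | rfl | rfl | rfl | rfl
    · exact Fg6_mem (p' := 0) (q' := 1) (r' := -f)
        (Or.inr (Or.inl rfl))
        (by linear_combination (0) * hf)
        (by linear_combination (0) * hf)
        (by linear_combination (0) * hf)
    · exact Fg6_mem (p' := 0) (q' := 1) (r' := f)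
        (Or.inl rfl)
        (by linear_combination (0) * hf)
        (by linear_combination (0) * hf)
        (by linear_combination (0) * hf)
    · exact Fg6_mem (p' := 0) (q' := -1) (r' := -f)
        (Or.inr (Or.inr (Or.inr (Or.inl rfl))))
        (by linear_combination (0) * hf)
        (by linear_combination (0) * hf)
        (by linear_combination (0) * hf)
    · exact Fg6_mem (p' := 0) (q' := -1) (r' := f)
        (Or.inr (Or.inr (Or.inl rfl)))
        (by linear_combination (0) * hf)
        (by linear_combination (0) * hf)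
        (by linear_combination (0) * hf)
    · exact Fg6_mem (p' := -1) (q' := f) (r' := 0)
        (Or.inr (Or.inr (Or.inr (Or.inr (Or.inr (Or.inr (Or.inl rfl)))))))
        (by linear_combination (0) * hf)
        (by linear_combination (0) * hf)
        (by linear_combination (0) * hf)
    · exact Fg6_mem (p' := -1) (q' := -f) (r' := 0)
        (Or.inr (Or.inr (Or.inr (Or.inr (Or.inr (Or.inr (Or.inr (Or.inl rfl))))))))
        (by linear_combination (0) * hf)
        (by linear_combination (0) * hf)
        (by linear_combination (0) * hf)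
    · exact Fg6_mem (p' := 1) (q' := f) (r' := 0)
        (Or.inr (Or.inr (Or.inr (Or.inr (Or.inl rfl)))))
        (by linear_combination (0) * hf)
        (by linear_combination (0) * hf)
        (by linear_combination (0) * hf)
    · exact Fg6_mem (p' := 1) (q' := -f) (r' := 0)
        (Or.inr (Or.inr (Or.inr (Or.inr (Or.inr (Or.inl rfl))))))
        (by linear_combination (0) * hf)
        (by linear_combination (0) * hf)
        (by linear_combination (0) * hf)
    · exact Fg6_mem (p' := -f) (q' := 0) (r' := -1)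
        (Or.inr (Or.inr (Or.inr (Or.inr (Or.inr (Or.inr (Or.inr (Or.inr (Or.inr (Or.inr (Or.inr (rfl))))))))))))
        (by linear_combination (0) * hf)
        (by linear_combination (0) * hf)
        (by linear_combination (0) * hf)
    · exact Fg6_mem (p' := f) (q' := 0) (r' := -1)
        (Or.inr (Or.inr (Or.inr (Or.inr (Or.inr (Or.inr (Or.inr (Or.inr (Or.inr (Or.inr (Or.inl rfl)))))))))))
        (by linear_combination (0) * hf)
        (by linear_combination (0) * hf)
        (by linear_combination (0) * hf)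
    · exact Fg6_mem (p' := -f) (q' := 0) (r' := 1)
        (Or.inr (Or.inr (Or.inr (Or.inr (Or.inr (Or.inr (Or.inr (Or.inr (Or.inr (Or.inl rfl))))))))))
        (by linear_combination (0) * hf)
        (by linear_combination (0) * hf)
        (by linear_combination (0) * hf)
    · exact Fg6_mem (p' := f) (q' := 0) (r' := 1)
        (Or.inr (Or.inr (Or.inr (Or.inr (Or.inr (Or.inr (Or.inr (Or.inr (Or.inl rfl)))))))))
        (by linear_combination (0) * hf)
        (by linear_combination (0) * hf)
        (by linear_combination (0) * hf)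

private theorem Fg6_i2 {f : ℝ} (hf : f ^ 2 = f + 1) : (⟨0, 0, 0, 1⟩ : ℍ[ℝ]) ∈ Stb (Ico f) := by
  refine ⟨?_, ?_⟩
  · apply Fg6_norm
    linear_combination (0) * hf
  · intro v hv
    unfold Ico at hv
    rcases hv with rfl | rfl | rfl | rfl | rfl | rfl | rfl | rfl | rfl | rfl | rfl | rfl
    · exact Fg6_mem (p' := 0) (q' := -1) (r' := f)
        (Or.inr (Or.inr (Or.inl rfl)))
        (by linear_combination (0) * hf)
        (by linear_combination (0) * hf)
        (by linear_combination (0) * hf)
    · exact Fg6_mem (p' := 0) (q' := -1) (r' := -f)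
        (Or.inr (Or.inr (Or.inr (Or.inl rfl))))
        (by linear_combination (0) * hf)
        (by linear_combination (0) * hf)
        (by linear_combination (0) * hf)
    · exact Fg6_mem (p' := 0) (q' := 1) (r' := f)
        (Or.inl rfl)
        (by linear_combination (0) * hf)
        (by linear_combination (0) * hf)
        (by linear_combination (0) * hf)
    · exact Fg6_mem (p' := 0) (q' := 1) (r' := -f)
        (Or.inr (Or.inl rfl))
        (by linear_combination (0) * hf)
        (by linear_combination (0) * hf)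
        (by linear_combination (0) * hf)
    · exact Fg6_mem (p' := -1) (q' := -f) (r' := 0)
        (Or.inr (Or.inr (Or.inr (Or.inr (Or.inr (Or.inr (Or.inr (Or.inl rfl))))))))
        (by linear_combination (0) * hf)
        (by linear_combination (0) * hf)
        (by linear_combination (0) * hf)
    · exact Fg6_mem (p' := -1) (q' := f) (r' := 0)
        (Or.inr (Or.inr (Or.inr (Or.inr (Or.inr (Or.inr (Or.inl rfl)))))))
        (by linear_combination (0) * hf)
        (by linear_combination (0) * hf)
        (by linear_combination (0) * hf)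
    · exact Fg6_mem (p' := 1) (q' := -f) (r' := 0)
        (Or.inr (Or.inr (Or.inr (Or.inr (Or.inr (Or.inl rfl))))))
        (by linear_combination (0) * hf)
        (by linear_combination (0) * hf)
        (by linear_combination (0) * hf)
    · exact Fg6_mem (p' := 1) (q' := f) (r' := 0)
        (Or.inr (Or.inr (Or.inr (Or.inr (Or.inl rfl)))))
        (by linear_combination (0) * hf)
        (by linear_combination (0) * hf)
        (by linear_combination (0) * hf)
    · exact Fg6_mem (p' := -f) (q' := 0) (r' := 1)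
        (Or.inr (Or.inr (Or.inr (Or.inr (Or.inr (Or.inr (Or.inr (Or.inr (Or.inr (Or.inl rfl))))))))))
        (by linear_combination (0) * hf)
        (by linear_combination (0) * hf)
        (by linear_combination (0) * hf)
    · exact Fg6_mem (p' := f) (q' := 0) (r' := 1)
        (Or.inr (Or.inr (Or.inr (Or.inr (Or.inr (Or.inr (Or.inr (Or.inr (Or.inl rfl)))))))))
        (by linear_combination (0) * hf)
        (by linear_combination (0) * hf)
        (by linear_combination (0) * hf)
    · exact Fg6_mem (p' := -f) (q' := 0) (r' := -1)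
        (Or.inr (Or.inr (Or.inr (Or.inr (Or.inr (Or.inr (Or.inr (Or.inr (Or.inr (Or.inr (Or.inr (rfl))))))))))))
        (by linear_combination (0) * hf)
        (by linear_combination (0) * hf)
        (by linear_combination (0) * hf)
    · exact Fg6_mem (p' := f) (q' := 0) (r' := -1)
        (Or.inr (Or.inr (Or.inr (Or.inr (Or.inr (Or.inr (Or.inr (Or.inr (Or.inr (Or.inr (Or.inl rfl)))))))))))
        (by linear_combination (0) * hf)
        (by linear_combination (0) * hf)
        (by linear_combination (0) * hf)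

private theorem Fg6_i3 {f : ℝ} (hf : f ^ 2 = f + 1) : (⟨0, 1 / 2, (f - 1) / 2, f / 2⟩ : ℍ[ℝ]) ∈ Stb (Ico f) := by
  refine ⟨?_, ?_⟩
  · apply Fg6_norm
    linear_combination ((1/2)) * hf
  · intro v hv
    unfold Ico at hv
    rcases hv with rfl | rfl | rfl | rfl | rfl | rfl | rfl | rfl | rfl | rfl | rfl | rfl
    · exact Fg6_mem (p' := f) (q' := 0) (r' := 1)
        (Or.inr (Or.inr (Or.inr (Or.inr (Or.inr (Or.inr (Or.inr (Or.inr (Or.inl rfl)))))))))
        (by linear_combination ((1/2)) * hf)
        (by linear_combination ((1/2) * f) * hf)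
        (by linear_combination ((1)) * hf)
    · exact Fg6_mem (p' := -1) (q' := -f) (r' := 0)
        (Or.inr (Or.inr (Or.inr (Or.inr (Or.inr (Or.inr (Or.inr (Or.inl rfl))))))))
        (by linear_combination ((-1/2)) * hf)
        (by linear_combination ((-1/2) * f) * hf)
        (by linear_combination (0) * hf)
    · exact Fg6_mem (p' := 1) (q' := f) (r' := 0)
        (Or.inr (Or.inr (Or.inr (Or.inr (Or.inl rfl)))))
        (by linear_combination ((1/2)) * hf)
        (by linear_combination ((1/2) * f) * hf)
        (by linear_combination (0) * hf)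
    · exact Fg6_mem (p' := -f) (q' := 0) (r' := -1)
        (Or.inr (Or.inr (Or.inr (Or.inr (Or.inr (Or.inr (Or.inr (Or.inr (Or.inr (Or.inr (Or.inr (rfl))))))))))))
        (by linear_combination ((-1/2)) * hf)
        (by linear_combination ((-1/2) * f) * hf)
        (by linear_combination ((-1)) * hf)
    · exact Fg6_mem (p' := 0) (q' := -1) (r' := f)
        (Or.inr (Or.inr (Or.inl rfl)))
        (by linear_combination (0) * hf)
        (by linear_combination ((-1/2)) * hf)
        (by linear_combination ((1/2) * f) * hf)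
    · exact Fg6_mem (p' := -1) (q' := f) (r' := 0)
        (Or.inr (Or.inr (Or.inr (Or.inr (Or.inr (Or.inr (Or.inl rfl)))))))
        (by linear_combination ((-1)) * hf)
        (by linear_combination ((1/2)) * hf)
        (by linear_combination ((-1/2) * f) * hf)
    · exact Fg6_mem (p' := 1) (q' := -f) (r' := 0)
        (Or.inr (Or.inr (Or.inr (Or.inr (Or.inr (Or.inl rfl))))))
        (by linear_combination ((1)) * hf)
        (by linear_combination ((-1/2)) * hf)
        (by linear_combination ((1/2) * f) * hf)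
    · exact Fg6_mem (p' := 0) (q' := 1) (r' := -f)
        (Or.inr (Or.inl rfl))
        (by linear_combination (0) * hf)
        (by linear_combination ((1/2)) * hf)
        (by linear_combination ((-1/2) * f) * hf)
    · exact Fg6_mem (p' := 0) (q' := 1) (r' := f)
        (Or.inl rfl)
        (by linear_combination ((-1/2) * f) * hf)
        (by linear_combination ((1)) * hf)
        (by linear_combination ((1/2)) * hf)
    · exact Fg6_mem (p' := f) (q' := 0) (r' := -1)
        (Or.inr (Or.inr (Or.inr (Or.inr (Or.inr (Or.inr (Or.inr (Or.inr (Or.inr (Or.inr (Or.inl rfl)))))))))))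
        (by linear_combination ((1/2) * f) * hf)
        (by linear_combination (0) * hf)
        (by linear_combination ((-1/2)) * hf)
    · exact Fg6_mem (p' := -f) (q' := 0) (r' := 1)
        (Or.inr (Or.inr (Or.inr (Or.inr (Or.inr (Or.inr (Or.inr (Or.inr (Or.inr (Or.inl rfl))))))))))
        (by linear_combination ((-1/2) * f) * hf)
        (by linear_combination (0) * hf)
        (by linear_combination ((1/2)) * hf)
    · exact Fg6_mem (p' := 0) (q' := -1) (r' := -f)
        (Or.inr (Or.inr (Or.inr (Or.inl rfl))))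
        (by linear_combination ((1/2) * f) * hf)
        (by linear_combination ((-1)) * hf)
        (by linear_combination ((-1/2)) * hf)

private theorem Fg6_i4 {f : ℝ} (hf : f ^ 2 = f + 1) : (⟨0, -1 / 2, (f - 1) / 2, f / 2⟩ : ℍ[ℝ]) ∈ Stb (Ico f) := by
  refine ⟨?_, ?_⟩
  · apply Fg6_norm
    linear_combination ((1/2)) * hf
  · intro v hv
    unfold Ico at hv
    rcases hv with rfl | rfl | rfl | rfl | rfl | rfl | rfl | rfl | rfl | rfl | rfl | rfl
    · exact Fg6_mem (p' := -f) (q' := 0) (r' := 1)
        (Or.inr (Or.inr (Or.inr (Or.inr (Or.inr (Or.inr (Or.inr (Or.inr (Or.inr (Or.inl rfl))))))))))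
        (by linear_combination ((-1/2)) * hf)
        (by linear_combination ((1/2) * f) * hf)
        (by linear_combination ((1)) * hf)
    · exact Fg6_mem (p' := 1) (q' := -f) (r' := 0)
        (Or.inr (Or.inr (Or.inr (Or.inr (Or.inr (Or.inl rfl))))))
        (by linear_combination ((1/2)) * hf)
        (by linear_combination ((-1/2) * f) * hf)
        (by linear_combination (0) * hf)
    · exact Fg6_mem (p' := -1) (q' := f) (r' := 0)
        (Or.inr (Or.inr (Or.inr (Or.inr (Or.inr (Or.inr (Or.inl rfl)))))))
        (by linear_combination ((-1/2)) * hf)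
        (by linear_combination ((1/2) * f) * hf)
        (by linear_combination (0) * hf)
    · exact Fg6_mem (p' := f) (q' := 0) (r' := -1)
        (Or.inr (Or.inr (Or.inr (Or.inr (Or.inr (Or.inr (Or.inr (Or.inr (Or.inr (Or.inr (Or.inl rfl)))))))))))
        (by linear_combination ((1/2)) * hf)
        (by linear_combination ((-1/2) * f) * hf)
        (by linear_combination ((-1)) * hf)
    · exact Fg6_mem (p' := -1) (q' := -f) (r' := 0)
        (Or.inr (Or.inr (Or.inr (Or.inr (Or.inr (Or.inr (Or.inr (Or.inl rfl))))))))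
        (by linear_combination ((-1)) * hf)
        (by linear_combination ((-1/2)) * hf)
        (by linear_combination ((1/2) * f) * hf)
    · exact Fg6_mem (p' := 0) (q' := 1) (r' := -f)
        (Or.inr (Or.inl rfl))
        (by linear_combination (0) * hf)
        (by linear_combination ((1/2)) * hf)
        (by linear_combination ((-1/2) * f) * hf)
    · exact Fg6_mem (p' := 0) (q' := -1) (r' := f)
        (Or.inr (Or.inr (Or.inl rfl)))
        (by linear_combination (0) * hf)
        (by linear_combination ((-1/2)) * hf)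
        (by linear_combination ((1/2) * f) * hf)
    · exact Fg6_mem (p' := 1) (q' := f) (r' := 0)
        (Or.inr (Or.inr (Or.inr (Or.inr (Or.inl rfl)))))
        (by linear_combination ((1)) * hf)
        (by linear_combination ((1/2)) * hf)
        (by linear_combination ((-1/2) * f) * hf)
    · exact Fg6_mem (p' := -f) (q' := 0) (r' := -1)
        (Or.inr (Or.inr (Or.inr (Or.inr (Or.inr (Or.inr (Or.inr (Or.inr (Or.inr (Or.inr (Or.inr (rfl))))))))))))
        (by linear_combination ((-1/2) * f) * hf)
        (by linear_combination (0) * hf)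
        (by linear_combination ((-1/2)) * hf)
    · exact Fg6_mem (p' := 0) (q' := 1) (r' := f)
        (Or.inl rfl)
        (by linear_combination ((1/2) * f) * hf)
        (by linear_combination ((1)) * hf)
        (by linear_combination ((1/2)) * hf)
    · exact Fg6_mem (p' := 0) (q' := -1) (r' := -f)
        (Or.inr (Or.inr (Or.inr (Or.inl rfl))))
        (by linear_combination ((-1/2) * f) * hf)
        (by linear_combination ((-1)) * hf)
        (by linear_combination ((-1/2)) * hf)
    · exact Fg6_mem (p' := f) (q' := 0) (r' := 1)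
        (Or.inr (Or.inr (Or.inr (Or.inr (Or.inr (Or.inr (Or.inr (Or.inr (Or.inl rfl)))))))))
        (by linear_combination ((1/2) * f) * hf)
        (by linear_combination (0) * hf)
        (by linear_combination ((1/2)) * hf)

private theorem Fg6_i5 {f : ℝ} (hf : f ^ 2 = f + 1) : (⟨f / 2, 0, (f - 1) / 2, 1 / 2⟩ : ℍ[ℝ]) ∈ Stb (Ico f) := by
  refine ⟨?_, ?_⟩
  · apply Fg6_norm
    linear_combination ((1/2)) * hf
  · intro v hv
    unfold Ico at hv
    rcases hv with rfl | rfl | rfl | rfl | rfl | rfl | rfl | rfl | rfl | rfl | rfl | rfl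
    · exact Fg6_mem (p' := 0) (q' := 1) (r' := f)
        (Or.inl rfl)
        (by linear_combination ((1/2) * f) * hf)
        (by linear_combination ((1)) * hf)
        (by linear_combination ((1/2)) * hf)
    · exact Fg6_mem (p' := -f) (q' := 0) (r' := -1)
        (Or.inr (Or.inr (Or.inr (Or.inr (Or.inr (Or.inr (Or.inr (Or.inr (Or.inr (Or.inr (Or.inr (rfl))))))))))))
        (by linear_combination ((-1/2) * f) * hf)
        (by linear_combination (0) * hf)
        (by linear_combination ((-1/2)) * hf)
    · exact Fg6_mem (p' := f) (q' := 0) (r' := 1)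
        (Or.inr (Or.inr (Or.inr (Or.inr (Or.inr (Or.inr (Or.inr (Or.inr (Or.inl rfl)))))))))
        (by linear_combination ((1/2) * f) * hf)
        (by linear_combination (0) * hf)
        (by linear_combination ((1/2)) * hf)
    · exact Fg6_mem (p' := 0) (q' := -1) (r' := -f)
        (Or.inr (Or.inr (Or.inr (Or.inl rfl))))
        (by linear_combination ((-1/2) * f) * hf)
        (by linear_combination ((-1)) * hf)
        (by linear_combination ((-1/2)) * hf)
    · exact Fg6_mem (p' := -1) (q' := f) (r' := 0)
        (Or.inr (Or.inr (Or.inr (Or.inr (Or.inr (Or.inr (Or.inl rfl)))))))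
        (by linear_combination ((-1/2)) * hf)
        (by linear_combination ((1/2) * f) * hf)
        (by linear_combination (0) * hf)
    · exact Fg6_mem (p' := f) (q' := 0) (r' := -1)
        (Or.inr (Or.inr (Or.inr (Or.inr (Or.inr (Or.inr (Or.inr (Or.inr (Or.inr (Or.inr (Or.inl rfl)))))))))))
        (by linear_combination ((1/2)) * hf)
        (by linear_combination ((-1/2) * f) * hf)
        (by linear_combination ((-1)) * hf)
    · exact Fg6_mem (p' := -f) (q' := 0) (r' := 1)
        (Or.inr (Or.inr (Or.inr (Or.inr (Or.inr (Or.inr (Or.inr (Or.inr (Or.inr (Or.inl rfl))))))))))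
        (by linear_combination ((-1/2)) * hf)
        (by linear_combination ((1/2) * f) * hf)
        (by linear_combination ((1)) * hf)
    · exact Fg6_mem (p' := 1) (q' := -f) (r' := 0)
        (Or.inr (Or.inr (Or.inr (Or.inr (Or.inr (Or.inl rfl))))))
        (by linear_combination ((1/2)) * hf)
        (by linear_combination ((-1/2) * f) * hf)
        (by linear_combination (0) * hf)
    · exact Fg6_mem (p' := 1) (q' := f) (r' := 0)
        (Or.inr (Or.inr (Or.inr (Or.inr (Or.inl rfl)))))
        (by linear_combination ((1)) * hf)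
        (by linear_combination ((1/2)) * hf)
        (by linear_combination ((-1/2) * f) * hf)
    · exact Fg6_mem (p' := 0) (q' := -1) (r' := f)
        (Or.inr (Or.inr (Or.inl rfl)))
        (by linear_combination (0) * hf)
        (by linear_combination ((-1/2)) * hf)
        (by linear_combination ((1/2) * f) * hf)
    · exact Fg6_mem (p' := 0) (q' := 1) (r' := -f)
        (Or.inr (Or.inl rfl))
        (by linear_combination (0) * hf)
        (by linear_combination ((1/2)) * hf)
        (by linear_combination ((-1/2) * f) * hf)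
    · exact Fg6_mem (p' := -1) (q' := -f) (r' := 0)
        (Or.inr (Or.inr (Or.inr (Or.inr (Or.inr (Or.inr (Or.inr (Or.inl rfl))))))))
        (by linear_combination ((-1)) * hf)
        (by linear_combination ((-1/2)) * hf)
        (by linear_combination ((1/2) * f) * hf)

/-- Row Fg6. `i, j` are in `Oct`. -/
theorem finGp_oct : FinGp (Stb Oct) := by
  refine finGp_stb ?_ (Submodule.subset_span (Or.inl rfl))
    (Submodule.subset_span (Or.inr (Or.inr (Or.inl rfl))))
  unfold Oct
  exact (((((Set.finite_singleton _).insert _).insert _).insert _).insert _).insert _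

/-- Row Fg6. -/
theorem finGp_ico {f : ℝ} (hf : f ^ 2 = f + 1) (h0 : 0 < f) : FinGp (Stb (Ico f)) := by
  have hfin : (Ico f).Finite := by
    unfold Ico
    exact (((((((((((Set.finite_singleton _).insert _).insert _).insert _).insert _).insert _).insert
      _).insert _).insert _).insert _).insert _).insert _
  have m1 : (⟨0, 1, f, 0⟩ : ℍ[ℝ]) ∈ Submodule.span ℝ (Ico f) :=
    Submodule.subset_span (Or.inr (Or.inr (Or.inr (Or.inr (Or.inl rfl)))))
  have m2 : (⟨0, 1, -f, 0⟩ : ℍ[ℝ]) ∈ Submodule.span ℝ (Ico f) :=
    Submodule.subset_span (Or.inr (Or.inr (Or.inr (Or.inr (Or.inr (Or.inl rfl))))))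
  have m3 : (⟨0, 0, 1, f⟩ : ℍ[ℝ]) ∈ Submodule.span ℝ (Ico f) :=
    Submodule.subset_span (Or.inl rfl)
  have m4 : (⟨0, 0, 1, -f⟩ : ℍ[ℝ]) ∈ Submodule.span ℝ (Ico f) :=
    Submodule.subset_span (Or.inr (Or.inl rfl))
  refine finGp_stb hfin ?_ ?_
  · have e : (⟨0, 1, 0, 0⟩ : ℍ[ℝ]) = (1 / 2 : ℝ) • ((⟨0, 1, f, 0⟩ : ℍ[ℝ]) + (⟨0, 1, -f, 0⟩ : ℍ[ℝ])) := by
      ext <;> simp <;> norm_num
    rw [e]
    exact Submodule.smul_mem _ _ (Submodule.add_mem _ m1 m2)
  · have e : (⟨0, 0, 1, 0⟩ : ℍ[ℝ]) = (1 / 2 : ℝ) • ((⟨0, 0, 1, f⟩ : ℍ[ℝ]) + (⟨0, 0, 1, -f⟩ : ℍ[ℝ])) := by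
      ext <;> simp <;> norm_num
    rw [e]
    exact Submodule.smul_mem _ _ (Submodule.add_mem _ m3 m4)

/-- Row Fg6. Elements of the octahedral group. Each is a check of six products. -/
theorem oct_mem : (⟨1 / 2, 1 / 2, 1 / 2, 1 / 2⟩ : ℍ[ℝ]) ∈ Stb Oct ∧
    (⟨√2 / 2, √2 / 2, 0, 0⟩ : ℍ[ℝ]) ∈ Stb Oct ∧ (⟨0, 1, 0, 0⟩ : ℍ[ℝ]) ∈ Stb Oct ∧
    (⟨0, √2 / 2, √2 / 2, 0⟩ : ℍ[ℝ]) ∈ Stb Oct :=
  ⟨Fg6_o0, Fg6_o1, Fg6_o2, Fg6_o3⟩

/-- Row Fg6. Elements of the icosahedral group, each is a check of twelve products (use
`f ^ 2 = f + 1`): a rotation of order 3 about `i + j + k`, the half-turns about `j`, `k` and about the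
midpoints `± i + (f - 1) j + f k` of edges; the rotation of order 5 about the vertex `j + f k`. -/
theorem ico_mem {f : ℝ} (hf : f ^ 2 = f + 1) (h0 : 0 < f) :
    (⟨1 / 2, 1 / 2, 1 / 2, 1 / 2⟩ : ℍ[ℝ]) ∈ Stb (Ico f) ∧
    (⟨0, 0, 1, 0⟩ : ℍ[ℝ]) ∈ Stb (Ico f) ∧ (⟨0, 0, 0, 1⟩ : ℍ[ℝ]) ∈ Stb (Ico f) ∧
    (⟨0, 1 / 2, (f - 1) / 2, f / 2⟩ : ℍ[ℝ]) ∈ Stb (Ico f) ∧
    (⟨0, -1 / 2, (f - 1) / 2, f / 2⟩ : ℍ[ℝ]) ∈ Stb (Ico f) ∧
    (⟨f / 2, 0, (f - 1) / 2, 1 / 2⟩ : ℍ[ℝ]) ∈ Stb (Ico f) :=
  ⟨Fg6_i0 hf, Fg6_i1 hf, Fg6_i2 hf, Fg6_i3 hf, Fg6_i4 hf, Fg6_i5 hf⟩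

end ChiralQ
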