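import Pool.Agent.Lib.MP_bc704c_co.Q.Fg6

/-! # MP_bc704c_co, row Fg7: the listed parameters give finite groups -/

namespace ChiralQ

set_option linter.unusedSimpArgs false

open Quaternion ChiralNF

private theorem Fg7_pow_coord {l : ℍ[ℝ]} (hlJ : l.imJ = 0) (hlK : l.imK = 0) (j : ℕ) :
    (l ^ j).imJ = 0 ∧ (l ^ j).imK = 0 := by
  induction j with
  | zero => simp
  | succ j ih =>
    obtain ⟨h1, h2⟩ := ih
    rw [pow_succ]
    constructor
    · simp [h1, h2, hlJ, hlK]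
    · simp [h1, h2, hlJ, hlK]

private theorem Fg7_star_pow {l : ℍ[ℝ]} {n : ℕ} (hn : 0 < n) (hl : l ^ n = 1) (hl1 : normSq l = 1)
    (j : ℕ) : star (l ^ j) = l ^ (j * (n - 1)) := by
  have h1 : star (l ^ j) * l ^ j = 1 := by
    rw [Quaternion.star_mul_self, map_pow, hl1]; simp
  have h2 : l ^ j * l ^ (j * (n - 1)) = 1 := by
    rw [← pow_add]
    have : j + j * (n - 1) = n * j := by
      obtain ⟨m, rfl⟩ : ∃ m, n = m + 1 := ⟨n - 1, by omega⟩
      simp; ring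
    rw [this, pow_mul, hl, one_pow]
  calc star (l ^ j) = star (l ^ j) * (l ^ j * l ^ (j * (n - 1))) := by rw [h2, mul_one]
    _ = l ^ (j * (n - 1)) := by rw [← mul_assoc, h1, one_mul]

private theorem Fg7_comm {c a : ℍ[ℝ]} (hJ : c.imJ = 0) (hK : c.imK = 0) (ha : a.re = 0)
    (ha0 : a.imI = 0) : a * c = star c * a := by
  ext <;> simp [hJ, hK, ha, ha0] <;> ring

private theorem Fg7_sq {a : ℍ[ℝ]} (ha : UI a) : a * a = -1 := by
  obtain ⟨h0, h1⟩ := ha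
  ext
  · simp [h0]; linarith
  · simp [h0]; ring
  · simp [h0]; ring
  · simp [h0]; ring

private theorem Fg7_star {a : ℍ[ℝ]} (ha : UI a) : star a = -a := by
  obtain ⟨h0, h1⟩ := ha
  ext <;> simp [h0]

private theorem Fg7_norm {a : ℍ[ℝ]} (ha : UI a) : normSq a = 1 := by
  obtain ⟨h0, h1⟩ := ha
  rw [Quaternion.normSq_def']
  rw [h0]; linarith

/-- Row Fg7. Dihedral groups: if `l = x + y i` has finite order and `a` is a unit of the plane of
`j, k`, then `a l ā = l̄`, `a ^ 2 = -1`, and `{± l ^ j} ∪ {± l ^ j a}` is a finite group. -/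
theorem finGp_dihedral {l a : ℍ[ℝ]} {n : ℕ} (hn : 0 < n) (hl : l ^ n = 1) (hl1 : normSq l = 1)
    (hlJ : l.imJ = 0) (hlK : l.imK = 0) (ha : UI a) (ha0 : a.imI = 0) :
    ∃ X, FinGp X ∧ l ∈ X ∧ a ∈ X := by
  have hC : (Set.range fun j : ℕ => l ^ j).Finite := by
    refine ((Finset.range n).finite_toSet.image fun j : ℕ => l ^ j).subset ?_
    rintro _ ⟨j, rfl⟩
    refine ⟨j % n, ?_, ?_⟩
    · simpa using Nat.mod_lt _ hn
    · show l ^ (j % n) = l ^ j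
      conv_rhs => rw [← Nat.mod_add_div j n, pow_add, pow_mul, hl, one_pow, mul_one]
  refine ⟨{x | ∃ j : ℕ, x = l ^ j ∨ x = -l ^ j ∨ x = l ^ j * a ∨ x = -(l ^ j * a)}, ?_,
    ⟨1, Or.inl (by simp)⟩, ⟨0, Or.inr (Or.inr (Or.inl (by simp)))⟩⟩
  have hs := Fg7_star_pow hn hl hl1
  have hc : ∀ j : ℕ, a * l ^ j = l ^ (j * (n - 1)) * a := fun j => by
    rw [Fg7_comm (Fg7_pow_coord hlJ hlK j).1 (Fg7_pow_coord hlJ hlK j).2 ha.1 ha0, hs]
  have hc' : ∀ j : ℕ, a * star (l ^ j) = l ^ j * a := fun j => by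
    have := Fg7_comm (c := star (l ^ j)) (a := a)
      (by rw [Quaternion.imJ_star, (Fg7_pow_coord hlJ hlK j).1, neg_zero])
      (by rw [Quaternion.imK_star, (Fg7_pow_coord hlJ hlK j).2, neg_zero]) ha.1 ha0
    rw [this, star_star]
  have haa := Fg7_sq ha
  have hsa := Fg7_star ha
  constructor
  · refine (((hC.union (hC.image fun x => -x)).union (hC.image fun x => x * a)).union
      (hC.image fun x => -(x * a))).subset ?_
    rintro x ⟨j, h | h | h | h⟩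
    · exact Or.inl (Or.inl (Or.inl ⟨j, h.symm⟩))
    · exact Or.inl (Or.inl (Or.inr ⟨l ^ j, ⟨j, rfl⟩, h.symm⟩))
    · exact Or.inl (Or.inr ⟨l ^ j, ⟨j, rfl⟩, h.symm⟩)
    · exact Or.inr ⟨l ^ j, ⟨j, rfl⟩, h.symm⟩
  · exact ⟨0, Or.inl (by simp)⟩
  · have e1 : ∀ i j : ℕ, l ^ i * l ^ j = l ^ (i + j) := fun i j => (pow_add _ _ _).symm
    have e2 : ∀ i j : ℕ, l ^ i * (l ^ j * a) = l ^ (i + j) * a := fun i j => by
      rw [← mul_assoc, e1]
    have e3 : ∀ i j : ℕ, l ^ i * a * l ^ j = l ^ (i + j * (n - 1)) * a := fun i j => by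
      rw [mul_assoc, hc, e2]
    have e4 : ∀ i j : ℕ, l ^ i * a * (l ^ j * a) = -l ^ (i + j * (n - 1)) := fun i j => by
      rw [← mul_assoc, e3, mul_assoc, haa, mul_neg, mul_one]
    rintro x ⟨i, h | h | h | h⟩ y ⟨j, k | k | k | k⟩ <;> rw [h, k]
    · exact ⟨i + j, by simp only [e1, e2, e3, e4, mul_neg, neg_mul, neg_neg, true_or, or_true]⟩
    · exact ⟨i + j, by simp only [e1, e2, e3, e4, mul_neg, neg_mul, neg_neg, true_or, or_true]⟩
    · exact ⟨i + j, by simp only [e1, e2, e3, e4, mul_neg, neg_mul, neg_neg, true_or, or_true]⟩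
    · exact ⟨i + j, by simp only [e1, e2, e3, e4, mul_neg, neg_mul, neg_neg, true_or, or_true]⟩
    · exact ⟨i + j, by simp only [e1, e2, e3, e4, mul_neg, neg_mul, neg_neg, true_or, or_true]⟩
    · exact ⟨i + j, by simp only [e1, e2, e3, e4, mul_neg, neg_mul, neg_neg, true_or, or_true]⟩
    · exact ⟨i + j, by simp only [e1, e2, e3, e4, mul_neg, neg_mul, neg_neg, true_or, or_true]⟩
    · exact ⟨i + j, by simp only [e1, e2, e3, e4, mul_neg, neg_mul, neg_neg, true_or, or_true]⟩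
    · exact ⟨i + j * (n - 1), by
        simp only [e1, e2, e3, e4, mul_neg, neg_mul, neg_neg, true_or, or_true]⟩
    · exact ⟨i + j * (n - 1), by
        simp only [e1, e2, e3, e4, mul_neg, neg_mul, neg_neg, true_or, or_true]⟩
    · exact ⟨i + j * (n - 1), by
        simp only [e1, e2, e3, e4, mul_neg, neg_mul, neg_neg, true_or, or_true]⟩
    · exact ⟨i + j * (n - 1), by
        simp only [e1, e2, e3, e4, mul_neg, neg_mul, neg_neg, true_or, or_true]⟩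
    · exact ⟨i + j * (n - 1), by
        simp only [e1, e2, e3, e4, mul_neg, neg_mul, neg_neg, true_or, or_true]⟩
    · exact ⟨i + j * (n - 1), by
        simp only [e1, e2, e3, e4, mul_neg, neg_mul, neg_neg, true_or, or_true]⟩
    · exact ⟨i + j * (n - 1), by
        simp only [e1, e2, e3, e4, mul_neg, neg_mul, neg_neg, true_or, or_true]⟩
    · exact ⟨i + j * (n - 1), by
        simp only [e1, e2, e3, e4, mul_neg, neg_mul, neg_neg, true_or, or_true]⟩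
  · rintro x ⟨j, h | h | h | h⟩ <;> rw [h]
    · exact ⟨j * (n - 1), Or.inl (hs j)⟩
    · exact ⟨j * (n - 1), Or.inr (Or.inl (by rw [star_neg, hs j]))⟩
    · exact ⟨j, Or.inr (Or.inr (Or.inr (by rw [star_mul, hsa, neg_mul, hc'])))⟩
    · exact ⟨j, Or.inr (Or.inr (Or.inl (by rw [star_neg, star_mul, hsa, neg_mul, hc', neg_neg])))⟩
  · have hp : ∀ j : ℕ, normSq (l ^ j) = 1 := fun j => by rw [map_pow, hl1, one_pow]
    rintro x ⟨j, h | h | h | h⟩ <;> rw [h]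
    · exact hp j
    · rw [normSq_neg, hp j]
    · rw [map_mul, hp j, Fg7_norm ha, one_mul]
    · rw [normSq_neg, map_mul, hp j, Fg7_norm ha, one_mul]

/-- Row Fg7. Transport: if `X'` is a finite group, `l', a' ∈ X'` with `UI a'`,
`l' = x0 + y0 p'`, `UI p'`, `l = ± (x0 + y0 p)` with `p = ± i` and
`⟪p, a⟫ ^ 2 = ⟪p', a'⟫ ^ 2`, then there is a finite group which contains `l` and `a`: replace `a'` by `-a'`
(`- 1 = a' ^ 2 ∈ X'`), apply `align` and `FinGp.conj`. In coordinates: `l.imJ = l.imK = 0`,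
`l.re ^ 2 = l'.re ^ 2`, and `⟪p', a'⟫² |l'.im|² = (l'.imI a'.imI + ...)²`. -/
theorem transport {X' : Set ℍ[ℝ]} (hX : FinGp X') {l' a' l a : ℍ[ℝ]} (hl' : l' ∈ X') (ha' : a' ∈ X')
    (hUa' : UI a') (hUa : UI a) (hl : normSq l = 1) (hlJ : l.imJ = 0) (hlK : l.imK = 0)
    (hre : l.re ^ 2 = l'.re ^ 2) (hne : l.imI ≠ 0)
    (hin : (l'.imI * a'.imI + l'.imJ * a'.imJ + l'.imK * a'.imK) ^ 2 = l.imI ^ 2 * a.imI ^ 2) :
    ∃ X, FinGp X ∧ l ∈ X ∧ a ∈ X := by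
  have hm1 : (-1 : ℍ[ℝ]) ∈ X' := by
    have := hX.mul _ ha' _ ha'
    rwa [Fg7_sq hUa'] at this
  have hneg : ∀ x ∈ X', -x ∈ X' := fun x hx => by
    have := hX.mul _ hm1 _ hx
    rwa [neg_one_mul] at this
  -- the real parts
  obtain ⟨l2, hl2, h2r, h2i, h2j, h2k⟩ : ∃ l2 ∈ X', l2.re = l.re ∧ l2.imI = l'.imI ∧
      l2.imJ = l'.imJ ∧ l2.imK = l'.imK := by
    rcases sq_eq_sq_iff_eq_or_eq_neg.mp hre with h | h
    · exact ⟨l', hl', h.symm, rfl, rfl, rfl⟩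
    · refine ⟨-star l', hneg _ (hX.star _ hl'), ?_, ?_, ?_, ?_⟩ <;> simp [h]
  obtain ⟨a2, ha2, hU2, hin2⟩ : ∃ a2 ∈ X', UI a2 ∧
      l2.imI * a2.imI + l2.imJ * a2.imJ + l2.imK * a2.imK = l.imI * a.imI := by
    have h : (l'.imI * a'.imI + l'.imJ * a'.imJ + l'.imK * a'.imK) ^ 2 = (l.imI * a.imI) ^ 2 := by
      rw [hin]; ring
    rw [h2i, h2j, h2k]
    rcases sq_eq_sq_iff_eq_or_eq_neg.mp h with h | h
    · exact ⟨a', ha', hUa', h⟩
    · refine ⟨-a', hneg _ ha', ⟨?_, ?_⟩, ?_⟩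
      · simp [hUa'.1]
      · have := hUa'.2
        simp
        linarith
      · simp
        linarith
  have hn2 : l2.re ^ 2 + l2.imI ^ 2 + l2.imJ ^ 2 + l2.imK ^ 2 = 1 := by
    have := hX.unit _ hl2
    rwa [Quaternion.normSq_def'] at this
  have hnl : l.re ^ 2 + l.imI ^ 2 = 1 := by
    rw [Quaternion.normSq_def', hlJ, hlK] at hl
    linarith
  set m := l.imI with hm
  have hm2 : l2.imI ^ 2 + l2.imJ ^ 2 + l2.imK ^ 2 = m ^ 2 := by
    rw [h2r] at hn2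
    linarith
  obtain ⟨I, hIr, hIi, hIj, hIk⟩ : ∃ I : ℍ[ℝ], I.re = 0 ∧ I.imI = 1 ∧ I.imJ = 0 ∧ I.imK = 0 :=
    ⟨⟨0, 1, 0, 0⟩, rfl, rfl, rfl, rfl⟩
  obtain ⟨P, hPr, hPi, hPj, hPk⟩ : ∃ P : ℍ[ℝ], P.re = 0 ∧ P.imI = l2.imI / m ∧
      P.imJ = l2.imJ / m ∧ P.imK = l2.imK / m :=
    ⟨⟨0, l2.imI / m, l2.imJ / m, l2.imK / m⟩, rfl, rfl, rfl, rfl⟩
  obtain ⟨r, hr, hrp, hra⟩ := align (p := I) (a := a) (p' := P) (a' := a2)
    ⟨hIr, by rw [hIi, hIj, hIk]; norm_num⟩ hUa ⟨hPr, by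
      rw [hPi, hPj, hPk, div_pow, div_pow, div_pow, ← add_div, ← add_div, hm2]
      exact div_self (pow_ne_zero 2 hne)⟩ hU2 (by
      rw [hPi, hPj, hPk, hIi, hIj, hIk]
      field_simp
      linarith)
  refine ⟨_, hX.conj hr, ⟨l2, hl2, ?_⟩, ⟨a2, ha2, hra⟩⟩
  have e2 : l2 = (l.re : ℍ[ℝ]) + m • P := by
    ext
    · simp [h2r, hPr]
    · simp [hPi]; field_simp
    · simp [hPj]; field_simp
    · simp [hPk]; field_simp
  have el : l = (l.re : ℍ[ℝ]) + m • I := by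
    ext
    · simp [hIr]
    · simp [hm, hIi]
    · simp [hlJ, hIj]
    · simp [hlK, hIk]
  have hrr : r * star r = 1 := by rw [Quaternion.self_mul_star, hr]; simp
  show r * l2 * star r = l
  rw [e2, mul_add, add_mul]
  have c1 : r * (l.re : ℍ[ℝ]) * star r = (l.re : ℍ[ℝ]) := by
    rw [← Quaternion.coe_commutes, mul_assoc, hrr, mul_one]
  have c2 : r * (m • P) * star r = m • I := by
    rw [mul_smul_comm, smul_mul_assoc, hrp]
  rw [c1, c2, ← el]

end ChiralQ
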