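import Pool.Agent.Lib.MP_bc704c_co.Q.Fg7

/-! # MP_bc704c_co, row Fg7b: the listed parameters give finite groups -/

namespace ChiralQ

open Quaternion ChiralNF

private def Fg7b_z (x y : ℝ) : ℍ[ℝ] := ⟨x, y, 0, 0⟩

private theorem Fg7b_mul (x y x' y' : ℝ) : Fg7b_z x y * Fg7b_z x' y' =
    Fg7b_z (x * x' - y * y') (x * y' + y * x') := by
  unfold Fg7b_z
  ext <;> simp [sub_eq_add_neg]

private theorem Fg7b_one : (1 : ℍ[ℝ]) = Fg7b_z 1 0 := by
  unfold Fg7b_z
  ext <;> simp

private theorem Fg7b_sq {l : ℍ[ℝ]} {c d : ℝ} (hlJ : l.imJ = 0) (hlK : l.imK = 0)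
    (hlc : l.re ^ 2 - l.imI ^ 2 = c) (hld : 2 * l.re * l.imI = d) :
    l * l = Fg7b_z c d := by
  unfold Fg7b_z
  ext <;> simp [hlJ, hlK]
  · linarith
  · linarith

private theorem Fg7b_pow {l : ℍ[ℝ]} {c d : ℝ} (hcd : c ^ 2 + d ^ 2 = 1)
    (hc : c = -1 / 2 ∨ c = 0 ∨ c = (√5 - 1) / 4 ∨ c = -(√5 + 1) / 4)
    (hl2 : l * l = Fg7b_z c d) : ∃ n, 0 < n ∧ l ^ n = 1 := by
  have h5 : √5 ^ 2 = 5 := Real.sq_sqrt (by norm_num)
  have fin5 : 4 * c ^ 2 + 2 * c - 1 = 0 → ∃ n, 0 < n ∧ l ^ n = 1 := by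
    intro hq
    refine ⟨10, by norm_num, ?_⟩
    have : l ^ 10 = (l * l) * (l * l) * ((l * l) * (l * l)) * (l * l) := by
      simp only [pow_succ, pow_zero, one_mul, mul_assoc]
    rw [this, hl2, Fg7b_mul]
    have e1 : c * c - d * d = -c - 1 / 2 := by linear_combination (1 / 2) * hq - hcd
    have e2 : c * d + d * c = 2 * c * d := by ring
    rw [e1, e2, Fg7b_mul]
    have e3 : (-c - 1 / 2) * (-c - 1 / 2) - 2 * c * d * (2 * c * d) = c := by
      linear_combination (-4 * c ^ 2) * hcd + (c ^ 2 - c / 2 - 1 / 4 + 0) * hq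
    have e4 : (-c - 1 / 2) * (2 * c * d) + 2 * c * d * (-c - 1 / 2) = -d := by
      linear_combination (-d) * hq
    rw [e3, e4, Fg7b_mul, Fg7b_one]
    congr 1
    · linear_combination hcd
    · ring
  rcases hc with h | h | h | h
  · refine ⟨6, by norm_num, ?_⟩
    have : l ^ 6 = (l * l) * (l * l) * (l * l) := by
      simp only [pow_succ, pow_zero, one_mul, mul_assoc]
    rw [this, hl2, Fg7b_mul, Fg7b_mul, Fg7b_one]
    subst h
    congr 1
    · linear_combination (3 / 2) * hcd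
    · linear_combination (-d) * hcd
  · refine ⟨8, by norm_num, ?_⟩
    have : l ^ 8 = ((l * l) * (l * l)) * ((l * l) * (l * l)) := by
      simp only [pow_succ, pow_zero, one_mul, mul_assoc]
    rw [this, hl2, Fg7b_mul, Fg7b_mul, Fg7b_one]
    subst h
    congr 1
    · linear_combination (d ^ 2 + 1) * hcd
    · ring
  · apply fin5
    subst h
    linear_combination (1 / 4) * h5
  · apply fin5
    subst h
    linear_combination (1 / 4) * h5

/-- Row Fg7. `c` is the cosine of the angle `2 π k / q`, `q = 3, 4, 5`: `l ^ (2 q) = 1`, which settles the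
case `a.imI = 0` by `finGp_dihedral`. Otherwise `transport` with (`f = (1 + √5) / 2`)
`c = -1/2`: `l' = (1 + i + j + k)/2`, `a' = i` (`x = 1/3`), `(i + j)/√2` (`x = 2/3`) in `Stb Oct`;
`a' = (± i + (f-1) j + f k)/2` (`x = (3 ± √5)/6`) in `Stb (Ico f)`;
`c = 0`, `x = 1/2`: `l' = (1 + i)/√2`, `a' = (i + j)/√2` in `Stb Oct`;
`c = (√5 - 1)/4`: `l' = (f + (f-1) j + k)/2` in `Stb (Ico f)`, `a' = k` (`x = (5 + √5)/10`),
`a' = j` (`x = (5 - √5)/10`); `c = -(√5 + 1)/4`: `l' ^ 2` instead of `l'`. -/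
theorem exists_finGp {c d : ℝ} (hcd : c ^ 2 + d ^ 2 = 1) (hd : d ≠ 0)
    (hc : c = -1 / 2 ∨ c = 0 ∨ c = (√5 - 1) / 4 ∨ c = -(√5 + 1) / 4) {l a : ℍ[ℝ]}
    (hl : normSq l = 1) (hlJ : l.imJ = 0) (hlK : l.imK = 0) (hlc : l.re ^ 2 - l.imI ^ 2 = c)
    (hld : 2 * l.re * l.imI = d) (ha : UI a) (hx : Ax c (a.imI ^ 2)) :
    ∃ X, FinGp X ∧ l ∈ X ∧ a ∈ X := by
  have h5 : √5 ^ 2 = 5 := Real.sq_sqrt (by norm_num)
  have h2 : √2 ^ 2 = 2 := Real.sq_sqrt (by norm_num)
  have hne : l.imI ≠ 0 := by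
    intro h
    apply hd
    rw [← hld, h, mul_zero]
  have hn1 : l.re ^ 2 + l.imI ^ 2 = 1 := by
    have := hl
    rw [Quaternion.normSq_def', hlJ, hlK] at this
    linarith
  have hre : l.re ^ 2 = (1 + c) / 2 := by linarith
  have him : l.imI ^ 2 = (1 - c) / 2 := by linarith
  obtain ⟨f, hfdef⟩ : ∃ f : ℝ, f = (1 + √5) / 2 := ⟨_, rfl⟩
  have hf : f ^ 2 = f + 1 := by
    rw [hfdef]; linear_combination (1 / 4) * h5
  have h0 : 0 < f := by
    rw [hfdef]; positivity
  have hs5 : √5 = 2 * f - 1 := by rw [hfdef]; ring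
  obtain ⟨o1, o2, o3, o4⟩ := oct_mem
  obtain ⟨i1, i2, i3, i4, i5, i6⟩ := ico_mem hf h0
  have i7 : (⟨(f - 1) / 2, 0, 1 / 2, f / 2⟩ : ℍ[ℝ]) ∈ Stb (Ico f) := by
    obtain ⟨q, hq⟩ : ∃ q : ℍ[ℝ], q = (⟨f / 2, 0, (f - 1) / 2, 1 / 2⟩ : ℍ[ℝ]) := ⟨_, rfl⟩
    have h6 : q ∈ Stb (Ico f) := by rw [hq]; exact i6
    have := (finGp_ico hf h0).mul _ h6 _ h6
    have e : q * q = (⟨(f - 1) / 2, 0, 1 / 2, f / 2⟩ : ℍ[ℝ]) := by
      rw [hq]
      ext
      · simp
        linear_combination (0 : ℝ) * hf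
      · simp
        ring
      · simp
        linear_combination (1 / 2) * hf
      · simp
        linear_combination (0 : ℝ) * hf
    exact e ▸ this
  rcases hx with hx | ⟨hc', hx⟩ | ⟨hc', hx⟩ | ⟨hc', hx⟩
  · obtain ⟨n, hn, hln⟩ := Fg7b_pow hcd hc (Fg7b_sq hlJ hlK hlc hld)
    have ha0 : a.imI = 0 := by
      rcases hx with hx
      exact pow_eq_zero_iff (two_ne_zero) |>.mp hx
    exact finGp_dihedral hn hln hl hlJ hlK ha ha0
  · rcases hx with hx | hx | hx | hx
    · refine transport finGp_oct o1 o3 ?_ ha hl hlJ hlK ?_ hne ?_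
      · exact ⟨rfl, by norm_num⟩
      · rw [hre, hc']; norm_num
      · rw [him, hx, hc']; norm_num
    · refine transport finGp_oct o1 o4 ?_ ha hl hlJ hlK ?_ hne ?_
      · exact ⟨rfl, by simp only; linear_combination (1 / 2) * h2⟩
      · rw [hre, hc']; norm_num
      · rw [him, hx, hc']
        simp only
        linear_combination (1 / 4) * h2
    · refine transport (finGp_ico hf h0) i1 i4 ?_ ha hl hlJ hlK ?_ hne ?_
      · exact ⟨rfl, by simp only; linear_combination (1 / 2) * hf⟩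
      · rw [hre, hc']; norm_num
      · rw [him, hx, hc', hs5]
        simp only
        linear_combination (1 / 4) * hf
    · refine transport (finGp_ico hf h0) i1 i5 ?_ ha hl hlJ hlK ?_ hne ?_
      · exact ⟨rfl, by simp only; linear_combination (1 / 2) * hf⟩
      · rw [hre, hc']; norm_num
      · rw [him, hx, hc', hs5]
        simp only
        linear_combination (1 / 4) * hf
  · refine transport finGp_oct o2 o4 ?_ ha hl hlJ hlK ?_ hne ?_
    · exact ⟨rfl, by simp only; linear_combination (1 / 2) * h2⟩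
    · rw [hre, hc']
      simp only
      linear_combination (-1 / 4) * h2
    · rw [him, hx, hc']
      simp only
      linear_combination (√2 ^ 2 + 2) / 16 * h2
  · rcases hc' with hc' | hc'
    · rcases hx with hx | hx
      · refine transport (finGp_ico hf h0) i6 i3 ?_ ha hl hlJ hlK ?_ hne ?_
        · exact ⟨rfl, by norm_num⟩
        · rw [hre, hc', hs5]
          simp only
          linear_combination (-1 / 4) * hf
        · rw [him, hx, hc', hs5]
          simp only
          linear_combination (1 / 20) * hf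
      · refine transport (finGp_ico hf h0) i6 i2 ?_ ha hl hlJ hlK ?_ hne ?_
        · exact ⟨rfl, by norm_num⟩
        · rw [hre, hc', hs5]
          simp only
          linear_combination (-1 / 4) * hf
        · rw [him, hx, hc', hs5]
          simp only
          linear_combination (1 / 5) * hf
    · rcases hx with hx | hx
      · refine transport (finGp_ico hf h0) i7 i3 ?_ ha hl hlJ hlK ?_ hne ?_
        · exact ⟨rfl, by norm_num⟩
        · rw [hre, hc', hs5]
          simp only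
          linear_combination (-1 / 4) * hf
        · rw [him, hx, hc', hs5]
          simp only
          linear_combination (1 / 5) * hf
      · refine transport (finGp_ico hf h0) i7 i2 ?_ ha hl hlJ hlK ?_ hne ?_
        · exact ⟨rfl, by norm_num⟩
        · rw [hre, hc', hs5]
          simp only
          linear_combination (-1 / 4) * hf
        · rw [him, hx, hc', hs5]
          simp only
          linear_combination (1 / 20) * hf

end ChiralQ
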