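import Pool.Agent.Lib.MP_bc704c_co.Q.Fg4b
import Pool.Agent.Lib.MP_bc704c_co.Q.Fg7b

/-! # MP_bc704c_co, row Fg8: finiteness of the group, the exceptional azimuths -/

namespace ChiralQ

open Quaternion ChiralNF

/-- the isometries `v ↦ x v ȳ`, `x ∈ X`, `y ∈ Y` -/
def Fg8_K (X Y : Set ℍ[ℝ]) : Set (ℍ[ℝ] ≃ₗᵢ[ℝ] ℍ[ℝ]) :=
  {g | ∃ x ∈ X, ∃ y ∈ Y, ∀ v, g v = tF x y v}

theorem Fg8_fin {X Y : Set ℍ[ℝ]} (hX : X.Finite) (hY : Y.Finite) : (Fg8_K X Y).Finite := by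
  classical
  let F : ℍ[ℝ] × ℍ[ℝ] → (ℍ[ℝ] ≃ₗᵢ[ℝ] ℍ[ℝ]) := fun p =>
    if h : ∃ g : ℍ[ℝ] ≃ₗᵢ[ℝ] ℍ[ℝ], ∀ v, g v = tF p.1 p.2 v then h.choose
    else LinearIsometryEquiv.refl ℝ ℍ[ℝ]
  refine ((hX.prod hY).image F).subset ?_
  rintro g ⟨x, hx, y, hy, hg⟩
  refine ⟨(x, y), ⟨hx, hy⟩, ?_⟩
  have h : ∃ g : ℍ[ℝ] ≃ₗᵢ[ℝ] ℍ[ℝ], ∀ v, g v = tF x y v := ⟨g, hg⟩
  have hF : F (x, y) = h.choose := dif_pos h
  rw [hF]
  apply LinearIsometryEquiv.ext
  intro v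
  rw [h.choose_spec v, hg v]

theorem Fg8_mul_star {x : ℍ[ℝ]} (h : normSq x = 1) : x * star x = 1 := by
  rw [Quaternion.self_mul_star, h]
  simp

/-- Row Fg8. The isometries `v ↦ x v ȳ`, `x ∈ X`, `y ∈ Y`, form a finite set which contains `s` and `t`
and is a group. -/
theorem finite_GG {s t : ℍ[ℝ] ≃ₗᵢ[ℝ] ℍ[ℝ]} {l a b : ℍ[ℝ]} {X Y : Set ℍ[ℝ]} (hX : FinGp X)
    (hY : FinGp Y) (hlX : l ∈ X) (haX : a ∈ X) (hlY : l ∈ Y) (hbY : b ∈ Y)
    (hs : ∀ v, s v = tF l l v) (ht : ∀ v, t v = tF a b v) : Finite (GG s t) := by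
  let K : Subgroup (ℍ[ℝ] ≃ₗᵢ[ℝ] ℍ[ℝ]) :=
    { carrier := Fg8_K X Y
      one_mem' := ⟨1, hX.one, 1, hY.one, fun v => by
        have h1 : (1 : ℍ[ℝ] ≃ₗᵢ[ℝ] ℍ[ℝ]) v = v := rfl
        rw [h1]
        simp [tF]⟩
      mul_mem' := by
        rintro g h ⟨x, hx, y, hy, hg⟩ ⟨x', hx', y', hy', hh⟩
        refine ⟨x * x', hX.mul x hx x' hx', y * y', hY.mul y hy y' hy', fun v => ?_⟩
        have h1 : (g * h) v = g (h v) := rfl
        rw [h1, hg, hh]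
        simp only [tF, star_mul]
        simp only [mul_assoc]
      inv_mem' := by
        rintro g ⟨x, hx, y, hy, hg⟩
        refine ⟨star x, hX.star x hx, star y, hY.star y hy, fun v => ?_⟩
        have h1 : g (tF (star x) (star y) v) = v := by
          rw [hg]
          simp only [tF, star_star]
          have hxx := Fg8_mul_star (hX.unit x hx)
          have hyy := Fg8_mul_star (hY.unit y hy)
          calc x * (star x * v * y) * star y = (x * star x) * v * (y * star y) := by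
                simp only [mul_assoc]
            _ = v := by rw [hxx, hyy, one_mul, mul_one]
        rw [LinearIsometryEquiv.inv_def]
        rw [LinearIsometryEquiv.symm_apply_eq]
        exact h1.symm }
  have hle : GG s t ≤ K := by
    unfold GG
    rw [Subgroup.closure_le]
    intro g hg
    rcases hg with rfl | hg
    · exact ⟨l, hlX, l, hlY, hs⟩
    · rw [Set.mem_singleton_iff] at hg
      subst hg
      exact ⟨a, haX, b, hbY, ht⟩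
  have hfin : (GG s t : Set (ℍ[ℝ] ≃ₗᵢ[ℝ] ℍ[ℝ])).Finite :=
    (Fg8_fin hX.fin hY.fin).subset (fun g hg => hle hg)
  exact hfin.to_subtype

/-- Row Fg8. One of `α², β²` is not `0` (they are different), so `Ax` gives `c`. -/
theorem c_cases {c x y : ℝ} (hx : Ax c x) (hy : Ax c y) (hne : x ≠ y) :
    c = -1 / 2 ∨ c = 0 ∨ c = (√5 - 1) / 4 ∨ c = -(√5 + 1) / 4 := by
  have key : ∀ {z : ℝ}, Ax c z → z ≠ 0 →
      c = -1 / 2 ∨ c = 0 ∨ c = (√5 - 1) / 4 ∨ c = -(√5 + 1) / 4 := by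
    intro z hz h0
    rcases hz with h | h | h | h
    · exact absurd h h0
    · exact Or.inl h.1
    · exact Or.inr (Or.inl h.1)
    · exact Or.inr (Or.inr h.1)
  by_cases h0 : x = 0
  · exact key hy (fun h => hne (h0.trans h.symm))
  · exact key hx h0

/-- Row Fg8. `exists_l`, `c_cases`, `exists_finGp` twice, `finite_GG`. -/
theorem finite_of_listed {s t : ℍ[ℝ] ≃ₗᵢ[ℝ] ℍ[ℝ]} {c d : ℝ} {a b : ℍ[ℝ]} (H : Std s t 1 c d a b)
    (h1 : Ax c (a.imI ^ 2)) (h2 : Ax c (b.imI ^ 2)) : Finite (GG s t) := by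
  obtain ⟨l, hl, hlJ, hlK, hlc, hld, hls⟩ := exists_l H.hcd
  have hc := c_cases h1 h2 H.chi.1
  obtain ⟨X, hX, hlX, haX⟩ := exists_finGp H.hcd H.hd hc hl hlJ hlK hlc hld H.ha h1
  obtain ⟨Y, hY, hlY, hbY⟩ := exists_finGp H.hcd H.hd hc hl hlJ hlK hlc hld H.hb h2
  exact finite_GG hX hY hlX haX hlY hbY (fun v => by rw [H.hs v, hls v]) H.ht

end ChiralQ
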