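import Pool.Agent.Lib.MP_bc704c_co.Q.Fg8

/-! # MP_bc704c_co, row Fg9: the exceptional azimuths are finite in number -/

namespace ChiralQ

open Quaternion ChiralNF

private theorem Fg9_sq (z : ℂ) (hz : z.re ^ 2 + z.im ^ 2 = 1) : z ^ 2 = 2 * (z.re : ℂ) * z - 1 := by
  apply Complex.ext
  · simp [pow_two]
    nlinarith [hz]
  · simp [pow_two]
    ring

private theorem Fg9_unit_sq (w : ℂ) (hw : w.re ^ 2 + w.im ^ 2 = 1) :
    (w ^ 2).re ^ 2 + (w ^ 2).im ^ 2 = 1 := by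
  have h1 : (w ^ 2).re = w.re ^ 2 - w.im ^ 2 := by simp [pow_two]
  have h2 : (w ^ 2).im = 2 * w.re * w.im := by simp [pow_two]; ring
  rw [h1, h2]
  have : (w.re ^ 2 - w.im ^ 2) ^ 2 + (2 * w.re * w.im) ^ 2 = (w.re ^ 2 + w.im ^ 2) ^ 2 := by ring
  rw [this, hw]; norm_num

private theorem Fg9_re_sq (w : ℂ) (hw : w.re ^ 2 + w.im ^ 2 = 1) :
    (w ^ 2).re = 2 * w.re ^ 2 - 1 := by
  have h1 : (w ^ 2).re = w.re ^ 2 - w.im ^ 2 := by simp [pow_two]
  rw [h1]; linarith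

private theorem Fg9_quad {z : ℂ} {r : ℝ} (hz : z.re ^ 2 + z.im ^ 2 = 1) (hr : z.re = r) :
    z ^ 2 = 2 * (r : ℂ) * z - 1 := by
  rw [← hr]; exact Fg9_sq z hz

private theorem Fg9_five {z : ℂ} {r : ℝ} (hr : 4 * r ^ 2 + 2 * r - 1 = 0)
    (h : z ^ 2 = 2 * (r : ℂ) * z - 1) : z ^ 5 = 1 := by
  have hr' : (4 : ℂ) * (r : ℂ) ^ 2 + 2 * (r : ℂ) - 1 = 0 := by exact_mod_cast congrArg (fun t : ℝ => (t : ℂ)) hr
  linear_combination (z ^ 3 + 2 * (r : ℂ) * z ^ 2 + (4 * (r : ℂ) ^ 2 - 1) * z +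
    (8 * (r : ℂ) ^ 3 - 4 * (r : ℂ))) * h + ((4 * (r : ℂ) ^ 2 - 2 * (r : ℂ) - 1) * z - (2 * (r : ℂ) - 1)) * hr'

private theorem Fg9_root5 {s : ℝ} (hs : s = (3 + √5) / 8 ∨ s = (3 - √5) / 8) :
    4 * (2 * s - 1) ^ 2 + 2 * (2 * s - 1) - 1 = 0 := by
  have h5 : √5 ^ 2 = (5 : ℝ) := Real.sq_sqrt (by norm_num)
  rcases hs with h | h
  · rw [h]; linear_combination (1 / 4 : ℝ) * h5
  · rw [h]; linear_combination (1 / 4 : ℝ) * h5

private theorem Fg9_cs (w : ℂ) (hw : w.re ^ 2 + w.im ^ 2 = 1) (h : Cs w.re) :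
    ∃ n : ℕ, 1 ≤ n ∧ n ≤ 5 ∧ (w ^ 2) ^ n = 1 := by
  have hu := Fg9_unit_sq w hw
  have hre := Fg9_re_sq w hw
  rcases h with h | h | h | h | h
  · have hr : (w ^ 2).re = (-1 : ℝ) := by rw [hre, h]; norm_num
    have h1 := Fg9_quad hu hr
    have h2 : (w ^ 2 + 1) ^ 2 = 0 := by
      push_cast at h1
      linear_combination h1
    have h3 : w ^ 2 + 1 = 0 := pow_eq_zero_iff (two_ne_zero) |>.1 h2
    have h4 : w ^ 2 = -1 := by linear_combination h3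
    exact ⟨2, by norm_num, by norm_num, by rw [h4]; norm_num⟩
  · have hr : (w ^ 2).re = (1 : ℝ) := by rw [hre, h]; norm_num
    have h1 := Fg9_quad hu hr
    have h2 : (w ^ 2 - 1) ^ 2 = 0 := by
      push_cast at h1
      linear_combination h1
    have h3 : w ^ 2 - 1 = 0 := pow_eq_zero_iff (two_ne_zero) |>.1 h2
    have h4 : w ^ 2 = 1 := by linear_combination h3
    exact ⟨1, by norm_num, by norm_num, by rw [h4]; norm_num⟩
  · have hr : (w ^ 2).re = (-1 / 2 : ℝ) := by rw [hre, h]; norm_num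
    have h1 := Fg9_quad hu hr
    refine ⟨3, by norm_num, by norm_num, ?_⟩
    push_cast at h1
    linear_combination (w ^ 2 - 1) * h1
  · have hr : (w ^ 2).re = (0 : ℝ) := by rw [hre, h]; norm_num
    have h1 := Fg9_quad hu hr
    refine ⟨4, by norm_num, by norm_num, ?_⟩
    push_cast at h1
    linear_combination ((w ^ 2) ^ 2 - 1) * h1
  · have h5 := Fg9_root5 (s := w.re ^ 2) h
    have h1 := Fg9_quad (r := 2 * w.re ^ 2 - 1) hu hre
    exact ⟨5, by norm_num, by norm_num, Fg9_five h5 h1⟩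

private theorem Fg9_order (w : ℂ) (hw : w.re ^ 2 + w.im ^ 2 = 1)
    (h0 : w.re ^ 2 = 1 / 4 ∨ w.re ^ 2 = 1 / 2 ∨ w.re ^ 2 = (3 + √5) / 8 ∨ w.re ^ 2 = (3 - √5) / 8) :
    orderOf (w ^ 2) = 3 ∨ orderOf (w ^ 2) = 4 ∨ orderOf (w ^ 2) = 5 := by
  have hu := Fg9_unit_sq w hw
  have hre := Fg9_re_sq w hw
  rcases h0 with h | h | h
  · left
    have hr : (w ^ 2).re = (-1 / 2 : ℝ) := by rw [hre, h]; norm_num
    have h1 := Fg9_quad hu hr
    have : Fact (Nat.Prime 3) := ⟨by norm_num⟩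
    refine orderOf_eq_prime ?_ ?_
    · push_cast at h1
      linear_combination (w ^ 2 - 1) * h1
    · intro h2
      rw [h2] at hr
      norm_num at hr
  · right; left
    have hr : (w ^ 2).re = (0 : ℝ) := by rw [hre, h]; norm_num
    have h1 := Fg9_quad hu hr
    have : Fact (Nat.Prime 2) := ⟨by norm_num⟩
    have h2 : orderOf (w ^ 2) = 2 ^ (1 + 1) := by
      refine orderOf_eq_prime_pow ?_ ?_
      · intro h3
        rw [pow_one, h1] at h3
        norm_num at h3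
      · push_cast at h1
        norm_num
        linear_combination ((w ^ 2) ^ 2 - 1) * h1
    rw [h2]; norm_num
  · right; right
    have h5 := Fg9_root5 (s := w.re ^ 2) h
    have h1 := Fg9_quad (r := 2 * w.re ^ 2 - 1) hu hre
    have : Fact (Nat.Prime 5) := ⟨by norm_num⟩
    refine orderOf_eq_prime (Fg9_five h5 h1) ?_
    intro h2
    rw [h2] at hre
    rw [← hre] at h5
    norm_num at h5

private theorem Fg9_group {u v : ℂ} (hv : orderOf v = 3 ∨ orderOf v = 4 ∨ orderOf v = 5)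
    (hu : ∃ n : ℕ, 1 ≤ n ∧ n ≤ 5 ∧ u ^ n = 1) (huv : ∃ n : ℕ, 1 ≤ n ∧ n ≤ 5 ∧ (u * v) ^ n = 1) :
    ∃ j : ℕ, u = v ^ j := by
  obtain ⟨n, hn1, hn5, hn⟩ := hu
  obtain ⟨k, hk1, hk5, hk⟩ := huv
  have hm : 3 ≤ orderOf v ∧ orderOf v ≤ 5 := by omega
  by_cases h : u ^ orderOf v = 1
  · have : NeZero (orderOf v) := ⟨by omega⟩
    obtain ⟨i, -, hi⟩ := (IsPrimitiveRoot.orderOf v).eq_pow_of_pow_eq_one h
    exact ⟨i, hi.symm⟩
  · exfalso
    have h1 : orderOf u ∣ n := orderOf_dvd_of_pow_eq_one hn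
    have h2 : orderOf u ≤ 5 := (Nat.le_of_dvd (by omega) h1).trans hn5
    have h3 : ¬ orderOf u ∣ orderOf v := fun h4 => h (orderOf_dvd_iff_pow_eq_one.1 h4)
    have h4 : 0 < orderOf u := Nat.pos_of_ne_zero fun h5 => by
      rw [h5] at h1; have := Nat.eq_zero_of_zero_dvd h1; omega
    have h6 : (orderOf u).Coprime (orderOf v) ∧ 2 ≤ orderOf u := by
      generalize orderOf u = a at *
      rcases hv with hv | hv | hv <;> rw [hv] at h3 ⊢ <;> interval_cases a <;> revert h3 <;> decide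
    have h7 := (Commute.all u v).orderOf_mul_eq_mul_orderOf_of_coprime h6.1
    have h8 : orderOf (u * v) ∣ k := orderOf_dvd_of_pow_eq_one hk
    rw [h7] at h8
    have h9 := Nat.le_of_dvd (by omega) h8
    nlinarith [h6.2, hm.1]

/-- Row Fg9. Arithmetic: let `l = x0 + y0 i` with `x0² ∈ {1/4, 1/2, (3 ± √5)/8}`, `x = p + q i`, both unit,
and suppose that `Cs` holds for the real parts of all products `x l ^ j`, `j = -4, ..., 4`. Then
`x² = l ^ (2 j)` for some `j` (the rotations about `i` in the group form a cyclic group of order at most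
5 which contains a rotation of order 3, 4, 5). -/
theorem cyclic_arith {l x : ℍ[ℝ]} (hl : normSq l = 1) (hlJ : l.imJ = 0) (hlK : l.imK = 0)
    (hx : normSq x = 1) (hxJ : x.imJ = 0) (hxK : x.imK = 0)
    (h0 : l.re ^ 2 = 1 / 4 ∨ l.re ^ 2 = 1 / 2 ∨ l.re ^ 2 = (3 + √5) / 8 ∨ l.re ^ 2 = (3 - √5) / 8)
    (h : ∀ j : ℕ, Cs (x * l ^ j).re) : ∃ j : ℕ, x = l ^ j ∨ x = -l ^ j := by
  obtain ⟨w, rfl⟩ : ∃ w : ℂ, (w : ℍ[ℝ]) = l :=
    ⟨⟨l.re, l.imI⟩, by ext <;> simp [hlJ, hlK]⟩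
  obtain ⟨z, rfl⟩ : ∃ z : ℂ, (z : ℍ[ℝ]) = x :=
    ⟨⟨x.re, x.imI⟩, by ext <;> simp [hxJ, hxK]⟩
  have hw : w.re ^ 2 + w.im ^ 2 = 1 := by
    rw [Quaternion.normSq_def'] at hl
    simpa using hl
  have hz : z.re ^ 2 + z.im ^ 2 = 1 := by
    rw [Quaternion.normSq_def'] at hx
    simpa using hx
  have hwz : (z * w).re ^ 2 + (z * w).im ^ 2 = 1 := by
    have : (z * w).re ^ 2 + (z * w).im ^ 2 = (z.re ^ 2 + z.im ^ 2) * (w.re ^ 2 + w.im ^ 2) := by
      simp [Complex.mul_re, Complex.mul_im]; ring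
    rw [this, hw, hz]; norm_num
  have hc0 : Cs z.re := by simpa using h 0
  have hc1 : Cs (z * w).re := by
    have h1 := h 1
    rw [pow_one, ← Quaternion.coeComplex_mul, Quaternion.re_coeComplex] at h1
    exact h1
  have h1 := Fg9_cs z hz hc0
  have h2 := Fg9_cs (z * w) hwz hc1
  rw [mul_pow] at h2
  have h3 := Fg9_order w hw (by simpa using h0)
  obtain ⟨j, hj⟩ := Fg9_group h3 h1 h2
  have h4 : z ^ 2 = (w ^ j) ^ 2 := by rw [hj]; ring
  refine ⟨j, ?_⟩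
  rcases sq_eq_sq_iff_eq_or_eq_neg.1 h4 with h5 | h5
  · left
    rw [h5]
    exact (Quaternion.ofComplex).map_pow w j
  · right
    rw [h5]
    have h6 : ((-(w ^ j) : ℂ) : ℍ[ℝ]) = -((w ^ j : ℂ) : ℍ[ℝ]) := by ext <;> simp
    rw [h6]
    exact congrArg Neg.neg ((Quaternion.ofComplex).map_pow w j)

end ChiralQ
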