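import Pool.Agent.Lib.MP_bc704c_co.Q.Fg9

/-! # MP_bc704c_co, row Fg9b: exceptional azimuths -/

namespace ChiralQ

open Quaternion ChiralNF

private theorem Fg9b_comp (x1 y1 x2 y2 v : ℍ[ℝ]) :
    tF x1 y1 (tF x2 y2 v) = tF (x1 * x2) (y1 * y2) v := by
  simp only [tF, star_mul, mul_assoc]

private theorem Fg9b_star_mul {x : ℍ[ℝ]} (h : normSq x = 1) : star x * x = 1 := by
  rw [Quaternion.star_mul_self, h]; simp

private theorem Fg9b_mul_star {x : ℍ[ℝ]} (h : normSq x = 1) : x * star x = 1 := by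
  rw [Quaternion.self_mul_star, h]; simp

/-- every element of the group -/
private theorem Fg9b_all {a b b0 l r : ℍ[ℝ]} {s t : ℍ[ℝ] ≃ₗᵢ[ℝ] ℍ[ℝ]} {X Y : Set ℍ[ℝ]}
    (hX : FinGp X) (hY : FinGp Y) (hlX : l ∈ X) (haX : a ∈ X) (hlY : l ∈ Y) (hbY : b0 ∈ Y)
    (hr : normSq r = 1) (hrl : r * l * star r = l) (hrb : r * b0 * star r = b)
    (hs : ∀ v, s v = tF l l v) (ht : ∀ v, t v = tF a b v) :
    ∀ g ∈ GG s t, ∃ x ∈ X, ∃ y ∈ Y, ∀ v, g v = tF x (r * y * star r) v := by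
  intro g hg
  have hrr := Fg9b_star_mul hr
  have hrr' := Fg9b_mul_star hr
  unfold GG at hg
  induction hg using Subgroup.closure_induction with
  | mem g hg =>
    rcases hg with rfl | hg
    · exact ⟨l, hlX, l, hlY, fun v => by rw [hrl]; exact hs v⟩
    · rw [Set.mem_singleton_iff] at hg
      subst hg
      exact ⟨a, haX, b0, hbY, fun v => by rw [hrb]; exact ht v⟩
  | one =>
    refine ⟨1, hX.one, 1, hY.one, fun v => ?_⟩
    rw [mul_one, hrr']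
    simp [tF]
  | mul g h _ _ hg hh =>
    obtain ⟨x1, hx1, y1, hy1, h1⟩ := hg
    obtain ⟨x2, hx2, y2, hy2, h2⟩ := hh
    refine ⟨x1 * x2, hX.mul _ hx1 _ hx2, y1 * y2, hY.mul _ hy1 _ hy2, fun v => ?_⟩
    have e : r * (y1 * y2) * star r = (r * y1 * star r) * (r * y2 * star r) := by
      calc r * (y1 * y2) * star r = r * y1 * 1 * (y2 * star r) := by simp only [mul_assoc, mul_one]
        _ = r * y1 * (star r * r) * (y2 * star r) := by rw [hrr]
        _ = _ := by simp only [mul_assoc]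
    rw [e, ← Fg9b_comp, ← h2, ← h1]
    rfl
  | inv g _ hg =>
    obtain ⟨x1, hx1, y1, hy1, h1⟩ := hg
    refine ⟨star x1, hX.star _ hx1, star y1, hY.star _ hy1, fun v => ?_⟩
    have hxx := Fg9b_mul_star (hX.unit _ hx1)
    have hyy := Fg9b_mul_star (hY.unit _ hy1)
    have e : (r * y1 * star r) * (r * star y1 * star r) = 1 := by
      calc (r * y1 * star r) * (r * star y1 * star r) = r * y1 * (star r * r) * (star y1 * star r) := by
            simp only [mul_assoc]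
        _ = r * (y1 * star y1) * star r := by rw [hrr]; simp only [mul_assoc, mul_one]
        _ = 1 := by rw [hyy, mul_one, hrr']
    have key : g (tF (star x1) (r * star y1 * star r) v) = v := by
      rw [h1, Fg9b_comp, hxx, e]
      simp [tF]
    have : (g⁻¹ : ℍ[ℝ] ≃ₗᵢ[ℝ] ℍ[ℝ]) v = (g⁻¹ : ℍ[ℝ] ≃ₗᵢ[ℝ] ℍ[ℝ]) (g (tF (star x1) (r * star y1 * star r) v)) := by
      rw [key]
    rw [this]
    exact g.symm_apply_apply _

private theorem Fg9b_pow {l : ℍ[ℝ]} {s : ℍ[ℝ] ≃ₗᵢ[ℝ] ℍ[ℝ]} (hs : ∀ v, s v = tF l l v) (j : ℕ) :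
    ∀ v, (s ^ j) v = tF (l ^ j) (l ^ j) v := by
  induction j with
  | zero => intro v; simp [tF]
  | succ n ih =>
    intro v
    rw [pow_succ, pow_succ, ← Fg9b_comp, ← hs, ← ih]
    rfl

private theorem Fg9b_memX {X : Set ℍ[ℝ]} (hX : FinGp X) {l x : ℍ[ℝ]} (hl : l ∈ X) (hx : x ∈ X)
    (j : ℕ) : x * l ^ j ∈ X := by
  induction j with
  | zero => simpa using hx
  | succ n ih =>
    rw [pow_succ, ← mul_assoc]
    exact hX.mul _ ih _ hl

private theorem Fg9b_cyc {X : Set ℍ[ℝ]} (hX : FinGp X) {l a x : ℍ[ℝ]} (hl : l ∈ X) (ha : a ∈ X)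
    (hlJ : l.imJ = 0) (hlK : l.imK = 0) (h0 : l.re ≠ 0) (h1 : l.imI ≠ 0) (hU : UI a)
    (ha0 : a.imI ≠ 0) (ha1 : a.imI ^ 2 ≠ 1) (hx : x ∈ X) (hxJ : x.imJ = 0) (hxK : x.imK = 0) :
    ∃ j : ℕ, x = l ^ j ∨ x = -l ^ j := by
  obtain ⟨hC, -⟩ := axes hX hl ha hlJ hlK h0 h1 hU ha0 ha1
  have hl1 := hX.unit _ hl
  have hn : l.re ^ 2 + l.imI ^ 2 = 1 := by
    rw [Quaternion.normSq_def', hlJ, hlK] at hl1
    linarith
  refine cyclic_arith hl1 hlJ hlK (hX.unit _ hx) hxJ hxK ?_ fun j => hC _ (Fg9b_memX hX hl hx j)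
  rcases hC _ hl with h | h | h
  · exact absurd h h0
  · exfalso
    apply h1
    have : l.imI ^ 2 = 0 := by linarith
    exact pow_eq_zero_iff (two_ne_zero) |>.1 this
  · exact h

/-- Row Fg9. Let `l` be as in `exists_l`, `a = α i + ρ j`, `b0 = β i + σ j`, `X ∋ l, a`, `Y ∋ l, b0` finite
groups (`exists_finGp`). Let `b = β i + σ (x j + y k)`, `x = cos ψ`, `y = sin ψ`, `r = cos (ψ/2) +
sin (ψ/2) i`: `b = r b0 r̄`, `r` commutes with `l`. Every `g ∈ GG s t` is `v ↦ x' v ȳ'` with `x' ∈ X`,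
`y' = r y0 r̄`, `y0 ∈ Y` (closure induction). If `g 1 = 1` then `x' = y'`. If `x'` has a part in the plane
of `j, k` then so has `y0`, and this part of `x'` is `(cos ψ + i sin ψ)` times the part of `y0`: `(x, y)` is
determined by the pair `(x', y0)`, which gives finitely many `(x, y)`. Otherwise `x' = p + q i ∈ X`,
and `y0 = x' ∈ Y`; `X` or `Y` satisfies `Cs` for all its elements (`axes`, as one of `α, β` is not `0`),
and `cyclic_arith` gives `x' = ± l ^ j`, `g = s ^ j`. -/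
theorem exceptional {c d α β ρ σ : ℝ} (hcd : c ^ 2 + d ^ 2 = 1) (hd : d ≠ 0)
    (hρ : α ^ 2 + ρ ^ 2 = 1) (hσ : β ^ 2 + σ ^ 2 = 1) (hne : α ^ 2 ≠ β ^ 2) (h1 : Ax c (α ^ 2))
    (h2 : Ax c (β ^ 2)) :
    {p : ℝ × ℝ | p.1 ^ 2 + p.2 ^ 2 = 1 ∧ ∃ s t : ℍ[ℝ] ≃ₗᵢ[ℝ] ℍ[ℝ],
      Std s t 1 c d ⟨0, α, ρ, 0⟩ ⟨0, β, σ * p.1, σ * p.2⟩ ∧
      ∃ g ∈ GG s t, g 1 = 1 ∧ g ∉ Subgroup.zpowers s}.Finite := by
  obtain ⟨l, hl1, hlJ, hlK, hlc, hld, hls⟩ := exists_l hcd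
  have hl0 : l.re ≠ 0 := by
    intro h; apply hd; rw [← hld, h]; ring
  have hlI : l.imI ≠ 0 := by
    intro h; apply hd; rw [← hld, h]; ring
  have hUa : UI (⟨0, α, ρ, 0⟩ : ℍ[ℝ]) := ⟨rfl, by
    show α ^ 2 + ρ ^ 2 + (0 : ℝ) ^ 2 = 1
    rw [hρ]; norm_num⟩
  have hUb : UI (⟨0, β, σ, 0⟩ : ℍ[ℝ]) := ⟨rfl, by
    show β ^ 2 + σ ^ 2 + (0 : ℝ) ^ 2 = 1
    rw [hσ]; norm_num⟩
  have hcc := c_cases h1 h2 hne
  obtain ⟨X, hX, hlX, haX⟩ := exists_finGp hcd hd hcc hl1 hlJ hlK hlc hld hUa h1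
  obtain ⟨Y, hY, hlY, hbY⟩ := exists_finGp hcd hd hcc hl1 hlJ hlK hlc hld hUb h2
  have hfin : ((fun q : ℍ[ℝ] × ℍ[ℝ] =>
      ((q.1.imJ * q.2.imJ + q.1.imK * q.2.imK) / (q.2.imJ ^ 2 + q.2.imK ^ 2),
        (q.1.imK * q.2.imJ - q.1.imJ * q.2.imK) / (q.2.imJ ^ 2 + q.2.imK ^ 2))) '' (X ×ˢ Y)).Finite :=
    (hX.fin.prod hY.fin).image _
  refine hfin.subset ?_
  rintro ⟨x, y⟩ ⟨hxy, s, t, H, g, hg, hg1, hgs⟩
  dsimp only at hxy H
  obtain ⟨r, hr1, hrJ, hrK, hrc, hrd, hrs⟩ := exists_l hxy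
  have hconj : ∀ v : ℍ[ℝ], r * v * star r = sF 1 x y v := fun v => (hrs v).symm
  have hs : ∀ v, s v = tF l l v := fun v => by rw [H.hs, hls]
  have hrl : r * l * star r = l := by
    rw [hconj]
    ext <;> simp [sF, hlJ, hlK]
  have hrb : ∀ b0 : ℍ[ℝ], b0 = ⟨0, β, σ, 0⟩ → r * b0 * star r = ⟨0, β, σ * x, σ * y⟩ := by
    intro b0 hb0
    rw [hconj, hb0]
    ext <;> simp [sF, mul_comm]
  obtain ⟨x', hx', y0, hy0, hgv⟩ := Fg9b_all hX hY hlX haX hlY hbY hr1 hrl (hrb _ rfl) hs H.ht g hg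
  have hrr := Fg9b_star_mul hr1
  have hrr' := Fg9b_mul_star hr1
  have hyy : star (r * y0 * star r) * (r * y0 * star r) = 1 := by
    calc star (r * y0 * star r) * (r * y0 * star r)
        = r * star y0 * (star r * r) * (y0 * star r) := by
          simp only [star_mul, star_star, mul_assoc]
      _ = r * (star y0 * y0) * star r := by rw [hrr]; simp only [mul_assoc, mul_one]
      _ = 1 := by rw [Fg9b_star_mul (hY.unit _ hy0), mul_one, hrr']
  have hxy' : x' = r * y0 * star r := by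
    have h3 := hgv 1
    rw [hg1] at h3
    have h4 : x' * star (r * y0 * star r) = 1 := by
      rw [h3]; simp only [tF, mul_one]
    calc x' = x' * (star (r * y0 * star r) * (r * y0 * star r)) := by rw [hyy, mul_one]
      _ = (x' * star (r * y0 * star r)) * (r * y0 * star r) := (mul_assoc _ _ _).symm
      _ = _ := by rw [h4, one_mul]
  have hcomp : x' = sF 1 x y y0 := by rw [hxy', hconj]
  have eJ : x'.imJ = x * y0.imJ - y * y0.imK := by rw [hcomp]; rfl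
  have eK : x'.imK = y * y0.imJ + x * y0.imK := by rw [hcomp]; rfl
  have eI : x'.imI = y0.imI := by rw [hcomp]; exact one_mul _
  have eR : x'.re = y0.re := by rw [hcomp]; rfl
  by_cases hz : y0.imJ ^ 2 + y0.imK ^ 2 = 0
  · exfalso
    have hJ : y0.imJ = 0 := by nlinarith [sq_nonneg y0.imJ, sq_nonneg y0.imK]
    have hK : y0.imK = 0 := by nlinarith [sq_nonneg y0.imJ, sq_nonneg y0.imK]
    have hxJ : x'.imJ = 0 := by rw [eJ, hJ, hK]; ring
    have hxK : x'.imK = 0 := by rw [eK, hJ, hK]; ring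
    have hxy0 : x' = y0 := by
      ext
      · exact eR
      · exact eI
      · rw [hxJ, hJ]
      · rw [hxK, hK]
    have hchi : ρ * (σ * y) - 0 * (σ * x) ≠ 0 := H.chi.2
    have hρ0 : ρ ≠ 0 := by rintro rfl; apply hchi; ring
    have hσ0 : σ ≠ 0 := by rintro rfl; apply hchi; ring
    have hj : ∃ j : ℕ, x' = l ^ j ∨ x' = -l ^ j := by
      by_cases hα : α = 0
      · have hβ : β ≠ 0 := by
          rintro rfl; apply hne; rw [hα]
        refine Fg9b_cyc hY hlY hbY hlJ hlK hl0 hlI hUb hβ ?_ (hxy0 ▸ hy0) hxJ hxK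
        intro h
        have h' : β ^ 2 = 1 := h
        apply hσ0
        have : σ ^ 2 = 0 := by linarith
        exact pow_eq_zero_iff (two_ne_zero) |>.1 this
      · refine Fg9b_cyc hX hlX haX hlJ hlK hl0 hlI hUa hα ?_ hx' hxJ hxK
        intro h
        have h' : α ^ 2 = 1 := h
        apply hρ0
        have : ρ ^ 2 = 0 := by linarith
        exact pow_eq_zero_iff (two_ne_zero) |>.1 this
    obtain ⟨j, hj⟩ := hj
    apply hgs
    have hgj : g = s ^ j := by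
      ext1 v
      rw [hgv v, ← hxy', Fg9b_pow hs j v]
      rcases hj with hj | hj
      · rw [hj]
      · rw [hj]; simp [tF]
    rw [hgj]
    exact Subgroup.npow_mem_zpowers s j
  · refine ⟨(x', y0), ⟨hx', hy0⟩, ?_⟩
    refine Prod.ext ?_ ?_
    · show (x'.imJ * y0.imJ + x'.imK * y0.imK) / (y0.imJ ^ 2 + y0.imK ^ 2) = x
      rw [div_eq_iff hz, eJ, eK]; ring
    · show (x'.imK * y0.imJ - x'.imJ * y0.imK) / (y0.imJ ^ 2 + y0.imK ^ 2) = y
      rw [div_eq_iff hz, eJ, eK]; ring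

end ChiralQ
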