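import Pool.Agent.Lib.MP_bc704c_co.Q.Re3
import Pool.Agent.Lib.MP_bc704c_co.Q.Ex6
import Pool.Agent.Lib.MP_bc704c_co.Q.Fg9b

/-! # MP_bc704c_co: finite chiral polyhedra in E^4, assembly -/

namespace ChiralQ

open Quaternion ChiralNF

universe u

theorem listed_of_std {s t : ℍ[ℝ] ≃ₗᵢ[ℝ] ℍ[ℝ]} {ε c d : ℝ} {a b : ℍ[ℝ]} (H : Std s t ε c d a b)
    (hG : Finite (GG s t)) : Listed ε c d a b := by
  rcases H.hε with h | h
  · subst h
    exact Or.inl ⟨rfl, listed_rot H hG⟩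
  · subst h
    exact listed_refl H hG

/-- every finite chiral polyhedron in `E^4` is in the list -/
theorem classify {F : Type u} [PartialOrder F] [BoundedOrder F] {rk : F → ℤ} [Finite F]
    (hP : IsPolytope 3 F rk) {β : F → EuclideanSpace ℝ (Fin 4)} (hβ : IsRealization rk β)
    (hc : IsChiral rk β) :
    ∃ (Φ : EuclideanSpace ℝ (Fin 4) → ℍ[ℝ]) (s t : ℍ[ℝ] ≃ₗᵢ[ℝ] ℍ[ℝ]) (ε c d : ℝ) (a b : ℍ[ℝ]),
      Std s t ε c d a b ∧ Listed ε c d a b ∧ Finite (GG s t) ∧ Model rk β Φ s t := by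
  obtain ⟨Φ, A, σ, τ, s, t, ε, c, d, a, b, H, S, hG⟩ := exists_base hP hβ hc
  exact ⟨Φ, s, t, ε, c, d, a, b, S, listed_of_std S hG, hG, H.model hβ S⟩

/-- all the data of rotation type in the list with a good stabiliser occur -/
theorem construct {s t : ℍ[ℝ] ≃ₗᵢ[ℝ] ℍ[ℝ]} {c d : ℝ} {a b : ℍ[ℝ]} (H : Std s t 1 c d a b)
    (h1 : Ax c (a.imI ^ 2)) (h2 : Ax c (b.imI ^ 2))
    (hst : ∀ g ∈ GG s t, g 1 = 1 → g ∈ Subgroup.zpowers s) :
    ∃ (F : Type) (_ : PartialOrder F) (_ : BoundedOrder F) (rk : F → ℤ)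
      (β : F → EuclideanSpace ℝ (Fin 4)) (Φ : EuclideanSpace ℝ (Fin 4) → ℍ[ℝ]),
      Finite F ∧ IsPolytope 3 F rk ∧ IsRealization rk β ∧ IsChiral rk β ∧ Model rk β Φ s t := by
  have hfin : Finite (GG s t) := finite_of_listed H h1 h2
  obtain ⟨A, hB⟩ := exists_bse H
  exact ⟨Fc (gd H), inferInstance, inferInstance, Fc.rk, bet H, _, inferInstance,
    isPolytope (gd H), isReal H hst, hB.chiral H, hB.model (isReal H hst) H⟩

end ChiralQ
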