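import Pool.Agent.Lib.MP_bc704c_co.Q.Fin

/-! # MP_bc704c_co: almost all members of the families exist -/

namespace ChiralQ

open Quaternion ChiralNF

private theorem Gen_lt {c x : ℝ} (h : Ax c x) : x < 1 := by
  have h5 : √5 ^ 2 = 5 := Real.sq_sqrt (by norm_num)
  have h5' : 0 ≤ √5 := Real.sqrt_nonneg 5
  have h3 : √5 < 3 := by nlinarith
  rcases h with h | ⟨_, h | h | h | h⟩ | ⟨_, h⟩ | ⟨_, h | h⟩ <;> rw [h] <;> linarith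

private theorem Gen_ne {x y : ℝ} (h : x ^ 2 + y ^ 2 = 1) (hx : x ^ 2 < 1) : y ≠ 0 := by
  rintro rfl
  nlinarith

/-- for given `c, d, α, β` all azimuths except finitely many give a chiral polyhedron -/
theorem generic {c d α β ρ σ : ℝ} (hcd : c ^ 2 + d ^ 2 = 1) (hd : d ≠ 0)
    (hρ : α ^ 2 + ρ ^ 2 = 1) (hσ : β ^ 2 + σ ^ 2 = 1) (hne : α ^ 2 ≠ β ^ 2) (h1 : Ax c (α ^ 2))
    (h2 : Ax c (β ^ 2)) :
    {p : ℝ × ℝ | p.1 ^ 2 + p.2 ^ 2 = 1 ∧ ¬ ∃ (s t : ℍ[ℝ] ≃ₗᵢ[ℝ] ℍ[ℝ]) (F : Type)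
      (_ : PartialOrder F) (_ : BoundedOrder F) (rk : F → ℤ) (γ : F → EuclideanSpace ℝ (Fin 4))
      (Φ : EuclideanSpace ℝ (Fin 4) → ℍ[ℝ]),
      Std s t 1 c d ⟨0, α, ρ, 0⟩ ⟨0, β, σ * p.1, σ * p.2⟩ ∧
      Finite F ∧ IsPolytope 3 F rk ∧ IsRealization rk γ ∧ IsChiral rk γ ∧
      Model rk γ Φ s t}.Finite := by
  have hE := exceptional hcd hd hρ hσ hne h1 h2
  have hF : ({((1 : ℝ), (0 : ℝ)), ((-1 : ℝ), (0 : ℝ))} : Set (ℝ × ℝ)).Finite := by simp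
  refine (hE.union hF).subset ?_
  rintro ⟨x, y⟩ ⟨hxy, hno⟩
  simp only at hxy hno
  by_cases hy : y = 0
  · right
    subst hy
    have hx : (x - 1) * (x + 1) = 0 := by nlinarith
    rcases mul_eq_zero.mp hx with h | h
    · have : x = 1 := by linarith
      subst this
      simp
    · have : x = -1 := by linarith
      subst this
      simp
  · left
    have hρ0 : ρ ≠ 0 := Gen_ne hρ (Gen_lt h1)
    have hσ0 : σ ≠ 0 := Gen_ne hσ (Gen_lt h2)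
    have ha : UI (⟨0, α, ρ, 0⟩ : ℍ[ℝ]) := ⟨rfl, by
      show α ^ 2 + ρ ^ 2 + 0 ^ 2 = 1
      linarith⟩
    have hb : UI (⟨0, β, σ * x, σ * y⟩ : ℍ[ℝ]) := ⟨rfl, by
      show β ^ 2 + (σ * x) ^ 2 + (σ * y) ^ 2 = 1
      linear_combination hσ + σ ^ 2 * hxy⟩
    obtain ⟨s, hs⟩ := exists_sIso (ε := 1) (Or.inl rfl) hcd
    obtain ⟨t, ht⟩ := exists_tIso ha.normSq hb.normSq
    have H : Std s t 1 c d ⟨0, α, ρ, 0⟩ ⟨0, β, σ * x, σ * y⟩ := by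
      refine ⟨Or.inl rfl, hcd, hd, ha, hb, ⟨hne, ?_⟩, hs, ht⟩
      show ρ * (σ * y) - 0 * (σ * x) ≠ 0
      simp [hρ0, hσ0, hy]
    refine ⟨hxy, s, t, H, ?_⟩
    by_contra hcon
    push Not at hcon
    obtain ⟨F, i1, i2, rk, γ, Φ, hh⟩ := construct H h1 h2 hcon
    exact hno ⟨s, t, F, i1, i2, rk, γ, Φ, H, hh⟩

end ChiralQ
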