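import Pool.Agent.Lib.MP_bc704c_co.Defs

/-! # MP_bc704c_co, row Po1: the coset polyhedron of a group with two generators -/

namespace ChiralQ

open ChiralNF

universe u

/-- a group with two generators `s, t` as needed for the coset polyhedron -/
structure GD (G : Type u) [Group G] where
  s : G
  t : G
  tt : t * t = 1
  gen : Subgroup.closure {s, t} = ⊤
  inter : ∀ j k : ℤ, s ^ j = (s * t) ^ k → s ^ j = 1
  ts : ∀ j : ℤ, t ≠ s ^ j
  tf : ∀ j : ℤ, t ≠ (s * t) ^ j

variable {G : Type u} [Group G]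

/-- the faces: vertices, edges, faces are the cosets of `⟨s⟩`, `⟨t⟩`, `⟨s t⟩` -/
inductive Fc (D : GD G) : Type u
  | bot : Fc D
  | v (x : G ⧸ Subgroup.zpowers D.s) : Fc D
  | e (x : G ⧸ Subgroup.zpowers D.t) : Fc D
  | f (x : G ⧸ Subgroup.zpowers (D.s * D.t)) : Fc D
  | top : Fc D

variable {D : GD G}

/-- the vertex, the edge and the face of `g` -/
def cv (D : GD G) (g : G) : Fc D := Fc.v (QuotientGroup.mk g)
def ce (D : GD G) (g : G) : Fc D := Fc.e (QuotientGroup.mk g)
def cf (D : GD G) (g : G) : Fc D := Fc.f (QuotientGroup.mk g)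

/-- the rank -/
def Fc.rk : Fc D → ℤ
  | .bot => -1
  | .v _ => 0
  | .e _ => 1
  | .f _ => 2
  | .top => 3

/-- incidence: common group elements -/
def Fc.le : Fc D → Fc D → Prop
  | .bot, _ => True
  | _, .top => True
  | .v x, .v y => x = y
  | .v x, .e y => ∃ g : G, QuotientGroup.mk g = x ∧ QuotientGroup.mk g = y
  | .v x, .f y => ∃ g : G, QuotientGroup.mk g = x ∧ QuotientGroup.mk g = y
  | .e x, .e y => x = y
  | .e x, .f y => ∃ g : G, QuotientGroup.mk g = x ∧ QuotientGroup.mk g = y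
  | .f x, .f y => x = y
  | _, _ => False

theorem Po1_tpow (D : GD G) (j : ℤ) : D.t ^ j = 1 ∨ D.t ^ j = D.t := by
  rcases Int.even_or_odd' j with ⟨m, rfl | rfl⟩
  · left
    rw [zpow_mul, zpow_two, D.tt, one_zpow]
  · right
    rw [zpow_add, zpow_mul, zpow_two, D.tt, one_zpow, one_mul, zpow_one]

theorem Po1_main (D : GD G) {a : G ⧸ Subgroup.zpowers D.s} {b : G ⧸ Subgroup.zpowers D.t}
    {c : G ⧸ Subgroup.zpowers (D.s * D.t)}
    (h1 : ∃ g : G, QuotientGroup.mk g = a ∧ QuotientGroup.mk g = b)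
    (h2 : ∃ g : G, QuotientGroup.mk g = b ∧ QuotientGroup.mk g = c) :
    ∃ g : G, QuotientGroup.mk g = a ∧ QuotientGroup.mk g = c := by
  obtain ⟨g, ga, gb⟩ := h1
  obtain ⟨h, hb, hc⟩ := h2
  have h3 : (QuotientGroup.mk g : G ⧸ Subgroup.zpowers D.t) = QuotientGroup.mk h := gb.trans hb.symm
  rw [QuotientGroup.eq, Subgroup.mem_zpowers_iff] at h3
  obtain ⟨j, hj⟩ := h3
  rcases Po1_tpow D j with h4 | h4
  · rw [h4] at hj
    have h5 : g = h := (inv_mul_eq_one.1 hj.symm)
    subst h5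
    exact ⟨g, ga, hc⟩
  · rw [h4] at hj
    have h5 : h = g * D.t := by rw [hj]; group
    refine ⟨g * D.s⁻¹, ?_, ?_⟩
    · rw [← ga, QuotientGroup.eq, Subgroup.mem_zpowers_iff]
      exact ⟨1, by group⟩
    · rw [← hc, QuotientGroup.eq, Subgroup.mem_zpowers_iff]
      exact ⟨1, by rw [h5]; group⟩

/-- Row Po1. `mk g = mk h` iff `g⁻¹ h` is a power (`QuotientGroup.eq`). If `g` is in the vertex and in
the edge, `h` in the edge and in the face, then `h = g` or `h = g t` (`t² = 1`), and in the second case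
`g s⁻¹ = h (s t)⁻¹` is in the vertex and in the face. -/
theorem Fc.le_trans (D : GD G) (x y z : Fc D) (h1 : Fc.le x y) (h2 : Fc.le y z) : Fc.le x z := by
  rcases x with _ | a | a | a | _ <;> rcases y with _ | b | b | b | _ <;>
    rcases z with _ | c | c | c | _ <;> first
      | exact True.intro
      | exact (h1 : False).elim
      | exact (h2 : False).elim
      | (have h3 : a = b := h1
         subst h3
         exact h2)
      | (have h3 : b = c := h2
         subst h3
         exact h1)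
      | exact Po1_main D h1 h2

theorem Fc.le_antisymm (D : GD G) (x y : Fc D) (h1 : Fc.le x y) (h2 : Fc.le y x) : x = y := by
  rcases x with _ | a | a | a | _ <;> rcases y with _ | b | b | b | _ <;> first
      | rfl
      | exact (h1 : False).elim
      | exact (h2 : False).elim
      | (have h3 : a = b := h1
         subst h3
         rfl)

theorem Fc.le_refl (D : GD G) (x : Fc D) : Fc.le x x := by cases x <;> simp [Fc.le]

instance : PartialOrder (Fc D) where
  le := Fc.le
  le_refl := Fc.le_refl D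
  le_trans := Fc.le_trans D
  le_antisymm := Fc.le_antisymm D

instance : BoundedOrder (Fc D) where
  top := Fc.top
  le_top := fun a => by cases a <;> trivial
  bot := Fc.bot
  bot_le := fun a => trivial

instance [Finite G] : Finite (Fc D) := by
  have h : Function.Surjective (fun x : Option (Option ((G ⧸ Subgroup.zpowers D.s) ⊕
      ((G ⧸ Subgroup.zpowers D.t) ⊕ (G ⧸ Subgroup.zpowers (D.s * D.t))))) =>
      match x with
      | none => (Fc.bot : Fc D)
      | some none => Fc.top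
      | some (some (Sum.inl x)) => Fc.v x
      | some (some (Sum.inr (Sum.inl x))) => Fc.e x
      | some (some (Sum.inr (Sum.inr x))) => Fc.f x) := by
    intro y
    cases y with
    | bot => exact ⟨none, rfl⟩
    | v x => exact ⟨some (some (Sum.inl x)), rfl⟩
    | e x => exact ⟨some (some (Sum.inr (Sum.inl x))), rfl⟩
    | f x => exact ⟨some (some (Sum.inr (Sum.inr x))), rfl⟩
    | top => exact ⟨some none, rfl⟩
  exact Finite.of_surjective _ h

/-- Row Po1. Basic facts. -/
theorem rk_strictMono : StrictMono (Fc.rk : Fc D → ℤ) := by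
  intro x y h
  have h1 : Fc.le x y := h.le
  have h2 : x ≠ y := h.ne
  rcases x with _ | a | a | a | _ <;> rcases y with _ | b | b | b | _ <;> first
      | exact (h1 : False).elim
      | exact absurd rfl h2
      | (have h3 : a = b := h1
         subst h3
         exact absurd rfl h2)
      | simp [Fc.rk]

/-- Row Po1. -/
theorem cv_eq {g h : G} : cv D g = cv D h ↔ ∃ j : ℤ, h = g * D.s ^ j := by
  unfold cv
  rw [Fc.v.injEq, QuotientGroup.eq, Subgroup.mem_zpowers_iff]
  constructor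
  · rintro ⟨j, hj⟩
    exact ⟨j, by rw [hj]; group⟩
  · rintro ⟨j, hj⟩
    exact ⟨j, by rw [hj]; group⟩

theorem ce_eq {g h : G} : ce D g = ce D h ↔ h = g ∨ h = g * D.t := by
  unfold ce
  rw [Fc.e.injEq, QuotientGroup.eq, Subgroup.mem_zpowers_iff]
  constructor
  · rintro ⟨j, hj⟩
    rcases Po1_tpow D j with h1 | h1
    · left
      rw [h1] at hj
      exact (inv_mul_eq_one.1 hj.symm).symm
    · right
      rw [h1] at hj
      rw [hj]
      group
  · rintro (h1 | h1)
    · exact ⟨0, by rw [h1]; group⟩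
    · exact ⟨1, by rw [h1]; group⟩

theorem cf_eq {g h : G} : cf D g = cf D h ↔ ∃ j : ℤ, h = g * (D.s * D.t) ^ j := by
  unfold cf
  rw [Fc.f.injEq, QuotientGroup.eq, Subgroup.mem_zpowers_iff]
  constructor
  · rintro ⟨j, hj⟩
    exact ⟨j, by rw [hj, mul_inv_cancel_left]⟩
  · rintro ⟨j, hj⟩
    exact ⟨j, by rw [hj, inv_mul_cancel_left]⟩

theorem cv_le_ce {g h : G} : cv D g ≤ ce D h ↔ ∃ k, cv D k = cv D g ∧ ce D k = ce D h := by
  have h1 : cv D g ≤ ce D h ↔ ∃ k : G, QuotientGroup.mk k = (QuotientGroup.mk g : G ⧸ Subgroup.zpowers D.s) ∧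
      QuotientGroup.mk k = (QuotientGroup.mk h : G ⧸ Subgroup.zpowers D.t) := Iff.rfl
  rw [h1]
  constructor
  · rintro ⟨k, hk, hk'⟩
    exact ⟨k, congrArg Fc.v hk, congrArg Fc.e hk'⟩
  · rintro ⟨k, hk, hk'⟩
    exact ⟨k, Fc.v.inj hk, Fc.e.inj hk'⟩

theorem cv_le_cf {g h : G} : cv D g ≤ cf D h ↔ ∃ k, cv D k = cv D g ∧ cf D k = cf D h := by
  have h1 : cv D g ≤ cf D h ↔ ∃ k : G, QuotientGroup.mk k = (QuotientGroup.mk g : G ⧸ Subgroup.zpowers D.s) ∧
      QuotientGroup.mk k = (QuotientGroup.mk h : G ⧸ Subgroup.zpowers (D.s * D.t)) := Iff.rfl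
  rw [h1]
  constructor
  · rintro ⟨k, hk, hk'⟩
    exact ⟨k, congrArg Fc.v hk, congrArg Fc.f hk'⟩
  · rintro ⟨k, hk, hk'⟩
    exact ⟨k, Fc.v.inj hk, Fc.f.inj hk'⟩

theorem ce_le_cf {g h : G} : ce D g ≤ cf D h ↔ ∃ k, ce D k = ce D g ∧ cf D k = cf D h := by
  have h1 : ce D g ≤ cf D h ↔ ∃ k : G, QuotientGroup.mk k = (QuotientGroup.mk g : G ⧸ Subgroup.zpowers D.t) ∧
      QuotientGroup.mk k = (QuotientGroup.mk h : G ⧸ Subgroup.zpowers (D.s * D.t)) := Iff.rfl
  rw [h1]
  constructor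
  · rintro ⟨k, hk, hk'⟩
    exact ⟨k, congrArg Fc.e hk, congrArg Fc.f hk'⟩
  · rintro ⟨k, hk, hk'⟩
    exact ⟨k, Fc.e.inj hk, Fc.f.inj hk'⟩

end ChiralQ
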