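import Pool.Agent.Lib.MP_bc704c_co.Q.Po1

/-! # MP_bc704c_co, row Po2: the flags of the coset polyhedron -/

namespace ChiralQ

open ChiralNF

universe u

variable {G : Type u} [Group G] {D : GD G}

/-- the flags: `tri D g false` has the vertex, the edge and the face of `g`, `tri D g true` has the
vertex and the edge of `g` and the face of `g t` -/
def tri (D : GD G) (g : G) (b : Bool) : Set (Fc D) :=
  {Fc.bot, cv D g, ce D g, cf D (if b then g * D.t else g), Fc.top}

private theorem Po2_cv_le_cv {g h : G} : cv D g ≤ cv D h ↔ cv D g = cv D h := by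
  constructor
  · intro H
    exact congrArg Fc.v H
  · intro H
    exact H ▸ le_refl _

private theorem Po2_ce_le_ce {g h : G} : ce D g ≤ ce D h ↔ ce D g = ce D h := by
  constructor
  · intro H
    exact congrArg Fc.e H
  · intro H
    exact H ▸ le_refl _

private theorem Po2_cf_le_cf {g h : G} : cf D g ≤ cf D h ↔ cf D g = cf D h := by
  constructor
  · intro H
    exact congrArg Fc.f H
  · intro H
    exact H ▸ le_refl _

private theorem Po2_not_ce_le_cv {g h : G} : ¬ ce D g ≤ cv D h := fun H => H

private theorem Po2_not_cf_le_cv {g h : G} : ¬ cf D g ≤ cv D h := fun H => H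

private theorem Po2_not_cf_le_ce {g h : G} : ¬ cf D g ≤ ce D h := fun H => H

private theorem Po2_cv_le {g : G} : cv D g ≤ ce D g := cv_le_ce.2 ⟨g, rfl, rfl⟩

private theorem Po2_ce_le {g : G} (b : Bool) : ce D g ≤ cf D (if b then g * D.t else g) := by
  cases b with
  | false => exact ce_le_cf.2 ⟨g, rfl, rfl⟩
  | true =>
    refine ce_le_cf.2 ⟨g * D.t, ?_, rfl⟩
    exact (ce_eq.2 (Or.inr rfl)).symm

/-- an element of the chain determines the same-rank member -/
private theorem Po2_chain (g : G) (b : Bool) : IsChain (· ≤ ·) (tri D g b) := by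
  have h1 : cv D g ≤ ce D g := Po2_cv_le
  have h2 : ce D g ≤ cf D (if b then g * D.t else g) := Po2_ce_le b
  have h3 : cv D g ≤ cf D (if b then g * D.t else g) := h1.trans h2
  have hb : ∀ x : Fc D, Fc.bot ≤ x := fun x => trivial
  have ht : ∀ x : Fc D, x ≤ Fc.top := fun x => by cases x <;> trivial
  intro x hx y hy _
  simp only [tri, Set.mem_insert_iff, Set.mem_singleton_iff] at hx hy
  rcases hx with rfl | rfl | rfl | rfl | rfl <;> rcases hy with rfl | rfl | rfl | rfl | rfl
  all_goals first
    | exact Or.inl (hb _)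
    | exact Or.inr (hb _)
    | exact Or.inl (ht _)
    | exact Or.inr (ht _)
    | exact Or.inl (le_refl _)
    | exact Or.inl h1
    | exact Or.inr h1
    | exact Or.inl h2
    | exact Or.inr h2
    | exact Or.inl h3
    | exact Or.inr h3

/-- elements comparable with the whole triple are in it -/
private theorem Po2_mem (g : G) (b : Bool) (c : Fc D)
    (h : ∀ x ∈ tri D g b, x ≤ c ∨ c ≤ x) : c ∈ tri D g b := by
  have hv := h (cv D g) (by simp [tri])
  have he := h (ce D g) (by simp [tri])
  have hf := h (cf D (if b then g * D.t else g)) (by simp [tri])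
  cases c with
  | bot => simp [tri]
  | top => simp [tri]
  | v x =>
    obtain ⟨a, rfl⟩ := QuotientGroup.mk_surjective x
    have : cv D g = cv D a := by
      rcases hv with hv | hv
      · exact Po2_cv_le_cv.1 hv
      · exact (Po2_cv_le_cv.1 hv).symm
    change cv D a ∈ tri D g b
    rw [← this]
    simp [tri]
  | e x =>
    obtain ⟨a, rfl⟩ := QuotientGroup.mk_surjective x
    have : ce D g = ce D a := by
      rcases he with he | he
      · exact Po2_ce_le_ce.1 he
      · exact (Po2_ce_le_ce.1 he).symm
    change ce D a ∈ tri D g b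
    rw [← this]
    simp [tri]
  | f x =>
    obtain ⟨a, rfl⟩ := QuotientGroup.mk_surjective x
    have : cf D (if b then g * D.t else g) = cf D a := by
      rcases hf with hf | hf
      · exact Po2_cf_le_cf.1 hf
      · exact (Po2_cf_le_cf.1 hf).symm
    change cf D a ∈ tri D g b
    rw [← this]
    simp [tri]

/-- the three possible members of a chain -/
private theorem Po2_triple (A : Set (Fc D)) (hA : IsChain (· ≤ ·) A) :
    ∃ (g : G) (b : Bool), (∀ a, cv D a ∈ A → cv D a = cv D g) ∧ (∀ a, ce D a ∈ A → ce D a = ce D g) ∧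
      (∀ a, cf D a ∈ A → cf D a = cf D (if b then g * D.t else g)) := by
  have hvv : ∀ a c, cv D a ∈ A → cv D c ∈ A → cv D a = cv D c := by
    intro a c h1 h2
    rcases hA.total h1 h2 with h | h
    · exact Po2_cv_le_cv.1 h
    · exact (Po2_cv_le_cv.1 h).symm
  have hee : ∀ a c, ce D a ∈ A → ce D c ∈ A → ce D a = ce D c := by
    intro a c h1 h2
    rcases hA.total h1 h2 with h | h
    · exact Po2_ce_le_ce.1 h
    · exact (Po2_ce_le_ce.1 h).symm
  have hff : ∀ a c, cf D a ∈ A → cf D c ∈ A → cf D a = cf D c := by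
    intro a c h1 h2
    rcases hA.total h1 h2 with h | h
    · exact Po2_cf_le_cf.1 h
    · exact (Po2_cf_le_cf.1 h).symm
  have hve : ∀ a c, cv D a ∈ A → ce D c ∈ A → ∃ k, cv D k = cv D a ∧ ce D k = ce D c := by
    intro a c h1 h2
    rcases hA.total h1 h2 with h | h
    · exact cv_le_ce.1 h
    · exact (Po2_not_ce_le_cv h).elim
  have hvf : ∀ a c, cv D a ∈ A → cf D c ∈ A → ∃ k, cv D k = cv D a ∧ cf D k = cf D c := by
    intro a c h1 h2
    rcases hA.total h1 h2 with h | h
    · exact cv_le_cf.1 h
    · exact (Po2_not_cf_le_cv h).elim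
  have hef : ∀ a c, ce D a ∈ A → cf D c ∈ A → ∃ k, ce D k = ce D a ∧ cf D k = cf D c := by
    intro a c h1 h2
    rcases hA.total h1 h2 with h | h
    · exact ce_le_cf.1 h
    · exact (Po2_not_cf_le_ce h).elim
  by_cases hv : ∃ a, cv D a ∈ A
  · obtain ⟨a, ha⟩ := hv
    by_cases he : ∃ a, ce D a ∈ A
    · obtain ⟨c, hc⟩ := he
      obtain ⟨l, hl1, hl2⟩ := hve a c ha hc
      by_cases hf : ∃ a, cf D a ∈ A
      · obtain ⟨d, hd⟩ := hf
        obtain ⟨k, hk1, hk2⟩ := hef c d hc hd
        rcases (ce_eq (D := D) (g := l) (h := k)).1 (hl2.trans hk1.symm) with h | h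
        · refine ⟨l, false, fun x hx => (hvv x a hx ha).trans hl1.symm,
            fun x hx => (hee x c hx hc).trans hl2.symm, fun x hx => (hff x d hx hd).trans ?_⟩
          rw [← hk2, h]
          rfl
        · refine ⟨l, true, fun x hx => (hvv x a hx ha).trans hl1.symm,
            fun x hx => (hee x c hx hc).trans hl2.symm, fun x hx => (hff x d hx hd).trans ?_⟩
          rw [← hk2, h]
          rfl
      · exact ⟨l, false, fun x hx => (hvv x a hx ha).trans hl1.symm,
          fun x hx => (hee x c hx hc).trans hl2.symm, fun x hx => (hf ⟨x, hx⟩).elim⟩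
    · by_cases hf : ∃ a, cf D a ∈ A
      · obtain ⟨d, hd⟩ := hf
        obtain ⟨l, hl1, hl2⟩ := hvf a d ha hd
        exact ⟨l, false, fun x hx => (hvv x a hx ha).trans hl1.symm,
          fun x hx => (he ⟨x, hx⟩).elim, fun x hx => (hff x d hx hd).trans hl2.symm⟩
      · exact ⟨a, false, fun x hx => hvv x a hx ha,
          fun x hx => (he ⟨x, hx⟩).elim, fun x hx => (hf ⟨x, hx⟩).elim⟩
  · by_cases he : ∃ a, ce D a ∈ A
    · obtain ⟨c, hc⟩ := he
      by_cases hf : ∃ a, cf D a ∈ A
      · obtain ⟨d, hd⟩ := hf
        obtain ⟨l, hl1, hl2⟩ := hef c d hc hd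
        exact ⟨l, false, fun x hx => (hv ⟨x, hx⟩).elim,
          fun x hx => (hee x c hx hc).trans hl1.symm, fun x hx => (hff x d hx hd).trans hl2.symm⟩
      · exact ⟨c, false, fun x hx => (hv ⟨x, hx⟩).elim,
          fun x hx => hee x c hx hc, fun x hx => (hf ⟨x, hx⟩).elim⟩
    · by_cases hf : ∃ a, cf D a ∈ A
      · obtain ⟨d, hd⟩ := hf
        exact ⟨d, false, fun x hx => (hv ⟨x, hx⟩).elim,
          fun x hx => (he ⟨x, hx⟩).elim, fun x hx => hff x d hx hd⟩
      · exact ⟨1, false, fun x hx => (hv ⟨x, hx⟩).elim,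
          fun x hx => (he ⟨x, hx⟩).elim, fun x hx => (hf ⟨x, hx⟩).elim⟩

/-- Row Po2. Every vertex is incident with an edge and a face, etc.: a chain which contains at most one
element of each rank can be completed. First: a vertex, an edge and a face which are pairwise incident
are `tri D g b`: let `k` be in the edge and the face; the edge is `{k, k t}`, the face is that of `k`; the
vertex is the vertex of `k` or of `k t` (it meets the edge): `tri D k false` or `tri D (k t) true`.
Then for a maximal chain `A` find such a triple which contains all elements of `A` (cases which ranks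
occur in `A`), and `A = tri D g b` by maximality (`Flag.max_chain'`). -/
theorem flag_eq (A : Flag (Fc D)) : ∃ g b, (A : Set (Fc D)) = tri D g b := by
  obtain ⟨g, b, h1, h2, h3⟩ := Po2_triple (A : Set (Fc D)) A.Chain'
  refine ⟨g, b, A.max_chain' (Po2_chain g b) ?_⟩
  intro c hc
  change c ∈ (A : Set (Fc D)) at hc
  cases c with
  | bot => simp [tri]
  | top => simp [tri]
  | v x =>
    obtain ⟨a, rfl⟩ := QuotientGroup.mk_surjective x
    have : cv D a = cv D g := h1 a hc
    change cv D a ∈ tri D g b
    rw [this]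
    simp [tri]
  | e x =>
    obtain ⟨a, rfl⟩ := QuotientGroup.mk_surjective x
    have : ce D a = ce D g := h2 a hc
    change ce D a ∈ tri D g b
    rw [this]
    simp [tri]
  | f x =>
    obtain ⟨a, rfl⟩ := QuotientGroup.mk_surjective x
    have : cf D a = cf D (if b then g * D.t else g) := h3 a hc
    change cf D a ∈ tri D g b
    rw [this]
    simp [tri]

/-- Row Po2. `tri D g b` is a chain, and an element comparable with all its elements is in it (an
element of the same rank which is comparable is equal). -/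
theorem exists_flag (g : G) (b : Bool) : ∃ A : Flag (Fc D), (A : Set (Fc D)) = tri D g b := by
  refine ⟨⟨tri D g b, Po2_chain g b, ?_⟩, rfl⟩
  intro s hs hsub
  refine Set.Subset.antisymm hsub ?_
  intro c hc
  exact Po2_mem g b c fun x hx => hs.total (hsub hx) hc

end ChiralQ
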