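import Pool.Agent.Lib.MP_bc704c_co.Q.Po1

/-! # MP_bc704c_co, row Po3: the diamond condition -/

namespace ChiralQ

open ChiralNF

universe u

variable {G : Type u} [Group G] {D : GD G}

private theorem Po3_lt {a b : Fc D} (h : a ≤ b) (hr : Fc.rk a < Fc.rk b) : a < b := by
  refine lt_of_le_of_ne h ?_
  intro he
  rw [he] at hr
  exact lt_irrefl _ hr

private theorem Po3_ncard {S : Set (Fc D)} (p q : Fc D) (hpq : p ≠ q)
    (hS : ∀ c, c ∈ S ↔ c = p ∨ c = q) : S.ncard = 2 := by
  have h : S = {p, q} := by
    ext c
    rw [hS c]
    simp
  rw [h]
  exact Set.ncard_pair hpq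

private theorem Po3_t_inv : D.t⁻¹ = D.t := by
  rw [inv_eq_iff_mul_eq_one]
  exact D.tt

/-- Row Po3. Between `⊥` and the edge of `g`: the vertices of `g` and `g t`, different because `t` is not
a power of `s`. Between the edge of `g` and `⊤`: the faces of `g` and `g t`, different because `t` is not
a power of `s t`. Between a vertex and a face with common element `g`: an edge `{k, k t}` with `k` in the
vertex, `k = g s ^ i`, and `k` or `k t` in the face `g ⟨s t⟩`; if `k` is: `s ^ i = (s t) ^ j`, so `k = g` by
`inter`; if `k t` is: `s ^ i t = (s t) ^ j`, `s ^ (i - 1) = (s t) ^ (j - 1)`, so `s ^ i = s`, `k = g s`. So the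
edges are those of `g` and `g s`; they are different: `g s = g` gives `s = 1`, `t = (s t)^1`, excluded, and
`g s = g t` gives `t = s`, excluded. -/
theorem diamond (a b : Fc D) (hab : a < b) (h : Fc.rk b = Fc.rk a + 2) :
    {c : Fc D | a < c ∧ c < b}.ncard = 2 := by
  have hrk : ∀ c : Fc D, a < c → c < b → Fc.rk c = Fc.rk a + 1 := by
    intro c h1 h2
    have h3 : Fc.rk a < Fc.rk c := rk_strictMono h1
    have h4 : Fc.rk c < Fc.rk b := rk_strictMono h2
    omega
  cases a with
  | bot =>
    cases b with
    | e y =>
      obtain ⟨g, rfl⟩ := QuotientGroup.mk_surjective y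
      apply Po3_ncard (cv D g) (cv D (g * D.t))
      · intro he
        obtain ⟨j, hj⟩ := cv_eq.1 he
        exact D.ts j (mul_left_cancel hj)
      · intro c
        constructor
        · rintro ⟨h1, h2⟩
          have h3 := hrk c h1 h2
          cases c with
          | v x =>
            have h4 : Fc.le (Fc.v x : Fc D) (Fc.e (QuotientGroup.mk g)) := le_of_lt h2
            obtain ⟨k, hk1, hk2⟩ := h4
            have h5 : ce D k = ce D g := congrArg Fc.e hk2
            rcases ce_eq.1 h5 with h6 | h6
            · left
              rw [h6]
              exact congrArg Fc.v hk1.symm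
            · right
              have h7 : g * D.t = k := by rw [h6, mul_assoc, D.tt, mul_one]
              rw [h7]
              exact congrArg Fc.v hk1.symm
          | bot => simp [Fc.rk] at h3
          | e x => simp [Fc.rk] at h3
          | f x => simp [Fc.rk] at h3
          | top => simp [Fc.rk] at h3
        · have hb : ∀ k : G, (Fc.bot : Fc D) < cv D k := fun k =>
            Po3_lt (show Fc.le Fc.bot _ from trivial) (by simp [Fc.rk, cv])
          rintro (rfl | rfl)
          · refine ⟨hb g, Po3_lt ?_ (by simp [Fc.rk, cv])⟩
            exact ⟨g, rfl, rfl⟩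
          · refine ⟨hb _, Po3_lt ?_ (by simp [Fc.rk, cv])⟩
            refine ⟨g * D.t, rfl, ?_⟩
            have h5 : ce D (g * D.t) = ce D g := (ce_eq.2 (Or.inr rfl)).symm
            exact Fc.e.inj h5
    | bot => simp [Fc.rk] at h
    | v x => simp [Fc.rk] at h
    | f x => simp [Fc.rk] at h
    | top => simp [Fc.rk] at h
  | v x =>
    cases b with
    | f y =>
      have h0 : Fc.le (Fc.v x : Fc D) (Fc.f y) := le_of_lt hab
      obtain ⟨g, rfl, rfl⟩ := h0
      apply Po3_ncard (ce D g) (ce D (g * D.s))
      · intro he
        rcases ce_eq.1 he with h1 | h1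
        · have h2 : D.s = 1 := by
            have : g * D.s = g * 1 := by rw [h1, mul_one]
            exact mul_left_cancel this
          apply D.tf 1
          rw [h2, zpow_one, one_mul]
        · apply D.ts 1
          rw [zpow_one]
          exact (mul_left_cancel h1).symm
      · intro c
        constructor
        · rintro ⟨h1, h2⟩
          have h3 := hrk c h1 h2
          cases c with
          | e z =>
            have h4 : Fc.le (Fc.v (QuotientGroup.mk g) : Fc D) (Fc.e z) := le_of_lt h1
            have h5 : Fc.le (Fc.e z : Fc D) (Fc.f (QuotientGroup.mk g)) := le_of_lt h2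
            obtain ⟨k, hk1, hk2⟩ := h4
            obtain ⟨l, hl1, hl2⟩ := h5
            have e1 : cv D g = cv D k := congrArg Fc.v hk1.symm
            have e2 : ce D k = ce D l := congrArg Fc.e (hk2.trans hl1.symm)
            have e3 : cf D g = cf D l := congrArg Fc.f hl2.symm
            obtain ⟨i, hi⟩ := cv_eq.1 e1
            obtain ⟨j, hj⟩ := cf_eq.1 e3
            rcases ce_eq.1 e2 with h6 | h6
            · left
              have h7 : D.s ^ i = (D.s * D.t) ^ j := by
                apply mul_left_cancel (a := g)
                rw [← hi, ← hj, h6]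
              have h8 := D.inter i j h7
              rw [h8, mul_one] at hi
              rw [← hi]
              exact congrArg Fc.e hk2.symm
            · right
              have h7 : D.s ^ i * D.t = (D.s * D.t) ^ j := by
                apply mul_left_cancel (a := g)
                rw [← hj, h6, hi, mul_assoc]
              have h8 : D.s ^ (i - 1) = (D.s * D.t) ^ (j - 1) := by
                rw [zpow_sub, zpow_sub, ← h7, zpow_one, zpow_one, mul_inv_rev]
                group
              have h9 := D.inter _ _ h8
              have h10 : D.s ^ i = D.s := by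
                rw [zpow_sub, zpow_one, mul_inv_eq_one] at h9
                exact h9
              rw [h10] at hi
              rw [← hi]
              exact congrArg Fc.e hk2.symm
          | bot => simp [Fc.rk] at h3
          | v x => simp [Fc.rk] at h3
          | f x => simp [Fc.rk] at h3
          | top => simp [Fc.rk] at h3
        · rintro (rfl | rfl)
          · refine ⟨Po3_lt ?_ (by simp [Fc.rk, ce]), Po3_lt ?_ (by simp [Fc.rk, ce])⟩
            · exact ⟨g, rfl, rfl⟩
            · exact ⟨g, rfl, rfl⟩
          · refine ⟨Po3_lt ?_ (by simp [Fc.rk, ce]), Po3_lt ?_ (by simp [Fc.rk, ce])⟩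
            · refine ⟨g * D.s, ?_, rfl⟩
              have h5 : cv D g = cv D (g * D.s) := cv_eq.2 ⟨1, by rw [zpow_one]⟩
              exact (Fc.v.inj h5).symm
            · refine ⟨g * (D.s * D.t), ?_, ?_⟩
              · have h5 : ce D (g * D.s) = ce D (g * (D.s * D.t)) :=
                  ce_eq.2 (Or.inr (by rw [mul_assoc]))
                exact (Fc.e.inj h5).symm
              · have h5 : cf D g = cf D (g * (D.s * D.t)) := cf_eq.2 ⟨1, by rw [zpow_one]⟩
                exact (Fc.f.inj h5).symm
    | bot => simp [Fc.rk] at h
    | v x => simp [Fc.rk] at h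
    | e x => simp [Fc.rk] at h
    | top => simp [Fc.rk] at h
  | e x =>
    cases b with
    | top =>
      obtain ⟨g, rfl⟩ := QuotientGroup.mk_surjective x
      apply Po3_ncard (cf D g) (cf D (g * D.t))
      · intro he
        obtain ⟨j, hj⟩ := cf_eq.1 he
        exact D.tf j (mul_left_cancel hj)
      · intro c
        constructor
        · rintro ⟨h1, h2⟩
          have h3 := hrk c h1 h2
          cases c with
          | f x =>
            have h4 : Fc.le (Fc.e (QuotientGroup.mk g) : Fc D) (Fc.f x) := le_of_lt h1
            obtain ⟨k, hk1, hk2⟩ := h4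
            have h5 : ce D k = ce D g := congrArg Fc.e hk1
            rcases ce_eq.1 h5 with h6 | h6
            · left
              rw [h6]
              exact congrArg Fc.f hk2.symm
            · right
              have h7 : g * D.t = k := by rw [h6, mul_assoc, D.tt, mul_one]
              rw [h7]
              exact congrArg Fc.f hk2.symm
          | bot => simp [Fc.rk] at h3
          | v x => simp [Fc.rk] at h3
          | e x => simp [Fc.rk] at h3
          | top => simp [Fc.rk] at h3
        · have hb : ∀ k : G, cf D k < (Fc.top : Fc D) := fun k =>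
            Po3_lt (show Fc.le (cf D k) Fc.top from trivial) (by simp [Fc.rk, cf])
          rintro (rfl | rfl)
          · refine ⟨Po3_lt ?_ (by simp [Fc.rk, cf]), hb g⟩
            exact ⟨g, rfl, rfl⟩
          · refine ⟨Po3_lt ?_ (by simp [Fc.rk, cf]), hb _⟩
            refine ⟨g * D.t, ?_, rfl⟩
            have h5 : ce D (g * D.t) = ce D g := (ce_eq.2 (Or.inr rfl)).symm
            exact Fc.e.inj h5
    | bot => simp [Fc.rk] at h
    | v x => simp [Fc.rk] at h
    | e x => simp [Fc.rk] at h
    | f x => simp [Fc.rk] at h
  | f x =>
    cases b <;> simp [Fc.rk] at h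
  | top =>
    cases b <;> simp [Fc.rk] at h

end ChiralQ
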