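import Pool.Agent.Lib.MP_bc704c_co.Q.Po2
import Pool.Agent.Lib.MP_bc704c_co.Q.Po3

/-! # MP_bc704c_co, row Po4: strong connectivity -/

namespace ChiralQ

open ChiralNF

universe u

variable {G : Type u} [Group G] {D : GD G}

/-- one step between the flags `tri D g b` which keeps the common faces of `A` and `B` -/
def Stp (D : GD G) (A B : Set (Fc D)) (p q : G × Bool) : Prop :=
  (∃ a b : Fc D, a ∈ tri D p.1 p.2 ∧ a ∉ tri D q.1 q.2 ∧ b ∈ tri D q.1 q.2 ∧ b ∉ tri D p.1 p.2 ∧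
    ∀ c : Fc D, c ≠ a → c ≠ b → (c ∈ tri D p.1 p.2 ↔ c ∈ tri D q.1 q.2)) ∧
    ∀ c : Fc D, c ∈ A → c ∈ B → c ∈ tri D q.1 q.2

private theorem Po4_ve {g h : G} : cv D g ≠ ce D h := by simp [cv, ce]
private theorem Po4_vf {g h : G} : cv D g ≠ cf D h := by simp [cv, cf]
private theorem Po4_ef {g h : G} : ce D g ≠ cf D h := by simp [ce, cf]
private theorem Po4_vb {g : G} : cv D g ≠ Fc.bot := by simp [cv]
private theorem Po4_vt {g : G} : cv D g ≠ Fc.top := by simp [cv]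
private theorem Po4_eb {g : G} : ce D g ≠ Fc.bot := by simp [ce]
private theorem Po4_et {g : G} : ce D g ≠ Fc.top := by simp [ce]
private theorem Po4_fb {g : G} : cf D g ≠ Fc.bot := by simp [cf]
private theorem Po4_ft {g : G} : cf D g ≠ Fc.top := by simp [cf]

private theorem Po4_tri (g x : G) (b : Bool) (h : (if b then g * D.t else g) = x) :
    tri D g b = {Fc.bot, cv D g, ce D g, cf D x, Fc.top} := by
  subst h; rfl

/-- the face changes -/
private theorem Po4_F {v v' e e' x y : G} (hv : cv D v = cv D v') (he : ce D e = ce D e')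
    (hf : cf D x ≠ cf D y) : ∃ a b : Fc D,
      a ∈ ({Fc.bot, cv D v, ce D e, cf D x, Fc.top} : Set (Fc D)) ∧
      a ∉ ({Fc.bot, cv D v', ce D e', cf D y, Fc.top} : Set (Fc D)) ∧
      b ∈ ({Fc.bot, cv D v', ce D e', cf D y, Fc.top} : Set (Fc D)) ∧
      b ∉ ({Fc.bot, cv D v, ce D e, cf D x, Fc.top} : Set (Fc D)) ∧
      ∀ c : Fc D, c ≠ a → c ≠ b → (c ∈ ({Fc.bot, cv D v, ce D e, cf D x, Fc.top} : Set (Fc D)) ↔
        c ∈ ({Fc.bot, cv D v', ce D e', cf D y, Fc.top} : Set (Fc D))) := by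
  refine ⟨cf D x, cf D y, by simp, ?_, by simp, ?_, ?_⟩
  · simp only [Set.mem_insert_iff, Set.mem_singleton_iff, not_or]
    exact ⟨Po4_fb, Po4_vf.symm, Po4_ef.symm, hf, Po4_ft⟩
  · simp only [Set.mem_insert_iff, Set.mem_singleton_iff, not_or]
    exact ⟨Po4_fb, Po4_vf.symm, Po4_ef.symm, hf.symm, Po4_ft⟩
  · intro c h1 h2
    simp only [Set.mem_insert_iff, Set.mem_singleton_iff, h1, h2, hv, he, false_or]

private theorem Po4_V {v v' e e' x y : G} (hv : cv D v ≠ cv D v') (he : ce D e = ce D e')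
    (hf : cf D x = cf D y) : ∃ a b : Fc D,
      a ∈ ({Fc.bot, cv D v, ce D e, cf D x, Fc.top} : Set (Fc D)) ∧
      a ∉ ({Fc.bot, cv D v', ce D e', cf D y, Fc.top} : Set (Fc D)) ∧
      b ∈ ({Fc.bot, cv D v', ce D e', cf D y, Fc.top} : Set (Fc D)) ∧
      b ∉ ({Fc.bot, cv D v, ce D e, cf D x, Fc.top} : Set (Fc D)) ∧
      ∀ c : Fc D, c ≠ a → c ≠ b → (c ∈ ({Fc.bot, cv D v, ce D e, cf D x, Fc.top} : Set (Fc D)) ↔
        c ∈ ({Fc.bot, cv D v', ce D e', cf D y, Fc.top} : Set (Fc D))) := by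
  refine ⟨cv D v, cv D v', by simp, ?_, by simp, ?_, ?_⟩
  · simp only [Set.mem_insert_iff, Set.mem_singleton_iff, not_or]
    exact ⟨Po4_vb, hv, Po4_ve, Po4_vf, Po4_vt⟩
  · simp only [Set.mem_insert_iff, Set.mem_singleton_iff, not_or]
    exact ⟨Po4_vb, hv.symm, Po4_ve, Po4_vf, Po4_vt⟩
  · intro c h1 h2
    simp only [Set.mem_insert_iff, Set.mem_singleton_iff, h1, h2, hf, he, false_or]

private theorem Po4_E {v v' e e' x y : G} (hv : cv D v = cv D v') (he : ce D e ≠ ce D e')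
    (hf : cf D x = cf D y) : ∃ a b : Fc D,
      a ∈ ({Fc.bot, cv D v, ce D e, cf D x, Fc.top} : Set (Fc D)) ∧
      a ∉ ({Fc.bot, cv D v', ce D e', cf D y, Fc.top} : Set (Fc D)) ∧
      b ∈ ({Fc.bot, cv D v', ce D e', cf D y, Fc.top} : Set (Fc D)) ∧
      b ∉ ({Fc.bot, cv D v, ce D e, cf D x, Fc.top} : Set (Fc D)) ∧
      ∀ c : Fc D, c ≠ a → c ≠ b → (c ∈ ({Fc.bot, cv D v, ce D e, cf D x, Fc.top} : Set (Fc D)) ↔
        c ∈ ({Fc.bot, cv D v', ce D e', cf D y, Fc.top} : Set (Fc D))) := by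
  refine ⟨ce D e, ce D e', by simp, ?_, by simp, ?_, ?_⟩
  · simp only [Set.mem_insert_iff, Set.mem_singleton_iff, not_or]
    exact ⟨Po4_eb, Po4_ve.symm, he, Po4_ef, Po4_et⟩
  · simp only [Set.mem_insert_iff, Set.mem_singleton_iff, not_or]
    exact ⟨Po4_eb, Po4_ve.symm, he.symm, Po4_ef, Po4_et⟩
  · intro c h1 h2
    simp only [Set.mem_insert_iff, Set.mem_singleton_iff, h1, h2, hf, hv, false_or]

private theorem Po4_cf_ne (g : G) : cf D g ≠ cf D (g * D.t) := by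
  intro h
  obtain ⟨j, hj⟩ := cf_eq.1 h
  exact D.tf j (mul_left_cancel hj)

private theorem Po4_cv_ne (g : G) : cv D g ≠ cv D (g * D.t) := by
  intro h
  obtain ⟨j, hj⟩ := cv_eq.1 h
  exact D.ts j (mul_left_cancel hj)

private theorem Po4_s1 : D.s ≠ 1 := by
  intro h
  apply D.tf 1
  simp [h]

private theorem Po4_st : D.s ≠ D.t := by
  intro h
  apply D.ts 1
  simp [h]

private theorem Po4_ti : D.t⁻¹ = D.t := inv_eq_of_mul_eq_one_left D.tt

private theorem Po4_ce_ne (g : G) : ce D g ≠ ce D (g * D.s) := by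
  intro h
  rcases ce_eq.1 h with h | h
  · exact Po4_s1 (mul_left_cancel (a := g) (by simpa using h))
  · exact Po4_st (mul_left_cancel h)

private theorem Po4_ce_ne' (g : G) : ce D g ≠ ce D (g * D.s⁻¹) := by
  intro h
  rcases ce_eq.1 h with h | h
  · have : D.s⁻¹ = 1 := mul_left_cancel (a := g) (by simpa using h)
    exact Po4_s1 (inv_eq_one.1 this)
  · have h2 : D.s⁻¹ = D.t := mul_left_cancel h
    apply Po4_st (D := D)
    rw [← inv_inv D.s, h2, Po4_ti]

/-- Row Po4. The three moves: `(g, b) → (g, !b)` changes only the face, `(g, b) → (g t, !b)` only the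
vertex, `(g, false) → (g s, true)` and `(g, true) → (g s⁻¹, false)` only the edge. Each of them changes
exactly one face (`t` is not a power of `s` or of `s t`, `s ≠ 1`, `s ≠ t`, see `diamond`). Give each of them
as a step `Stp` when the two other faces (and not necessarily the third) may be common faces of `A, B`. -/
theorem moves (A B : Set (Fc D)) (g : G) (b : Bool) :
    ((∀ c, c ∈ A → c ∈ B → c ∈ tri D g (!b)) → Stp D A B (g, b) (g, !b)) ∧
    ((∀ c, c ∈ A → c ∈ B → c ∈ tri D (g * D.t) (!b)) → Stp D A B (g, b) (g * D.t, !b)) ∧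
    ((∀ c, c ∈ A → c ∈ B → c ∈ tri D (g * D.s) true) → Stp D A B (g, false) (g * D.s, true)) ∧
    ((∀ c, c ∈ A → c ∈ B → c ∈ tri D (g * D.s⁻¹) false) → Stp D A B (g, true) (g * D.s⁻¹, false)) := by
  refine ⟨fun h => ⟨?_, h⟩, fun h => ⟨?_, h⟩, fun h => ⟨?_, h⟩, fun h => ⟨?_, h⟩⟩
  · cases b with
    | false =>
      simp only [Bool.not_false]
      rw [Po4_tri g g false (by simp), Po4_tri g (g * D.t) true (by simp)]
      exact Po4_F rfl rfl (Po4_cf_ne g)
    | true =>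
      simp only [Bool.not_true]
      rw [Po4_tri g g false (by simp), Po4_tri g (g * D.t) true (by simp)]
      exact Po4_F rfl rfl (Po4_cf_ne g).symm
  · have he : ce D g = ce D (g * D.t) := ce_eq.2 (Or.inr rfl)
    cases b with
    | false =>
      simp only [Bool.not_false]
      rw [Po4_tri g g false (by simp), Po4_tri (g * D.t) g true (by simp [mul_assoc, D.tt])]
      exact Po4_V (Po4_cv_ne g) he rfl
    | true =>
      simp only [Bool.not_true]
      rw [Po4_tri g (g * D.t) true (by simp), Po4_tri (g * D.t) (g * D.t) false (by simp)]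
      exact Po4_V (Po4_cv_ne g) he rfl
  · show ∃ a b : Fc D, a ∈ tri D g false ∧ a ∉ tri D (g * D.s) true ∧ b ∈ tri D (g * D.s) true ∧
      b ∉ tri D g false ∧ ∀ c : Fc D, c ≠ a → c ≠ b → (c ∈ tri D g false ↔ c ∈ tri D (g * D.s) true)
    rw [Po4_tri g g false (by simp), Po4_tri (g * D.s) (g * D.s * D.t) true (by simp)]
    refine Po4_E (cv_eq.2 ⟨1, by simp⟩) (Po4_ce_ne g) (cf_eq.2 ⟨1, by simp [mul_assoc]⟩)
  · show ∃ a b : Fc D, a ∈ tri D g true ∧ a ∉ tri D (g * D.s⁻¹) false ∧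
      b ∈ tri D (g * D.s⁻¹) false ∧ b ∉ tri D g true ∧
      ∀ c : Fc D, c ≠ a → c ≠ b → (c ∈ tri D g true ↔ c ∈ tri D (g * D.s⁻¹) false)
    rw [Po4_tri g (g * D.t) true (by simp), Po4_tri (g * D.s⁻¹) (g * D.s⁻¹) false (by simp)]
    refine Po4_E (cv_eq.2 ⟨-1, by simp⟩) (Po4_ce_ne' g) (cf_eq.2 ⟨-1, ?_⟩)
    rw [zpow_neg_one, mul_inv_rev, Po4_ti, mul_assoc, ← mul_assoc D.t, D.tt, one_mul]

end ChiralQ
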