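import Pool.Agent.Lib.MP_bc704c_co.Q.Po4

/-! # MP_bc704c_co, row Po4b: strong connectivity -/

namespace ChiralQ

open ChiralNF

universe u

variable {G : Type u} [Group G] {D : GD G}

private theorem Po4b_common {g h k : G} {b b' b'' : Bool}
    (hv : cv D g = cv D h → cv D g = cv D k)
    (he : ce D g = ce D h → ce D g = ce D k)
    (hf : cf D (if b then g * D.t else g) = cf D (if b' then h * D.t else h) →
      cf D (if b then g * D.t else g) = cf D (if b'' then k * D.t else k)) :
    ∀ c, c ∈ tri D g b → c ∈ tri D h b' → c ∈ tri D k b'' := by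
  intro c hc hc'
  unfold tri at hc hc' ⊢
  simp only [Set.mem_insert_iff, Set.mem_singleton_iff] at hc hc' ⊢
  rcases hc with hc | hc | hc | hc | hc
  · exact Or.inl hc
  · right; left
    rcases hc' with hc' | hc' | hc' | hc' | hc'
    · rw [hc'] at hc; simp [cv] at hc
    · rw [hc]; exact hv (hc.symm.trans hc')
    · rw [hc'] at hc; simp [cv, ce] at hc
    · rw [hc'] at hc; simp [cv, cf] at hc
    · rw [hc'] at hc; simp [cv] at hc
  · right; right; left
    rcases hc' with hc' | hc' | hc' | hc' | hc'
    · rw [hc'] at hc; simp [ce] at hc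
    · rw [hc'] at hc; simp [cv, ce] at hc
    · rw [hc]; exact he (hc.symm.trans hc')
    · rw [hc'] at hc; simp [ce, cf] at hc
    · rw [hc'] at hc; simp [ce] at hc
  · right; right; right; left
    rcases hc' with hc' | hc' | hc' | hc' | hc'
    · rw [hc'] at hc; simp [cf] at hc
    · rw [hc'] at hc; simp [cv, cf] at hc
    · rw [hc'] at hc; simp [ce, cf] at hc
    · rw [hc]; exact hf (hc.symm.trans hc')
    · rw [hc'] at hc; simp [cf] at hc
  · right; right; right; right; exact hc

/-- the common faces of `A` and `B` are in the flag `q` -/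
private def Po4b_Good (D : GD G) (A B : Set (Fc D)) (q : G × Bool) : Prop :=
  ∀ c, c ∈ A → c ∈ B → c ∈ tri D q.1 q.2

private theorem Po4b_flip {A B : Set (Fc D)} {k : G} (c c' : Bool)
    (h : ∀ c, Po4b_Good D A B (k, c)) :
    Relation.ReflTransGen (Stp D A B) (k, c) (k, c') := by
  by_cases hc : c' = c
  · subst hc; exact Relation.ReflTransGen.refl
  · have : c' = !c := by cases c <;> cases c' <;> simp_all
    subst this
    exact Relation.ReflTransGen.single ((moves A B k c).1 (h _))

private theorem Po4b_edge {A B : Set (Fc D)} {k : G} (c c' : Bool)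
    (h : ∀ c, Po4b_Good D A B (k, c)) (h' : ∀ c, Po4b_Good D A B (k * D.s, c)) :
    Relation.ReflTransGen (Stp D A B) (k, c) (k * D.s, c') :=
  ((Po4b_flip c false h).trans
    (Relation.ReflTransGen.single ((moves A B k false).2.2.1 (h' true)))).trans
    (Po4b_flip true c' h')

private theorem Po4b_edge' {A B : Set (Fc D)} {k : G} (c c' : Bool)
    (h : ∀ c, Po4b_Good D A B (k, c)) (h' : ∀ c, Po4b_Good D A B (k * D.s⁻¹, c)) :
    Relation.ReflTransGen (Stp D A B) (k, c) (k * D.s⁻¹, c') :=
  ((Po4b_flip c true h).trans
    (Relation.ReflTransGen.single ((moves A B k true).2.2.2 (h' false)))).trans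
    (Po4b_flip false c' h')

private theorem Po4b_vert {A B : Set (Fc D)} {k : G} (c c' : Bool)
    (h' : ∀ c, Po4b_Good D A B (k * D.t, c)) :
    Relation.ReflTransGen (Stp D A B) (k, c) (k * D.t, c') :=
  (Relation.ReflTransGen.single ((moves A B k c).2.1 (h' _))).trans (Po4b_flip (!c) c' h')

/-- all moves are possible -/
private theorem Po4b_all {A B : Set (Fc D)} (h : ∀ q, Po4b_Good D A B q) (w : G) :
    ∀ (k : G) (c c' : Bool), Relation.ReflTransGen (Stp D A B) (k, c) (k * w, c') := by
  have hw : w ∈ Subgroup.closure {D.s, D.t} := by rw [D.gen]; trivial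
  have key : (∀ (k : G) (c c' : Bool), Relation.ReflTransGen (Stp D A B) (k, c) (k * w, c')) ∧
      (∀ (k : G) (c c' : Bool), Relation.ReflTransGen (Stp D A B) (k, c) (k * w⁻¹, c')) := by
    induction hw using Subgroup.closure_induction with
    | mem x hx =>
      rcases hx with hx | hx
      · subst hx
        exact ⟨fun k c c' => Po4b_edge c c' (fun _ => h _) (fun _ => h _),
          fun k c c' => Po4b_edge' c c' (fun _ => h _) (fun _ => h _)⟩
      · rw [Set.mem_singleton_iff] at hx
        subst hx
        refine ⟨fun k c c' => Po4b_vert c c' (fun _ => h _), fun k c c' => ?_⟩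
        rw [inv_eq_of_mul_eq_one_left D.tt]
        exact Po4b_vert c c' (fun _ => h _)
    | one =>
      refine ⟨fun k c c' => ?_, fun k c c' => ?_⟩
      · rw [mul_one]; exact Po4b_flip c c' (fun _ => h _)
      · rw [inv_one, mul_one]; exact Po4b_flip c c' (fun _ => h _)
    | mul x y _ _ ihx ihy =>
      refine ⟨fun k c c' => ?_, fun k c c' => ?_⟩
      · rw [← mul_assoc]
        exact (ihx.1 k c c).trans (ihy.1 (k * x) c c')
      · rw [mul_inv_rev, ← mul_assoc]
        exact (ihy.2 k c c).trans (ihx.2 (k * y⁻¹) c c')
    | inv x _ ih =>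
      refine ⟨ih.2, fun k c c' => ?_⟩
      rw [inv_inv]
      exact ih.1 k c c'
  exact key.1

/-- the moves which keep the vertex -/
private theorem Po4b_vertex {A B : Set (Fc D)} {g : G}
    (h : ∀ (j : ℤ) (c : Bool), Po4b_Good D A B (g * D.s ^ j, c)) (b : Bool) (j : ℤ) :
    ∀ c' : Bool, Relation.ReflTransGen (Stp D A B) (g, b) (g * D.s ^ j, c') := by
  induction j using Int.induction_on with
  | zero =>
    intro c'
    have := Po4b_flip b c' (h 0)
    rwa [zpow_zero, mul_one] at this ⊢
  | succ i ih =>
    intro c'
    refine (ih true).trans ?_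
    have h1 := h (i : ℤ)
    have h2 := h ((i : ℤ) + 1)
    rw [zpow_add_one, ← mul_assoc] at h2 ⊢
    exact Po4b_edge true c' h1 h2
  | pred i ih =>
    intro c'
    refine (ih true).trans ?_
    have h1 := h (-(i : ℤ))
    have h2 := h (-(i : ℤ) - 1)
    rw [zpow_sub_one, ← mul_assoc] at h2 ⊢
    exact Po4b_edge' true c' h1 h2

/-- the flag with the face of `p` -/
private def Po4b_st (D : GD G) (p : G) (c : Bool) : G × Bool := (if c then p * D.t else p, c)

private theorem Po4b_stflip {A B : Set (Fc D)} {p : G} (c c' : Bool)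
    (h : ∀ c, Po4b_Good D A B (Po4b_st D p c)) :
    Relation.ReflTransGen (Stp D A B) (Po4b_st D p c) (Po4b_st D p c') := by
  by_cases hc : c' = c
  · subst hc; exact Relation.ReflTransGen.refl
  · cases c <;> cases c'
    · exact absurd rfl hc
    · exact Relation.ReflTransGen.single ((moves A B p false).2.1 (h true))
    · have h1 := h false
      have h2 := (moves A B (p * D.t) true).2.1
      unfold Po4b_st Po4b_Good at *
      simp only [Bool.false_eq_true, if_false, if_true, Bool.not_true, mul_assoc, D.tt,
        mul_one] at h1 h2 ⊢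
      exact Relation.ReflTransGen.single (h2 h1)
    · exact absurd rfl hc

private theorem Po4b_stedge {A B : Set (Fc D)} {p : G} (c c' : Bool)
    (h : ∀ c, Po4b_Good D A B (Po4b_st D p c))
    (h' : ∀ c, Po4b_Good D A B (Po4b_st D (p * (D.s * D.t)) c)) :
    Relation.ReflTransGen (Stp D A B) (Po4b_st D p c) (Po4b_st D (p * (D.s * D.t)) c') := by
  refine (Po4b_stflip c false h).trans (Relation.ReflTransGen.trans ?_ (Po4b_stflip true c' h'))
  have h1 := h' true
  have h2 := (moves A B p false).2.2.1
  unfold Po4b_st Po4b_Good at *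
  simp only [Bool.false_eq_true, if_false, if_true, mul_assoc, D.tt, mul_one] at h1 h2 ⊢
  exact Relation.ReflTransGen.single (h2 h1)

private theorem Po4b_stedge' {A B : Set (Fc D)} {p : G} (c c' : Bool)
    (h : ∀ c, Po4b_Good D A B (Po4b_st D p c))
    (h' : ∀ c, Po4b_Good D A B (Po4b_st D (p * (D.s * D.t)⁻¹) c)) :
    Relation.ReflTransGen (Stp D A B) (Po4b_st D p c) (Po4b_st D (p * (D.s * D.t)⁻¹) c') := by
  refine (Po4b_stflip c true h).trans (Relation.ReflTransGen.trans ?_ (Po4b_stflip false c' h'))
  have h1 := h' false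
  have h2 := (moves A B (p * D.t) true).2.2.2
  have ht : D.t⁻¹ = D.t := inv_eq_of_mul_eq_one_left D.tt
  unfold Po4b_st Po4b_Good at *
  simp only [Bool.false_eq_true, if_false, if_true, mul_assoc, mul_inv_rev, ht] at h1 h2 ⊢
  exact Relation.ReflTransGen.single (h2 h1)

/-- the moves which keep the face -/
private theorem Po4b_face {A B : Set (Fc D)} {p : G}
    (h : ∀ (j : ℤ) (c : Bool), Po4b_Good D A B (Po4b_st D (p * (D.s * D.t) ^ j) c))
    (b : Bool) (j : ℤ) :
    ∀ c' : Bool, Relation.ReflTransGen (Stp D A B) (Po4b_st D p b)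
      (Po4b_st D (p * (D.s * D.t) ^ j) c') := by
  induction j using Int.induction_on with
  | zero =>
    intro c'
    have h0 := h 0
    rw [zpow_zero, mul_one] at h0 ⊢
    exact Po4b_stflip b c' h0
  | succ i ih =>
    intro c'
    refine (ih true).trans ?_
    have h1 := h (i : ℤ)
    have h2 := h ((i : ℤ) + 1)
    rw [zpow_add_one, ← mul_assoc] at h2 ⊢
    exact Po4b_stedge true c' h1 h2
  | pred i ih =>
    intro c'
    refine (ih true).trans ?_
    have h1 := h (-(i : ℤ))
    have h2 := h (-(i : ℤ) - 1)
    rw [zpow_sub_one, ← mul_assoc] at h2 ⊢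
    exact Po4b_stedge' true c' h1 h2

private theorem Po4b_st_eq (g : G) (b : Bool) :
    Po4b_st D (if b then g * D.t else g) b = (g, b) := by
  cases b
  · rfl
  · unfold Po4b_st
    simp only [if_true, mul_assoc, D.tt, mul_one]

/-- Row Po4. Let `A = tri D g b`, `B = tri D h b'`. Without a common vertex, edge, face use all moves
(`gen`: `h = g w`). Common vertex only: `h = g s ^ j`, use the face and the edge moves
(`(g, false) → (g s, true) → (g s, false)`); common face only: the vertex and the edge moves
(`(g, false) → (g s, true) → (g s t, false)`); common edge only: vertex and face moves. Common vertex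
and edge: `h = g` (`h = g t` is impossible); common edge and face: `(h, b')` is `(g, b)` or
`(g t, !b)`; common vertex and face: by `inter`, `(h, b')` is `(g, b)` or the result of the edge
move. -/
theorem conn_tri (g h : G) (b b' : Bool) :
    Relation.ReflTransGen (Stp D (tri D g b) (tri D h b')) (g, b) (h, b') := by
  have ht : D.t⁻¹ = D.t := inv_eq_of_mul_eq_one_left D.tt
  have tg : ∀ x : G, x * D.t * D.t = x := fun x => by rw [mul_assoc, D.tt, mul_one]
  by_cases hE : ce D g = ce D h
  · rcases ce_eq.1 hE with hh | hh
    · subst hh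
      by_cases hb : b' = b
      · subst hb; exact Relation.ReflTransGen.refl
      · have : b' = !b := by cases b <;> cases b' <;> simp_all
        subst this
        exact Relation.ReflTransGen.single ((moves _ _ h b).1 (fun c _ hc => hc))
    · subst hh
      by_cases hb : b' = b
      · subst hb
        refine Relation.ReflTransGen.tail (b := (g, !b')) (Relation.ReflTransGen.single
          ((moves _ _ g b').1 ?_)) ?_
        · refine Po4b_common (fun _ => rfl) (fun _ => rfl) (fun hf => ?_)
          exfalso
          cases b'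
          · simp only [Bool.false_eq_true, if_false] at hf
            obtain ⟨j, hj⟩ := cf_eq.1 hf
            exact D.tf j (mul_left_cancel hj)
          · simp only [if_true] at hf
            rw [tg] at hf
            obtain ⟨j, hj⟩ := cf_eq.1 hf.symm
            exact D.tf j (mul_left_cancel hj)
        · have := (moves (tri D g b') (tri D (g * D.t) b') g (!b')).2.1
          rw [Bool.not_not] at this
          exact this (fun c _ hc => hc)
      · have : b' = !b := by cases b <;> cases b' <;> simp_all
        subst this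
        exact Relation.ReflTransGen.single ((moves _ _ g b).2.1 (fun c _ hc => hc))
  by_cases hV : cv D g = cv D h
  · obtain ⟨j, hj⟩ := cv_eq.1 hV
    by_cases hF : cf D (if b then g * D.t else g) = cf D (if b' then h * D.t else h)
    · obtain ⟨k, hk⟩ := cf_eq.1 hF
      subst hj
      cases b <;> cases b'
      · simp only [Bool.false_eq_true, if_false] at hk
        have h1 := D.inter j k (mul_left_cancel hk)
        rw [h1, mul_one]
      · simp only [Bool.false_eq_true, if_false, if_true] at hk
        rw [mul_assoc] at hk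
        have h0 := mul_left_cancel hk
        have h1 : D.s ^ (j - 1) = (D.s * D.t) ^ (k - 1) := by
          rw [zpow_sub_one, zpow_sub_one, ← h0, mul_inv_rev, ht, ← mul_assoc, tg]
        have h2 := D.inter _ _ h1
        have h3 : D.s ^ j = D.s := by
          have : D.s ^ j = D.s ^ (j - 1) * D.s := by rw [← zpow_add_one]; congr 1; ring
          rw [this, h2, one_mul]
        rw [h3]
        exact Relation.ReflTransGen.single ((moves _ _ g false).2.2.1 (fun c _ hc => hc))
      · simp only [Bool.false_eq_true, if_false, if_true] at hk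
        rw [mul_assoc] at hk
        have h0 := mul_left_cancel hk
        have h1 : D.s ^ (j + 1) = (D.s * D.t) ^ (k + 1) := by
          rw [add_comm j 1, add_comm k 1, zpow_one_add, zpow_one_add, h0, mul_assoc]
        have h2 := D.inter _ _ h1
        have h3 : D.s ^ j = D.s⁻¹ := by
          rw [zpow_add_one] at h2
          exact eq_inv_of_mul_eq_one_left h2
        rw [h3]
        exact Relation.ReflTransGen.single ((moves _ _ g true).2.2.2 (fun c _ hc => hc))
      · simp only [if_true] at hk
        rw [mul_assoc, mul_assoc] at hk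
        have h0 := mul_left_cancel hk
        have h1 : D.s ^ j = (D.s * D.t) ^ k := by
          have h4 : D.s * (D.s ^ j * D.t) = (D.s * D.t) * (D.s * D.t) ^ k := by
            rw [h0, mul_assoc]
          have h5 : D.s * (D.s ^ j * D.t) = D.s ^ j * (D.s * D.t) := by
            rw [← mul_assoc, ← mul_assoc, ← zpow_one_add, ← zpow_add_one, add_comm]
          rw [h5, ← zpow_one_add, add_comm, zpow_add_one] at h4
          exact mul_right_cancel h4
        have h2 := D.inter _ _ h1
        rw [h2, mul_one]
    · subst hj
      refine Po4b_vertex (fun i c => ?_) b j b'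
      exact Po4b_common (fun _ => cv_eq.2 ⟨i, rfl⟩) (fun h1 => absurd h1 hE)
        (fun h1 => absurd h1 hF)
  · by_cases hF : cf D (if b then g * D.t else g) = cf D (if b' then h * D.t else h)
    · obtain ⟨k, hk⟩ := cf_eq.1 hF
      have key := Po4b_face (D := D) (A := tri D g b) (B := tri D h b')
        (p := if b then g * D.t else g) (fun i c => ?_) b k b'
      · rw [← hk, Po4b_st_eq, Po4b_st_eq] at key
        exact key
      · unfold Po4b_Good
        refine Po4b_common (fun h1 => absurd h1 hV) (fun h1 => absurd h1 hE) (fun _ => ?_)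
        have : (if (Po4b_st D ((if b = true then g * D.t else g) * (D.s * D.t) ^ i) c).2 = true
            then (Po4b_st D ((if b = true then g * D.t else g) * (D.s * D.t) ^ i) c).1 * D.t
            else (Po4b_st D ((if b = true then g * D.t else g) * (D.s * D.t) ^ i) c).1) =
            (if b = true then g * D.t else g) * (D.s * D.t) ^ i := by
          cases c
          · rfl
          · unfold Po4b_st
            simp only [if_true]
            rw [tg]
        rw [this]
        exact cf_eq.2 ⟨i, rfl⟩
    · have key := Po4b_all (D := D) (A := tri D g b) (B := tri D h b') (fun q => ?_)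
        (g⁻¹ * h) g b b'
      · rw [mul_inv_cancel_left] at key
        exact key
      · exact Po4b_common (fun h1 => absurd h1 hV) (fun h1 => absurd h1 hE)
          (fun h1 => absurd h1 hF)

/-- Row Po4. -/
theorem isPolytope (D : GD G) : IsPolytope 3 (Fc D) Fc.rk := by
  refine ⟨rfl, rfl, rk_strictMono, ?_, diamond, ?_⟩
  · intro A i h1 h2
    obtain ⟨g, b, hA⟩ := flag_eq A
    have hmem : ∀ c, c ∈ tri D g b → c ∈ A := by
      intro c hc
      rw [← hA] at hc
      exact hc
    have h3 : i = -1 ∨ i = 0 ∨ i = 1 ∨ i = 2 ∨ i = 3 := by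
      have : i ≤ 3 := h2
      omega
    rcases h3 with h3 | h3 | h3 | h3 | h3
    · exact ⟨Fc.bot, hmem _ (by simp [tri]), h3.symm⟩
    · exact ⟨cv D g, hmem _ (by simp [tri]), h3.symm⟩
    · exact ⟨ce D g, hmem _ (by simp [tri]), h3.symm⟩
    · exact ⟨cf D (if b then g * D.t else g), hmem _ (by simp [tri]), h3.symm⟩
    · exact ⟨Fc.top, hmem _ (by simp [tri]), h3.symm⟩
  · intro A B
    obtain ⟨g, b, hA⟩ := flag_eq A
    obtain ⟨h, b', hB⟩ := flag_eq B
    choose fl hfl using fun q : G × Bool => exists_flag (D := D) q.1 q.2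
    have hm : ∀ q c, c ∈ fl q ↔ c ∈ tri D q.1 q.2 := by
      intro q c
      rw [← hfl q]
      exact Iff.rfl
    have hmA : ∀ c, c ∈ A ↔ c ∈ tri D g b := by
      intro c; rw [← hA]; exact Iff.rfl
    have hmB : ∀ c, c ∈ B ↔ c ∈ tri D h b' := by
      intro c; rw [← hB]; exact Iff.rfl
    have e1 : fl (g, b) = A := by
      apply SetLike.ext
      intro c
      rw [hm, hmA]
    have e2 : fl (h, b') = B := by
      apply SetLike.ext
      intro c
      rw [hm, hmB]
    have key := conn_tri (D := D) g h b b'
    rw [← e1, ← e2]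
    refine Relation.ReflTransGen.lift fl ?_ _ _ key
    rintro p q ⟨⟨a, c, h1, h2, h3, h4, h5⟩, h6⟩
    refine ⟨⟨a, c, (hm _ _).2 h1, fun h => h2 ((hm _ _).1 h), (hm _ _).2 h3,
      fun h => h4 ((hm _ _).1 h), fun x hx hx' => ?_⟩, fun x hx hx' => ?_⟩
    · rw [hm, hm]; exact h5 x hx hx'
    · rw [hm] at hx hx' ⊢
      exact h6 x hx hx'

end ChiralQ
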