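import Pool.Agent.Lib.MP_bc704c_co.Q.Po4b
import Pool.Agent.Lib.MP_bc704c_co.Q.Ex3

/-! # MP_bc704c_co, row Po5: the base flag and the generators of the coset polyhedron -/

namespace ChiralQ

open ChiralNF

universe u

variable {G : Type u} [Group G] {D : GD G}

/-- left multiplication on the faces -/
def lftF (D : GD G) (g : G) : Fc D → Fc D
  | .bot => .bot
  | .v x => .v (g • x)
  | .e x => .e (g • x)
  | .f x => .f (g • x)
  | .top => .top

private theorem Po5_smul {H : Subgroup G} (g k : G) :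
    (g • (QuotientGroup.mk k : G ⧸ H)) = QuotientGroup.mk (g * k) := rfl

private theorem Po5_ex {H K : Subgroup G} (g : G) (x : G ⧸ H) (y : G ⧸ K) :
    (∃ k : G, (QuotientGroup.mk k : G ⧸ H) = g • x ∧ (QuotientGroup.mk k : G ⧸ K) = g • y) ↔
      ∃ k : G, (QuotientGroup.mk k : G ⧸ H) = x ∧ (QuotientGroup.mk k : G ⧸ K) = y := by
  constructor
  · rintro ⟨k, h1, h2⟩
    refine ⟨g⁻¹ * k, ?_, ?_⟩
    · rw [← Po5_smul, h1, inv_smul_smul]
    · rw [← Po5_smul, h2, inv_smul_smul]
  · rintro ⟨k, h1, h2⟩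
    refine ⟨g * k, ?_, ?_⟩
    · rw [← Po5_smul, h1]
    · rw [← Po5_smul, h2]

/-- Row Po5. Left multiplication is an automorphism. -/
theorem lftF_le (g : G) (x y : Fc D) : lftF D g x ≤ lftF D g y ↔ x ≤ y := by
  show Fc.le (lftF D g x) (lftF D g y) ↔ Fc.le x y
  cases x <;> cases y <;> simp only [lftF, Fc.le, smul_left_cancel_iff] <;>
    first
    | exact Iff.rfl
    | exact Po5_ex _ _ _

theorem lftF_mul (g h : G) (x : Fc D) : lftF D g (lftF D h x) = lftF D (g * h) x := by
  cases x <;> simp only [lftF, mul_smul]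

theorem lftF_one (x : Fc D) : lftF D 1 x = x := by
  cases x <;> simp only [lftF, one_smul]

/-- left multiplication as an automorphism -/
def lft (D : GD G) (g : G) : Fc D ≃o Fc D where
  toFun := lftF D g
  invFun := lftF D g⁻¹
  left_inv := fun x => by rw [lftF_mul, inv_mul_cancel, lftF_one]
  right_inv := fun x => by rw [lftF_mul, mul_inv_cancel, lftF_one]
  map_rel_iff' := fun {x y} => lftF_le g x y

theorem lft_cv (g h : G) : lft D g (cv D h) = cv D (g * h) := rfl

theorem lft_ce (g h : G) : lft D g (ce D h) = ce D (g * h) := rfl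

theorem lft_cf (g h : G) : lft D g (cf D h) = cf D (g * h) := rfl

private def Po5_mk (x y z : Fc D) (hx : Fc.rk x = 0) (hy : Fc.rk y = 1) (hz : Fc.rk z = 2)
    (hxy : x ≤ y) (hyz : y ≤ z) : SF 3 (Fc D) Fc.rk where
  f := fun i => if i ≤ -1 then ⊥ else if i = 0 then x else if i = 1 then y else if i = 2 then z else ⊤
  lo := fun i hi => by simp only [hi, if_true]
  hi := fun i hi => by
    have h1 : ¬ i ≤ -1 := by push_cast at hi; omega
    have h2 : ¬ i = 0 := by push_cast at hi; omega
    have h3 : ¬ i = 1 := by push_cast at hi; omega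
    have h4 : ¬ i = 2 := by push_cast at hi; omega
    simp only [h1, h2, h3, h4, if_false]
  rank := fun i h1 h2 => by
    push_cast at h2
    have h : i = -1 ∨ i = 0 ∨ i = 1 ∨ i = 2 ∨ i = 3 := by omega
    rcases h with h | h | h | h | h
    · subst h; rfl
    · subst h; simpa using hx
    · subst h; simpa using hy
    · subst h; simpa using hz
    · subst h; rfl
  mono := by
    intro i j hij
    show (if i ≤ -1 then (⊥ : Fc D) else if i = 0 then x else if i = 1 then y else if i = 2 then z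
      else ⊤) ≤ (if j ≤ -1 then (⊥ : Fc D) else if j = 0 then x else if j = 1 then y else
      if j = 2 then z else ⊤)
    have hxz : x ≤ z := le_trans hxy hyz
    split_ifs <;> first
      | exact bot_le
      | exact le_top
      | exact le_rfl
      | exact hxy
      | exact hyz
      | exact hxz
      | (exfalso; omega)

private theorem Po5_s_ne (D : GD G) : D.s ≠ 1 := by
  intro h
  apply D.tf 1
  rw [h, one_mul, zpow_one]

private theorem Po5_st_ne (D : GD G) : (1 : G) ≠ D.s * D.t := by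
  intro h
  apply D.ts (-1)
  rw [zpow_neg, zpow_one]
  exact eq_inv_of_mul_eq_one_right h.symm

private theorem Po5_ce_s (D : GD G) : ce D D.s ≠ ce D 1 := by
  intro h
  rw [ce_eq] at h
  rcases h with h | h
  · exact Po5_s_ne D h.symm
  · exact Po5_st_ne D h

private theorem Po5_cf_s (D : GD G) : cf D D.s ≠ cf D 1 := by
  intro h
  rw [cf_eq] at h
  obtain ⟨j, hj⟩ := h
  apply Po5_s_ne D
  have h1 : D.s ^ (1 : ℤ) = (D.s * D.t) ^ (-j) := by
    rw [zpow_one, zpow_neg]
    exact eq_inv_of_mul_eq_one_left hj.symm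
  have h2 := D.inter 1 (-j) h1
  rwa [zpow_one] at h2

private theorem Po5_cv_t (D : GD G) : cv D D.t ≠ cv D 1 := by
  intro h
  rw [cv_eq] at h
  obtain ⟨j, hj⟩ := h
  apply D.ts (-j)
  rw [zpow_neg]
  exact eq_inv_of_mul_eq_one_left hj.symm

private theorem Po5_cf_t (D : GD G) : cf D D.t ≠ cf D 1 := by
  intro h
  rw [cf_eq] at h
  obtain ⟨j, hj⟩ := h
  apply D.tf (-j)
  rw [zpow_neg]
  exact eq_inv_of_mul_eq_one_left hj.symm

private theorem Po5_cv_s (D : GD G) : cv D D.s = cv D 1 := by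
  rw [cv_eq]
  exact ⟨-1, by rw [zpow_neg, zpow_one, mul_inv_cancel]⟩

private theorem Po5_ce_t (D : GD G) : ce D D.t = ce D 1 := by
  rw [ce_eq]
  right
  exact D.tt.symm

private theorem Po5_le1 (D : GD G) (g : G) : cv D g ≤ ce D g := by
  rw [cv_le_ce]
  exact ⟨g, rfl, rfl⟩

private theorem Po5_le2 (D : GD G) (g : G) : ce D g ≤ cf D g := by
  rw [ce_le_cf]
  exact ⟨g, rfl, rfl⟩

private theorem Po5_ce_s_le (D : GD G) : ce D D.s ≤ cf D 1 := by
  rw [ce_le_cf]
  refine ⟨D.s * D.t, ?_, ?_⟩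
  · rw [ce_eq]
    right
    rw [mul_assoc, D.tt, mul_one]
  · rw [cf_eq]
    exact ⟨-1, by rw [zpow_neg, zpow_one, mul_inv_cancel]⟩

/-- Row Po5. The base flag `(cv 1, ce 1, cf 1)`, and `s A0 = (cv s, ce s, cf s)` is
`adj 2 (adj 1 A0)`: `adj 1 A0 = (cv 1, ce s, cf 1)` (`cv 1 = cv s`, `cf 1 = cf (s t)`, `ce s = ce (s t)`, and
`ce s ≠ ce 1`), and `cf s ≠ cf 1` since `s` is not a power of `s t` (`inter`: `s = (s t) ^ k` gives
`s = 1`, `t = (s t)^1`, excluded). `t A0 = (cv t, ce 1, cf t)` is `adj 2 (adj 0 A0)`. Use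
`adj_unique`. -/
theorem exists_gens (D : GD G) : ∃ A : SF 3 (Fc D) Fc.rk, A.f 0 = cv D 1 ∧ A.f 1 = ce D 1 ∧
    A.f 2 = cf D 1 ∧ Gens (isPolytope D) A (lft D D.s) (lft D D.t) := by
  have h3 : ((3 : ℕ) : ℤ) = 3 := rfl
  refine ⟨Po5_mk (cv D 1) (ce D 1) (cf D 1) rfl rfl rfl (Po5_le1 D 1) (Po5_le2 D 1), rfl, rfl, rfl,
    ?_, ?_⟩
  · have e1 : Po5_mk (cv D 1) (ce D D.s) (cf D 1) rfl rfl rfl
        (by rw [← Po5_cv_s D]; exact Po5_le1 D D.s) (Po5_ce_s_le D) =
        adj (isPolytope D) 1
          (Po5_mk (cv D 1) (ce D 1) (cf D 1) rfl rfl rfl (Po5_le1 D 1) (Po5_le2 D 1)) := by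
      apply adj_unique (isPolytope D) (by norm_num) (by norm_num)
      · exact Po5_ce_s D
      · intro j hj
        show (if j ≤ -1 then (⊥ : Fc D) else if j = 0 then cv D 1 else if j = 1 then ce D D.s else
          if j = 2 then cf D 1 else ⊤) = (if j ≤ -1 then (⊥ : Fc D) else if j = 0 then cv D 1 else
          if j = 1 then ce D 1 else if j = 2 then cf D 1 else ⊤)
        rw [if_neg hj, if_neg hj]
    rw [← e1]
    apply adj_unique (isPolytope D) (by norm_num) (by norm_num)
    · show lft D D.s (cf D 1) ≠ cf D 1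
      rw [lft_cf, mul_one]
      exact Po5_cf_s D
    · intro j hj
      show lft D D.s (if j ≤ -1 then (⊥ : Fc D) else if j = 0 then cv D 1 else if j = 1 then ce D 1
        else if j = 2 then cf D 1 else ⊤) = (if j ≤ -1 then (⊥ : Fc D) else if j = 0 then cv D 1 else
          if j = 1 then ce D D.s else if j = 2 then cf D 1 else ⊤)
      rw [if_neg hj]
      split_ifs
      · exact map_bot _
      · rw [lft_cv, mul_one]
        exact Po5_cv_s D
      · rw [lft_ce, mul_one]
      · exact map_top _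
  · have e1 : Po5_mk (cv D D.t) (ce D 1) (cf D 1) rfl rfl rfl
        (by rw [← Po5_ce_t D]; exact Po5_le1 D D.t) (Po5_le2 D 1) =
        adj (isPolytope D) 0
          (Po5_mk (cv D 1) (ce D 1) (cf D 1) rfl rfl rfl (Po5_le1 D 1) (Po5_le2 D 1)) := by
      apply adj_unique (isPolytope D) (by norm_num) (by norm_num)
      · exact Po5_cv_t D
      · intro j hj
        show (if j ≤ -1 then (⊥ : Fc D) else if j = 0 then cv D D.t else if j = 1 then ce D 1 else
          if j = 2 then cf D 1 else ⊤) = (if j ≤ -1 then (⊥ : Fc D) else if j = 0 then cv D 1 else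
          if j = 1 then ce D 1 else if j = 2 then cf D 1 else ⊤)
        rw [if_neg hj, if_neg hj]
    rw [← e1]
    apply adj_unique (isPolytope D) (by norm_num) (by norm_num)
    · show lft D D.t (cf D 1) ≠ cf D 1
      rw [lft_cf, mul_one]
      exact Po5_cf_t D
    · intro j hj
      show lft D D.t (if j ≤ -1 then (⊥ : Fc D) else if j = 0 then cv D 1 else if j = 1 then ce D 1
        else if j = 2 then cf D 1 else ⊤) = (if j ≤ -1 then (⊥ : Fc D) else if j = 0 then cv D D.t
          else if j = 1 then ce D 1 else if j = 2 then cf D 1 else ⊤)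
      rw [if_neg hj]
      split_ifs
      · exact map_bot _
      · rw [lft_cv, mul_one]
      · rw [lft_ce, mul_one]
        exact Po5_ce_t D
      · exact map_top _

end ChiralQ
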