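import Pool.Agent.Lib.MP_bc704c_co.Q.Al8b
import Pool.Agent.Lib.MP_bc704c_co.Q.Al6
import Pool.Agent.Lib.MP_bc704c_co.Q.Fg1

/-! # MP_bc704c_co, row Re1: the geometry of the faces -/

namespace ChiralQ

open Quaternion ChiralNF

variable {s t : ℍ[ℝ] ≃ₗᵢ[ℝ] ℍ[ℝ]} {c d : ℝ} {a b : ℍ[ℝ]}

/-- auxiliary: the powers of `s` fix `1` -/
theorem Re1_pow1 (H : Std s t 1 c d a b) (j : ℤ) : (s ^ j) 1 = 1 := by
  obtain ⟨ε', c', d', -, -, -, h⟩ := H.zpow j
  rw [h]
  ext <;> simp [sF]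

/-- auxiliary: `s ≠ 1` as `d ≠ 0` -/
theorem Re1_s (H : Std s t 1 c d a b) : s ≠ 1 := by
  intro h
  have h1 := H.hs ⟨0, 0, 1, 0⟩
  rw [h] at h1
  have h2 := congrArg QuaternionAlgebra.imK h1
  simp [sF] at h2
  exact H.hd h2.symm

/-- auxiliary: if `s` fixes `t 1` there is a contradiction -/
theorem Re1_edge (H : Std s t 1 c d a b) (h : s (t 1) = t 1) : False := by
  have h1 : (s ^ (1 : ℤ)) (t 1) = t 1 := by rw [zpow_one]; exact h
  have h2 := H.edge_fix h1
  rw [zpow_one] at h2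
  exact Re1_s H h2

/-- Row Re1. With `l` as in `exists_l`, `s v = l v l̄`, `(s t) v = (l a) v (l b)‾`. If
`s ^ j = (s t) ^ k` then by `tF_inj` `l ^ j = σ (l a) ^ k` and `l ^ j = σ (l b) ^ k`, `σ = ±1`. If
`l ^ j` is not real then `l a` commutes with `i` (a non-real power determines the axis), so `a` does, so
`u = 0`: excluded by `Chi`. So `l ^ j = ± 1` and `s ^ j = 1`. -/
theorem Std.inter (H : Std s t 1 c d a b) (j k : ℤ) (h : s ^ j = (s * t) ^ k) : s ^ j = 1 := by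
  have h1 : Commute (s ^ j) (s * t) := by
    rw [h]; exact (Commute.refl (s * t)).zpow_left k
  have h2 : Commute (s ^ j) s := (Commute.refl s).zpow_left j
  have h3 : Commute (s ^ j) t := by
    have h4 : Commute (s ^ j) (s⁻¹ * (s * t)) := h2.inv_right.mul_right h1
    rwa [inv_mul_cancel_left] at h4
  apply H.edge_fix
  have h5 : (s ^ j * t) 1 = (t * s ^ j) 1 := by rw [h3.eq]
  have h6 : (s ^ j) (t 1) = t ((s ^ j) 1) := h5
  rw [h6, Re1_pow1 H j]

/-- Row Re1. `t 1 ≠ 1 = s ^ j 1`. If `t = (s t) ^ j` then `t` commutes with `s t`, so `t s = s t`, and `t`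
would preserve the fixed plane `span (1, i)` of `s`: `t 1 = - a b` has a part in the plane of `j, k`
(see `Std.edge_fix`), contradiction. -/
theorem Std.ts (H : Std s t 1 c d a b) (j : ℤ) : t ≠ s ^ j := by
  intro h
  apply H.t1
  rw [h]
  exact Re1_pow1 H j

theorem Std.tf (H : Std s t 1 c d a b) (j : ℤ) : t ≠ (s * t) ^ j := by
  intro h
  have h1 : Commute t (s * t) := by
    have h2 : Commute ((s * t) ^ j) (s * t) := (Commute.refl (s * t)).zpow_left j
    rwa [← h] at h2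
  have h3 : Commute t s := by
    have h4 : Commute t (s * t * t⁻¹) := h1.mul_right (Commute.refl t).inv_right
    rwa [mul_inv_cancel_right] at h4
  apply Re1_edge H
  have h5 : (s * t) 1 = (t * s) 1 := by rw [h3.eq]
  have h6 : s (t 1) = t (s 1) := h5
  rw [h6, H.s1]

/-- Row Re1. `(s t) ^ 2 ≠ 1`, so the face has at least three vertices: if `(s t) ^ 2 = 1` then
`(l a) ^ 2 = σ`, `(l b) ^ 2 = σ` (`tF_inj`); `σ = 1`: `l a = ± 1`, `a = ± l̄` has no `u`-part; `σ = -1`:
`Re (l a) = 0`, `- l.imI α = 0`, `α = 0` (as `l.imI ≠ 0`), in the same way `β = 0`. -/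
theorem Std.face3 (H : Std s t 1 c d a b) : (s * t) ^ (2 : ℤ) ≠ 1 := by
  intro h
  have h1 : s * t * (s * t) = 1 := by
    rw [← h, zpow_two]
  have h2 : ∀ v, s (t (s (t v))) = v := by
    intro v
    have h3 : (s * t * (s * t)) v = v := by rw [h1]; rfl
    exact h3
  apply Re1_edge H
  have h4 := h2 (t 1)
  rw [H.tt, H.s1] at h4
  exact h4

end ChiralQ
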