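import Pool.Agent.Lib.MP_bc704c_co.Q.Re1

/-! # MP_bc704c_co, row Re1b: faces are determined by their vertices -/

namespace ChiralQ

open Quaternion ChiralNF

variable {s t : ℍ[ℝ] ≃ₗᵢ[ℝ] ℍ[ℝ]} {c d : ℝ} {a b : ℍ[ℝ]}

private theorem Re1b_ms {x : ℍ[ℝ]} (h : normSq x = 1) : x * star x = 1 := by
  rw [Quaternion.self_mul_star, h]; rfl

private theorem Re1b_sm {x : ℍ[ℝ]} (h : normSq x = 1) : star x * x = 1 := by
  rw [Quaternion.star_mul_self, h]; rfl

private theorem Re1b_comm {x q : ℍ[ℝ]} (h : normSq x = 1) (hq : x * q = q * x) :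
    star x * q = q * star x := by
  calc star x * q = star x * (q * x) * star x := by
        rw [mul_assoc, mul_assoc, Re1b_ms h, mul_one]
    _ = star x * (x * q) * star x := by rw [hq]
    _ = q * star x := by rw [← mul_assoc, Re1b_sm h, one_mul]

private theorem Re1b_tFtF (x y x' y' v : ℍ[ℝ]) : tF x y (tF x' y' v) = tF (x * x') (y * y') v := by
  unfold tF
  rw [star_mul]
  simp only [mul_assoc]

/-- the isometries whose components commute with given quaternions -/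
private def Re1b_C (q r : ℍ[ℝ]) : Subgroup (ℍ[ℝ] ≃ₗᵢ[ℝ] ℍ[ℝ]) where
  carrier := {g | ∃ x y : ℍ[ℝ], normSq x = 1 ∧ normSq y = 1 ∧ x * q = q * x ∧ y * r = r * y ∧
    ∀ v, g v = tF x y v}
  mul_mem' := by
    rintro g g' ⟨x, y, hx, hy, hxq, hyr, hg⟩ ⟨x', y', hx', hy', hxq', hyr', hg'⟩
    refine ⟨x * x', y * y', by rw [map_mul, hx, hx', one_mul], by rw [map_mul, hy, hy', one_mul],
      ?_, ?_, fun v => ?_⟩
    · rw [mul_assoc, hxq', ← mul_assoc, hxq, mul_assoc]
    · rw [mul_assoc, hyr', ← mul_assoc, hyr, mul_assoc]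
    · rw [← Re1b_tFtF, ← hg', ← hg]
      rfl
  one_mem' := ⟨1, 1, map_one _, map_one _, by simp, by simp, fun v => by simp [tF]⟩
  inv_mem' := by
    rintro g ⟨x, y, hx, hy, hxq, hyr, hg⟩
    refine ⟨star x, star y, by rw [Quaternion.normSq_star, hx], by rw [Quaternion.normSq_star, hy],
      Re1b_comm hx hxq, Re1b_comm hy hyr, fun v => ?_⟩
    have h1 : g (tF (star x) (star y) v) = v := by
      rw [hg, Re1b_tFtF, Re1b_ms hx, Re1b_ms hy]
      simp [tF]
    have h2 : g⁻¹ (g (tF (star x) (star y) v)) = tF (star x) (star y) v :=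
      g.symm_apply_apply _
    rw [← h2, h1]

private theorem Re1b_inv {P M i q : ℍ[ℝ]} (hP : normSq P = 1) (hM : normSq M = 1)
    (hPq : P * q = q * P) (hMi : M * i = i * M) :
    (P * M * i * star (P * M) * q).re = (i * q).re := by
  have h1 : P * M * i * star (P * M) * q = P * (i * q) * star P := by
    calc P * M * i * star (P * M) * q = P * (M * i) * star M * (star P * q) := by
          rw [star_mul]; simp only [mul_assoc]
      _ = P * (i * (M * star M)) * (q * star P) := by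
          rw [hMi, Re1b_comm hP hPq]; simp only [mul_assoc]
      _ = P * (i * q) * star P := by rw [Re1b_ms hM, mul_one]; simp only [mul_assoc]
  have h2 : ∀ z w : ℍ[ℝ], (z * w).re = (w * z).re := by
    intro z w
    simp only [Quaternion.re_mul]
    ring
  rw [h1, h2, ← mul_assoc, Re1b_sm hP, one_mul]

/-- a complex number as a quaternion -/
private def Re1b_z (x y : ℝ) : ℍ[ℝ] := ⟨x, y, 0, 0⟩

private theorem Re1b_z0 (x y : ℝ) : (Re1b_z x y).re = x := rfl

private theorem Re1b_z1 (x y : ℝ) : (Re1b_z x y).imI = y := rfl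

private theorem Re1b_z2 (x y : ℝ) : (Re1b_z x y).imJ = 0 := rfl

private theorem Re1b_z3 (x y : ℝ) : (Re1b_z x y).imK = 0 := rfl

/-- the equation in coordinates -/
private theorem Re1b_coord {a : ℍ[ℝ]} {x y p q : ℝ} (ha : UI a) (hα : a.imI ≠ 0)
    (hu : a.imJ ^ 2 + a.imK ^ 2 ≠ 0) (hpq : p ^ 2 + q ^ 2 = 1)
    (h : (Re1b_z p q * a * Re1b_z 0 1 * star (Re1b_z p q * a) * (Re1b_z x y * a)).re =
      (Re1b_z 0 1 * (Re1b_z x y * a)).re) :
    (p ^ 2 - q ^ 2) * x + 2 * p * q * y = x := by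
  obtain ⟨ha0, ha1⟩ := ha
  simp only [Quaternion.re_mul, Quaternion.imI_mul, Quaternion.imJ_mul, Quaternion.imK_mul,
    Quaternion.re_star, Quaternion.imI_star, Quaternion.imJ_star, Quaternion.imK_star,
    Re1b_z0, Re1b_z1, Re1b_z2, Re1b_z3, ha0] at h
  generalize a.imI = α at *
  generalize a.imJ = u at *
  generalize a.imK = w at *
  have h2 : 2 * α * (u ^ 2 + w ^ 2) * ((p ^ 2 - q ^ 2) * x + 2 * p * q * y - x) = 0 := by
    linear_combination (-1) * h - x * α * ha1 - x * α * (α ^ 2 - (u ^ 2 + w ^ 2)) * hpq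
  have h3 : 2 * α * (u ^ 2 + w ^ 2) ≠ 0 := mul_ne_zero (mul_ne_zero two_ne_zero hα) hu
  have h4 := (mul_eq_zero.1 h2).resolve_left h3
  linarith

private theorem Re1b_zcomm (x y p q : ℝ) : Re1b_z x y * Re1b_z p q = Re1b_z p q * Re1b_z x y := by
  ext <;> simp only [Quaternion.re_mul, Quaternion.imI_mul, Quaternion.imJ_mul,
    Quaternion.imK_mul, Re1b_z0, Re1b_z1, Re1b_z2, Re1b_z3] <;> ring

/-- the equation for a vertex of the base face -/
private theorem Re1b_vert (H : Std s t 1 c d a b)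
    (hst : ∀ g ∈ GG s t, g 1 = 1 → g ∈ Subgroup.zpowers s) {x y p q : ℝ}
    (hxy : x ^ 2 + y ^ 2 = 1) (hpq : p ^ 2 + q ^ 2 = 1)
    (hs : ∀ v, s v = tF (Re1b_z x y) (Re1b_z x y) v) (n m : ℤ)
    (hn : ∀ v, (s ^ n) v = tF (Re1b_z p q) (Re1b_z p q) v)
    (h : (s ^ n) (t 1) = ((s * t) ^ m) 1) :
    (p ^ 2 - q ^ 2) * x + 2 * p * q * y = x := by
  have hsG : s ∈ GG s t := Subgroup.subset_closure (by simp)
  have htG : t ∈ GG s t := Subgroup.subset_closure (by simp)
  have hnz : normSq (Re1b_z x y) = 1 := by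
    rw [Quaternion.normSq_def', Re1b_z0, Re1b_z1, Re1b_z2, Re1b_z3]
    linarith
  have hnp : normSq (Re1b_z p q) = 1 := by
    rw [Quaternion.normSq_def', Re1b_z0, Re1b_z1, Re1b_z2, Re1b_z3]
    linarith
  have hna := H.ha.normSq
  have hnb := H.hb.normSq
  -- the element fixing the vertex
  have h1 : ((s * t) ^ m)⁻¹ * (s ^ n * t) ∈ Subgroup.zpowers s := by
    refine hst _ ?_ ?_
    · exact (GG s t).mul_mem ((GG s t).inv_mem ((GG s t).zpow_mem ((GG s t).mul_mem hsG htG) m))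
        ((GG s t).mul_mem ((GG s t).zpow_mem hsG n) htG)
    · show ((s * t) ^ m)⁻¹ ((s ^ n) (t 1)) = 1
      rw [h]
      exact ((s * t) ^ m).symm_apply_apply 1
  obtain ⟨k, hk⟩ := h1
  have hk' : s ^ n * t = (s * t) ^ m * s ^ k := by
    rw [show s ^ k = ((s * t) ^ m)⁻¹ * (s ^ n * t) from hk, mul_inv_cancel_left]
  -- components
  have hstC : s * t ∈ Re1b_C (Re1b_z x y * a) (Re1b_z x y * b) := by
    refine ⟨Re1b_z x y * a, Re1b_z x y * b, by rw [map_mul, hnz, hna, one_mul],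
      by rw [map_mul, hnz, hnb, one_mul], rfl, rfl, fun v => ?_⟩
    rw [← Re1b_tFtF, ← H.ht, ← hs]
    rfl
  have hsC : s ∈ Re1b_C (Re1b_z 0 1) (Re1b_z 0 1) :=
    ⟨Re1b_z x y, Re1b_z x y, hnz, hnz, Re1b_zcomm _ _ _ _, Re1b_zcomm _ _ _ _, hs⟩
  obtain ⟨P, P', hP, hP', hPq, hPq', hPg⟩ := (Re1b_C _ _).zpow_mem hstC m
  obtain ⟨M, M', hM, hM', hMi, hMi', hMg⟩ := (Re1b_C _ _).zpow_mem hsC k
  have h3 : ∀ v, tF (P * M) (P' * M') v = tF (Re1b_z p q * a) (Re1b_z p q * b) v := by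
    intro v
    rw [← Re1b_tFtF, ← Re1b_tFtF, ← hMg, ← hPg, ← H.ht, ← hn]
    exact (congrArg (fun g : ℍ[ℝ] ≃ₗᵢ[ℝ] ℍ[ℝ] => g v) hk').symm
  have h4 := tF_inj (by rw [map_mul, hP, hM, one_mul]) (by rw [map_mul, hP', hM', one_mul])
    (by rw [map_mul, hnp, hna, one_mul]) (by rw [map_mul, hnp, hnb, one_mul]) h3
  have h5 := Re1b_inv hP hM hPq hMi
  have h6 := Re1b_inv hP' hM' hPq' hMi'
  have hchi := H.chi
  have hu : a.imJ ^ 2 + a.imK ^ 2 ≠ 0 := by
    intro h0
    have e1 : a.imJ = 0 := by nlinarith [sq_nonneg a.imJ, sq_nonneg a.imK]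
    have e2 : a.imK = 0 := by nlinarith [sq_nonneg a.imJ, sq_nonneg a.imK]
    exact hchi.2 (by rw [e1, e2]; ring)
  have hw : b.imJ ^ 2 + b.imK ^ 2 ≠ 0 := by
    intro h0
    have e1 : b.imJ = 0 := by nlinarith [sq_nonneg b.imJ, sq_nonneg b.imK]
    have e2 : b.imK = 0 := by nlinarith [sq_nonneg b.imJ, sq_nonneg b.imK]
    exact hchi.2 (by rw [e1, e2]; ring)
  by_cases hα : a.imI = 0
  · have hβ : b.imI ≠ 0 := by
      intro h0
      exact hchi.1 (by rw [hα, h0])
    refine Re1b_coord H.hb hβ hw hpq ?_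
    rw [← h6]
    rcases h4 with ⟨-, h4⟩ | ⟨-, h4⟩
    · rw [h4]
    · rw [h4, star_neg, neg_mul, neg_mul, mul_neg, neg_neg]
  · refine Re1b_coord H.ha hα hu hpq ?_
    rw [← h5]
    rcases h4 with ⟨h4, -⟩ | ⟨h4, -⟩
    · rw [h4]
    · rw [h4, star_neg, neg_mul, neg_mul, mul_neg, neg_neg]

/-- Row Re1. Let `W = {(s t) ^ k 1}` and suppose that `s ^ j` maps `W` into `W`, `s ^ j ≠ 1` and that
`g 1 = 1` with `g ∈ GG s t` only for the powers of `s`. Say `α ≠ 0` (otherwise `β ≠ 0` and argue with the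
right components). `W` contains `t 1 = (s t)⁻¹ 1`, `s (t 1) = (s t) 1`, `s ^ j (t 1)`, `s ^ (j + 1) (t 1)`. If
`g 1 = (s t) ^ k 1` then `g = (s t) ^ k s ^ m`, so the left component `x` of `g` is
`± (l a) ^ k l ^ m` and `x i x̄ = (l a) ^ k i (l a)^(-k)` lies in the plane through `i` orthogonal to the axis of
`l a`. For `g = t, s t, s ^ j t, s ^ (j + 1) t` the points `x i x̄` are `i' = a i ā`, `l i' l̄`, `l ^ j i' l ^ -j`,
`l ^ (j+1) i' l ^ -(j+1)`: they have the same `i`-component `2 α² - 1 ≠ 1` and at least three of them are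
different (`l² ≠ ± 1`.. : the rotation angle `θ` of `s` has `d ≠ 0`, and `s ^ j ≠ 1`), so they are not
collinear and together with `i` not coplanar. Contradiction. -/
theorem Std.face_faithful (H : Std s t 1 c d a b)
    (hst : ∀ g ∈ GG s t, g 1 = 1 → g ∈ Subgroup.zpowers s) (j : ℤ)
    (h : ∀ k : ℤ, ∃ m : ℤ, (s ^ j) (((s * t) ^ k) 1) = ((s * t) ^ m) 1) : s ^ j = 1 := by
  obtain ⟨l, hl1, hlJ, hlK, hlc, hld, hl⟩ := exists_l H.hcd
  obtain ⟨ε', c', d', -, hε1, hcd', hj⟩ := H.zpow j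
  obtain ⟨L, hL1, hLJ, hLK, hLc, hLd, hL⟩ := exists_l hcd'
  have hε' := hε1 rfl
  subst hε'
  have hlz : l = Re1b_z l.re l.imI := by
    ext
    · rfl
    · rfl
    · exact hlJ
    · exact hlK
  have hLz : L = Re1b_z L.re L.imI := by
    ext
    · rfl
    · rfl
    · exact hLJ
    · exact hLK
  have hs : ∀ v, s v = tF (Re1b_z l.re l.imI) (Re1b_z l.re l.imI) v := fun v => by
    rw [← hlz, ← hl, ← H.hs]
  have hj' : ∀ v, (s ^ j) v = tF (Re1b_z L.re L.imI) (Re1b_z L.re L.imI) v := fun v => by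
    rw [← hLz, ← hL, ← hj]
  have hxy : l.re ^ 2 + l.imI ^ 2 = 1 := by
    rw [Quaternion.normSq_def', hlJ, hlK] at hl1
    linarith
  have hpq : L.re ^ 2 + L.imI ^ 2 = 1 := by
    rw [Quaternion.normSq_def', hLJ, hLK] at hL1
    linarith
  generalize l.re = x at *
  generalize l.imI = y at *
  generalize L.re = p at *
  generalize L.imI = q at *
  -- the two vertices
  have k1 : (p ^ 2 - q ^ 2) * x + 2 * p * q * y = x := by
    obtain ⟨m, hm⟩ := h (-1)
    refine Re1b_vert H hst hxy hpq hs j m hj' ?_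
    have e1 : ((s * t) ^ (-1 : ℤ)) 1 = t 1 := by
      have e2 : (s * t) (t 1) = 1 := by
        show s (t (t 1)) = 1
        rw [H.tt, H.s1]
      have e3 : ((s * t) ^ (-1 : ℤ)) ((s * t) (t 1)) = t 1 := by
        rw [zpow_neg_one]
        exact (s * t).symm_apply_apply _
      rw [e2] at e3
      exact e3
    rw [← hm, e1]
  have k2 : ((p * x - q * y) ^ 2 - (p * y + q * x) ^ 2) * x +
      2 * (p * x - q * y) * (p * y + q * x) * y = x := by
    obtain ⟨m, hm⟩ := h 1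
    refine Re1b_vert H hst hxy ?_ hs (j + 1) m ?_ ?_
    · linear_combination (x ^ 2 + y ^ 2) * hpq + hxy
    · intro v
      have e1 : (s ^ (j + 1)) v = (s ^ j) (s v) := by
        rw [zpow_add, zpow_one]
        rfl
      have e2 : Re1b_z (p * x - q * y) (p * y + q * x) = Re1b_z p q * Re1b_z x y := by
        ext <;> simp only [Quaternion.re_mul, Quaternion.imI_mul, Quaternion.imJ_mul,
          Quaternion.imK_mul, Re1b_z0, Re1b_z1, Re1b_z2, Re1b_z3] <;> ring
      rw [e1, hj', hs, Re1b_tFtF, e2]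
    · rw [← hm, zpow_one, zpow_add, zpow_one]
      rfl
  have k3 : 2 * p * q * y = 0 := by
    linear_combination (1 / 2) * k1 - (1 / 2) * k2 +
      (1 / 2) * ((p ^ 2 - q ^ 2) * x - 2 * p * q * y) * hxy
  have hy : y ≠ 0 := by
    intro h0
    apply H.hd
    rw [← hld, h0, mul_zero]
  have hx : x ≠ 0 := by
    intro h0
    apply H.hd
    rw [← hld, h0, mul_zero, zero_mul]
  have k4 : d' = 0 := by
    rw [← hLd]
    exact (mul_eq_zero.1 k3).resolve_right hy
  have k5 : c' = 1 := by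
    rw [← hLc]
    have : (p ^ 2 - q ^ 2 - 1) * x = 0 := by linarith
    have := (mul_eq_zero.1 this).resolve_right hx
    linarith
  ext1 v
  rw [hj, k4, k5]
  unfold sF
  show _ = v
  ext <;> simp

end ChiralQ
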