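import Pool.Agent.Lib.MP_bc704c_co.Q.Po5
import Pool.Agent.Lib.MP_bc704c_co.Q.Re1b
import Pool.Agent.Lib.MP_bc704c_co.Q.Ex5

/-! # MP_bc704c_co, row Re2: the realization of the coset polyhedron -/

namespace ChiralQ

open Quaternion ChiralNF

variable {s t : ℍ[ℝ] ≃ₗᵢ[ℝ] ℍ[ℝ]} {c d : ℝ} {a b : ℍ[ℝ]}

theorem s_mem (s t : ℍ[ℝ] ≃ₗᵢ[ℝ] ℍ[ℝ]) : s ∈ GG s t := Subgroup.subset_closure (by simp)

theorem t_mem (s t : ℍ[ℝ] ≃ₗᵢ[ℝ] ℍ[ℝ]) : t ∈ GG s t := Subgroup.subset_closure (by simp)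

/-- Row Re2. `Subgroup.closure_closure_coe_preimage` or closure induction. -/
theorem gg_gen (s t : ℍ[ℝ] ≃ₗᵢ[ℝ] ℍ[ℝ]) : Subgroup.closure
    {(⟨s, s_mem s t⟩ : GG s t), (⟨t, t_mem s t⟩ : GG s t)} = ⊤ := by
  have h := Subgroup.closure_closure_coe_preimage (k := ({s, t} : Set (ℍ[ℝ] ≃ₗᵢ[ℝ] ℍ[ℝ])))
  have h2 : (((↑) : (Subgroup.closure ({s, t} : Set (ℍ[ℝ] ≃ₗᵢ[ℝ] ℍ[ℝ]))) → _) ⁻¹'
      ({s, t} : Set (ℍ[ℝ] ≃ₗᵢ[ℝ] ℍ[ℝ]))) =
      {(⟨s, s_mem s t⟩ : GG s t), (⟨t, t_mem s t⟩ : GG s t)} := by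
    ext x
    constructor
    · intro hx
      rcases hx with hx | hx
      · exact Or.inl (Subtype.ext hx)
      · exact Or.inr (Subtype.ext hx)
    · intro hx
      rcases hx with hx | hx
      · exact Or.inl (congrArg Subtype.val hx)
      · exact Or.inr (congrArg Subtype.val hx)
  rw [h2] at h
  exact h

/-- the data of the group generated by `s` and `t` -/
noncomputable def gd (H : Std s t 1 c d a b) : GD (GG s t) where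
  s := ⟨s, s_mem s t⟩
  t := ⟨t, t_mem s t⟩
  tt := by
    apply Subtype.ext
    apply LinearIsometryEquiv.ext
    intro v
    exact H.tt v
  gen := gg_gen s t
  inter := fun j k h => by
    have h1 := congrArg Subtype.val h
    apply Subtype.ext
    exact H.inter j k (by simpa using h1)
  ts := fun j h => H.ts j (by simpa using congrArg Subtype.val h)
  tf := fun j h => H.tf j (by simpa using congrArg Subtype.val h)

/-- the realization: the vertex of `g` goes to `g 1` -/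
noncomputable def bet (H : Std s t 1 c d a b) : Fc (gd H) → EuclideanSpace ℝ (Fin 4)
  | .v x => Quaternion.linearIsometryEquivTuple
      (((Quotient.out x : GG s t) : ℍ[ℝ] ≃ₗᵢ[ℝ] ℍ[ℝ]) 1)
  | _ => 0

theorem Re2_s_one (H : Std s t 1 c d a b) : s 1 = 1 := by
  rw [H.hs]
  ext <;> simp [sF]

theorem Re2_zpow_one (H : Std s t 1 c d a b) (j : ℤ) : (s ^ j) 1 = 1 := by
  have h0 : ∀ n : ℕ, (s ^ n) 1 = 1 := by
    intro n
    induction n with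
    | zero => rfl
    | succ n ih =>
      rw [pow_succ]
      show (s ^ n) (s 1) = 1
      rw [Re2_s_one H, ih]
  obtain ⟨n, rfl | rfl⟩ := j.eq_nat_or_neg
  · rw [zpow_natCast]
    exact h0 n
  · rw [zpow_neg, zpow_natCast]
    have h1 : ((s ^ n)⁻¹ * s ^ n) 1 = (1 : ℍ[ℝ]) := by
      rw [inv_mul_cancel]
      rfl
    have h2 : (s ^ n)⁻¹ ((s ^ n) 1) = (1 : ℍ[ℝ]) := h1
    rw [h0 n] at h2
    exact h2

theorem Re2_rk_zero {G : Type} [Group G] {D : GD G} (x : Fc D) (h : Fc.rk x = 0) :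
    ∃ g : G, x = cv D g := by
  cases x with
  | bot => exact absurd h (by simp [Fc.rk])
  | v y =>
    obtain ⟨g, rfl⟩ := QuotientGroup.mk_surjective y
    exact ⟨g, rfl⟩
  | e y => exact absurd h (by simp [Fc.rk])
  | f y => exact absurd h (by simp [Fc.rk])
  | top => exact absurd h (by simp [Fc.rk])

/-- Row Re2. Two representatives differ by a power of `s`, and `s 1 = 1`. -/
theorem bet_cv (H : Std s t 1 c d a b) (g : GG s t) : bet H (cv (gd H) g) =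
    Quaternion.linearIsometryEquivTuple ((g : ℍ[ℝ] ≃ₗᵢ[ℝ] ℍ[ℝ]) 1) := by
  show Quaternion.linearIsometryEquivTuple
      (((Quotient.out (QuotientGroup.mk g : GG s t ⧸ Subgroup.zpowers (gd H).s) : GG s t) :
        ℍ[ℝ] ≃ₗᵢ[ℝ] ℍ[ℝ]) 1) = _
  congr 1
  have h1 : (QuotientGroup.mk (Quotient.out
      (QuotientGroup.mk g : GG s t ⧸ Subgroup.zpowers (gd H).s)) :
      GG s t ⧸ Subgroup.zpowers (gd H).s) = QuotientGroup.mk g := Quotient.out_eq' _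
  rw [QuotientGroup.eq] at h1
  obtain ⟨j, hj⟩ := Subgroup.mem_zpowers_iff.1 h1
  have h2 : g = Quotient.out (QuotientGroup.mk g : GG s t ⧸ Subgroup.zpowers (gd H).s) *
      (gd H).s ^ j := by
    rw [hj, mul_inv_cancel_left]
  have h3 := congrArg (fun x : GG s t => (x : ℍ[ℝ] ≃ₗᵢ[ℝ] ℍ[ℝ]) 1) h2
  have h4 : (((Quotient.out (QuotientGroup.mk g : GG s t ⧸ Subgroup.zpowers (gd H).s) *
      (gd H).s ^ j : GG s t)) : ℍ[ℝ] ≃ₗᵢ[ℝ] ℍ[ℝ]) 1 =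
      ((Quotient.out (QuotientGroup.mk g : GG s t ⧸ Subgroup.zpowers (gd H).s) : GG s t) :
        ℍ[ℝ] ≃ₗᵢ[ℝ] ℍ[ℝ]) ((((gd H).s ^ j : GG s t) : ℍ[ℝ] ≃ₗᵢ[ℝ] ℍ[ℝ]) 1) := rfl
  have h5 : (((gd H).s ^ j : GG s t) : ℍ[ℝ] ≃ₗᵢ[ℝ] ℍ[ℝ]) 1 = (1 : ℍ[ℝ]) := by
    rw [Subgroup.coe_zpow]
    exact Re2_zpow_one H j
  rw [h5] at h4
  exact (h3.trans h4).symm

/-- Row Re2. The vertex sets of the faces. -/
theorem vset_ce (H : Std s t 1 c d a b) (g : GG s t) : vset Fc.rk (bet H) (ce (gd H) g) =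
    {Quaternion.linearIsometryEquivTuple ((g : ℍ[ℝ] ≃ₗᵢ[ℝ] ℍ[ℝ]) 1),
      Quaternion.linearIsometryEquivTuple ((g : ℍ[ℝ] ≃ₗᵢ[ℝ] ℍ[ℝ]) (t 1))} := by
  have hgt : bet H (cv (gd H) (g * (gd H).t)) =
      Quaternion.linearIsometryEquivTuple ((g : ℍ[ℝ] ≃ₗᵢ[ℝ] ℍ[ℝ]) (t 1)) := by
    rw [bet_cv]
    rfl
  ext p
  constructor
  · rintro ⟨x, ⟨hx, hle⟩, rfl⟩
    obtain ⟨k, rfl⟩ := Re2_rk_zero x hx
    obtain ⟨l, hl1, hl2⟩ := cv_le_ce.1 hle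
    rw [← hl1]
    rcases ce_eq.1 hl2.symm with h | h
    · subst h
      left
      exact bet_cv H l
    · subst h
      right
      exact hgt
  · rintro (h | h)
    · refine ⟨cv (gd H) g, ⟨rfl, cv_le_ce.2 ⟨g, rfl, rfl⟩⟩, ?_⟩
      rw [bet_cv, h]
    · rw [Set.mem_singleton_iff] at h
      refine ⟨cv (gd H) (g * (gd H).t), ⟨rfl, cv_le_ce.2 ⟨g * (gd H).t, rfl, ?_⟩⟩, ?_⟩
      · exact (ce_eq.2 (Or.inr rfl)).symm
      · rw [hgt, h]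

theorem vset_cf (H : Std s t 1 c d a b) (g : GG s t) : vset Fc.rk (bet H) (cf (gd H) g) =
    {p | ∃ j : ℤ, p = Quaternion.linearIsometryEquivTuple
      ((g : ℍ[ℝ] ≃ₗᵢ[ℝ] ℍ[ℝ]) (((s * t) ^ j) 1))} := by
  have hg : ∀ j : ℤ, bet H (cv (gd H) (g * ((gd H).s * (gd H).t) ^ j)) =
      Quaternion.linearIsometryEquivTuple
        ((g : ℍ[ℝ] ≃ₗᵢ[ℝ] ℍ[ℝ]) (((s * t) ^ j) 1)) := by
    intro j
    rw [bet_cv]
    have h1 : (((g * ((gd H).s * (gd H).t) ^ j : GG s t)) : ℍ[ℝ] ≃ₗᵢ[ℝ] ℍ[ℝ]) =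
        (g : ℍ[ℝ] ≃ₗᵢ[ℝ] ℍ[ℝ]) * (s * t) ^ j := by
      rw [Subgroup.coe_mul, Subgroup.coe_zpow]
      rfl
    rw [h1]
    rfl
  ext p
  constructor
  · rintro ⟨x, ⟨hx, hle⟩, rfl⟩
    obtain ⟨k, rfl⟩ := Re2_rk_zero x hx
    obtain ⟨l, hl1, hl2⟩ := cv_le_cf.1 hle
    rw [← hl1]
    obtain ⟨j, hj⟩ := cf_eq.1 hl2.symm
    exact ⟨j, by rw [hj]; exact hg j⟩
  · rintro ⟨j, rfl⟩
    refine ⟨cv (gd H) (g * ((gd H).s * (gd H).t) ^ j), ⟨rfl, cv_le_cf.2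
      ⟨g * ((gd H).s * (gd H).t) ^ j, rfl, ?_⟩⟩, hg j⟩
    exact (cf_eq.2 ⟨j, rfl⟩).symm

end ChiralQ
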